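import Pool.Agent.Lib.MP_28b8de_an.E.EDefs
import Pool.Agent.Lib.MP_28b8de_an.LQLin

/-!
MP_28b8de_an, module CEst (MSE-CEst): the functional J(v) = ∫_0^T H(t, z_v(t)) dt,
z_v = Phi l b z0 v 0 = z0 + ∑ l_i xi b v i.

PROOFS.  zE_diff: z_v - z_w = ∑ l_i xi b (v-w) i (xi linear: xi_add, xi_smul), so by xi_bound
|z_v(t) - z_w(t)| ≤ C om T (v-w) on [0,T].
L_lin: w ↦ ∫_0^T D2 H(t,z_u t) ∑ l_i xi b w i is linear (xi_add, xi_smul, integrals of continuous functions).
L_bound: |∑ l_i xi b w i| ≤ C om T w and D2 H(t,z_u t) is bounded on [0,T].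
taylor: on [0,T], all z_v(t), v ∈ UU, lie in a fixed interval [-B,B] (|xi b v i t| ≤ B'T).  D2 (D2 H) is bounded by B''
on [0,T] × [-B,B].  For x = z_v t, y = z_w t, c = z_u t in [-B,B]:
|H(t,x) - H(t,y) - D2 H(t,c)(x-y)| ≤ sup over the segment |D2 H(t,ξ) - D2 H(t,c)| |x-y| ≤ B''(|x-c| + |y-c|) |x-y|
(mean value theorem: Convex.norm_image_sub_le_of_norm_hasDerivWithin_le for ξ ↦ H(t,ξ) - D2 H(t,c) ξ, and again for
D2 H(t,·)).  Integrate over [0,T].
first_varE: by parts as in LQVar.lean (`ibp_zero` with f = P_i(t) = ∫_t^T l_i(s) D2 H(s,z_u s) ds and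
g = xi b w i).
-/

namespace Pool.Agent.Lib.MP_28b8de_an

open Filter Topology Set MeasureTheory

private theorem CEst_prim {G : ℝ → ℝ} (hG : LocallyIntegrable G volume) (T : ℝ) :
    AbsolutelyContinuousOnInterval (fun t => ∫ s in t..T, G s) 0 T ∧
      ∀ᵐ t, HasDerivAt (fun t => ∫ s in t..T, G s) (- G t) t := by
  have hint : ∀ p q : ℝ, IntervalIntegrable G volume p q := fun p q => by
    rw [intervalIntegrable_iff]
    exact (hG.integrableOn_isCompact isCompact_uIcc).mono_set uIoc_subset_uIcc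
  have h1 : (fun t => ∫ s in t..T, G s) = fun t => (∫ s in (0 : ℝ)..T, G s) - ∫ s in (0 : ℝ)..t, G s := by
    ext t
    rw [← intervalIntegral.integral_interval_sub_left (hint 0 T) (hint 0 t)]
  rw [h1]
  constructor
  · have h2 : AbsolutelyContinuousOnInterval (fun x => ∫ v in (0 : ℝ)..x, G v) 0 T :=
      IntervalIntegrable.absolutelyContinuousOnInterval_intervalIntegral (hint 0 T)
        left_mem_uIcc
    have h3 : AbsolutelyContinuousOnInterval (fun _ : ℝ => ∫ s in (0 : ℝ)..T, G s) 0 T :=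
      ac_of_analytic (fun _ _ => analyticAt_const) 0 T
    exact h3.sub h2
  · filter_upwards [LocallyIntegrable.ae_hasDerivAt_integral hG] with t ht
    exact (ht 0).const_sub _

private theorem CEst_cont2 {F : ℝ × ℝ → ℝ} (hF : AnalyticOnNhd ℝ F univ) : Continuous F := by
  rw [continuous_iff_continuousAt]
  exact fun p => (hF p (mem_univ p)).continuousAt

private theorem CEst_hd {F : ℝ × ℝ → ℝ} (hF : AnalyticOnNhd ℝ F univ) (t x : ℝ) :
    HasDerivAt (fun ξ => F (t, ξ)) (D2 F (t, x)) x := by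
  have h1 : HasFDerivAt F (fderiv ℝ F (t, x)) (t, x) :=
    ((hF (t, x) (mem_univ _)).differentiableAt).hasFDerivAt
  have h2 : HasDerivAt (fun ξ : ℝ => (t, ξ)) ((0 : ℝ), (1 : ℝ)) x :=
    (hasDerivAt_const x t).prodMk (hasDerivAt_id x)
  exact h1.comp_hasDerivAt x h2

private theorem CEst_zcont {k : ℕ} {l b : Fin k → ℝ → ℝ} {z0 : ℝ → ℝ}
    (hl : ∀ i, AnalyticOnNhd ℝ (l i) univ) (hb : ∀ i, AnalyticOnNhd ℝ (b i) univ)
    (hz0 : AnalyticOnNhd ℝ z0 univ) (u : BM) : Continuous (Phi l b z0 u.1 0) := by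
  obtain ⟨K, _, hK⟩ := BM_bdd u
  exact Phi_cont hl hb hz0 (BM_meas u) hK 0

private theorem CEst_z {k : ℕ} {l b : Fin k → ℝ → ℝ} {z0 : ℝ → ℝ} (u : BM) (t : ℝ) :
    Phi l b z0 u.1 0 t = z0 t + ∑ i, l i t * xi b u.1 i t := by
  unfold Phi
  simp only [iteratedDeriv_zero]

private theorem CEst_diff {k : ℕ} {l b : Fin k → ℝ → ℝ} {z0 : ℝ → ℝ}
    (hb : ∀ i, AnalyticOnNhd ℝ (b i) univ) (v w : BM) (t : ℝ) :
    Phi l b z0 v.1 0 t - Phi l b z0 w.1 0 t = ∑ i, l i t * xi b (v - w).1 i t := by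
  rw [CEst_z, CEst_z, add_sub_add_left_eq_sub, ← Finset.sum_sub_distrib]
  apply Finset.sum_congr rfl
  intro i _
  have h := xi_add hb i (v - w) w t
  rw [sub_add_cancel] at h
  rw [h]
  ring

private theorem CEst_sum_bound {k : ℕ} {l b : Fin k → ℝ → ℝ}
    (hl : ∀ i, AnalyticOnNhd ℝ (l i) univ) (hb : ∀ i, AnalyticOnNhd ℝ (b i) univ)
    {T : ℝ} (hT : 0 ≤ T) :
    ∃ C : ℝ, 0 ≤ C ∧ ∀ w : BM, ∀ t ∈ Icc (0 : ℝ) T,
      |∑ i, l i t * xi b w.1 i t| ≤ C * om T w := by
  obtain ⟨C, hC0, hC⟩ := xi_bound hb hT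
  obtain ⟨L, hL0, hL⟩ := LQLin_bound (f := l) (fun i => continuous_of_analytic (hl i)) T
  refine ⟨k * (L * C), by positivity, fun w t ht => ?_⟩
  have h := LQLin_sum (f := fun i => l i t * xi b w.1 i t) (M := L * (C * om T w)) (by
    intro i
    show |l i t * xi b w.1 i t| ≤ _
    rw [abs_mul]
    exact mul_le_mul (hL i t ht) (hC i w t ht) (abs_nonneg _) hL0)
  rw [Fintype.card_fin] at h
  calc |∑ i, l i t * xi b w.1 i t| ≤ k * (L * (C * om T w)) := h
    _ = k * (L * C) * om T w := by ring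

/-- pointwise Taylor estimate -/
private theorem CEst_pt {H : ℝ × ℝ → ℝ} (hH : AnalyticOnNhd ℝ H univ) {T B B2 : ℝ}
    (hB2 : ∀ t ∈ Icc (0 : ℝ) T, ∀ x ∈ Icc (-B) B, |D2 (D2 H) (t, x)| ≤ B2)
    {t : ℝ} (ht : t ∈ Icc (0 : ℝ) T) {x y c : ℝ} (hx : x ∈ Icc (-B) B) (hy : y ∈ Icc (-B) B)
    (hc : c ∈ Icc (-B) B) :
    |H (t, x) - H (t, y) - D2 H (t, c) * (x - y)| ≤ B2 * (|x - c| + |y - c|) * |x - y| := by
  have hB20 : 0 ≤ B2 := (abs_nonneg _).trans (hB2 t ht x hx)
  have h1 : ∀ ξ ∈ Icc (-B) B, |D2 H (t, ξ) - D2 H (t, c)| ≤ B2 * |ξ - c| := by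
    intro ξ hξ
    have := Convex.norm_image_sub_le_of_norm_hasDerivWithin_le (𝕜 := ℝ)
      (f := fun ξ => D2 H (t, ξ)) (f' := fun ξ => D2 (D2 H) (t, ξ)) (s := Icc (-B) B) (C := B2)
      (fun z _ => (CEst_hd (D2_an hH) t z).hasDerivWithinAt) (fun z hz => hB2 t ht z hz)
      (convex_Icc _ _) hc hξ
    simpa [Real.norm_eq_abs] using this
  have h2 := Convex.norm_image_sub_le_of_norm_hasDerivWithin_le (𝕜 := ℝ)
    (f := fun ξ => H (t, ξ) - D2 H (t, c) * ξ)
    (f' := fun ξ => D2 H (t, ξ) - D2 H (t, c)) (s := uIcc x y)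
    (C := B2 * (|x - c| + |y - c|))
    (fun z _ => by
      have := (CEst_hd hH t z).sub ((hasDerivAt_id z).const_mul (D2 H (t, c)))
      simp only [mul_one, id] at this
      exact this.hasDerivWithinAt)
    (fun z hz => by
      have hz' : z ∈ Icc (-B) B := by
        rw [mem_uIcc] at hz
        rcases hz with hz | hz
        · exact ⟨hx.1.trans hz.1, hz.2.trans hy.2⟩
        · exact ⟨hy.1.trans hz.1, hz.2.trans hx.2⟩
      rw [Real.norm_eq_abs]
      refine (h1 z hz').trans (mul_le_mul_of_nonneg_left ?_ hB20)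
      rw [mem_uIcc] at hz
      have e1 := le_abs_self (x - c)
      have e2 := neg_abs_le (x - c)
      have e3 := le_abs_self (y - c)
      have e4 := neg_abs_le (y - c)
      have e5 := abs_nonneg (x - c)
      have e6 := abs_nonneg (y - c)
      rw [abs_le]
      rcases hz with hz | hz
      · constructor <;> linarith [hz.1, hz.2]
      · constructor <;> linarith [hz.1, hz.2])
    (convex_uIcc _ _) (right_mem_uIcc (a := x) (b := y)) (left_mem_uIcc (a := x) (b := y))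
  rw [Real.norm_eq_abs, Real.norm_eq_abs] at h2
  have e : H (t, x) - D2 H (t, c) * x - (H (t, y) - D2 H (t, c) * y)
      = H (t, x) - H (t, y) - D2 H (t, c) * (x - y) := by ring
  rw [e] at h2
  exact h2


variable {k : ℕ} {l b : Fin k → ℝ → ℝ} {z0 : ℝ → ℝ} {H : ℝ × ℝ → ℝ}
  (hl : ∀ i, AnalyticOnNhd ℝ (l i) univ) (hb : ∀ i, AnalyticOnNhd ℝ (b i) univ)
  (hz0 : AnalyticOnNhd ℝ z0 univ) (hH : AnalyticOnNhd ℝ H univ) {T : ℝ} (hT : 0 ≤ T)

include hl hb hz0 hH hT

theorem exists_LE (u : BM) : ∃ F : BM →ₗ[ℝ] ℝ,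
    (∀ w : BM, F w = ∫ t in (0 : ℝ)..T,
      D2 H (t, Phi l b z0 u.1 0 t) * ∑ i, l i t * xi b w.1 i t) ∧
    ∃ C : ℝ, 0 ≤ C ∧ ∀ w : BM, |F w| ≤ C * om T w := by
  have hV : Continuous fun t => D2 H (t, Phi l b z0 u.1 0 t) :=
    (CEst_cont2 (D2_an hH)).comp (continuous_id.prodMk (CEst_zcont hl hb hz0 u))
  have hS : ∀ w : BM, Continuous fun t => ∑ i, l i t * xi b w.1 i t := fun w =>
    continuous_finsetSum _ fun i _ => (continuous_of_analytic (hl i)).mul (LQLin_xi_cont hb w i)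
  have hI : ∀ w : BM, IntervalIntegrable
      (fun t => D2 H (t, Phi l b z0 u.1 0 t) * ∑ i, l i t * xi b w.1 i t) volume 0 T := fun w =>
    (hV.mul (hS w)).intervalIntegrable _ _
  refine ⟨{ toFun := fun w => ∫ t in (0 : ℝ)..T,
              D2 H (t, Phi l b z0 u.1 0 t) * ∑ i, l i t * xi b w.1 i t
            map_add' := ?_
            map_smul' := ?_ }, fun w => rfl, ?_⟩
  · intro v w
    rw [← intervalIntegral.integral_add (hI v) (hI w)]
    congr 1
    ext t
    simp only [xi_add hb]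
    simp only [mul_add, Finset.sum_add_distrib]
  · intro r w
    rw [RingHom.id_apply, smul_eq_mul, ← intervalIntegral.integral_const_mul]
    congr 1
    ext t
    simp only [xi_smul]
    rw [Finset.mul_sum, Finset.mul_sum, Finset.mul_sum]
    apply Finset.sum_congr rfl
    intro i _
    ring
  · obtain ⟨C, hC0, hC⟩ := CEst_sum_bound hl hb hT
    obtain ⟨M, hM0, hM⟩ := LQLin_bound (ι := Unit)
      (f := fun _ t => D2 H (t, Phi l b z0 u.1 0 t)) (fun _ => hV) T
    refine ⟨M * C * T, by positivity, fun w => ?_⟩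
    have h := LQLin_int_le (f := fun t => D2 H (t, Phi l b z0 u.1 0 t) * ∑ i, l i t * xi b w.1 i t)
      (M := M * (C * om T w)) hT (fun t ht => by
        rw [abs_mul]
        exact mul_le_mul (hM () t ht) (hC w t ht) (abs_nonneg _) hM0)
    calc |_| ≤ M * (C * om T w) * T := h
      _ = M * C * T * om T w := by ring

theorem taylorE {u : BM} (hu : u ∈ UU) : ∃ C : ℝ, 0 ≤ C ∧ ∀ v ∈ UU, ∀ w ∈ UU,
    |(∫ t in (0 : ℝ)..T, H (t, Phi l b z0 v.1 0 t))
      - (∫ t in (0 : ℝ)..T, H (t, Phi l b z0 w.1 0 t))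
      - ∫ t in (0 : ℝ)..T, D2 H (t, Phi l b z0 u.1 0 t) * ∑ i, l i t * xi b (v - w).1 i t|
      ≤ C * (om T (v - u) + om T (w - u)) * om T (v - w) := by
  obtain ⟨C, hC0, hC⟩ := CEst_sum_bound hl hb hT
  obtain ⟨M, hM0, hM⟩ := LQLin_bound (ι := Unit) (f := fun _ => z0)
    (fun _ => continuous_of_analytic hz0) T
  set B : ℝ := M + C * T with hB
  have hD : Continuous fun p : ℝ × ℝ => D2 (D2 H) p := CEst_cont2 (D2_an (D2_an hH))
  obtain ⟨B2, hB2⟩ := ((isCompact_Icc (a := (0 : ℝ)) (b := T)).prod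
    (isCompact_Icc (a := -B) (b := B))).exists_bound_of_continuousOn hD.continuousOn
  have hB2' : ∀ t ∈ Icc (0 : ℝ) T, ∀ x ∈ Icc (-B) B, |D2 (D2 H) (t, x)| ≤ max B2 0 :=
    fun t ht x hx => (hB2 (t, x) ⟨ht, hx⟩).trans (le_max_left _ _)
  have hB20 : 0 ≤ max B2 0 := le_max_right _ _
  have hz : ∀ v ∈ UU, ∀ t ∈ Icc (0 : ℝ) T, Phi l b z0 v.1 0 t ∈ Icc (-B) B := by
    intro v hv t ht
    rw [CEst_z, mem_Icc, ← abs_le]
    refine (abs_add_le _ _).trans (add_le_add (hM () t ht) ((hC v t ht).trans ?_))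
    exact mul_le_mul_of_nonneg_left (LQLin_om_UU hT hv) hC0
  refine ⟨max B2 0 * C * C * T, by positivity, fun v hv w hw => ?_⟩
  have hcH : ∀ v : BM, Continuous fun t => H (t, Phi l b z0 v.1 0 t) := fun v =>
    (CEst_cont2 hH).comp (continuous_id.prodMk (CEst_zcont hl hb hz0 v))
  have hV : Continuous fun t => D2 H (t, Phi l b z0 u.1 0 t) :=
    (CEst_cont2 (D2_an hH)).comp (continuous_id.prodMk (CEst_zcont hl hb hz0 u))
  have hS : ∀ w : BM, Continuous fun t => ∑ i, l i t * xi b w.1 i t := fun w =>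
    continuous_finsetSum _ fun i _ => (continuous_of_analytic (hl i)).mul (LQLin_xi_cont hb w i)
  have i1 : ∀ v : BM, IntervalIntegrable (fun t => H (t, Phi l b z0 v.1 0 t)) volume 0 T :=
    fun v => (hcH v).intervalIntegrable _ _
  have i2 : IntervalIntegrable (fun t => D2 H (t, Phi l b z0 u.1 0 t)
      * ∑ i, l i t * xi b (v - w).1 i t) volume 0 T := (hV.mul (hS (v - w))).intervalIntegrable _ _
  rw [← intervalIntegral.integral_sub (i1 v) (i1 w),
    ← intervalIntegral.integral_sub ((i1 v).sub (i1 w)) i2]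
  have hom1 : 0 ≤ om T (v - u) := apply_nonneg (om T) _
  have hom2 : 0 ≤ om T (w - u) := apply_nonneg (om T) _
  have hom3 : 0 ≤ om T (v - w) := apply_nonneg (om T) _
  have h := LQLin_int_le (f := fun t => H (t, Phi l b z0 v.1 0 t) - H (t, Phi l b z0 w.1 0 t)
      - D2 H (t, Phi l b z0 u.1 0 t) * ∑ i, l i t * xi b (v - w).1 i t)
    (M := max B2 0 * (C * om T (v - u) + C * om T (w - u)) * (C * om T (v - w))) hT
    (fun t ht => by
      rw [← CEst_diff (z0 := z0) hb v w t]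
      refine (CEst_pt hH hB2' ht (hz v hv t ht) (hz w hw t ht) (hz u hu t ht)).trans ?_
      have b1 : |Phi l b z0 v.1 0 t - Phi l b z0 u.1 0 t| ≤ C * om T (v - u) := by
        rw [CEst_diff hb]
        exact hC _ t ht
      have b2 : |Phi l b z0 w.1 0 t - Phi l b z0 u.1 0 t| ≤ C * om T (w - u) := by
        rw [CEst_diff hb]
        exact hC _ t ht
      have b3 : |Phi l b z0 v.1 0 t - Phi l b z0 w.1 0 t| ≤ C * om T (v - w) := by
        rw [CEst_diff hb]
        exact hC _ t ht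
      exact mul_le_mul (mul_le_mul_of_nonneg_left (add_le_add b1 b2) hB20) b3 (abs_nonneg _)
        (by positivity))
  calc |_| ≤ max B2 0 * (C * om T (v - u) + C * om T (w - u)) * (C * om T (v - w)) * T := h
    _ = max B2 0 * C * C * T * (om T (v - u) + om T (w - u)) * om T (v - w) := by ring

theorem first_varE (u w : BM) :
    ∫ t in (0 : ℝ)..T, D2 H (t, Phi l b z0 u.1 0 t) * ∑ i, l i t * xi b w.1 i t
      = ∫ t in (0 : ℝ)..T, (∑ i, b i t * ∫ s in t..T, l i s * D2 H (s, Phi l b z0 u.1 0 s))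
        * w.1 t := by
  have hV : Continuous fun t => D2 H (t, Phi l b z0 u.1 0 t) :=
    (CEst_cont2 (D2_an hH)).comp (continuous_id.prodMk (CEst_zcont hl hb hz0 u))
  obtain ⟨K', -, hK'⟩ := BM_bdd w
  have hwm := BM_meas w
  have hxw : ∀ i, Continuous (xi b w.1 i) := fun i => LQLin_xi_cont hb w i
  have hlc : ∀ i, Continuous (l i) := fun i => continuous_of_analytic (hl i)
  have hbc : ∀ i, Continuous (b i) := fun i => continuous_of_analytic (hb i)
  have hG : ∀ i, Continuous fun s => l i s * D2 H (s, Phi l b z0 u.1 0 s) := fun i =>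
    (hlc i).mul hV
  have hparts : ∀ i, ∫ t in (0 : ℝ)..T, l i t * D2 H (t, Phi l b z0 u.1 0 t) * xi b w.1 i t
      = ∫ t in (0 : ℝ)..T, (∫ s in t..T, l i s * D2 H (s, Phi l b z0 u.1 0 s))
        * (b i t * w.1 t) := by
    intro i
    obtain ⟨hac, hd⟩ := CEst_prim ((hG i).locallyIntegrable (μ := volume)) T
    have h1 := ibp_zero (f := fun t => ∫ s in t..T, l i s * D2 H (s, Phi l b z0 u.1 0 s))
      (g := xi b w.1 i)
      (f' := fun t => - (l i t * D2 H (t, Phi l b z0 u.1 0 t))) (g' := fun t => b i t * w.1 t)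
      (s := 0) (s' := T)
      hac (xi_ac hb hwm hK' i 0 T) (hd.mono fun t ht _ => ht)
      ((xi_ae hb hwm hK' i).mono fun t ht _ => ht)
      (by simp [xi]) (by simp)
    rw [h1, ← intervalIntegral.integral_neg]
    congr 1
    ext t
    ring
  have hPc : ∀ i, Continuous fun t => ∫ s in t..T, l i s * D2 H (s, Phi l b z0 u.1 0 s) := by
    intro i
    have h1 : (fun t => ∫ s in t..T, l i s * D2 H (s, Phi l b z0 u.1 0 s))
        = fun t => - ∫ s in T..t, l i s * D2 H (s, Phi l b z0 u.1 0 s) := by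
      ext t
      rw [intervalIntegral.integral_symm]
    rw [h1]
    exact (intervalIntegral.continuous_primitive
      (fun p q => (hG i).intervalIntegrable p q) T).neg
  have e1 : ∀ t, D2 H (t, Phi l b z0 u.1 0 t) * ∑ i, l i t * xi b w.1 i t
      = ∑ i, l i t * D2 H (t, Phi l b z0 u.1 0 t) * xi b w.1 i t := by
    intro t
    rw [Finset.mul_sum]
    apply Finset.sum_congr rfl
    intro i _
    ring
  have e2 : ∀ t, (∑ i, b i t * ∫ s in t..T, l i s * D2 H (s, Phi l b z0 u.1 0 s)) * w.1 t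
      = ∑ i, (∫ s in t..T, l i s * D2 H (s, Phi l b z0 u.1 0 s)) * (b i t * w.1 t) := by
    intro t
    rw [Finset.sum_mul]
    apply Finset.sum_congr rfl
    intro i _
    ring
  have i3 : ∀ i, IntervalIntegrable
      (fun t => l i t * D2 H (t, Phi l b z0 u.1 0 t) * xi b w.1 i t) volume 0 T := fun i =>
    ((hG i).mul (hxw i)).intervalIntegrable 0 T
  have i4 : ∀ i, IntervalIntegrable
      (fun t => (∫ s in t..T, l i s * D2 H (s, Phi l b z0 u.1 0 s)) * (b i t * w.1 t))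
      volume 0 T := by
    intro i
    have := intInt ((hPc i).mul (hbc i)) hwm hK' 0 T
    apply this.congr
    intro t _
    show (∫ s in t..T, l i s * D2 H (s, Phi l b z0 u.1 0 s)) * b i t * w.1 t = _
    ring
  rw [intervalIntegral.integral_congr (fun t _ => e1 t),
    intervalIntegral.integral_congr (fun t _ => e2 t),
    intervalIntegral.integral_finsetSum (fun i _ => i3 i),
    intervalIntegral.integral_finsetSum (fun i _ => i4 i)]
  apply Finset.sum_congr rfl
  intro i _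
  exact hparts i

end Pool.Agent.Lib.MP_28b8de_an
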