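import Pool.Agent.Lib.MP_28b8de_an.E.EDefs

/-!
MP_28b8de_an, module CaseTwo (MSE-CaseTwo): between two points of a perfect set where the singular
control equals `τ = ±1`, the control is constant.  Abstract form of `const_between`
(RelayThree.lean); the proof there (with `Ds_eventually`, and `balance` of RelayTwo.lean) can be
copied almost verbatim, the special functions Phi M, Phi (M+1), Wd M, Df, Ds being replaced by
F, A, β, 1 + τ A/β, Ds.

PROOF.  Write D t = 1 + τ A t / β t, m(s,t) = mass τ u s t = ∫ over uIoc s t of (1 - τ u) ≥ 0.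
(1) balance: for s, t ∈ Icc p q with F s = F t = 0: 0 = ∫_s^t (A + β u), and
  τ (A + β u) = β (D - 1 + τ u) = β (D - (1 - τ u)) (τ² = 1), so
  β0 m(s,t) ≤ |∫ β (1 - τ u)| = |∫ β D| ≤ C · sup|D| · |t - s| (sup over uIcc s t), as β has constant sign σ.
(2) Ds s = 0 on Ioo p q, for s ∈ K ∩ Ioo p q an accumulation point of K: D s = 0 (hKτ), so Ds s s = 0
  (hmass with t = s, mass = 0).  If Ds s is not eventually zero at s it has a finite order k ≥ 1:
  Ds s t = (t-s)^k g(t), g(s) ≠ 0; take t ∈ K close to s: D t = 0, so |Ds s t| ≤ C m(s,t), so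
  m(s,t) ≥ c |t-s|^k; balance and |D r| ≤ |Ds s r| + C m(s,r) ≤ C'|t-s|^k + C m(s,t) ≤ C'' m(s,t) on uIcc s t give
  β0 m ≤ C C'' |t-s| m, contradiction for t close to s.  So Ds s = 0 near s, hence on Ioo p q (analytic).
(3) so |D r| ≤ C m(s,r) ≤ C m(s,s') for r ∈ [s,s'], and balance gives β0 m ≤ C·C m (s'-s), so m(s,s') = 0 by
  hsm, i.e. τ u = 1 a.e. on (s,s'), u = τ.
-/

namespace Pool.Agent.Lib.MP_28b8de_an

open Filter Topology Set MeasureTheory

private theorem caseTwo_int {u β : ℝ → ℝ} {τ : ℝ} (hτ : |τ| = 1) (hum : Measurable u)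
    (hub : ∀ t, |u t| ≤ 1) {s t : ℝ} (hβc : ContinuousOn β (uIcc s t)) :
    IntervalIntegrable (fun r => β r * (1 - τ * u r)) volume s t := by
  have h : IntervalIntegrable (fun r => 1 - τ * u r) volume s t := by
    rw [intervalIntegrable_iff]
    exact one_sub_integrable hτ hum hub s t
  exact h.continuousOn_mul hβc

private theorem caseTwo_balance {u A β F : ℝ → ℝ} {τ σ : ℝ} (hτ : |τ| = 1) (hσ : |σ| = 1)
    {β0 C m0 : ℝ} (hum : Measurable u) (hub : ∀ t, |u t| ≤ 1)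
    {s t : ℝ} (hβ0 : 0 < β0)
    (hA : ContinuousOn A (uIcc s t)) (hβc : ContinuousOn β (uIcc s t))
    (hβ : ∀ r ∈ uIcc s t, β0 ≤ σ * β r) (hβC : ∀ r ∈ uIcc s t, |β r| ≤ C)
    (hF : F t - F s = ∫ r in s..t, (A r + β r * u r))
    (hs0 : F s = 0) (ht0 : F t = 0)
    (hD : ∀ r ∈ uIcc s t, |1 + τ * A r / β r| ≤ m0) :
    β0 * mass τ u s t ≤ C * m0 * |t - s| := by
  have hττ : τ * τ = 1 := sq_one_of_abs hτ
  have hne : ∀ r ∈ uIcc s t, β r ≠ 0 := by
    intro r hr h0
    have := hβ r hr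
    rw [h0, mul_zero] at this
    linarith
  have hDc : ContinuousOn (fun r => 1 + τ * A r / β r) (uIcc s t) :=
    continuousOn_const.add ((continuousOn_const.mul hA).div hβc hne)
  have i1 : IntervalIntegrable (fun r => β r * (1 - τ * u r)) volume s t :=
    caseTwo_int hτ hum hub hβc
  have i2 : IntervalIntegrable (fun r => β r * (1 + τ * A r / β r)) volume s t :=
    (hβc.mul hDc).intervalIntegrable
  have h1 : ∫ r in s..t, β r * (1 - τ * u r) = ∫ r in s..t, β r * (1 + τ * A r / β r) := by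
    have h2 := hF
    rw [hs0, ht0, sub_zero] at h2
    have h3 : ∫ r in s..t, (A r + β r * u r)
        = τ * ((∫ r in s..t, β r * (1 + τ * A r / β r))
          - ∫ r in s..t, β r * (1 - τ * u r)) := by
      rw [← intervalIntegral.integral_sub i2 i1, ← intervalIntegral.integral_const_mul]
      apply intervalIntegral.integral_congr
      intro r hr
      have hr0 := hne r hr
      simp only
      field_simp
      linear_combination (-(A r) - β r * u r) * hττ
    rw [h3] at h2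
    have hτ0 : τ ≠ 0 := by
      intro h0
      rw [h0, abs_zero] at hτ
      norm_num at hτ
    rcases mul_eq_zero.1 h2.symm with h4 | h4
    · exact absurd h4 hτ0
    · linarith
  have h5 : β0 * mass τ u s t ≤ |∫ r in s..t, β r * (1 - τ * u r)| := by
    rw [intervalIntegral.abs_intervalIntegral_eq]
    have h6 : σ * ∫ r in uIoc s t, β r * (1 - τ * u r)
        ≤ |∫ r in uIoc s t, β r * (1 - τ * u r)| := by
      have := le_abs_self (σ * ∫ r in uIoc s t, β r * (1 - τ * u r))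
      rwa [abs_mul, hσ, one_mul] at this
    refine le_trans ?_ h6
    unfold mass
    rw [← integral_const_mul, ← integral_const_mul]
    rw [intervalIntegrable_iff] at i1
    apply setIntegral_mono_on ((one_sub_integrable hτ hum hub s t).const_mul β0)
      (i1.const_mul σ) measurableSet_uIoc
    intro r hr
    have h7 := one_sub_nonneg hτ hub r
    have h8 := hβ r (uIoc_subset_uIcc hr)
    calc β0 * (1 - τ * u r) ≤ (σ * β r) * (1 - τ * u r) :=
          mul_le_mul_of_nonneg_right h8 h7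
      _ = σ * (β r * (1 - τ * u r)) := by ring
  have h9 : |∫ r in s..t, β r * (1 + τ * A r / β r)| ≤ C * m0 * |t - s| := by
    have := intervalIntegral.norm_integral_le_of_norm_le_const (a := s) (b := t)
      (f := fun r => β r * (1 + τ * A r / β r)) (C := C * m0) (fun r hr => by
        have hr' := uIoc_subset_uIcc hr
        rw [norm_mul, Real.norm_eq_abs, Real.norm_eq_abs]
        exact mul_le_mul (hβC r hr') (hD r hr') (abs_nonneg _)
          ((abs_nonneg _).trans (hβC r hr')))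
    rwa [Real.norm_eq_abs] at this
  rw [← h1] at h9
  exact h5.trans h9

private theorem caseTwo_D_zero {τ a b : ℝ} (hτ : |τ| = 1) (hb : b ≠ 0) (h : a = - τ * b) :
    1 + τ * a / b = 0 := by
  rw [h]
  field_simp
  have := sq_one_of_abs hτ
  linarith [sq τ]

private theorem caseTwo_eventually {u A β F : ℝ → ℝ} {τ σ : ℝ} (hτ : |τ| = 1) (hσ : |σ| = 1)
    {p q β0 C : ℝ}
    (hβ0 : 0 < β0) (hC : 0 ≤ C) (hum : Measurable u) (hub : ∀ t, |u t| ≤ 1)
    (hA : ContinuousOn A (Icc p q)) (hβc : ContinuousOn β (Icc p q))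
    (hβ : ∀ t ∈ Icc p q, β0 ≤ σ * β t) (hβC : ∀ t ∈ Icc p q, |β t| ≤ C)
    (hF : ∀ s ∈ Icc p q, ∀ t ∈ Icc p q, F t - F s = ∫ r in s..t, (A r + β r * u r))
    {K : Set ℝ} (hK0 : ∀ t ∈ K, t ∈ Icc p q → F t = 0)
    (hKτ : ∀ t ∈ K, t ∈ Icc p q → A t = - τ * β t) (Ds : ℝ → ℝ → ℝ)
    (hDs : ∀ s ∈ K, s ∈ Ioo p q → AnalyticOnNhd ℝ (Ds s) (Ioo p q))
    (hmass : ∀ s ∈ K, s ∈ Ioo p q → ∀ t ∈ Ioo p q,
      |1 + τ * A t / β t - Ds s t| ≤ C * mass τ u s t)
    {s : ℝ} (hsK : s ∈ K) (hs : s ∈ Ioo p q) (hacc : AccPt s (𝓟 K)) :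
    ∀ᶠ t in 𝓝 s, Ds s t = 0 := by
  have hne : ∀ t ∈ Icc p q, β t ≠ 0 := by
    intro t ht h0
    have := hβ t ht
    rw [h0, mul_zero] at this
    linarith
  have hf : AnalyticAt ℝ (Ds s) s := hDs s hsK hs s hs
  by_contra hcon
  obtain ⟨k, g, hg, hgs, hfg⟩ := hf.exists_eventuallyEq_pow_smul_nonzero_iff.mpr hcon
  set γ : ℝ := |g s| with hγ
  have hγ0 : 0 < γ := abs_pos.2 hgs
  have hgc : ContinuousAt (fun r => |g r|) s := hg.continuousAt.abs
  have h1 : ∀ᶠ r in 𝓝 s, γ / 2 < |g r| := hgc.eventually (lt_mem_nhds (by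
    show γ / 2 < |g s|
    linarith))
  have h2 : ∀ᶠ r in 𝓝 s, |g r| < 2 * γ := hgc.eventually (gt_mem_nhds (by
    show |g s| < 2 * γ
    linarith))
  have h3 : ∀ᶠ r in 𝓝 s, r ∈ Ioo p q := Ioo_mem_nhds hs.1 hs.2
  obtain ⟨δ, hδ, hall⟩ := Metric.eventually_nhds_iff.1 (h1.and (h2.and (h3.and hfg)))
  -- pick a close point of `K`
  have hpos : 0 < min δ (β0 / (5 * C * C + 1)) := by positivity
  rw [accPt_iff_frequently_nhdsNE] at hacc
  have h4 : ∀ᶠ r in 𝓝[≠] s, r ≠ s ∧ |r - s| < min δ (β0 / (5 * C * C + 1)) := by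
    have h5 : ∀ᶠ r in 𝓝[≠] s, r ≠ s := eventually_mem_nhdsWithin
    have h6 : ∀ᶠ r in 𝓝[≠] s, r ∈ Metric.ball s (min δ (β0 / (5 * C * C + 1))) :=
      mem_nhdsWithin_of_mem_nhds (Metric.ball_mem_nhds s hpos)
    filter_upwards [h5, h6] with r h7 h8
    exact ⟨h7, by rwa [Metric.mem_ball, Real.dist_eq] at h8⟩
  obtain ⟨t, htK, hts, htd⟩ := (hacc.and_eventually h4).exists
  set h : ℝ := |t - s| with hh
  have hh0 : 0 < h := abs_pos.2 (sub_ne_zero.2 hts)
  have hhδ : h < δ := lt_of_lt_of_le htd (min_le_left _ _)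
  have hhβ : h < β0 / (5 * C * C + 1) := lt_of_lt_of_le htd (min_le_right _ _)
  have hr_in : ∀ r ∈ uIcc s t, |r - s| ≤ h := by
    intro r hr
    rw [hh]
    rw [mem_uIcc] at hr
    rcases hr with hr | hr
    · rw [abs_of_nonneg (by linarith [hr.1]), abs_of_nonneg (by linarith [hr.1, hr.2])]
      linarith [hr.2]
    · rw [abs_of_nonpos (by linarith [hr.2]), abs_of_nonpos (by linarith [hr.1, hr.2])]
      linarith [hr.1]
  have hr_Ioo : ∀ r ∈ uIcc s t, r ∈ Ioo p q := by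
    intro r hr
    have h5 := hall (y := r) (by rw [Real.dist_eq]; exact lt_of_le_of_lt (hr_in r hr) hhδ)
    exact h5.2.2.1
  have hr_Icc : ∀ r ∈ uIcc s t, r ∈ Icc p q := fun r hr => Ioo_subset_Icc_self (hr_Ioo r hr)
  set m : ℝ := mass τ u s t with hm
  have hm0 : 0 ≤ m := mass_nonneg hτ hub s t
  have htI : t ∈ Icc p q := hr_Icc t right_mem_uIcc
  have hsI : s ∈ Icc p q := Ioo_subset_Icc_self hs
  have hDt : 1 + τ * A t / β t = 0 := caseTwo_D_zero hτ (hne t htI) (hKτ t htK htI)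
  have hft : |Ds s t| ≤ C * m := by
    have := hmass s hsK hs t (hr_Ioo t right_mem_uIcc)
    rwa [hDt, zero_sub, abs_neg] at this
  have ht_all := hall (y := t) (by rw [Real.dist_eq]; exact hhδ)
  have hlow : γ / 2 * h ^ k ≤ C * m := by
    refine le_trans ?_ hft
    rw [ht_all.2.2.2, smul_eq_mul, abs_mul, abs_pow, ← hh, mul_comm]
    exact mul_le_mul_of_nonneg_left ht_all.1.le (by positivity)
  have hup : ∀ r ∈ uIcc s t, |1 + τ * A r / β r| ≤ 5 * C * m := by
    intro r hr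
    have h5 := hall (y := r) (by rw [Real.dist_eq]; exact lt_of_le_of_lt (hr_in r hr) hhδ)
    have h6 := hmass s hsK hs r (hr_Ioo r hr)
    have h7 : mass τ u s r ≤ m := mass_mono hτ hum hub hr
    have h8 : |Ds s r| ≤ 2 * γ * h ^ k := by
      rw [h5.2.2.2, smul_eq_mul, abs_mul, abs_pow, mul_comm]
      apply mul_le_mul h5.2.1.le _ (by positivity) (by positivity)
      exact pow_le_pow_left₀ (abs_nonneg _) (hr_in r hr) k
    have h9 : |1 + τ * A r / β r| ≤ |1 + τ * A r / β r - Ds s r| + |Ds s r| := by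
      have := abs_add_le (1 + τ * A r / β r - Ds s r) (Ds s r)
      rwa [sub_add_cancel] at this
    have h10 : C * mass τ u s r ≤ C * m := mul_le_mul_of_nonneg_left h7 hC
    linarith
  have hbal := caseTwo_balance (F := F) (m0 := 5 * C * m) hτ hσ hum hub hβ0
    (hA.mono hr_Icc) (hβc.mono hr_Icc)
    (fun r hr => hβ r (hr_Icc r hr)) (fun r hr => hβC r (hr_Icc r hr)) (hF s hsI t htI)
    (hK0 s hsK hsI) (hK0 t htK htI) hup
  rw [← hh, ← hm] at hbal
  have hsmall : h * (5 * C * C + 1) < β0 := by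
    rwa [lt_div_iff₀ (by positivity)] at hhβ
  have hmz : m = 0 := by
    by_contra hne0
    have hmp : 0 < m := lt_of_le_of_ne hm0 (Ne.symm hne0)
    have h11 : β0 * m ≤ (5 * C * C * h) * m := by linarith
    have h12 := le_of_mul_le_mul_right h11 hmp
    nlinarith
  rw [hmz, mul_zero] at hlow
  have : 0 < γ / 2 * h ^ k := by positivity
  linarith

theorem case_two {u A β F : ℝ → ℝ} {τ σ : ℝ} (hτ : |τ| = 1) (hσ : |σ| = 1) {p q β0 C : ℝ}
    (hβ0 : 0 < β0) (hC : 0 ≤ C) (hum : Measurable u) (hub : ∀ t, |u t| ≤ 1)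
    (hA : ContinuousOn A (Icc p q)) (hβc : ContinuousOn β (Icc p q))
    (hβ : ∀ t ∈ Icc p q, β0 ≤ σ * β t) (hβC : ∀ t ∈ Icc p q, |β t| ≤ C)
    (hF : ∀ s ∈ Icc p q, ∀ t ∈ Icc p q, F t - F s = ∫ r in s..t, (A r + β r * u r))
    {K : Set ℝ} (hK0 : ∀ t ∈ K, t ∈ Icc p q → F t = 0)
    (hKτ : ∀ t ∈ K, t ∈ Icc p q → A t = - τ * β t) (Ds : ℝ → ℝ → ℝ)
    (hDs : ∀ s ∈ K, s ∈ Ioo p q → AnalyticOnNhd ℝ (Ds s) (Ioo p q))
    (hmass : ∀ s ∈ K, s ∈ Ioo p q → ∀ t ∈ Ioo p q,
      |1 + τ * A t / β t - Ds s t| ≤ C * mass τ u s t)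
    {s s' : ℝ} (hsK : s ∈ K) (hs'K : s' ∈ K) (hs : s ∈ Ioo p q) (hs' : s' ∈ Ioo p q)
    (hacc : AccPt s (𝓟 K)) (hss : s < s') (hsm : C * C * (s' - s) < β0) :
    ∀ᵐ r : ℝ, r ∈ Ioo s s' → u r = τ := by
  have hne : ∀ t ∈ Icc p q, β t ≠ 0 := by
    intro t ht h0
    have := hβ t ht
    rw [h0, mul_zero] at this
    linarith
  have hev := caseTwo_eventually hτ hσ hβ0 hC hum hub hA hβc hβ hβC hF hK0 hKτ Ds hDs hmass
    hsK hs hacc
  have hzero : ∀ t ∈ Ioo p q, Ds s t = 0 :=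
    (hDs s hsK hs).eqOn_zero_of_preconnected_of_eventuallyEq_zero isPreconnected_Ioo hs hev
  have hsub : ∀ r ∈ uIcc s s', r ∈ Ioo p q := by
    intro r hr
    rw [uIcc_of_le hss.le] at hr
    exact ⟨lt_of_lt_of_le hs.1 hr.1, lt_of_le_of_lt hr.2 hs'.2⟩
  have hsub' : ∀ r ∈ uIcc s s', r ∈ Icc p q := fun r hr => Ioo_subset_Icc_self (hsub r hr)
  set m : ℝ := mass τ u s s' with hm
  have hm0 : 0 ≤ m := mass_nonneg hτ hub s s'
  have hup : ∀ r ∈ uIcc s s', |1 + τ * A r / β r| ≤ C * m := by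
    intro r hr
    have h6 := hmass s hsK hs r (hsub r hr)
    rw [hzero r (hsub r hr), sub_zero] at h6
    have h7 : mass τ u s r ≤ m := mass_mono hτ hum hub hr
    exact h6.trans (mul_le_mul_of_nonneg_left h7 hC)
  have hbal := caseTwo_balance (F := F) (m0 := C * m) hτ hσ hum hub hβ0
    (hA.mono hsub') (hβc.mono hsub')
    (fun r hr => hβ r (hsub' r hr)) (fun r hr => hβC r (hsub' r hr))
    (hF s (Ioo_subset_Icc_self hs) s' (Ioo_subset_Icc_self hs'))
    (hK0 s hsK (Ioo_subset_Icc_self hs)) (hK0 s' hs'K (Ioo_subset_Icc_self hs')) hup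
  rw [← hm, abs_of_pos (sub_pos.2 hss)] at hbal
  have hmz : m = 0 := by
    by_contra hne0
    have hmp : 0 < m := lt_of_le_of_ne hm0 (Ne.symm hne0)
    have h11 : β0 * m ≤ (C * C * (s' - s)) * m := by linarith
    have h12 := le_of_mul_le_mul_right h11 hmp
    linarith
  rw [hm] at hmz
  unfold mass at hmz
  rw [integral_eq_zero_iff_of_nonneg (fun r => one_sub_nonneg hτ hub r)
    (one_sub_integrable hτ hum hub s s')] at hmz
  rw [Filter.EventuallyEq, ae_restrict_iff' measurableSet_uIoc] at hmz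
  filter_upwards [hmz] with r hr hrs
  have h13 : r ∈ uIoc s s' := by
    rw [uIoc_of_le hss.le]
    exact ⟨hrs.1, hrs.2.le⟩
  have h14 := hr h13
  simp only [Pi.zero_apply] at h14
  have h15 := sq_one_of_abs hτ
  have h16 : τ * u r = 1 := by linarith
  calc u r = (τ * τ) * u r := by rw [h15, one_mul]
    _ = τ * (τ * u r) := by ring
    _ = τ := by rw [h16, mul_one]

end Pool.Agent.Lib.MP_28b8de_an
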