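import Pool.Agent.Lib.MP_28b8de_an.OpenMap

/-!
MP_28b8de_an, module OpenMap2 (MSE-OpenMap2): the open mapping argument for C¹ maps.

PROOF.  Adapt the proof of `open_map` in OpenMap.lean (same folder structure: copy the private lemmas
OpenMap_zero_mem_interior, OpenMap_sum_smul_norm, OpenMap_sum_smul_om, OpenMap_fix with new names).  There
J v = l v + B v v, Lin = l + B u₀ + B.flip u₀.  Here J is arbitrary with
  (hJ) ‖J v - J w - L (v - w)‖ ≤ C (om (v-u₀) + om (w-u₀)) om (v-w) for v, w ∈ U.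
With z(g) = v0 + δ ∑ i [ (1+g i)/(4p) (vp i - v0) + (1-g i)/(4p) (vm i - v0) ] ∈ D ⊆ U, where L (wp i - u₀) = r e_i,
L (wm i - u₀) = - r e_i, om (v0-u₀), om (vp i - wp i), om (vm i - wm i) ≤ ε: om (z(g) - u₀) ≤ ε + 2Cδ... , om (z(g) - z(g'))
≤ c δ ‖g-g'‖, so F(g) = J(z(g)) - J(u₀) satisfies ‖F(0)‖ ≤ c(ε + δ²) [hJ with v = z 0, w = u₀] and
‖F(g) - F(g') - (δ r/(2p)) (g-g')‖ ≤ c (δ² + δ ε) ‖g-g'‖ [hJ with v = z g, w = z g', and L (z g - z g') =
(δ r/(2p)) (g - g') + O(δ ε) ‖g - g'‖].  Choose δ, then ε, and conclude by OpenMap_fix.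
-/

namespace Pool.Agent.Lib.MP_28b8de_an

open Filter Topology Set

/-- if every nonzero functional is somewhere positive on a convex set containing 0, then 0 is
interior -/
private theorem OpenMap2_zero_mem_interior {p : ℕ} {S : Set (Fin p → ℝ)} (hS : Convex ℝ S)
    (h0 : (0 : Fin p → ℝ) ∈ S)
    (hpos : ∀ lam : Fin p → ℝ, lam ≠ 0 → ∃ x ∈ S, 0 < ∑ i, lam i * x i) :
    (0 : Fin p → ℝ) ∈ interior S := by
  classical
  by_contra hcon
  -- a nonzero functional that is ≤ 0 on S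
  have key : ∃ f : (Fin p → ℝ) →ₗ[ℝ] ℝ, f ≠ 0 ∧ ∀ x ∈ S, f x ≤ 0 := by
    by_cases hint : (interior S).Nonempty
    · obtain ⟨f, hf⟩ := geometric_hahn_banach_point_open hS.interior isOpen_interior hcon
      refine ⟨-(f : (Fin p → ℝ) →ₗ[ℝ] ℝ), ?_, ?_⟩
      · intro hz
        obtain ⟨y, hy⟩ := hint
        have h1 := hf y hy
        have h2 : f y = 0 := by
          have := LinearMap.congr_fun hz y
          simpa using this
        rw [h2] at h1
        simp at h1
      · intro x hx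
        have hcl : x ∈ closure (interior S) := by
          have := hS.closure_interior_eq_closure_of_nonempty_interior hint
          rw [this]
          exact subset_closure hx
        have h3 : interior S ⊆ {y | 0 ≤ f y} := by
          intro y hy
          have := hf y hy
          simp only [map_zero] at this
          exact this.le
        have h4 : IsClosed {y : Fin p → ℝ | 0 ≤ f y} := isClosed_le continuous_const f.continuous
        have h5 := closure_minimal h3 h4 hcl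
        simpa using h5
    · have hA : affineSpan ℝ S ≠ ⊤ := by
        intro h
        exact hint ((hS.interior_nonempty_iff_affineSpan_eq_top).2 h)
      have hspan : Submodule.span ℝ S ≠ ⊤ := by
        intro h
        apply hA
        rw [AffineSubspace.ext_iff]
        have h6 : (affineSpan ℝ S : Set (Fin p → ℝ)) = (Submodule.span ℝ S : Set (Fin p → ℝ)) := by
          have h7 := affineSpan_insert_zero (k := ℝ) S
          rwa [Set.insert_eq_of_mem h0] at h7
        rw [h6, h]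
        rfl
      obtain ⟨f, hf, hf2⟩ := Submodule.exists_le_ker_of_lt_top _ (lt_top_iff_ne_top.2 hspan)
      refine ⟨f, hf, fun x hx => ?_⟩
      have := hf2 (Submodule.subset_span hx)
      rw [LinearMap.mem_ker] at this
      exact this.le
  obtain ⟨f, hf, hle⟩ := key
  set lam : Fin p → ℝ := fun i => f (fun j => if i = j then 1 else 0) with hlam
  have hfx : ∀ x : Fin p → ℝ, f x = ∑ i, lam i * x i := by
    intro x
    rw [LinearMap.pi_apply_eq_sum_univ f x]
    exact Finset.sum_congr rfl fun i _ => by rw [smul_eq_mul, mul_comm]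
  have hne : lam ≠ 0 := by
    intro h
    apply hf
    refine LinearMap.ext fun x => ?_
    have := hfx x
    rw [h] at this
    simpa using this
  obtain ⟨x, hx, hx2⟩ := hpos lam hne
  rw [← hfx] at hx2
  exact absurd (hle x hx) (not_le.2 hx2)



/-- the bound of a sum with coefficients -/
private theorem OpenMap2_sum_smul_norm {p : ℕ} {W : Type*} [SeminormedAddCommGroup W]
    [NormedSpace ℝ W] (g : Fin p → ℝ) (x : Fin p → W) (K : ℝ) (hx : ∀ i, ‖x i‖ ≤ K) :
    ‖∑ i, g i • x i‖ ≤ p * K * ‖g‖ := by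
  calc ‖∑ i, g i • x i‖ ≤ ∑ i, ‖g i • x i‖ := norm_sum_le _ _
    _ ≤ ∑ _i : Fin p, ‖g‖ * K := by
        refine Finset.sum_le_sum fun i _ => ?_
        rw [norm_smul]
        exact mul_le_mul (norm_le_pi_norm g i) (hx i) (norm_nonneg _) (norm_nonneg _)
    _ = p * K * ‖g‖ := by
        rw [Finset.sum_const, Finset.card_univ, Fintype.card_fin, nsmul_eq_mul]
        ring

private theorem OpenMap2_sum_smul_om {p : ℕ} {V : Type*} [AddCommGroup V] [Module ℝ V]
    (om : Seminorm ℝ V) (g : Fin p → ℝ) (x : Fin p → V) (K : ℝ)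
    (hx : ∀ i, om (x i) ≤ K) :
    om (∑ i, g i • x i) ≤ p * K * ‖g‖ := by
  have h1 : ∀ s : Finset (Fin p), om (∑ i ∈ s, g i • x i) ≤ ∑ i ∈ s, om (g i • x i) := by
    intro s
    classical
    induction s using Finset.induction_on with
    | empty => simp
    | insert a s ha ih =>
      rw [Finset.sum_insert ha, Finset.sum_insert ha]
      exact (map_add_le_add om _ _).trans (by linarith)
  calc om (∑ i, g i • x i) ≤ ∑ i, om (g i • x i) := h1 _
    _ ≤ ∑ _i : Fin p, ‖g‖ * K := by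
        refine Finset.sum_le_sum fun i _ => ?_
        rw [map_smul_eq_mul]
        exact mul_le_mul (norm_le_pi_norm g i) (hx i) (apply_nonneg _ _) (norm_nonneg _)
    _ = p * K * ‖g‖ := by
        rw [Finset.sum_const, Finset.card_univ, Fintype.card_fin, nsmul_eq_mul]
        ring

private theorem OpenMap2_fix {p : ℕ} (G : (Fin p → ℝ) → (Fin p → ℝ)) {κ : ℝ} (hκ : 0 < κ)
    (h1 : ∀ g, ‖g‖ ≤ 1 → ‖G g‖ ≤ κ)
    (h2 : ∀ g h, ‖g‖ ≤ 1 → ‖h‖ ≤ 1 → ‖G g - G h‖ ≤ κ / 2 * ‖g - h‖) :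
    ∃ g, ‖g‖ ≤ 1 ∧ κ • g = - G g := by
  set f : (Fin p → ℝ) → (Fin p → ℝ) := fun g => -(κ⁻¹ • G g) with hf
  have hmaps : MapsTo f (Metric.closedBall 0 1) (Metric.closedBall 0 1) := by
    intro g hg
    rw [mem_closedBall_zero_iff] at hg ⊢
    rw [hf]
    simp only [norm_neg, norm_smul, norm_inv, Real.norm_eq_abs, abs_of_pos hκ]
    calc κ⁻¹ * ‖G g‖ ≤ κ⁻¹ * κ := by
          exact mul_le_mul_of_nonneg_left (h1 g hg) (inv_pos.2 hκ).le
      _ = 1 := inv_mul_cancel₀ hκ.ne'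
  have hcontr : ContractingWith (1 / 2) (hmaps.restrict f _ _) := by
    refine ⟨by
      rw [← NNReal.coe_lt_coe]
      norm_num, LipschitzWith.of_dist_le_mul ?_⟩
    rintro ⟨g, hg⟩ ⟨h, hh⟩
    rw [mem_closedBall_zero_iff] at hg hh
    rw [Subtype.dist_eq, Subtype.dist_eq, dist_eq_norm, dist_eq_norm]
    simp only [MapsTo.val_restrict_apply, hf]
    have : -(κ⁻¹ • G g) - -(κ⁻¹ • G h) = -(κ⁻¹ • (G g - G h)) := by
      rw [smul_sub]; abel
    rw [this, norm_neg, norm_smul, norm_inv, Real.norm_eq_abs, abs_of_pos hκ]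
    calc κ⁻¹ * ‖G g - G h‖ ≤ κ⁻¹ * (κ / 2 * ‖g - h‖) :=
          mul_le_mul_of_nonneg_left (h2 g h hg hh) (inv_pos.2 hκ).le
      _ = ((1 / 2 : NNReal) : ℝ) * ‖g - h‖ := by
          push_cast
          field_simp
  obtain ⟨g, hg, hfix, -⟩ := hcontr.exists_fixedPoint' (Metric.isClosed_closedBall.isComplete)
    hmaps (x := 0) (by simp) (edist_ne_top _ _)
  rw [mem_closedBall_zero_iff] at hg
  refine ⟨g, hg, ?_⟩
  have h3 : -(κ⁻¹ • G g) = g := hfix
  calc κ • g = κ • (-(κ⁻¹ • G g)) := by rw [h3]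
    _ = - G g := by rw [smul_neg, smul_smul, mul_inv_cancel₀ hκ.ne', one_smul]

theorem open_map2 {V : Type*} [AddCommGroup V] [Module ℝ V] {p : ℕ} (om : Seminorm ℝ V)
    (J : V → (Fin p → ℝ)) (L : V →ₗ[ℝ] (Fin p → ℝ)) {U D : Set V}
    (hU : Convex ℝ U) (hD : Convex ℝ D) (hDU : D ⊆ U)
    (hdense : ∀ u ∈ U, ∀ ε : ℝ, 0 < ε → ∃ v ∈ D, om (v - u) ≤ ε) {C : ℝ} (hC : 0 ≤ C)
    (hom : ∀ u ∈ U, om u ≤ C) (hL : ∀ v, ‖L v‖ ≤ C * om v) {u₀ : V} (hu₀ : u₀ ∈ U)
    (hJ : ∀ v ∈ U, ∀ w ∈ U,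
      ‖J v - J w - L (v - w)‖ ≤ C * (om (v - u₀) + om (w - u₀)) * om (v - w))
    (hpos : ∀ lam : Fin p → ℝ, lam ≠ 0 → ∃ w ∈ U, 0 < ∑ i, lam i * L (w - u₀) i) :
    ∃ v ∈ D, J v = J u₀ := by
  classical
  rcases Nat.eq_zero_or_pos p with hp0 | hp0
  · subst hp0
    obtain ⟨v, hv, -⟩ := hdense u₀ hu₀ 1 one_pos
    exact ⟨v, hv, Subsingleton.elim _ _⟩
  set P : ℝ := (p : ℝ) with hPdef
  have hP1 : 1 ≤ P := by
    rw [hPdef]
    exact_mod_cast hp0
  have hP : 0 < P := by linarith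
  -- interior point
  have hint : (0 : Fin p → ℝ) ∈ interior ((fun w => L (w - u₀)) '' U) := by
    refine OpenMap2_zero_mem_interior ?_ ?_ ?_
    · have h1 : (fun w => L (w - u₀)) '' U = (fun x => -(L u₀) + x) '' (L '' U) := by
        rw [Set.image_image]
        exact Set.image_congr fun w _ => by
          rw [map_sub]
          abel
      rw [h1]
      exact (hU.linear_image L).translate (-(L u₀))
    · exact ⟨u₀, hu₀, by simp⟩
    · intro lam hlam
      obtain ⟨w, hw, hw2⟩ := hpos lam hlam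
      exact ⟨L (w - u₀), ⟨w, hw, rfl⟩, hw2⟩
  obtain ⟨r, hr, hball⟩ := Metric.nhds_basis_closedBall.mem_iff.1 (mem_interior_iff_mem_nhds.1 hint)
  have hwp : ∀ i : Fin p, ∃ w ∈ U, L (w - u₀) = r • Pi.single i (1 : ℝ) := by
    intro i
    have h1 : r • Pi.single i (1 : ℝ) ∈ Metric.closedBall (0 : Fin p → ℝ) r := by
      rw [mem_closedBall_zero_iff, norm_smul, Pi.norm_single, Real.norm_eq_abs, abs_of_pos hr]
      simp
    obtain ⟨w, hw, hw2⟩ := hball h1
    exact ⟨w, hw, hw2⟩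
  have hwm : ∀ i : Fin p, ∃ w ∈ U, L (w - u₀) = -(r • Pi.single i (1 : ℝ)) := by
    intro i
    have h1 : -(r • Pi.single i (1 : ℝ)) ∈ Metric.closedBall (0 : Fin p → ℝ) r := by
      rw [mem_closedBall_zero_iff, norm_neg, norm_smul, Pi.norm_single, Real.norm_eq_abs,
        abs_of_pos hr]
      simp
    obtain ⟨w, hw, hw2⟩ := hball h1
    exact ⟨w, hw, hw2⟩
  choose wp hwpU hwpL using hwp
  choose wm hwmU hwmL using hwm
  -- parameters
  obtain ⟨δ, hδ0, hδ1, hδ2⟩ : ∃ δ : ℝ, 0 < δ ∧ δ ≤ 1 ∧ 16 * P * C ^ 3 * δ ≤ r := by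
    have h2 : 0 < 16 * P * C ^ 3 + 1 := by positivity
    refine ⟨min 1 (r / (16 * P * C ^ 3 + 1)), by positivity, min_le_left _ _, ?_⟩
    have h1 : min 1 (r / (16 * P * C ^ 3 + 1)) ≤ r / (16 * P * C ^ 3 + 1) := min_le_right _ _
    have h3 : min 1 (r / (16 * P * C ^ 3 + 1)) * (16 * P * C ^ 3 + 1) ≤ r := by
      rwa [le_div_iff₀ h2] at h1
    have h4 : 0 < min 1 (r / (16 * P * C ^ 3 + 1)) := by positivity
    nlinarith
  obtain ⟨ε, hε0, hε1, hε2⟩ : ∃ ε : ℝ, 0 < ε ∧ ε ≤ 1 ∧ 32 * P * (C + C ^ 2) * ε ≤ r * δ := by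
    have h2 : 0 < 32 * P * (C + C ^ 2) + 1 := by positivity
    refine ⟨min 1 (r * δ / (32 * P * (C + C ^ 2) + 1)), by positivity, min_le_left _ _, ?_⟩
    have h1 : min 1 (r * δ / (32 * P * (C + C ^ 2) + 1)) ≤ r * δ / (32 * P * (C + C ^ 2) + 1) :=
      min_le_right _ _
    have h3 : min 1 (r * δ / (32 * P * (C + C ^ 2) + 1)) * (32 * P * (C + C ^ 2) + 1) ≤ r * δ := by
      rwa [le_div_iff₀ h2] at h1
    have h4 : 0 < min 1 (r * δ / (32 * P * (C + C ^ 2) + 1)) := by positivity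
    nlinarith
  obtain ⟨v0, hv0D, hv0⟩ := hdense u₀ hu₀ ε hε0
  have hvp : ∀ i, ∃ v ∈ D, om (v - wp i) ≤ ε := fun i => hdense (wp i) (hwpU i) ε hε0
  have hvm : ∀ i, ∃ v ∈ D, om (v - wm i) ≤ ε := fun i => hdense (wm i) (hwmU i) ε hε0
  choose vp hvpD hvpe using hvp
  choose vm hvmD hvme using hvm
  have hv0U := hDU hv0D
  have hvpU := fun i => hDU (hvpD i)
  have hvmU := fun i => hDU (hvmD i)
  obtain ⟨δ', hδ'⟩ : ∃ δ' : ℝ, δ' = δ / (4 * P) := ⟨_, rfl⟩
  have hδ'0 : 0 < δ' := by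
    rw [hδ']
    positivity
  have hδ'P : P * δ' = δ / 4 := by
    rw [hδ']
    field_simp
  set e1 : V := v0 - u₀ with he1
  set e2 : V := ∑ i, (vp i + vm i - (2 : ℝ) • v0) with he2
  set a : V := v0 + δ' • e2 with ha
  set e : V := a - u₀ with he
  have hee : e = e1 + δ' • e2 := by
    rw [he, ha, he1]
    abel
  set Dg : (Fin p → ℝ) → V := fun g => ∑ i, g i • (vp i - vm i) with hDg
  have hDgsub : ∀ g h, Dg (g - h) = Dg g - Dg h := by
    intro g h
    simp only [hDg, Pi.sub_apply, sub_smul, Finset.sum_sub_distrib]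
  -- membership
  have hmem : ∀ g : Fin p → ℝ, ‖g‖ ≤ 1 → a + δ' • Dg g ∈ D := by
    intro g hg
    have hgi : ∀ i, |g i| ≤ 1 := fun i => (norm_le_pi_norm g i).trans hg
    set y : Fin p → V := fun i => ((1 + g i) / 2) • vp i + ((1 - g i) / 2) • vm i with hy
    have hyD : ∀ i, y i ∈ D := by
      intro i
      have h1 := abs_le.1 (hgi i)
      exact hD (hvpD i) (hvmD i) (by linarith [h1.1]) (by linarith [h1.2]) (by ring)
    have hY : ∑ i, P⁻¹ • y i ∈ D := by
      refine hD.sum_mem (fun i _ => (inv_pos.2 hP).le) ?_ (fun i _ => hyD i)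
      rw [Finset.sum_const, Finset.card_univ, Fintype.card_fin, nsmul_eq_mul]
      exact mul_inv_cancel₀ hP.ne'
    have hZ : (1 - δ / 2) • v0 + (δ / 2) • ∑ i, P⁻¹ • y i ∈ D :=
      hD hv0D hY (by linarith) (by linarith) (by ring)
    have heq : a + δ' • Dg g = (1 - δ / 2) • v0 + (δ / 2) • ∑ i, P⁻¹ • y i := by
      have h1 : (δ / 2) • ∑ i, P⁻¹ • y i
          = δ' • ∑ i, ((vp i + vm i) + g i • (vp i - vm i)) := by
        rw [Finset.smul_sum, Finset.smul_sum]
        refine Finset.sum_congr rfl fun i _ => ?_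
        rw [hy, smul_smul]
        simp only
        rw [show (δ / 2 * P⁻¹) = 2 * δ' by rw [hδ']; field_simp; ring]
        module
      have h2 : e2 = ∑ i, (vp i + vm i) - ((2 : ℝ) * P) • v0 := by
        rw [he2, Finset.sum_sub_distrib, Finset.sum_const, Finset.card_univ, Fintype.card_fin,
          ← Nat.cast_smul_eq_nsmul ℝ, smul_smul]
        rw [mul_comm]
      have h3 : δ' * (2 * P) = δ / 2 := by
        have := hδ'P
        linarith
      have h5 : ∑ i, ((vp i + vm i) + g i • (vp i - vm i)) = ∑ i, (vp i + vm i) + Dg g :=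
        Finset.sum_add_distrib
      rw [h1, ha, h2, h5, ← h3]
      module
    rw [heq]
    exact hZ
  -- seminorm bounds
  have hom2 : ∀ x ∈ U, ∀ y ∈ U, om (x - y) ≤ 2 * C := by
    intro x hx y hy
    have := map_sub_le_add om x y
    linarith [hom x hx, hom y hy]
  have hC1 : om e1 ≤ ε := hv0
  have hterm : ∀ i, vp i + vm i - (2 : ℝ) • v0 = (vp i - v0) + (vm i - v0) := fun i => by module
  have home2 : om e2 ≤ P * (4 * C) := by
    have h1 := OpenMap2_sum_smul_om om (fun _ : Fin p => (1 : ℝ))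
      (fun i => vp i + vm i - (2 : ℝ) • v0) (4 * C) (fun i => by
        rw [hterm i]
        have := map_add_le_add om (vp i - v0) (vm i - v0)
        linarith [hom2 (vp i) (hvpU i) v0 hv0U, hom2 (vm i) (hvmU i) v0 hv0U])
    have h2 : ‖(fun _ : Fin p => (1 : ℝ))‖ ≤ 1 := by
      refine (pi_norm_le_iff_of_nonneg zero_le_one).2 fun i => by simp
    have h3 : ∑ i, (1 : ℝ) • (vp i + vm i - (2 : ℝ) • v0) = e2 := by simp [he2]
    rw [h3] at h1
    have h4 : 0 ≤ (p : ℝ) * (4 * C) := by positivity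
    nlinarith
  have home : om e ≤ ε + δ * C := by
    rw [hee]
    have h1 := map_add_le_add om e1 (δ' • e2)
    rw [map_smul_eq_mul, Real.norm_eq_abs, abs_of_pos hδ'0] at h1
    have h2 : δ' * om e2 ≤ δ' * (P * (4 * C)) := mul_le_mul_of_nonneg_left home2 hδ'0.le
    have h3 : δ' * (P * (4 * C)) = δ * C := by
      have : δ' * (P * (4 * C)) = (P * δ') * (4 * C) := by ring
      rw [this, hδ'P]; ring
    linarith
  have homD : ∀ g, om (Dg g) ≤ P * (2 * C) * ‖g‖ := fun g =>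
    OpenMap2_sum_smul_om om g (fun i => vp i - vm i) (2 * C)
      (fun i => hom2 _ (hvpU i) _ (hvmU i))
  have homD' : ∀ g, om (δ' • Dg g) ≤ δ / 2 * C * ‖g‖ := by
    intro g
    rw [map_smul_eq_mul, Real.norm_eq_abs, abs_of_pos hδ'0]
    calc δ' * om (Dg g) ≤ δ' * (P * (2 * C) * ‖g‖) :=
          mul_le_mul_of_nonneg_left (homD g) hδ'0.le
      _ = (P * δ') * (2 * C * ‖g‖) := by ring
      _ = δ / 2 * C * ‖g‖ := by rw [hδ'P]; ring
  have homz : ∀ g, ‖g‖ ≤ 1 → om (a + δ' • Dg g - u₀) ≤ ε + 3 / 2 * (δ * C) := by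
    intro g hg
    have h0 : a + δ' • Dg g - u₀ = e + δ' • Dg g := by
      rw [he]
      abel
    rw [h0]
    have h1 := map_add_le_add om e (δ' • Dg g)
    have h2 := homD' g
    have h3 : δ / 2 * C * ‖g‖ ≤ δ / 2 * C := mul_le_of_le_one_right (by positivity) hg
    linarith
  -- the linear part on Dg
  have hLD : ∀ g, ‖L (Dg g) - (2 * r) • g‖ ≤ P * (2 * C * ε) * ‖g‖ := by
    intro g
    have h0 : L (Dg g) - (2 * r) • g
        = ∑ i, g i • (L (vp i - vm i) - (2 * r) • Pi.single i (1 : ℝ)) := by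
      have h01 : L (Dg g) = ∑ i, g i • L (vp i - vm i) := by
        have : Dg g = ∑ i, g i • (vp i - vm i) := rfl
        rw [this, map_sum]
        exact Finset.sum_congr rfl fun i _ => by rw [map_smul]
      have h02 : (2 * r) • g = ∑ i, g i • ((2 * r) • Pi.single i (1 : ℝ)) := by
        funext j
        rw [Finset.sum_apply, Finset.sum_eq_single j]
        · simp [mul_comm]
        · intro b _ hb
          simp [Ne.symm hb]
        · intro h
          exact absurd (Finset.mem_univ j) h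
      rw [h01, h02, ← Finset.sum_sub_distrib]
      exact Finset.sum_congr rfl fun i _ => by rw [smul_sub]
    rw [h0]
    refine OpenMap2_sum_smul_norm g _ (2 * C * ε) (fun i => ?_)
    have h1 : L (vp i - vm i) - (2 * r) • Pi.single i (1 : ℝ)
        = L (vp i - wp i) - L (vm i - wm i) := by
      have h2 := hwpL i
      have h3 := hwmL i
      have h4 : L (vp i - vm i)
          = L (vp i - wp i) - L (vm i - wm i) + (L (wp i - u₀) - L (wm i - u₀)) := by
        simp only [map_sub]; abel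
      rw [h4, h2, h3]
      module
    rw [h1]
    calc ‖L (vp i - wp i) - L (vm i - wm i)‖ ≤ ‖L (vp i - wp i)‖ + ‖L (vm i - wm i)‖ :=
          norm_sub_le _ _
      _ ≤ C * om (vp i - wp i) + C * om (vm i - wm i) :=
          add_le_add (hL _) (hL _)
      _ ≤ C * ε + C * ε :=
          add_le_add (mul_le_mul_of_nonneg_left (hvpe i) hC)
            (mul_le_mul_of_nonneg_left (hvme i) hC)
      _ = 2 * C * ε := by ring
  have hLe2 : ‖L e2‖ ≤ P * (4 * C * ε) := by
    have h0 : L e2 = ∑ i, (1 : Fin p → ℝ) i • L (vp i + vm i - (2 : ℝ) • v0) := by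
      rw [he2, map_sum]
      simp
    rw [h0]
    have h1 := OpenMap2_sum_smul_norm (1 : Fin p → ℝ)
      (fun i => L (vp i + vm i - (2 : ℝ) • v0)) (4 * C * ε) (fun i => by
        have h4 : L (vp i + vm i - (2 : ℝ) • v0) = L (vp i - wp i) + L (vm i - wm i)
            - (L e1 + L e1) + (L (wp i - u₀) + L (wm i - u₀)) := by
          rw [he1]
          simp only [map_sub, map_add, map_smul]
          module
        rw [h4, hwpL i, hwmL i, add_neg_cancel, add_zero]
        calc ‖L (vp i - wp i) + L (vm i - wm i) - (L e1 + L e1)‖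
            ≤ ‖L (vp i - wp i) + L (vm i - wm i)‖ + ‖L e1 + L e1‖ := norm_sub_le _ _
          _ ≤ (‖L (vp i - wp i)‖ + ‖L (vm i - wm i)‖) + (‖L e1‖ + ‖L e1‖) :=
              add_le_add (norm_add_le _ _) (norm_add_le _ _)
          _ ≤ (C * ε + C * ε) + (C * ε + C * ε) := by
              have q1 := (hL (vp i - wp i)).trans (mul_le_mul_of_nonneg_left (hvpe i) hC)
              have q2 := (hL (vm i - wm i)).trans (mul_le_mul_of_nonneg_left (hvme i) hC)
              have q3 := (hL e1).trans (mul_le_mul_of_nonneg_left hC1 hC)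
              linarith
          _ = 4 * C * ε := by ring)
    have h2 : ‖(1 : Fin p → ℝ)‖ ≤ 1 :=
      (pi_norm_le_iff_of_nonneg zero_le_one).2 fun i => by simp
    have h3 : 0 ≤ (p : ℝ) * (4 * C * ε) := by positivity
    nlinarith
  have hLe : ‖L e‖ ≤ 2 * C * ε := by
    rw [hee, map_add, map_smul]
    have q1 := (hL e1).trans (mul_le_mul_of_nonneg_left hC1 hC)
    have q2 : ‖δ' • L e2‖ ≤ C * ε := by
      rw [norm_smul, Real.norm_eq_abs, abs_of_pos hδ'0]
      calc δ' * ‖L e2‖ ≤ δ' * (P * (4 * C * ε)) :=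
            mul_le_mul_of_nonneg_left hLe2 hδ'0.le
        _ = (P * δ') * (4 * C * ε) := by ring
        _ = δ * (C * ε) := by rw [hδ'P]; ring
        _ ≤ 1 * (C * ε) := mul_le_mul_of_nonneg_right hδ1 (by positivity)
        _ = C * ε := one_mul _
    have := norm_add_le (L e1) (δ' • L e2)
    linarith
  -- the contraction
  set G : (Fin p → ℝ) → (Fin p → ℝ) :=
    fun g => J (a + δ' • Dg g) - J u₀ - (2 * r * δ') • g with hG
  have hκ : 2 * r * δ' / 2 = r * δ / (4 * P) := by rw [hδ']; field_simp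
  have hGlip : ∀ g h, ‖g‖ ≤ 1 → ‖h‖ ≤ 1 → ‖G g - G h‖ ≤ 2 * r * δ' / 2 * ‖g - h‖ := by
    intro g h hg hh
    have hz : a + δ' • Dg g - (a + δ' • Dg h) = δ' • Dg (g - h) := by
      rw [hDgsub, smul_sub]
      abel
    have h0 : G g - G h = (J (a + δ' • Dg g) - J (a + δ' • Dg h)
        - L (a + δ' • Dg g - (a + δ' • Dg h)))
        + δ' • (L (Dg (g - h)) - (2 * r) • (g - h)) := by
      rw [hz, map_smul]
      simp only [hG]
      module
    rw [h0]
    have q1 := hJ _ (hDU (hmem g hg)) _ (hDU (hmem h hh))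
    rw [hz] at q1
    have q2 : C * (om (a + δ' • Dg g - u₀) + om (a + δ' • Dg h - u₀)) * om (δ' • Dg (g - h))
        ≤ C * (2 * ε + 3 * (δ * C)) * (δ / 2 * C * ‖g - h‖) := by
      refine mul_le_mul (mul_le_mul_of_nonneg_left ?_ hC) (homD' _) (apply_nonneg _ _)
        (by positivity)
      linarith [homz g hg, homz h hh]
    have q3 : ‖δ' • (L (Dg (g - h)) - (2 * r) • (g - h))‖ ≤ δ / 2 * C * ε * ‖g - h‖ := by
      rw [norm_smul, Real.norm_eq_abs, abs_of_pos hδ'0]
      calc δ' * ‖L (Dg (g - h)) - (2 * r) • (g - h)‖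
          ≤ δ' * (P * (2 * C * ε) * ‖g - h‖) := mul_le_mul_of_nonneg_left (hLD _) hδ'0.le
        _ = (P * δ') * (2 * C * ε * ‖g - h‖) := by ring
        _ = δ / 2 * C * ε * ‖g - h‖ := by rw [hδ'P]; ring
    rw [hz, hκ]
    have q4 : C * (2 * ε + 3 * (δ * C)) * (δ / 2 * C) + δ / 2 * C * ε ≤ r * δ / (4 * P) := by
      rw [le_div_iff₀ (by positivity)]
      have h1 : r * δ ≤ r := mul_le_of_le_one_right hr.le hδ1
      have h2 : 0 ≤ P * C * ε := by positivity
      have h3 : 0 ≤ P * C ^ 2 * ε := by positivity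
      have h4 : (C * (2 * ε + 3 * (δ * C)) * (δ / 2 * C) + δ / 2 * C * ε) * (4 * P)
          = δ * (4 * (P * C ^ 2 * ε) + 2 * (P * C * ε) + 6 / 16 * (16 * P * C ^ 3 * δ)) := by ring
      have h5 : 32 * (P * C * ε) + 32 * (P * C ^ 2 * ε) ≤ r := by
        have : 32 * P * (C + C ^ 2) * ε = 32 * (P * C * ε) + 32 * (P * C ^ 2 * ε) := by ring
        linarith
      have h6 : 4 * (P * C ^ 2 * ε) + 2 * (P * C * ε) + 6 / 16 * (16 * P * C ^ 3 * δ) ≤ r := by
        linarith
      rw [h4, mul_comm r δ]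
      exact mul_le_mul_of_nonneg_left h6 hδ0.le
    have q5 := norm_add_le (J (a + δ' • Dg g) - J (a + δ' • Dg h) - L (δ' • Dg (g - h)))
      (δ' • (L (Dg (g - h)) - (2 * r) • (g - h)))
    have q6 := mul_le_mul_of_nonneg_right q4 (norm_nonneg (g - h))
    have q7 : (C * (2 * ε + 3 * (δ * C)) * (δ / 2 * C) + δ / 2 * C * ε) * ‖g - h‖
        = C * (2 * ε + 3 * (δ * C)) * (δ / 2 * C * ‖g - h‖) + δ / 2 * C * ε * ‖g - h‖ := by ring
    linarith
  have hG0 : ‖G 0‖ ≤ 2 * r * δ' / 2 := by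
    have hD0 : Dg 0 = 0 := by simp [hDg]
    have h1 := hmem 0 (by simp)
    rw [hD0, smul_zero, add_zero] at h1
    have h0 : G 0 = (J a - J u₀ - L (a - u₀)) + L e := by
      simp only [hG, hD0, smul_zero, add_zero, sub_zero]
      rw [he]
      abel
    rw [h0]
    have q1 := hJ a (hDU h1) u₀ hu₀
    rw [sub_self, map_zero, add_zero] at q1
    have q2 : C * om (a - u₀) * om (a - u₀) ≤ C * (ε + δ * C) * (ε + δ * C) := by
      have h2 : om (a - u₀) ≤ ε + δ * C := home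
      refine mul_le_mul (mul_le_mul_of_nonneg_left h2 hC) h2 (apply_nonneg _ _) (by positivity)
    have q3 : C * (ε + δ * C) * (ε + δ * C) ≤ 2 * (C * ε) + 2 * (C ^ 3 * δ ^ 2) := by
      have h2 : (ε + δ * C) ^ 2 ≤ 2 * ε ^ 2 + 2 * (δ * C) ^ 2 := by
        nlinarith [sq_nonneg (ε - δ * C)]
      have h3 : ε ^ 2 ≤ ε := by nlinarith
      have h4 : (ε + δ * C) ^ 2 ≤ 2 * ε + 2 * (δ * C) ^ 2 := by linarith
      calc C * (ε + δ * C) * (ε + δ * C) = C * (ε + δ * C) ^ 2 := by ring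
        _ ≤ C * (2 * ε + 2 * (δ * C) ^ 2) := mul_le_mul_of_nonneg_left h4 hC
        _ = 2 * (C * ε) + 2 * (C ^ 3 * δ ^ 2) := by ring
    have q4 : 2 * (C * ε) + 2 * (C ^ 3 * δ ^ 2) + 2 * C * ε ≤ r * δ / (4 * P) := by
      rw [le_div_iff₀ (by positivity)]
      have h2 : 0 ≤ P * C ^ 2 * ε := by positivity
      have h3 : (16 * P * C ^ 3 * δ) * δ ≤ r * δ := mul_le_mul_of_nonneg_right hδ2 hδ0.le
      have h4 : (2 * (C * ε) + 2 * (C ^ 3 * δ ^ 2) + 2 * C * ε) * (4 * P)
          = 16 * (P * C * ε) + (16 * P * C ^ 3 * δ) * δ / 2 := by ring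
      have h5 : 32 * (P * C * ε) + 32 * (P * C ^ 2 * ε) ≤ r * δ := by
        have : 32 * P * (C + C ^ 2) * ε = 32 * (P * C * ε) + 32 * (P * C ^ 2 * ε) := by ring
        linarith
      rw [h4]
      linarith
    rw [hκ]
    have q5 := norm_add_le (J a - J u₀ - L (a - u₀)) (L e)
    linarith
  have hGb : ∀ g, ‖g‖ ≤ 1 → ‖G g‖ ≤ 2 * r * δ' := by
    intro g hg
    have h1 := hGlip g 0 hg (by simp)
    rw [sub_zero] at h1
    have h2 : 2 * r * δ' / 2 * ‖g‖ ≤ 2 * r * δ' / 2 := mul_le_of_le_one_right (by positivity) hg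
    have h3 : ‖G g‖ ≤ ‖G g - G 0‖ + ‖G 0‖ := by
      have := norm_add_le (G g - G 0) (G 0)
      rwa [sub_add_cancel] at this
    linarith
  obtain ⟨g, hg, hfix⟩ := OpenMap2_fix G (κ := 2 * r * δ') (by positivity) hGb hGlip
  refine ⟨a + δ' • Dg g, hmem g hg, ?_⟩
  have h1 : (2 * r * δ') • g = -(J (a + δ' • Dg g) - J u₀ - (2 * r * δ') • g) := hfix
  have h2 : J (a + δ' • Dg g) - J u₀ = 0 := by
    have h3 : J (a + δ' • Dg g) - J u₀
        = (J (a + δ' • Dg g) - J u₀ - (2 * r * δ') • g) + (2 * r * δ') • g := by abel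
    rw [h3]
    nth_rewrite 2 [h1]
    abel
  exact sub_eq_zero.1 h2

end Pool.Agent.Lib.MP_28b8de_an
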