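import Pool.Agent.Lib.MP_28b8de_an.E.RelayE
import Pool.Agent.Lib.MP_28b8de_an.E.OpenMap2
import Pool.Agent.Lib.MP_28b8de_an.E.CEst
import Pool.Agent.Lib.MP_28b8de_an.Approx

/-!
MP_28b8de_an, module CoreE1: multipliers for linear systems with a nonlinear scalar output.
-/

namespace Pool.Agent.Lib.MP_28b8de_an

open Filter Topology Set MeasureTheory

/-- the data of the optimisation problem -/
structure CD (k m r : ℕ) where
  /-- output row -/
  l : Fin k → ℝ → ℝ
  /-- input column -/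
  b : Fin k → ℝ → ℝ
  /-- free output -/
  z0 : ℝ → ℝ
  /-- nonlinearities -/
  H : Fin m → ℝ × ℝ → ℝ
  /-- linear functionals -/
  gs : Fin r → ℝ → ℝ

/-- analyticity -/
structure CD.An {k m r : ℕ} (S : CD k m r) : Prop where
  l : ∀ i, AnalyticOnNhd ℝ (S.l i) univ
  b : ∀ i, AnalyticOnNhd ℝ (S.b i) univ
  z0 : AnalyticOnNhd ℝ S.z0 univ
  H : ∀ i, AnalyticOnNhd ℝ (S.H i) univ
  gs : ∀ i, AnalyticOnNhd ℝ (S.gs i) univ

/-- multipliers -/
abbrev MulE (m r : ℕ) := (Fin r → ℝ) × (Fin m → ℝ)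

section

variable {k m r : ℕ} (S : CD k m r) (T : ℝ) (u : ℝ → ℝ) (ν : MulE m r)

/-- the nonlinearity of a multiplier -/
def CD.HN (p : ℝ × ℝ) : ℝ := ∑ j, ν.2 j * S.H j p

/-- the relay data of a multiplier -/
noncomputable def CD.RN : RD k where
  l := S.l
  b := S.b
  z0 := S.z0
  ψ := fun t => ∑ i, ν.1 i * S.gs i t
    + ∑ i, S.b i t * ∫ s in (0 : ℝ)..T, S.l i s * D2 (S.HN ν) (s, Phi S.l S.b S.z0 u 0 s)
  H := S.HN ν

/-- the switching function of a multiplier -/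
noncomputable def CD.phiE (t : ℝ) : ℝ := ∑ i, ν.1 i * S.gs i t
  + ∑ i, S.b i t * ∫ s in t..T, S.l i s * D2 (S.HN ν) (s, Phi S.l S.b S.z0 u 0 s)

/-- the first variation of the functional of a multiplier -/
noncomputable def CD.varE (w : ℝ → ℝ) : ℝ := ∑ i, ν.1 i * (∫ t in (0 : ℝ)..T, S.gs i t * w t)
  + ∑ j, ν.2 j * ∫ t in (0 : ℝ)..T, D2 (S.H j) (t, Phi S.l S.b S.z0 u 0 t)
      * ∑ i, S.l i t * xi S.b w i t

/-- the functional of a multiplier -/
noncomputable def CD.valE (w : ℝ → ℝ) : ℝ := ∑ i, ν.1 i * (∫ t in (0 : ℝ)..T, S.gs i t * w t)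
  + ∑ j, ν.2 j * ∫ t in (0 : ℝ)..T, S.H j (t, Phi S.l S.b S.z0 w 0 t)

end

variable {k m r : ℕ} {S : CD k m r}

theorem HN_an (hS : S.An) (ν : MulE m r) : AnalyticOnNhd ℝ (S.HN ν) univ := by
  intro p hp
  unfold CD.HN
  apply Finset.analyticAt_fun_sum
  intro j _
  exact analyticAt_const.mul (hS.H j p hp)

theorem D2_HN (hS : S.An) (ν : MulE m r) (p : ℝ × ℝ) :
    D2 (S.HN ν) p = ∑ j, ν.2 j * D2 (S.H j) p := by
  unfold D2
  have h1 : HasFDerivAt (S.HN ν) (∑ j, ν.2 j • fderiv ℝ (S.H j) p) p := by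
    unfold CD.HN
    apply HasFDerivAt.fun_sum
    intro j _
    exact ((hS.H j p (mem_univ p)).differentiableAt.hasFDerivAt).const_mul (ν.2 j)
  rw [h1.fderiv]
  simp

theorem D2_D2_HN (hS : S.An) (ν : MulE m r) (p : ℝ × ℝ) :
    D2 (D2 (S.HN ν)) p = ∑ j, ν.2 j * D2 (D2 (S.H j)) p := by
  have h0 : D2 (S.HN ν) = fun p => ∑ j, ν.2 j * D2 (S.H j) p := by
    ext p
    exact D2_HN hS ν p
  rw [h0]
  unfold D2
  have h1 : HasFDerivAt (fun p => ∑ j, ν.2 j * D2 (S.H j) p)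
      (∑ j, ν.2 j • fderiv ℝ (D2 (S.H j)) p) p := by
    apply HasFDerivAt.fun_sum
    intro j _
    exact ((D2_an (hS.H j) p (mem_univ p)).differentiableAt.hasFDerivAt).const_mul (ν.2 j)
  have h2 := h1.fderiv
  unfold D2 at h2
  rw [h2]
  simp

theorem RN_an (hS : S.An) (T : ℝ) (u : ℝ → ℝ) (ν : MulE m r) : (S.RN T u ν).An where
  l := hS.l
  b := hS.b
  z0 := hS.z0
  ψ := by
    intro t ht
    apply AnalyticAt.add
    · apply Finset.analyticAt_fun_sum
      intro i _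
      exact analyticAt_const.mul (hS.gs i t ht)
    · apply Finset.analyticAt_fun_sum
      intro i _
      exact (hS.b i t ht).mul analyticAt_const
  H := HN_an hS ν

theorem zE_cont (hS : S.An) (u : BM) : Continuous (Phi S.l S.b S.z0 u.1 0) := by
  obtain ⟨K, -, hK⟩ := BM_bdd u
  exact Phi_cont hS.l hS.b hS.z0 (BM_meas u) hK 0

theorem hz_cont (hS : S.An) (u : BM) {F : ℝ × ℝ → ℝ} (hF : AnalyticOnNhd ℝ F univ) :
    Continuous fun t => F (t, Phi S.l S.b S.z0 u.1 0 t) := by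
  have h1 : Continuous F := by
    rw [continuous_iff_continuousAt]
    exact fun p => (hF p (mem_univ p)).continuousAt
  exact h1.comp (continuous_id.prodMk (zE_cont hS u))

theorem phiE_eq (hS : S.An) {T : ℝ} {u : BM} (ν : MulE m r) {t : ℝ} (ht : t ∈ Icc 0 T) :
    S.phiE T u.1 ν t = (S.RN T u.1 ν).phi T u.1 0 t := by
  have hR := RN_an hS T u.1 ν
  have hc : ∀ i, Continuous fun s => S.l i s * D2 (S.HN ν) (s, Phi S.l S.b S.z0 u.1 0 s) :=
    fun i => (continuous_of_analytic (hS.l i)).mul (hz_cont hS u (D2_an (HN_an hS ν)))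
  have h0 : (S.RN T u.1 ν).phi T u.1 0 t = (S.RN T u.1 ν).ψ t + ∑ i, (S.RN T u.1 ν).b i t
      * xi (fun i t => - (S.RN T u.1 ν).l i t) ((S.RN T u.1 ν).v T u.1) i t := by
    unfold RD.phi Phi
    simp only [iteratedDeriv_zero]
  rw [h0]
  unfold CD.phiE
  have h1 : (S.RN T u.1 ν).ψ t = ∑ i, ν.1 i * S.gs i t
    + ∑ i, S.b i t * ∫ s in (0 : ℝ)..T, S.l i s * D2 (S.HN ν) (s, Phi S.l S.b S.z0 u.1 0 s) := rfl
  rw [h1, add_assoc, ← Finset.sum_add_distrib]
  congr 1
  apply Finset.sum_congr rfl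
  intro i _
  have h2 : (S.RN T u.1 ν).b i t = S.b i t := rfl
  rw [h2, ← mul_add]
  congr 1
  have h3 : xi (fun i t => - (S.RN T u.1 ν).l i t) ((S.RN T u.1 ν).v T u.1) i t
      = - ∫ s in (0 : ℝ)..t, S.l i s * D2 (S.HN ν) (s, Phi S.l S.b S.z0 u.1 0 s) := by
    unfold xi
    rw [← intervalIntegral.integral_neg]
    apply intervalIntegral.integral_congr
    intro s hs
    rw [uIcc_of_le ht.1] at hs
    have h4 : (S.RN T u.1 ν).v T u.1 s = D2 (S.HN ν) (s, Phi S.l S.b S.z0 u.1 0 s) :=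
      RD_v_eq ⟨hs.1, hs.2.trans ht.2⟩
    show - (S.RN T u.1 ν).l i s * (S.RN T u.1 ν).v T u.1 s = _
    rw [h4]
    show - S.l i s * _ = _
    ring
  rw [h3, ← intervalIntegral.integral_add_adjacent_intervals ((hc i).intervalIntegrable 0 t)
    ((hc i).intervalIntegrable t T)]
  ring

theorem phiE_cont (hS : S.An) (T : ℝ) (u : BM) (ν : MulE m r) : Continuous (S.phiE T u.1 ν) := by
  have hc : ∀ i, Continuous fun s => S.l i s * D2 (S.HN ν) (s, Phi S.l S.b S.z0 u.1 0 s) :=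
    fun i => (continuous_of_analytic (hS.l i)).mul (hz_cont hS u (D2_an (HN_an hS ν)))
  unfold CD.phiE
  apply Continuous.add
  · apply continuous_finsetSum
    intro i _
    exact continuous_const.mul (continuous_of_analytic (hS.gs i))
  · apply continuous_finsetSum
    intro i _
    apply (continuous_of_analytic (hS.b i)).mul
    have h1 : (fun t => ∫ s in t..T, S.l i s * D2 (S.HN ν) (s, Phi S.l S.b S.z0 u.1 0 s))
        = fun t => - ∫ s in T..t, S.l i s * D2 (S.HN ν) (s, Phi S.l S.b S.z0 u.1 0 s) := by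
      ext t
      rw [intervalIntegral.integral_symm]
    rw [h1]
    exact (intervalIntegral.continuous_primitive
      (fun p q => (hc i).intervalIntegrable p q) T).neg

theorem varE_eq (hS : S.An) {T : ℝ} (hT : 0 ≤ T) (u w : BM) (ν : MulE m r) :
    S.varE T u.1 ν w.1 = ∫ t in (0 : ℝ)..T, S.phiE T u.1 ν t * w.1 t := by
  obtain ⟨K, -, hK⟩ := BM_bdd w
  have hc : ∀ i, Continuous fun s => S.l i s * D2 (S.HN ν) (s, Phi S.l S.b S.z0 u.1 0 s) :=
    fun i => (continuous_of_analytic (hS.l i)).mul (hz_cont hS u (D2_an (HN_an hS ν)))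
  have hPc : ∀ i, Continuous fun t => ∫ s in t..T, S.l i s * D2 (S.HN ν) (s, Phi S.l S.b S.z0 u.1 0 s) := by
    intro i
    have h1 : (fun t => ∫ s in t..T, S.l i s * D2 (S.HN ν) (s, Phi S.l S.b S.z0 u.1 0 s))
        = fun t => - ∫ s in T..t, S.l i s * D2 (S.HN ν) (s, Phi S.l S.b S.z0 u.1 0 s) := by
      ext t
      rw [intervalIntegral.integral_symm]
    rw [h1]
    exact (intervalIntegral.continuous_primitive
      (fun p q => (hc i).intervalIntegrable p q) T).neg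
  have hxw : ∀ i, Continuous (xi S.b w.1 i) := fun i => xi_cont hS.b (BM_meas w) hK i
  have hsc : Continuous fun t => ∑ i, S.l i t * xi S.b w.1 i t := by
    apply continuous_finsetSum
    intro i _
    exact (continuous_of_analytic (hS.l i)).mul (hxw i)
  -- the nonlinear part
  have h1 : ∑ j, ν.2 j * ∫ t in (0 : ℝ)..T, D2 (S.H j) (t, Phi S.l S.b S.z0 u.1 0 t)
        * ∑ i, S.l i t * xi S.b w.1 i t
      = ∫ t in (0 : ℝ)..T, D2 (S.HN ν) (t, Phi S.l S.b S.z0 u.1 0 t)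
        * ∑ i, S.l i t * xi S.b w.1 i t := by
    have h2 : ∀ j, ν.2 j * ∫ t in (0 : ℝ)..T, D2 (S.H j) (t, Phi S.l S.b S.z0 u.1 0 t)
        * ∑ i, S.l i t * xi S.b w.1 i t
        = ∫ t in (0 : ℝ)..T, ν.2 j * (D2 (S.H j) (t, Phi S.l S.b S.z0 u.1 0 t)
        * ∑ i, S.l i t * xi S.b w.1 i t) := fun j => by
      rw [intervalIntegral.integral_const_mul]
    have hI : ∀ j, IntervalIntegrable (fun t => ν.2 j * (D2 (S.H j) (t, Phi S.l S.b S.z0 u.1 0 t)
        * ∑ i, S.l i t * xi S.b w.1 i t)) volume 0 T := fun j =>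
      (((hz_cont hS u (D2_an (hS.H j))).mul hsc).intervalIntegrable 0 T).const_mul _
    rw [Finset.sum_congr rfl (fun j _ => h2 j), ← intervalIntegral.integral_finsetSum
      (fun j _ => hI j)]
    congr 1
    ext t
    rw [D2_HN hS, Finset.sum_mul]
    apply Finset.sum_congr rfl
    intro j _
    ring
  unfold CD.varE
  rw [h1, first_varE hS.l hS.b hS.z0 (HN_an hS ν) hT u w]
  have hi1 : ∀ i, IntervalIntegrable (fun t => ν.1 i * (S.gs i t * w.1 t)) volume 0 T := fun i =>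
    (intInt (continuous_of_analytic (hS.gs i)) (BM_meas w) hK 0 T).const_mul _
  have h3 : ∀ i, ν.1 i * (∫ t in (0 : ℝ)..T, S.gs i t * w.1 t)
      = ∫ t in (0 : ℝ)..T, ν.1 i * (S.gs i t * w.1 t) := fun i => by
    rw [intervalIntegral.integral_const_mul]
  have hs1 : IntervalIntegrable (fun t => ∑ i, ν.1 i * (S.gs i t * w.1 t)) volume 0 T := by
    have h9 := IntervalIntegrable.sum Finset.univ fun i _ => hi1 i
    rw [Finset.sum_fn] at h9
    exact h9
  have hs2 : IntervalIntegrable (fun t => (∑ i, S.b i t * ∫ s in t..T, S.l i s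
      * D2 (S.HN ν) (s, Phi S.l S.b S.z0 u.1 0 s)) * w.1 t) volume 0 T := by
    apply intInt _ (BM_meas w) hK 0 T
    apply continuous_finsetSum
    intro i _
    exact (continuous_of_analytic (hS.b i)).mul (hPc i)
  rw [Finset.sum_congr rfl (fun i _ => h3 i), ← intervalIntegral.integral_finsetSum
    (fun i _ => hi1 i), ← intervalIntegral.integral_add hs1 hs2]
  congr 1
  ext t
  unfold CD.phiE
  rw [add_mul]
  congr 1
  rw [Finset.sum_mul]
  apply Finset.sum_congr rfl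
  intro i _
  ring

end Pool.Agent.Lib.MP_28b8de_an
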