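import Pool.Agent.Lib.MP_28b8de_an.E.CoreE1
import Pool.Agent.Lib.MP_28b8de_an.Core

/-!
MP_28b8de_an, module CoreE2: ascent directions and constant functionals.
-/

namespace Pool.Agent.Lib.MP_28b8de_an

open Filter Topology Set MeasureTheory

theorem hasDerivAt_D2 {F : ℝ × ℝ → ℝ} (hF : AnalyticOnNhd ℝ F univ) (t x : ℝ) :
    HasDerivAt (fun x => F (t, x)) (D2 F (t, x)) x := by
  have h1 : HasFDerivAt F (fderiv ℝ F (t, x)) (t, x) :=
    (hF (t, x) (mem_univ _)).differentiableAt.hasFDerivAt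
  have h2 : HasDerivAt (fun x : ℝ => (t, x)) ((0 : ℝ), (1 : ℝ)) x :=
    (hasDerivAt_const x t).prodMk (hasDerivAt_id x)
  exact h1.comp_hasDerivAt x h2

/-- vanishing second derivative in the second variable -/
theorem affine_of_D2 {F : ℝ × ℝ → ℝ} (hF : AnalyticOnNhd ℝ F univ)
    (h : ∀ p, D2 (D2 F) p = 0) (t x y c : ℝ) : F (t, x) - F (t, y) = D2 F (t, c) * (x - y) := by
  have h1 : ∀ x y, D2 F (t, x) = D2 F (t, y) := by
    apply is_const_of_deriv_eq_zero (f := fun x => D2 F (t, x))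
    · exact fun x => (hasDerivAt_D2 (D2_an hF) t x).differentiableAt
    · intro x
      rw [(hasDerivAt_D2 (D2_an hF) t x).deriv, h]
  have h2 : ∀ x y, F (t, x) - D2 F (t, c) * x = F (t, y) - D2 F (t, c) * y := by
    have h3 : ∀ x, HasDerivAt (fun x => F (t, x) - D2 F (t, c) * x) 0 x := by
      intro x
      have h4 := (hasDerivAt_D2 hF t x).sub ((hasDerivAt_id x).const_mul (D2 F (t, c)))
      have h5 : D2 F (t, x) - D2 F (t, c) * 1 = 0 := by
        rw [h1 x c]
        ring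
      rw [h5] at h4
      exact h4
    apply is_const_of_deriv_eq_zero (f := fun x => F (t, x) - D2 F (t, c) * x)
    · exact fun x => (h3 x).differentiableAt
    · exact fun x => (h3 x).deriv
  have := h2 x y
  linarith

variable {k m r : ℕ} {S : CD k m r}

/-- a multiplier with nonvanishing switching function or nonlinearity has an ascent direction -/
theorem ascentE (hS : S.An) {T : ℝ} (hT : 0 < T) {u : BM} (hu : u ∈ UU)
    (hunc : ¬ (SwSet T u.1).Countable) {ν : MulE m r}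
    (hν : ¬ ((∀ t ∈ Icc 0 T, S.phiE T u.1 ν t = 0) ∧
      ((∀ t s, ∑ i, S.l i t * S.b i s = 0) ∨ ∀ p, D2 (D2 (S.HN ν)) p = 0))) :
    ∃ w ∈ UU, 0 < S.varE T u.1 ν (w - u).1 := by
  by_contra hall
  push Not at hall
  apply hν
  set φ := S.phiE T u.1 ν with hφ
  have hφc : Continuous φ := phiE_cont hS T u ν
  have hrel : ∀ᵐ t, t ∈ Icc 0 T → u.1 t * φ t = |φ t| := by
    have hwm : Measurable fun t => φ t / |φ t| := hφc.measurable.div hφc.abs.measurable
    have hwb : ∀ t, abs (φ t / abs (φ t)) ≤ 1 := by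
      intro t
      rw [abs_div, abs_abs]
      exact div_self_le_one _
    set w : BM := ⟨fun t => φ t / |φ t|, hwm, 1, hwb⟩ with hw
    have hwU : w ∈ UU := hwb
    have h1 := hall w hwU
    rw [varE_eq hS hT.le] at h1
    have h2 : ∀ t, φ t * (w - u).1 t = |φ t| - u.1 t * φ t := by
      intro t
      have h3 : (w - u).1 t = φ t / |φ t| - u.1 t := rfl
      rw [h3, mul_sub]
      congr 1
      · rcases eq_or_ne (φ t) 0 with h4 | h4
        · rw [h4]
          simp
        · have h5 : |φ t| ≠ 0 := abs_ne_zero.2 h4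
          field_simp
          rw [sq_abs]
      · ring
    have hnn : ∀ t, 0 ≤ |φ t| - u.1 t * φ t := by
      intro t
      have h3 : |u.1 t * φ t| ≤ |φ t| := by
        rw [abs_mul]
        calc |u.1 t| * |φ t| ≤ 1 * |φ t| := mul_le_mul_of_nonneg_right (hu t) (abs_nonneg _)
          _ = |φ t| := one_mul _
      linarith [(abs_le.1 h3).2]
    rw [intervalIntegral.integral_congr (fun t _ => h2 t)] at h1
    have hint : IntervalIntegrable (fun t => |φ t| - u.1 t * φ t) volume 0 T := by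
      apply (hφc.abs.intervalIntegrable 0 T).sub
      have := intInt hφc (BM_meas u) hu 0 T
      apply this.congr
      intro t _
      exact mul_comm _ _
    have h4 : 0 ≤ ∫ t in (0 : ℝ)..T, (|φ t| - u.1 t * φ t) :=
      intervalIntegral.integral_nonneg hT.le fun t _ => hnn t
    have h5 : ∫ t in (0 : ℝ)..T, (|φ t| - u.1 t * φ t) = 0 := le_antisymm h1 h4
    rw [intervalIntegral.integral_of_le hT.le] at h5
    rw [integral_eq_zero_iff_of_nonneg (fun t => hnn t)
      ((intervalIntegrable_iff_integrableOn_Ioc_of_le hT.le).1 hint)] at h5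
    have h6 := (ae_restrict_iff' measurableSet_Ioc).1 h5
    have h7 : ∀ᵐ t : ℝ, t ≠ 0 := by
      rw [ae_iff]
      simp
    filter_upwards [h6, h7] with t ht ht0 htT
    have h8 : |φ t| - u.1 t * φ t = 0 := ht ⟨lt_of_le_of_ne htT.1 (Ne.symm ht0), htT.2⟩
    linarith
  by_contra hcon
  apply hunc
  apply relayE (RN_an hS T u.1 ν) (BM_meas u) hu
  · filter_upwards [hrel] with t ht htT
    rw [← phiE_eq hS ν htT]
    exact ht htT
  · by_contra hcon2
    push Not at hcon2
    apply hcon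
    refine ⟨?_, ?_⟩
    · intro t ht
      rw [hφ, phiE_eq hS ν ht]
      exact hcon2.1 t ht
    · by_cases hW : ∀ t s, ∑ i, S.l i t * S.b i s = 0
      · exact Or.inl hW
      · right
        push Not at hW
        exact hcon2.2 hW

theorem valE_sub (hS : S.An) {T : ℝ} (u v : BM) (ν : MulE m r) :
    S.valE T ν v.1 - S.valE T ν u.1
      = ∑ i, ν.1 i * (∫ t in (0 : ℝ)..T, S.gs i t * (v - u).1 t)
        + ∫ t in (0 : ℝ)..T, (S.HN ν (t, Phi S.l S.b S.z0 v.1 0 t)
          - S.HN ν (t, Phi S.l S.b S.z0 u.1 0 t)) := by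
  have h1 : ∀ w : BM, ∑ j, ν.2 j * ∫ t in (0 : ℝ)..T, S.H j (t, Phi S.l S.b S.z0 w.1 0 t)
      = ∫ t in (0 : ℝ)..T, S.HN ν (t, Phi S.l S.b S.z0 w.1 0 t) := by
    intro w
    have h2 : ∀ j, ν.2 j * ∫ t in (0 : ℝ)..T, S.H j (t, Phi S.l S.b S.z0 w.1 0 t)
        = ∫ t in (0 : ℝ)..T, ν.2 j * S.H j (t, Phi S.l S.b S.z0 w.1 0 t) := fun j => by
      rw [intervalIntegral.integral_const_mul]
    have hI : ∀ j, IntervalIntegrable (fun t => ν.2 j * S.H j (t, Phi S.l S.b S.z0 w.1 0 t))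
        volume 0 T := fun j => ((hz_cont hS w (hS.H j)).intervalIntegrable 0 T).const_mul _
    rw [Finset.sum_congr rfl (fun j _ => h2 j), ← intervalIntegral.integral_finsetSum
      (fun j _ => hI j)]
    rfl
  have h3 : ∀ i, (∫ t in (0 : ℝ)..T, S.gs i t * (v - u).1 t)
      = (∫ t in (0 : ℝ)..T, S.gs i t * v.1 t) - ∫ t in (0 : ℝ)..T, S.gs i t * u.1 t := by
    intro i
    obtain ⟨K, -, hK⟩ := BM_bdd u
    obtain ⟨K', -, hK'⟩ := BM_bdd v
    rw [← intervalIntegral.integral_sub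
      (intInt (continuous_of_analytic (hS.gs i)) (BM_meas v) hK' 0 T)
      (intInt (continuous_of_analytic (hS.gs i)) (BM_meas u) hK 0 T)]
    congr 1
    ext t
    have : (v - u).1 t = v.1 t - u.1 t := rfl
    rw [this]
    ring
  unfold CD.valE
  rw [h1, h1, intervalIntegral.integral_sub
    ((hz_cont hS v (HN_an hS ν)).intervalIntegrable 0 T)
    ((hz_cont hS u (HN_an hS ν)).intervalIntegrable 0 T)]
  simp only [h3, mul_sub, Finset.sum_sub_distrib]
  ring

theorem z_diff (hS : S.An) (u v : BM) (t : ℝ) :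
    Phi S.l S.b S.z0 v.1 0 t - Phi S.l S.b S.z0 u.1 0 t
      = ∑ i, S.l i t * xi S.b (v - u).1 i t := by
  have h1 : ∀ i, xi S.b v.1 i t = xi S.b u.1 i t + xi S.b (v - u).1 i t := by
    intro i
    have := xi_add hS.b i u (v - u) t
    rw [← this]
    congr 1
    congr 1
    abel
  unfold Phi
  simp only [iteratedDeriv_zero, h1, mul_add, Finset.sum_add_distrib]
  ring

/-- the functional of a multiplier in `Lam0` does not depend on the control -/
theorem constE (hS : S.An) {T : ℝ} (hT : 0 ≤ T) {u : BM} {ν : MulE m r}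
    (h0 : ∀ t ∈ Icc 0 T, S.phiE T u.1 ν t = 0)
    (h1 : (∀ t s, ∑ i, S.l i t * S.b i s = 0) ∨ ∀ p, D2 (D2 (S.HN ν)) p = 0) (v : BM) :
    S.valE T ν v.1 = S.valE T ν u.1 := by
  have hvar : S.varE T u.1 ν (v - u).1 = 0 := by
    rw [varE_eq hS hT]
    have : ∫ t in (0 : ℝ)..T, S.phiE T u.1 ν t * (v - u).1 t = ∫ _t in (0 : ℝ)..T, (0 : ℝ) := by
      apply intervalIntegral.integral_congr
      intro t ht
      rw [uIcc_of_le hT] at ht
      show S.phiE T u.1 ν t * (v - u).1 t = 0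
      rw [h0 t ht, zero_mul]
    rw [this]
    simp
  have hsub := valE_sub (T := T) hS u v ν
  obtain ⟨K, -, hK⟩ := BM_bdd (v - u)
  have hint : ∫ t in (0 : ℝ)..T, (S.HN ν (t, Phi S.l S.b S.z0 v.1 0 t)
          - S.HN ν (t, Phi S.l S.b S.z0 u.1 0 t))
      = ∑ j, ν.2 j * ∫ t in (0 : ℝ)..T, D2 (S.H j) (t, Phi S.l S.b S.z0 u.1 0 t)
        * ∑ i, S.l i t * xi S.b (v - u).1 i t := by
    have hxw : ∀ i, Continuous (xi S.b (v - u).1 i) := fun i =>
      xi_cont hS.b (BM_meas (v - u)) hK i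
    have hsc : Continuous fun t => ∑ i, S.l i t * xi S.b (v - u).1 i t := by
      apply continuous_finsetSum
      intro i _
      exact (continuous_of_analytic (hS.l i)).mul (hxw i)
    have h2 : ∀ j, ν.2 j * ∫ t in (0 : ℝ)..T, D2 (S.H j) (t, Phi S.l S.b S.z0 u.1 0 t)
        * ∑ i, S.l i t * xi S.b (v - u).1 i t
        = ∫ t in (0 : ℝ)..T, ν.2 j * (D2 (S.H j) (t, Phi S.l S.b S.z0 u.1 0 t)
        * ∑ i, S.l i t * xi S.b (v - u).1 i t) := fun j => by
      rw [intervalIntegral.integral_const_mul]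
    have hI : ∀ j, IntervalIntegrable (fun t => ν.2 j * (D2 (S.H j) (t, Phi S.l S.b S.z0 u.1 0 t)
        * ∑ i, S.l i t * xi S.b (v - u).1 i t)) volume 0 T := fun j =>
      (((hz_cont hS u (D2_an (hS.H j))).mul hsc).intervalIntegrable 0 T).const_mul _
    rw [Finset.sum_congr rfl (fun j _ => h2 j), ← intervalIntegral.integral_finsetSum
      (fun j _ => hI j)]
    congr 1
    ext t
    have h3 : ∑ j, ν.2 j * (D2 (S.H j) (t, Phi S.l S.b S.z0 u.1 0 t)
        * ∑ i, S.l i t * xi S.b (v - u).1 i t)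
        = D2 (S.HN ν) (t, Phi S.l S.b S.z0 u.1 0 t) * ∑ i, S.l i t * xi S.b (v - u).1 i t := by
      rw [D2_HN hS, Finset.sum_mul]
      apply Finset.sum_congr rfl
      intro j _
      ring
    rw [h3, ← z_diff hS u v t]
    rcases h1 with h1 | h1
    · have h4 : Phi S.l S.b S.z0 v.1 0 t - Phi S.l S.b S.z0 u.1 0 t = 0 := by
        rw [z_diff hS u v t, ker_sum hS.b (BM_meas (v - u)) hK t]
        have : (fun s => (∑ i, S.l i t * S.b i s) * (v - u).1 s) = fun _ => (0 : ℝ) := by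
          ext s
          rw [h1 t s, zero_mul]
        rw [this]
        simp
      have h5 : Phi S.l S.b S.z0 v.1 0 t = Phi S.l S.b S.z0 u.1 0 t := by linarith
      rw [h4, h5]
      ring
    · exact affine_of_D2 (HN_an hS ν) h1 t _ _ _
  rw [hint] at hsub
  have : S.varE T u.1 ν (v - u).1 = ∑ i, ν.1 i * (∫ t in (0 : ℝ)..T, S.gs i t * (v - u).1 t)
      + ∑ j, ν.2 j * ∫ t in (0 : ℝ)..T, D2 (S.H j) (t, Phi S.l S.b S.z0 u.1 0 t)
        * ∑ i, S.l i t * xi S.b (v - u).1 i t := rfl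
  rw [← this, hvar] at hsub
  linarith

end Pool.Agent.Lib.MP_28b8de_an
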