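import Pool.Agent.Lib.MP_28b8de_an.E.CoreE2

/-!
MP_28b8de_an, module CoreE3: the core theorem for linear systems with a nonlinear scalar output.
-/

namespace Pool.Agent.Lib.MP_28b8de_an

open Filter Topology Set MeasureTheory

variable {k m r : ℕ} {S : CD k m r}

theorem phiE_lin (hS : S.An) (T : ℝ) (u : BM) (ν : MulE m r) (t : ℝ) :
    S.phiE T u.1 ν t = ∑ i, ν.1 i * S.gs i t
      + ∑ j, ν.2 j * ∑ i, S.b i t * ∫ s in t..T, S.l i s
        * D2 (S.H j) (s, Phi S.l S.b S.z0 u.1 0 s) := by
  unfold CD.phiE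
  congr 1
  have hI : ∀ i j, IntervalIntegrable (fun s => ν.2 j * (S.l i s
      * D2 (S.H j) (s, Phi S.l S.b S.z0 u.1 0 s))) volume t T := fun i j =>
    (((continuous_of_analytic (hS.l i)).mul
      (hz_cont hS u (D2_an (hS.H j)))).intervalIntegrable t T).const_mul _
  have h1 : ∀ i, ∫ s in t..T, S.l i s * D2 (S.HN ν) (s, Phi S.l S.b S.z0 u.1 0 s)
      = ∑ j, ν.2 j * ∫ s in t..T, S.l i s * D2 (S.H j) (s, Phi S.l S.b S.z0 u.1 0 s) := by
    intro i
    have h2 : ∀ j, ν.2 j * ∫ s in t..T, S.l i s * D2 (S.H j) (s, Phi S.l S.b S.z0 u.1 0 s)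
        = ∫ s in t..T, ν.2 j * (S.l i s * D2 (S.H j) (s, Phi S.l S.b S.z0 u.1 0 s)) :=
      fun j => by rw [intervalIntegral.integral_const_mul]
    rw [Finset.sum_congr rfl (fun j _ => h2 j), ← intervalIntegral.integral_finsetSum
      (fun j _ => hI i j)]
    congr 1
    ext s
    rw [D2_HN hS, Finset.mul_sum]
    apply Finset.sum_congr rfl
    intro j _
    ring
  simp only [h1, Finset.mul_sum]
  rw [Finset.sum_comm]
  apply Finset.sum_congr rfl
  intro j _
  apply Finset.sum_congr rfl
  intro i _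
  ring

/-- the multipliers with vanishing switching function and constant functional -/
def LamE (hS : S.An) (T : ℝ) (u : BM) : Submodule ℝ (MulE m r) where
  carrier := {ν | (∀ t ∈ Icc 0 T, S.phiE T u.1 ν t = 0) ∧
    ((∀ t s, ∑ i, S.l i t * S.b i s = 0) ∨ ∀ p, D2 (D2 (S.HN ν)) p = 0)}
  add_mem' := by
    rintro ν ν' ⟨h1, h2⟩ ⟨h3, h4⟩
    constructor
    · intro t ht
      have e : S.phiE T u.1 (ν + ν') t = S.phiE T u.1 ν t + S.phiE T u.1 ν' t := by
        rw [phiE_lin hS, phiE_lin hS, phiE_lin hS]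
        simp only [Prod.fst_add, Prod.snd_add, Pi.add_apply, add_mul, Finset.sum_add_distrib]
        ring
      rw [e, h1 t ht, h3 t ht, add_zero]
    · rcases h2 with h2 | h2
      · exact Or.inl h2
      · rcases h4 with h4 | h4
        · exact Or.inl h4
        · right
          intro p
          have e := D2_D2_HN hS (ν + ν') p
          have e1 := D2_D2_HN hS ν p
          have e2 := D2_D2_HN hS ν' p
          rw [h2 p] at e1
          rw [h4 p] at e2
          rw [e]
          simp only [Prod.snd_add, Pi.add_apply, add_mul, Finset.sum_add_distrib]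
          linarith
  zero_mem' := by
    constructor
    · intro t _
      rw [phiE_lin hS]
      simp
    · right
      intro p
      rw [D2_D2_HN hS]
      simp
  smul_mem' := by
    rintro a ν ⟨h1, h2⟩
    constructor
    · intro t ht
      have e : S.phiE T u.1 (a • ν) t = a * S.phiE T u.1 ν t := by
        rw [phiE_lin hS, phiE_lin hS]
        simp only [Prod.smul_fst, Prod.smul_snd, Pi.smul_apply, smul_eq_mul, mul_add,
          Finset.mul_sum, mul_assoc]
      rw [e, h1 t ht, mul_zero]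
    · rcases h2 with h2 | h2
      · exact Or.inl h2
      · right
        intro p
        have e := D2_D2_HN hS (a • ν) p
        have e1 := D2_D2_HN hS ν p
        rw [h2 p] at e1
        rw [e]
        simp only [Prod.smul_snd, Pi.smul_apply, smul_eq_mul, mul_assoc, ← Finset.mul_sum, ← e1,
          mul_zero]

/-- `∫_0^T g_i u` as a linear map -/
noncomputable def gM (hS : S.An) (T : ℝ) (i : Fin r) : BM →ₗ[ℝ] ℝ where
  toFun u := ∫ t in (0 : ℝ)..T, S.gs i t * u.1 t
  map_add' u v := xi_add hS.gs i u v T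
  map_smul' a u := xi_smul i a u T

/-- **Core theorem E.** -/
theorem coreE (hS : S.An) {T : ℝ} {u : BM} (hu : u ∈ UU) :
    ∃ v : BM, v ∈ UU ∧ (SwSet T v.1).Countable ∧
      (∀ i, ∫ t in (0 : ℝ)..T, S.gs i t * v.1 t = ∫ t in (0 : ℝ)..T, S.gs i t * u.1 t) ∧
      ∀ j, ∫ t in (0 : ℝ)..T, S.H j (t, Phi S.l S.b S.z0 v.1 0 t)
        = ∫ t in (0 : ℝ)..T, S.H j (t, Phi S.l S.b S.z0 u.1 0 t) := by
  by_cases hunc : (SwSet T u.1).Countable
  · exact ⟨u, hu, hunc, fun _ => rfl, fun _ => rfl⟩
  have hT : 0 < T := by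
    by_contra hT
    push Not at hT
    apply hunc
    apply (countable_singleton (0 : ℝ)).mono
    intro t ht
    exact le_antisymm (ht.1.2.trans hT) ht.1.1
  choose F hF CF hCF0 hCF using fun j => exists_LE hS.l hS.b hS.z0 (hS.H j) hT.le u
  choose CT hCT0 hCT using fun j => taylorE hS.l hS.b hS.z0 (hS.H j) hT.le hu
  obtain ⟨Cx, hCx0, hCx⟩ := xi_bound hS.gs hT.le
  obtain ⟨L1, hcompl⟩ := Submodule.exists_isCompl (LamE hS T u)
  set bas := Module.finBasis ℝ L1 with hbas
  set p := Module.finrank ℝ L1 with hp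
  set nu : Fin p → MulE m r := fun s => (bas s : MulE m r) with hnu
  set J : BM → (Fin p → ℝ) := fun v s => S.valE T (nu s) v.1 with hJdef
  set L : BM →ₗ[ℝ] (Fin p → ℝ) :=
    LinearMap.pi fun s => ∑ i, (nu s).1 i • gM hS T i + ∑ j, (nu s).2 j • F j with hLdef
  have hLs : ∀ w s, L w s = S.varE T u.1 (nu s) w.1 := by
    intro w s
    simp only [hLdef, LinearMap.pi_apply, LinearMap.add_apply, LinearMap.sum_apply,
      LinearMap.smul_apply, smul_eq_mul, hF]
    rfl
  -- constants
  set Cs : Fin p → ℝ := fun s =>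
    ∑ i, |(nu s).1 i| * Cx + ∑ j, |(nu s).2 j| * (CF j + CT j) with hCs
  have hCs0 : ∀ s, 0 ≤ Cs s := by
    intro s
    apply add_nonneg
    · exact Finset.sum_nonneg fun i _ => mul_nonneg (abs_nonneg _) hCx0
    · exact Finset.sum_nonneg fun j _ => mul_nonneg (abs_nonneg _) (add_nonneg (hCF0 j) (hCT0 j))
  set C : ℝ := ∑ s, Cs s + T with hC
  have hsum0 : 0 ≤ ∑ s, Cs s := Finset.sum_nonneg fun s _ => hCs0 s
  have hCsC : ∀ s, Cs s ≤ C := by
    intro s
    have := Finset.single_le_sum (f := Cs) (fun s _ => hCs0 s) (Finset.mem_univ s)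
    linarith
  have hC0 : 0 ≤ C := by linarith
  have hTC : T ≤ C := by linarith
  have hbdL : ∀ v, ‖L v‖ ≤ C * om T v := by
    intro v
    have hom0 : 0 ≤ om T v := apply_nonneg _ _
    rw [pi_norm_le_iff_of_nonneg (mul_nonneg hC0 hom0)]
    intro s
    have h1 : L v s = ∑ i, (nu s).1 i * (gM hS T i v) + ∑ j, (nu s).2 j * F j v := by
      simp only [hLdef, LinearMap.pi_apply, LinearMap.add_apply, LinearMap.sum_apply,
        LinearMap.smul_apply, smul_eq_mul]
    rw [Real.norm_eq_abs, h1]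
    calc |∑ i, (nu s).1 i * (gM hS T i v) + ∑ j, (nu s).2 j * F j v|
        ≤ |∑ i, (nu s).1 i * (gM hS T i v)| + |∑ j, (nu s).2 j * F j v| := abs_add_le _ _
      _ ≤ ∑ i, |(nu s).1 i| * Cx * om T v + ∑ j, |(nu s).2 j| * (CF j + CT j) * om T v := by
          apply add_le_add
          · apply (Finset.abs_sum_le_sum_abs _ _).trans
            apply Finset.sum_le_sum
            intro i _
            rw [abs_mul, mul_assoc]
            exact mul_le_mul_of_nonneg_left (hCx i v T ⟨hT.le, le_rfl⟩) (abs_nonneg _)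
          · apply (Finset.abs_sum_le_sum_abs _ _).trans
            apply Finset.sum_le_sum
            intro j _
            rw [abs_mul, mul_assoc]
            apply mul_le_mul_of_nonneg_left _ (abs_nonneg _)
            have h2 := hCF j v
            have h3 := mul_nonneg (hCT0 j) hom0
            linarith
      _ = Cs s * om T v := by
          rw [hCs, add_mul, Finset.sum_mul, Finset.sum_mul]
      _ ≤ C * om T v := mul_le_mul_of_nonneg_right (hCsC s) hom0
  have hbdJ : ∀ v ∈ UU, ∀ w ∈ UU,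
      ‖J v - J w - L (v - w)‖ ≤ C * (om T (v - u) + om T (w - u)) * om T (v - w) := by
    intro v hv w hw
    have ho1 : 0 ≤ om T (v - u) := apply_nonneg _ _
    have ho2 : 0 ≤ om T (w - u) := apply_nonneg _ _
    have ho3 : 0 ≤ om T (v - w) := apply_nonneg _ _
    set y : ℝ := (om T (v - u) + om T (w - u)) * om T (v - w) with hy
    have hy0 : 0 ≤ y := mul_nonneg (add_nonneg ho1 ho2) ho3
    rw [mul_assoc, ← hy, pi_norm_le_iff_of_nonneg (mul_nonneg hC0 hy0)]
    intro s
    have h1 : (J v - J w - L (v - w)) s = ∑ j, (nu s).2 j *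
        ((∫ t in (0 : ℝ)..T, S.H j (t, Phi S.l S.b S.z0 v.1 0 t))
        - (∫ t in (0 : ℝ)..T, S.H j (t, Phi S.l S.b S.z0 w.1 0 t)) - F j (v - w)) := by
      have h2 : L (v - w) s = ∑ i, (nu s).1 i * (gM hS T i (v - w))
          + ∑ j, (nu s).2 j * F j (v - w) := by
        simp only [hLdef, LinearMap.pi_apply, LinearMap.add_apply, LinearMap.sum_apply,
          LinearMap.smul_apply, smul_eq_mul]
      have h3 : ∀ i, gM hS T i (v - w) = gM hS T i v - gM hS T i w := fun i => map_sub _ _ _
      have h4 : ∀ x : BM, J x s = ∑ i, (nu s).1 i * gM hS T i x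
          + ∑ j, (nu s).2 j * ∫ t in (0 : ℝ)..T, S.H j (t, Phi S.l S.b S.z0 x.1 0 t) :=
        fun _ => rfl
      simp only [Pi.sub_apply]
      rw [h2, h4, h4]
      simp only [h3, mul_sub, Finset.sum_sub_distrib]
      ring
    rw [Real.norm_eq_abs, h1]
    calc |∑ j, (nu s).2 j * ((∫ t in (0 : ℝ)..T, S.H j (t, Phi S.l S.b S.z0 v.1 0 t))
        - (∫ t in (0 : ℝ)..T, S.H j (t, Phi S.l S.b S.z0 w.1 0 t)) - F j (v - w))|
        ≤ ∑ j, |(nu s).2 j| * (CF j + CT j) * y := by
          apply (Finset.abs_sum_le_sum_abs _ _).trans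
          apply Finset.sum_le_sum
          intro j _
          rw [abs_mul, mul_assoc]
          apply mul_le_mul_of_nonneg_left _ (abs_nonneg _)
          have h2 := hCT j v hv w hw
          rw [hF j (v - w)]
          rw [mul_assoc, ← hy] at h2
          have h3 := mul_nonneg (hCF0 j) hy0
          linarith
      _ = (∑ j, |(nu s).2 j| * (CF j + CT j)) * y := by rw [Finset.sum_mul]
      _ ≤ Cs s * y := by
          apply mul_le_mul_of_nonneg_right _ hy0
          have : 0 ≤ ∑ i, |(nu s).1 i| * Cx :=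
            Finset.sum_nonneg fun i _ => mul_nonneg (abs_nonneg _) hCx0
          rw [hCs]
          linarith
      _ ≤ C * y := mul_le_mul_of_nonneg_right (hCsC s) hy0
  obtain ⟨v, hvD, hv⟩ := open_map2 (om T) J L convex_UU (convex_DD T) (DD_subset T)
    (fun u hu ε hε => dense_DD hT hu hε) hC0
    (fun u hu => (om_UU hT.le hu).trans hTC) hbdL hu hbdJ
    (by
      intro lam hlam
      set x : L1 := bas.equivFun.symm lam with hx
      have hx0 : x ≠ 0 := by
        intro h0
        apply hlam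
        have := congrArg bas.equivFun h0
        rw [hx, LinearEquiv.apply_symm_apply, map_zero] at this
        exact this
      have hxsum : (x : MulE m r) = ∑ s, lam s • nu s := by
        rw [hx, Module.Basis.equivFun_symm_apply]
        simp [hnu]
      have hxL : (x : MulE m r) ∉ LamE hS T u := by
        intro h
        apply hx0
        have h1 : (x : MulE m r) ∈ LamE hS T u ⊓ L1 := ⟨h, x.2⟩
        rw [hcompl.inf_eq_bot, Submodule.mem_bot] at h1
        exact Subtype.ext h1
      obtain ⟨w, hwU, hw⟩ := ascentE hS hT hu hunc (ν := (x : MulE m r)) hxL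
      refine ⟨w, hwU, ?_⟩
      have hlin : S.varE T u.1 (x : MulE m r) (w - u).1
          = ∑ s, lam s * S.varE T u.1 (nu s) (w - u).1 := by
        have h1 : ∀ ν : MulE m r, S.varE T u.1 ν (w - u).1
            = pairN (k := r) (m := m) (fun i => ∫ t in (0 : ℝ)..T, S.gs i t * (w - u).1 t)
              (fun j => ∫ t in (0 : ℝ)..T, D2 (S.H j) (t, Phi S.l S.b S.z0 u.1 0 t)
                * ∑ i, S.l i t * xi S.b (w - u).1 i t) ν := fun _ => rfl
        rw [h1, hxsum, map_sum]
        apply Finset.sum_congr rfl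
        intro s _
        rw [map_smul, smul_eq_mul, h1]
      rw [hlin] at hw
      simpa only [hLs] using hw)
  -- the coincidence subspace
  set Sub : Submodule ℝ (MulE m r) := LinearMap.eqLocus
    (pairN (k := r) (m := m) (fun i => ∫ t in (0 : ℝ)..T, S.gs i t * v.1 t)
      (fun j => ∫ t in (0 : ℝ)..T, S.H j (t, Phi S.l S.b S.z0 v.1 0 t)))
    (pairN (k := r) (m := m) (fun i => ∫ t in (0 : ℝ)..T, S.gs i t * u.1 t)
      (fun j => ∫ t in (0 : ℝ)..T, S.H j (t, Phi S.l S.b S.z0 u.1 0 t))) with hSub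
  have hmem : ∀ ν : MulE m r, ν ∈ Sub ↔ S.valE T ν v.1 = S.valE T ν u.1 := fun _ => Iff.rfl
  have hL1S : L1 ≤ Sub := by
    have h1 : (pairN (k := r) (m := m) (fun i => ∫ t in (0 : ℝ)..T, S.gs i t * v.1 t)
      (fun j => ∫ t in (0 : ℝ)..T, S.H j (t, Phi S.l S.b S.z0 v.1 0 t))).comp L1.subtype
        = (pairN (k := r) (m := m) (fun i => ∫ t in (0 : ℝ)..T, S.gs i t * u.1 t)
      (fun j => ∫ t in (0 : ℝ)..T, S.H j (t, Phi S.l S.b S.z0 u.1 0 t))).comp L1.subtype := by
      apply bas.ext
      intro s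
      exact congrFun hv s
    intro ν hν
    exact LinearMap.congr_fun h1 ⟨ν, hν⟩
  have hL0S : LamE hS T u ≤ Sub := by
    intro ν hν
    rw [hmem]
    exact constE hS hT.le hν.1 hν.2 v
  have htop : ∀ ν : MulE m r, ν ∈ Sub := by
    intro ν
    have h1 : (⊤ : Submodule ℝ (MulE m r)) ≤ Sub := by
      rw [← hcompl.sup_eq_top]
      exact sup_le hL0S hL1S
    exact h1 (Submodule.mem_top)
  refine ⟨v, hvD.1, hvD.2, fun i => ?_, fun j => ?_⟩
  · have h2 := (hmem _).1 (htop ((Pi.single i 1, 0) : MulE m r))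
    unfold CD.valE at h2
    simpa [Pi.single_apply] using h2
  · have h2 := (hmem _).1 (htop ((0, Pi.single j 1) : MulE m r))
    unfold CD.valE at h2
    simpa [Pi.single_apply] using h2

end Pool.Agent.Lib.MP_28b8de_an
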