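import Pool.Agent.Lib.MP_28b8de_an.RelayMain

/-!
MP_28b8de_an, module EDefs: definitions for linear systems with a nonlinear scalar output.
-/

namespace Pool.Agent.Lib.MP_28b8de_an

open Filter Topology Set MeasureTheory

/-- partial derivative with respect to the second variable -/
noncomputable def D2 (F : ℝ × ℝ → ℝ) (p : ℝ × ℝ) : ℝ := fderiv ℝ F p (0, 1)

/-- partial derivative with respect to the first variable -/
noncomputable def D1 (F : ℝ × ℝ → ℝ) (p : ℝ × ℝ) : ℝ := fderiv ℝ F p (1, 0)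

theorem D2_an {F : ℝ × ℝ → ℝ} {s : Set (ℝ × ℝ)} (hF : AnalyticOnNhd ℝ F s) :
    AnalyticOnNhd ℝ (D2 F) s := by
  intro p hp
  exact ((ContinuousLinearMap.apply ℝ ℝ ((0 : ℝ), (1 : ℝ))).analyticAt _).comp
    (hF.fderiv p hp)

theorem D1_an {F : ℝ × ℝ → ℝ} {s : Set (ℝ × ℝ)} (hF : AnalyticOnNhd ℝ F s) :
    AnalyticOnNhd ℝ (D1 F) s := by
  intro p hp
  exact ((ContinuousLinearMap.apply ℝ ℝ ((1 : ℝ), (0 : ℝ))).analyticAt _).comp
    (hF.fderiv p hp)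

theorem D2_iter_an {F : ℝ × ℝ → ℝ} {s : Set (ℝ × ℝ)} (hF : AnalyticOnNhd ℝ F s) (j : ℕ) :
    AnalyticOnNhd ℝ (D2^[j] F) s := by
  induction j with
  | zero => simpa using hF
  | succ j ih =>
    rw [Function.iterate_succ_apply']
    exact D2_an ih

/-- relay data: output `z = z0 + ∑ ℓ_i ∫_0^t b_i u`, switching function
`φ = ψ - ∑ b_i ∫_0^t ℓ_i (D2 H)(s, z(s)) ds` -/
structure RD (k : ℕ) where
  /-- output row -/
  l : Fin k → ℝ → ℝ
  /-- input column -/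
  b : Fin k → ℝ → ℝ
  /-- free output -/
  z0 : ℝ → ℝ
  /-- free switching function -/
  ψ : ℝ → ℝ
  /-- nonlinearity -/
  H : ℝ × ℝ → ℝ

/-- all data are real analytic -/
structure RD.An {k : ℕ} (R : RD k) : Prop where
  l : ∀ i, AnalyticOnNhd ℝ (R.l i) univ
  b : ∀ i, AnalyticOnNhd ℝ (R.b i) univ
  z0 : AnalyticOnNhd ℝ R.z0 univ
  ψ : AnalyticOnNhd ℝ R.ψ univ
  H : AnalyticOnNhd ℝ R.H univ

/-- projection of the line to `[0,T]` -/
noncomputable def pr (T t : ℝ) : ℝ := max 0 (min t T)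

section

variable {k : ℕ} (R : RD k)

/-- the output and its formal derivatives -/
noncomputable def RD.z (u : ℝ → ℝ) (j : ℕ) (t : ℝ) : ℝ := Phi R.l R.b R.z0 u j t

/-- `(D2 H)(t, z(t))` on `[0,T]`, extended continuously and boundedly -/
noncomputable def RD.v (T : ℝ) (u : ℝ → ℝ) (t : ℝ) : ℝ := D2 R.H (pr T t, R.z u 0 (pr T t))

/-- the switching function and its formal derivatives -/
noncomputable def RD.phi (T : ℝ) (u : ℝ → ℝ) (j : ℕ) (t : ℝ) : ℝ :=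
  Phi R.b (fun i t => - R.l i t) R.ψ (R.v T u) j t

end

theorem pr_continuous (T : ℝ) : Continuous (pr T) :=
  continuous_const.max (continuous_id.min continuous_const)

theorem pr_mem {T : ℝ} (hT : 0 ≤ T) (t : ℝ) : pr T t ∈ Icc 0 T :=
  ⟨le_max_left _ _, max_le hT (min_le_right _ _)⟩

theorem pr_eq {T t : ℝ} (ht : t ∈ Icc 0 T) : pr T t = t := by
  unfold pr
  rw [min_eq_left ht.2, max_eq_right ht.1]

section

variable {k : ℕ} {R : RD k} (hR : R.An) {u : ℝ → ℝ} (hum : Measurable u)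
  (hub : ∀ t, |u t| ≤ 1)

include hR hum hub

theorem RD_z_cont (j : ℕ) : Continuous (R.z u j) := Phi_cont hR.l hR.b hR.z0 hum hub j

theorem RD_v_cont (T : ℝ) : Continuous (R.v T u) := by
  unfold RD.v
  have h1 : Continuous (D2 R.H) := by
    rw [continuous_iff_continuousAt]
    exact fun p => (D2_an hR.H p (mem_univ p)).continuousAt
  exact h1.comp ((pr_continuous T).prodMk ((RD_z_cont hR hum hub 0).comp (pr_continuous T)))

theorem RD_v_bdd {T : ℝ} (hT : 0 ≤ T) : ∃ K : ℝ, ∀ t, |R.v T u t| ≤ K := by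
  have h1 : Continuous fun t => R.v T u t := RD_v_cont hR hum hub T
  obtain ⟨K, hK⟩ := (isCompact_Icc (a := 0) (b := T)).exists_bound_of_continuousOn h1.continuousOn
  refine ⟨K, fun t => ?_⟩
  have h2 : R.v T u t = R.v T u (pr T t) := by
    unfold RD.v
    rw [pr_eq (pr_mem hT t)]
  rw [h2]
  exact hK _ (pr_mem hT t)

omit hR hum hub in
theorem RD_v_eq {T t : ℝ} (ht : t ∈ Icc 0 T) : R.v T u t = D2 R.H (t, R.z u 0 t) := by
  unfold RD.v
  rw [pr_eq ht]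

end

/-! ### the extended state, for outputs with nondegenerate curvature -/

/-- extended states `(t, ξ, P)` -/
abbrev EE (k : ℕ) := ℝ × (Fin k → ℝ) × (Fin k → ℝ)

section

variable {k : ℕ} (R : RD k)

/-- the output as a function of the extended state -/
noncomputable def RD.zh (e : EE k) : ℝ := R.z0 e.1 + ∑ i, R.l i e.1 * e.2.1 i

/-- the drift of the extended state -/
noncomputable def RD.X (e : EE k) : EE k := (1, 0, fun i => R.l i e.1 * D2 R.H (e.1, R.zh e))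

/-- the fields `Y_m`; `Y_0` is the controlled field -/
noncomputable def RD.Y (m : ℕ) (e : EE k) : EE k := (0, fun i => iteratedDeriv m (R.b i) e.1, 0)

/-- derivative along the drift -/
noncomputable def RD.LX (G : EE k → ℝ) (e : EE k) : ℝ := fderiv ℝ G e (R.X e)

/-- derivative along `Y_m` -/
noncomputable def RD.LY (m : ℕ) (G : EE k → ℝ) (e : EE k) : ℝ := fderiv ℝ G e (R.Y m e)

/-- the switching function as a function of the extended state -/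
noncomputable def RD.F0 (e : EE k) : ℝ := R.ψ e.1 - ∑ i, R.b i e.1 * e.2.2 i

/-- its iterated derivatives along the drift -/
noncomputable def RD.F (j : ℕ) : EE k → ℝ := R.LX^[j] R.F0

/-- the extended trajectory -/
noncomputable def RD.γ (T : ℝ) (u : ℝ → ℝ) (t : ℝ) : EE k :=
  (t, fun i => xi R.b u i t, fun i => xi R.l (R.v T u) i t)

end

/-! ### two-chain gap data -/

/-- the data of a gap between two points of a perfect set, for a nonlinearity of order `q ≥ 2` -/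
structure GapData (N q : ℕ) (C c0 e β0 σ θ s s' : ℝ) (g Z : ℕ → ℝ → ℝ)
    (u A A' β β' V V' ρ ρ' κ Hh Ht : ℝ → ℝ) : Prop where
  hs : s < s'
  hσ : |σ| = 1
  hθ : |θ| = 1
  hum : Measurable u
  hub : ∀ t, |u t| ≤ 1
  gN : ∀ t ∈ Icc s s', g N t = ρ t + V t * κ t
  ZN : ∀ t ∈ Icc s s', Z N t = A t + β t * u t
  gac : ∀ j < N, AbsolutelyContinuousOnInterval (g j) s s'
  gd : ∀ j < N, ∀ᵐ t, t ∈ uIoc s s' → HasDerivAt (g j) (g (j + 1) t) t
  gl : ∀ j < N, g j s = 0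
  gr : ∀ j < N, g j s' = 0
  Zac : ∀ j < N, AbsolutelyContinuousOnInterval (Z j) s s'
  Zd : ∀ j < N, ∀ᵐ t, t ∈ uIoc s s' → HasDerivAt (Z j) (Z (j + 1) t) t
  Zl : ∀ j < N, Z j s = 0
  Zr : ∀ j < N, Z j s' = 0
  hu : ∀ᵐ t, t ∈ uIoc s s' → u t * g 0 t = |g 0 t|
  Aac : AbsolutelyContinuousOnInterval A s s'
  Ad : ∀ᵐ t, t ∈ uIoc s s' → HasDerivAt A (A' t) t
  Ab : ∀ᵐ t, t ∈ uIoc s s' → |A' t| ≤ C
  βac : AbsolutelyContinuousOnInterval β s s'
  βd : ∀ᵐ t, t ∈ uIoc s s' → HasDerivAt β (β' t) t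
  βb : ∀ᵐ t, t ∈ uIoc s s' → |β' t| ≤ C
  βlow : ∀ t ∈ Icc s s', β0 ≤ σ * β t
  βup : ∀ t ∈ Icc s s', |β t| ≤ C
  Ale : ∀ t ∈ Icc s s', |A t| ≤ (1 - e) * (σ * β t)
  Vac : AbsolutelyContinuousOnInterval V s s'
  Vd : ∀ᵐ t, t ∈ uIoc s s' → HasDerivAt V (V' t) t
  Vb : ∀ᵐ t, t ∈ uIoc s s' → |V' t| ≤ C
  Vup : ∀ t ∈ Icc s s', |V t| ≤ C
  ρac : AbsolutelyContinuousOnInterval ρ s s'
  ρd : ∀ᵐ t, t ∈ uIoc s s' → HasDerivAt ρ (ρ' t) t
  ρb : ∀ t ∈ Icc s s', |ρ t| ≤ C * ∫ r in s..s', |Z 0 r| ^ q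
  ρb' : ∀ᵐ t, t ∈ uIoc s s' → |ρ' t| ≤ C * (|Z 0 t| ^ q + ∫ r in s..s', |Z 0 r| ^ q)
  κc : ContinuousOn κ (Icc s s')
  κb : ∀ t ∈ Icc s s', |κ t| ≤ C * |Z 0 t| ^ q
  Hac : AbsolutelyContinuousOnInterval Hh s s'
  Hd : ∀ᵐ t, t ∈ uIoc s s' → HasDerivAt Hh (κ t * Z 1 t + Ht t) t
  H1 : ∀ t ∈ Icc s s', |((q : ℝ) + 1) * Hh t - κ t * Z 0 t| ≤ C * (s' - s) * |Z 0 t| ^ (q + 1)
  H2 : ∀ t ∈ Icc s s', |Hh t| ≤ C * |Z 0 t| ^ (q + 1)
  H3 : ∀ᵐ t, t ∈ uIoc s s' → |Ht t| ≤ C * |Z 0 t| ^ (q + 1)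
  low1 : Odd q → ∀ t ∈ Icc s s', c0 * |Z 0 t| ^ (q + 1) ≤ θ * (V t * κ t * Z 0 t)
  low2 : Even q → ∀ t ∈ Icc s s', c0 * |Z 0 t| ^ q ≤ θ * (V t * κ t)

end Pool.Agent.Lib.MP_28b8de_an
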