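import Pool.Agent.Lib.MP_28b8de_an.E.EDefs
import Pool.Agent.Lib.MP_28b8de_an.LQDefs

/-!
MP_28b8de_an, module ExpandE (MSE-ExpandE): the end point of the y-components, nonlinear scalar output.

PROOF.  bt j s = ∑ a, N j a s * b a s.  x_a(s) := vc M N x0 c b u a s = P a s + ∑_j M a j s * xi bt u j s,
P a s = ∑_j M a j s * (x0 j + ∫_0^s ∑_i N j i c_i) analytic (see Expand.lean for this computation: helper79).
z(s) = ∑ a, lo a s * x_a s = z0' s + ∑_j l' j s * xi bt u j s = Phi l' bt z0' u 0 s with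
l' j s = ∑ a, lo a s * M a j s, z0' s = ∑ a, lo a s * P a s (Phi at order 0: iteratedDeriv_zero).
H' j (s,z) = ∑ i, N' j i s * H i (s,z).
Linear part: ∑_i N' j i s ∑_a lin i a s x_a s = e_j(s) + ∑_c w j c s * xi bt u c s with e_j, w j c analytic, and
∫_0^T w j c ξ_c = ∫_0^T (∫_t^T w j c) bt c t u t dt (integration by parts as in LQVar.lean, `ibp_zero`), so
gs j t = ∑_c bt c t * ((∫_0^T w j c) - ∫_0^t w j c) + ∑_i N' j i t * ka i t, C0 j = ∫_0^T e_j.
All integrands are continuous, or continuous times u (intInt).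
-/

namespace Pool.Agent.Lib.MP_28b8de_an

open Filter Topology Set MeasureTheory

private theorem expandE_sum {ι : Type*} (S : Finset ι) {f : ι → ℝ → ℝ}
    (hf : ∀ i, AnalyticOnNhd ℝ (f i) univ) : AnalyticOnNhd ℝ (fun s => ∑ i ∈ S, f i s) univ :=
  fun s _ => Finset.analyticAt_fun_sum S fun i _ => hf i s (mem_univ s)

private theorem expandE_cont {F : ℝ × ℝ → ℝ} (hF : AnalyticOnNhd ℝ F univ) : Continuous F := by
  rw [continuous_iff_continuousAt]
  exact fun p => (hF p (mem_univ p)).continuousAt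

private theorem expandE_alg1 {k : ℕ} (l : Fin k → ℝ) (M : Fin k → Fin k → ℝ) (P ξ : Fin k → ℝ) :
    ∑ a, l a * (P a + ∑ j, M a j * ξ j) = ∑ a, l a * P a + ∑ j, (∑ a, l a * M a j) * ξ j := by
  calc ∑ a, l a * (P a + ∑ j, M a j * ξ j)
      = ∑ a, (l a * P a + ∑ j, l a * M a j * ξ j) := by
        refine Finset.sum_congr rfl fun a _ => ?_
        rw [mul_add, Finset.mul_sum]
        congr 1
        exact Finset.sum_congr rfl fun j _ => by ring
    _ = ∑ a, l a * P a + ∑ a, ∑ j, l a * M a j * ξ j := Finset.sum_add_distrib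
    _ = ∑ a, l a * P a + ∑ j, ∑ a, l a * M a j * ξ j := by rw [Finset.sum_comm (γ := Fin k)]
    _ = ∑ a, l a * P a + ∑ j, (∑ a, l a * M a j) * ξ j := by
        congr 1
        refine Finset.sum_congr rfl fun j _ => ?_
        rw [Finset.sum_mul]

private theorem expandE_alg2 {k m : ℕ} (N' : Fin m → ℝ) (F : Fin m → Fin k → ℝ)
    (ξ : Fin k → ℝ) :
    ∑ i, N' i * ∑ j, F i j * ξ j = ∑ j, (∑ i, N' i * F i j) * ξ j := by
  calc ∑ i, N' i * ∑ j, F i j * ξ j = ∑ i, ∑ j, N' i * F i j * ξ j := by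
        refine Finset.sum_congr rfl fun i _ => ?_
        rw [Finset.mul_sum]
        exact Finset.sum_congr rfl fun j _ => by ring
    _ = ∑ j, ∑ i, N' i * F i j * ξ j := Finset.sum_comm
    _ = ∑ j, (∑ i, N' i * F i j) * ξ j := by
        refine Finset.sum_congr rfl fun j _ => ?_
        rw [Finset.sum_mul]

private theorem expandE_alg {k m : ℕ} (N' : Fin m → ℝ) (M : Fin k → Fin k → ℝ)
    (P ξ : Fin k → ℝ) (lin : Fin m → Fin k → ℝ) (h ka : Fin m → ℝ) (u : ℝ) :
    ∑ i, N' i * ((h i + ∑ a, lin i a * (P a + ∑ j, M a j * ξ j)) + u * ka i)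
      = (∑ i, N' i * ∑ a, lin i a * P a + ∑ i, N' i * h i)
        + (∑ j, (∑ i, N' i * ∑ a, lin i a * M a j) * ξ j + (∑ i, N' i * ka i) * u) := by
  rw [← expandE_alg2, Finset.sum_mul, ← Finset.sum_add_distrib, ← Finset.sum_add_distrib,
    ← Finset.sum_add_distrib]
  refine Finset.sum_congr rfl fun i _ => ?_
  rw [expandE_alg1]
  ring

/-- integration by parts against a continuous weight -/
private theorem expandE_ibp {k : ℕ} {bt : Fin k → ℝ → ℝ}
    (hbt : ∀ i, AnalyticOnNhd ℝ (bt i) univ) {w : ℝ → ℝ} (hw : AnalyticOnNhd ℝ w univ)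
    {u : ℝ → ℝ} (hu : Measurable u) (hub : ∀ t, |u t| ≤ 1) (c : Fin k) (T : ℝ) :
    ∫ s in (0 : ℝ)..T, w s * xi bt u c s
      = ∫ s in (0 : ℝ)..T, (((∫ q in (0 : ℝ)..T, w q) - ∫ q in (0 : ℝ)..s, w q) * bt c s)
          * u s := by
  have hW : AnalyticOnNhd ℝ (fun s => (∫ q in (0 : ℝ)..T, w q) - ∫ q in (0 : ℝ)..s, w q) univ :=
    analyticOnNhd_const.sub (analyticOnNhd_integral hw 0)
  have hd : ∀ t, HasDerivAt (fun s => (∫ q in (0 : ℝ)..T, w q) - ∫ q in (0 : ℝ)..s, w q)
      (- w t) t := by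
    intro t
    have h := ((continuous_of_analytic hw).integral_hasStrictDerivAt 0 t).hasDerivAt
    simpa using h.const_sub (∫ q in (0 : ℝ)..T, w q)
  have h1 := ibp_zero (f := fun s => (∫ q in (0 : ℝ)..T, w q) - ∫ q in (0 : ℝ)..s, w q)
    (g := xi bt u c) (f' := fun t => - w t) (g' := fun t => bt c t * u t) (s := 0) (s' := T)
    (ac_of_analytic hW 0 T) (xi_ac hbt hu hub c 0 T) (Eventually.of_forall fun t _ => hd t)
    ((xi_ae hbt hu hub c).mono fun t ht _ => ht) (by simp [xi]) (by simp)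
  have h2 : ∫ t in (0 : ℝ)..T, - w t * xi bt u c t
      = - ∫ t in (0 : ℝ)..T, w t * xi bt u c t := by
    rw [← intervalIntegral.integral_neg]
    exact intervalIntegral.integral_congr fun t _ => by ring
  rw [h2, neg_neg] at h1
  rw [← h1]
  exact intervalIntegral.integral_congr fun t _ => by ring

theorem expandE {k m : ℕ} {M N : Fin k → Fin k → ℝ → ℝ} {N' : Fin m → Fin m → ℝ → ℝ}
    (hM : ∀ i j, AnalyticOnNhd ℝ (M i j) univ) (hN : ∀ i j, AnalyticOnNhd ℝ (N i j) univ)
    (hN' : ∀ i j, AnalyticOnNhd ℝ (N' i j) univ)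
    {c b : Fin k → ℝ → ℝ} (hc : ∀ i, AnalyticOnNhd ℝ (c i) univ)
    (hb : ∀ i, AnalyticOnNhd ℝ (b i) univ)
    {lo : Fin k → ℝ → ℝ} (hlo : ∀ a, AnalyticOnNhd ℝ (lo a) univ)
    {H : Fin m → ℝ × ℝ → ℝ} (hH : ∀ i, AnalyticOnNhd ℝ (H i) univ)
    {lin : Fin m → Fin k → ℝ → ℝ} (hlin : ∀ i a, AnalyticOnNhd ℝ (lin i a) univ)
    {ka : Fin m → ℝ → ℝ} (hka : ∀ i, AnalyticOnNhd ℝ (ka i) univ)
    (x0 : Fin k → ℝ) (T : ℝ) :
    ∃ (l' : Fin k → ℝ → ℝ) (z0' : ℝ → ℝ) (H' : Fin m → ℝ × ℝ → ℝ) (gs : Fin m → ℝ → ℝ)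
      (C0 : Fin m → ℝ), (∀ i, AnalyticOnNhd ℝ (l' i) univ) ∧ AnalyticOnNhd ℝ z0' univ ∧
      (∀ i, AnalyticOnNhd ℝ (H' i) univ) ∧ (∀ i, AnalyticOnNhd ℝ (gs i) univ) ∧
      ∀ u : ℝ → ℝ, Measurable u → (∀ t, |u t| ≤ 1) → ∀ j,
        ∫ s in (0 : ℝ)..T, ∑ i, N' j i s *
          ((H i (s, ∑ a, lo a s * vc M N x0 c b u a s)
              + ∑ a, lin i a s * vc M N x0 c b u a s) + u s * ka i s)
          = C0 j
            + (∫ s in (0 : ℝ)..T, H' j (s, Phi l' (fun i s => ∑ a, N i a s * b a s) z0' u 0 s))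
            + ∫ s in (0 : ℝ)..T, gs j s * u s := by
  -- the transformed control field and the drift part
  have hbt : ∀ i, AnalyticOnNhd ℝ ((fun (i : Fin k) (s : ℝ) => ∑ a, N i a s * b a s) i) univ :=
    fun i => expandE_sum _ fun a => (hN i a).mul (hb a)
  set bt : Fin k → ℝ → ℝ := fun i s => ∑ a, N i a s * b a s with hbtdef
  have hNc : ∀ j, AnalyticOnNhd ℝ (fun s => ∑ a, N j a s * c a s) univ :=
    fun j => expandE_sum _ fun a => (hN j a).mul (hc a)
  have hX : ∀ j, AnalyticOnNhd ℝ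
      ((fun (j : Fin k) (s : ℝ) => x0 j + ∫ q in (0 : ℝ)..s, ∑ a, N j a q * c a q) j) univ :=
    fun j => analyticOnNhd_const.add (analyticOnNhd_integral (hNc j) 0)
  set X : Fin k → ℝ → ℝ := fun j s => x0 j + ∫ q in (0 : ℝ)..s, ∑ a, N j a q * c a q with hXdef
  have hP : ∀ a, AnalyticOnNhd ℝ ((fun (a : Fin k) (s : ℝ) => ∑ j, M a j s * X j s) a) univ :=
    fun a => expandE_sum _ fun j => (hM a j).mul (hX j)
  set P : Fin k → ℝ → ℝ := fun a s => ∑ j, M a j s * X j s with hPdef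
  -- the splitting of the solution
  have hvc : ∀ u : ℝ → ℝ, Measurable u → (∀ t, |u t| ≤ 1) → ∀ a s,
      vc M N x0 c b u a s = P a s + ∑ j, M a j s * xi bt u j s := by
    intro u hu hub a s
    simp only [vc, hPdef, hXdef]
    rw [← Finset.sum_add_distrib]
    refine Finset.sum_congr rfl fun j _ => ?_
    rw [← mul_add, add_assoc]
    congr 2
    rw [xi, ← intervalIntegral.integral_add]
    · refine intervalIntegral.integral_congr fun q _ => ?_
      simp only [hbtdef]
      rw [Finset.sum_mul, ← Finset.sum_add_distrib]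
      exact Finset.sum_congr rfl fun a _ => by ring
    · exact (continuous_of_analytic (hNc j)).intervalIntegrable _ _
    · exact intInt (continuous_of_analytic (hbt j)) hu hub _ _
  have hl' : ∀ j, AnalyticOnNhd ℝ
      ((fun (j : Fin k) (s : ℝ) => ∑ a, lo a s * M a j s) j) univ :=
    fun j => expandE_sum _ fun a => (hlo a).mul (hM a j)
  have hz0' : AnalyticOnNhd ℝ (fun s => ∑ a, lo a s * P a s) univ :=
    expandE_sum _ fun a => (hlo a).mul (hP a)
  have hw : ∀ j c, AnalyticOnNhd ℝ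
      ((fun (j : Fin m) (c : Fin k) (s : ℝ) => ∑ i, N' j i s * ∑ a, lin i a s * M a c s) j c)
      univ :=
    fun j c => expandE_sum _ fun i => (hN' j i).mul (expandE_sum _ fun a =>
      (hlin i a).mul (hM a c))
  set w : Fin m → Fin k → ℝ → ℝ := fun j c s => ∑ i, N' j i s * ∑ a, lin i a s * M a c s with hwdef
  have hH' : ∀ j, AnalyticOnNhd ℝ
      ((fun (j : Fin m) (p : ℝ × ℝ) => ∑ i, N' j i p.1 * H i p) j) univ := by
    intro j p _
    refine Finset.analyticAt_fun_sum _ fun i _ => ?_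
    exact ((hN' j i p.1 (mem_univ _)).comp analyticAt_fst).mul (hH i p (mem_univ p))
  have hgs : ∀ j, AnalyticOnNhd ℝ
      ((fun (j : Fin m) (s : ℝ) => ∑ c, (((∫ q in (0 : ℝ)..T, w j c q)
        - ∫ q in (0 : ℝ)..s, w j c q) * bt c s) + ∑ i, N' j i s * ka i s) j) univ :=
    fun j => (expandE_sum _ fun c => (analyticOnNhd_const.sub
      (analyticOnNhd_integral (hw j c) 0)).mul (hbt c)).add
      (expandE_sum _ fun i => (hN' j i).mul (hka i))
  refine ⟨fun j s => ∑ a, lo a s * M a j s, fun s => ∑ a, lo a s * P a s,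
    fun j p => ∑ i, N' j i p.1 * H i p,
    fun j s => ∑ c, (((∫ q in (0 : ℝ)..T, w j c q) - ∫ q in (0 : ℝ)..s, w j c q) * bt c s)
      + ∑ i, N' j i s * ka i s,
    fun j => ∫ s in (0 : ℝ)..T, ∑ i, N' j i s * ∑ a, lin i a s * P a s, hl', hz0', hH', hgs, ?_⟩
  intro u hu hub j
  have hξ : ∀ c, Continuous (xi bt u c) := fun c => xi_cont hbt hu hub c
  have hMc : ∀ a j, Continuous (M a j) := fun a j => continuous_of_analytic (hM a j)
  have hN'c : ∀ a j, Continuous (N' a j) := fun a j => continuous_of_analytic (hN' a j)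
  have hPc : ∀ a, Continuous (P a) := fun a => continuous_of_analytic (hP a)
  have hlinc : ∀ i a, Continuous (lin i a) := fun i a => continuous_of_analytic (hlin i a)
  have hkac : ∀ a, Continuous (ka a) := fun a => continuous_of_analytic (hka a)
  have hwc : ∀ j c, Continuous (w j c) := fun j c => continuous_of_analytic (hw j c)
  -- the output
  have hz : ∀ s, ∑ a, lo a s * vc M N x0 c b u a s
      = Phi (fun j s => ∑ a, lo a s * M a j s) bt (fun s => ∑ a, lo a s * P a s) u 0 s := by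
    intro s
    unfold Phi
    simp only [iteratedDeriv_zero, hvc u hu hub]
    exact expandE_alg1 (fun a => lo a s) (fun a j => M a j s) (fun a => P a s)
      (fun j => xi bt u j s)
  have hzc : Continuous fun s => Phi (fun j s => ∑ a, lo a s * M a j s) bt
      (fun s => ∑ a, lo a s * P a s) u 0 s := Phi_cont hl' hbt hz0' hu hub 0
  have hHc : Continuous fun s => ∑ i, N' j i s * H i (s, Phi (fun j s => ∑ a, lo a s * M a j s) bt
      (fun s => ∑ a, lo a s * P a s) u 0 s) :=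
    continuous_finsetSum _ fun i _ => (hN'c j i).mul
      ((expandE_cont (hH i)).comp (continuous_id.prodMk hzc))
  have hec : Continuous fun s => ∑ i, N' j i s * ∑ a, lin i a s * P a s :=
    continuous_finsetSum _ fun i _ => (hN'c j i).mul
      (continuous_finsetSum _ fun a _ => (hlinc i a).mul (hPc a))
  have hwx : ∀ c, Continuous fun s => w j c s * xi bt u c s := fun c => (hwc j c).mul (hξ c)
  have hkk : Continuous fun s => ∑ i, N' j i s * ka i s :=
    continuous_finsetSum _ fun i _ => (hN'c j i).mul (hkac i)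
  have hleft : ∫ s in (0 : ℝ)..T, ∑ i, N' j i s *
      ((H i (s, ∑ a, lo a s * vc M N x0 c b u a s)
        + ∑ a, lin i a s * vc M N x0 c b u a s) + u s * ka i s)
      = ∫ s in (0 : ℝ)..T, ((∑ i, N' j i s * ∑ a, lin i a s * P a s
        + ∑ i, N' j i s * H i (s, Phi (fun j s => ∑ a, lo a s * M a j s) bt
          (fun s => ∑ a, lo a s * P a s) u 0 s))
        + (∑ c, w j c s * xi bt u c s + (∑ i, N' j i s * ka i s) * u s)) := by
    refine intervalIntegral.integral_congr fun s _ => ?_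
    simp only [hz]
    simp only [hvc u hu hub]
    exact expandE_alg (fun i => N' j i s) (fun a j => M a j s) (fun a => P a s)
      (fun j => xi bt u j s) (fun i a => lin i a s)
      (fun i => H i (s, Phi (fun j s => ∑ a, lo a s * M a j s) bt
          (fun s => ∑ a, lo a s * P a s) u 0 s)) (fun i => ka i s) (u s)
  rw [hleft]
  have hI1 : IntervalIntegrable (fun s => ∑ c, w j c s * xi bt u c s) volume 0 T :=
    (continuous_finsetSum _ fun c _ => hwx c).intervalIntegrable _ _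
  have hI2 : IntervalIntegrable (fun s => (∑ i, N' j i s * ka i s) * u s) volume 0 T :=
    intInt hkk hu hub _ _
  have hI3 : ∀ c, IntervalIntegrable (fun s => (((∫ q in (0 : ℝ)..T, w j c q)
      - ∫ q in (0 : ℝ)..s, w j c q) * bt c s) * u s) volume 0 T := fun c =>
    intInt (continuous_of_analytic ((analyticOnNhd_const.sub
      (analyticOnNhd_integral (hw j c) 0)).mul (hbt c))) hu hub _ _
  have hI4 : IntervalIntegrable (fun s => ∑ i, N' j i s * ∑ a, lin i a s * P a s
      + ∑ i, N' j i s * H i (s, Phi (fun j s => ∑ a, lo a s * M a j s) bt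
          (fun s => ∑ a, lo a s * P a s) u 0 s)) volume 0 T :=
    (hec.add hHc).intervalIntegrable _ _
  have hI5 : IntervalIntegrable (fun s => ∑ c, w j c s * xi bt u c s
      + (∑ i, N' j i s * ka i s) * u s) volume 0 T := hI1.add hI2
  rw [intervalIntegral.integral_add hI4 hI5,
    intervalIntegral.integral_add (hec.intervalIntegrable _ _) (hHc.intervalIntegrable _ _),
    intervalIntegral.integral_add hI1 hI2,
    intervalIntegral.integral_finsetSum fun c _ => (hwx c).intervalIntegrable _ _]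
  have hr : ∫ s in (0 : ℝ)..T, (∑ c, (((∫ q in (0 : ℝ)..T, w j c q)
      - ∫ q in (0 : ℝ)..s, w j c q) * bt c s) + ∑ i, N' j i s * ka i s) * u s
      = (∑ c, ∫ s in (0 : ℝ)..T, (((∫ q in (0 : ℝ)..T, w j c q)
        - ∫ q in (0 : ℝ)..s, w j c q) * bt c s) * u s)
        + ∫ s in (0 : ℝ)..T, (∑ i, N' j i s * ka i s) * u s := by
    rw [← intervalIntegral.integral_finsetSum fun c _ => hI3 c, ← intervalIntegral.integral_add _ hI2]
    · refine intervalIntegral.integral_congr fun s _ => ?_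
      rw [add_mul, Finset.sum_mul]
    · have h9 := IntervalIntegrable.sum Finset.univ fun c _ => hI3 c
      rw [Finset.sum_fn] at h9
      exact h9
  show _ = ((∫ s in (0 : ℝ)..T, ∑ i, N' j i s * ∑ a, lin i a s * P a s)
      + ∫ s in (0 : ℝ)..T, ∑ i, N' j i s * H i (s, Phi (fun j s => ∑ a, lo a s * M a j s) bt
          (fun s => ∑ a, lo a s * P a s) u 0 s))
      + ∫ s in (0 : ℝ)..T, (∑ c, (((∫ q in (0 : ℝ)..T, w j c q)
      - ∫ q in (0 : ℝ)..s, w j c q) * bt c s) + ∑ i, N' j i s * ka i s) * u s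
  rw [hr, Finset.sum_congr rfl fun c _ => expandE_ibp hbt (hw j c) hu hub c T]


end Pool.Agent.Lib.MP_28b8de_an
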