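import Pool.Agent.Lib.MP_28b8de_an.E.EDefs

/-!
MP_28b8de_an, module GapIds (MSE-GapIds): the two integral identities of the two-chain gap lemma.

PROOFS.  id1: `ibp_zero` (Pohozaev.lean) N times: ∫ g_{N-i} Z_i = - ∫ g_{N-i-1} Z_{i+1} (g_{N-i} is the a.e.
derivative of g_{N-i-1}, Z_{i+1} that of Z_i, boundary values 0); induction on i gives
∫ g_N Z_0 = (-1)^i ∫ g_{N-i} Z_i for i ≤ N.
id2: with w_j(t) := (t-s) Z_{j+1}(t) + j Z_j(t), j ≤ N-1: for j < N-1 it is absolutely continuous with a.e.
derivative w_{j+1}; so ∫ g_N w_0 = (-1)^i ∫ g_{N-i} w_i for i ≤ N-1 (g_{N-i-1} vanishes at both ends), and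
i = N-1 gives ∫ g_N (t-s) Z_1 = (-1)^(N-1) ∫ g_1 ((t-s) Z_N + (N-1) Z_{N-1}).
Then with Z_N = A + β u: ∫ g_1 (t-s) A = - ∫ g_0 (A + (t-s) A') (ibp_zero), u g_1 = (|g_0|)' a.e. (`der_abs`,
`ac_abs` in Gap.lean), so ∫ g_1 (t-s) β u = - ∫ |g_0| (β + (t-s) β'); and (N-1) ∫ g_1 Z_{N-1} =
- (N-1) ∫ g_0 Z_N = -(N-1) S with S = ∫ (A g_0 + β |g_0|) (hu), zero for N = 1.  Total:
∫ g_N (t-s) Z_1 = (-1)^(N-1) (- N S - E1) = (-1)^N (N S + E1), E1 = ∫ (t-s) (g_0 A' + |g_0| β').
Integrability: all functions are continuous on [s,s'], or bounded and a.e. derivatives of absolutely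
continuous functions (`AbsolutelyContinuousOnInterval` gives IntervalIntegrable (deriv f), see how
Gap.lean does it).
-/

namespace Pool.Agent.Lib.MP_28b8de_an

open Filter Topology Set MeasureTheory

variable {N q : ℕ} {C c0 e β0 σ θ s s' : ℝ} {g Z : ℕ → ℝ → ℝ}
  {u A A' β β' V V' ρ ρ' κ Hh Ht : ℝ → ℝ}

theorem GapIds_int_of_der {f f' : ℝ → ℝ} {s s' : ℝ} (hf : AbsolutelyContinuousOnInterval f s s')
    (hf' : ∀ᵐ t, t ∈ uIoc s s' → HasDerivAt f (f' t) t) : IntervalIntegrable f' volume s s' := by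
  apply hf.intervalIntegrable_deriv.congr_ae
  rw [Filter.EventuallyEq, ae_restrict_iff' measurableSet_uIoc]
  filter_upwards [hf'] with t ht htm
  exact (ht htm).deriv

/-- `∫ g_0 Z_N = ∫ (A g_0 + β |g_0|)` -/
theorem GapIds_S (h : GapData N q C c0 e β0 σ θ s s' g Z u A A' β β' V V' ρ ρ' κ Hh Ht) :
    ∫ t in s..s', g 0 t * Z N t = ∫ t in s..s', (A t * g 0 t + β t * |g 0 t|) := by
  apply intervalIntegral.integral_congr_ae
  filter_upwards [h.hu] with t ht htm
  have h1 := ht htm
  have h2 : t ∈ Icc s s' := by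
    have := uIoc_subset_uIcc htm
    rwa [uIcc_of_le h.hs.le] at this
  rw [h.ZN t h2]
  have : g 0 t * (A t + β t * u t) = A t * g 0 t + β t * (u t * g 0 t) := by ring
  rw [this, h1]

theorem gap_id1 (hN : 1 ≤ N)
    (h : GapData N q C c0 e β0 σ θ s s' g Z u A A' β β' V V' ρ ρ' κ Hh Ht) :
    ∫ t in s..s', g N t * Z 0 t
      = (-1) ^ N * ∫ t in s..s', (A t * g 0 t + β t * |g 0 t|) := by
  have key : ∀ i, i ≤ N → ∫ t in s..s', g N t * Z 0 t
      = (-1) ^ i * ∫ t in s..s', g (N - i) t * Z i t := by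
    intro i
    induction i with
    | zero => intro _; simp
    | succ i ih =>
      intro hi
      rw [ih (by omega)]
      have hk : N - (i + 1) < N := by omega
      have hk1 : N - (i + 1) + 1 = N - i := by omega
      have hd := h.gd (N - (i + 1)) hk
      rw [hk1] at hd
      have h1 := ibp_zero (h.Zac i (by omega)) (h.gac (N - (i + 1)) hk) (h.Zd i (by omega)) hd
        (by rw [h.Zl i (by omega)]; ring) (by rw [h.Zr i (by omega)]; ring)
      have e1 : ∫ t in s..s', g (N - i) t * Z i t = ∫ t in s..s', Z i t * g (N - i) t := by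
        congr 1
        ext t
        ring
      have e2 : ∫ t in s..s', g (N - (i + 1)) t * Z (i + 1) t
          = ∫ t in s..s', Z (i + 1) t * g (N - (i + 1)) t := by
        congr 1
        ext t
        ring
      rw [e1, e2, h1]
      ring
  rw [key N le_rfl, Nat.sub_self, GapIds_S h]

theorem gap_id2 (hN : 1 ≤ N)
    (h : GapData N q C c0 e β0 σ θ s s' g Z u A A' β β' V V' ρ ρ' κ Hh Ht) :
    ∫ t in s..s', g N t * ((t - s) * Z 1 t)
      = (-1) ^ N * ((N : ℝ) * (∫ t in s..s', (A t * g 0 t + β t * |g 0 t|))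
        + ∫ t in s..s', (t - s) * (g 0 t * A' t + |g 0 t| * β' t)) := by
  obtain ⟨M, rfl⟩ : ∃ M, N = M + 1 := ⟨N - 1, by omega⟩
  have huIcc : uIcc s s' = Icc s s' := uIcc_of_le h.hs.le
  -- the chain of the functions `w_j`
  have key : ∀ i, i ≤ M → ∫ t in s..s', g (M + 1) t * ((t - s) * Z 1 t)
      = (-1) ^ i * ∫ t in s..s', g (M + 1 - i) t * ((t - s) * Z (i + 1) t + (i : ℝ) * Z i t) := by
    intro i
    induction i with
    | zero => intro _; simp
    | succ i ih =>
      intro hi
      rw [ih (by omega)]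
      have hk : M + 1 - (i + 1) < M + 1 := by omega
      have hk1 : M + 1 - (i + 1) + 1 = M + 1 - i := by omega
      have hd := h.gd (M + 1 - (i + 1)) hk
      rw [hk1] at hd
      have hw : AbsolutelyContinuousOnInterval
          (fun t => (t - s) * Z (i + 1) t + (i : ℝ) * Z i t) s s' :=
        ((ac_id_sub s s').mul (h.Zac (i + 1) (by omega))).add
          ((h.Zac i (by omega)).const_mul (i : ℝ))
      have hwd : ∀ᵐ t, t ∈ uIoc s s' → HasDerivAt
          (fun t => (t - s) * Z (i + 1) t + (i : ℝ) * Z i t)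
          ((t - s) * Z (i + 1 + 1) t + ((i + 1 : ℕ) : ℝ) * Z (i + 1) t) t := by
        filter_upwards [h.Zd (i + 1) (by omega), h.Zd i (by omega)] with t h1 h2 htm
        have h3 := ((der_id_sub s t).mul (h1 htm)).add ((h2 htm).const_mul (i : ℝ))
        have h4 : 1 * Z (i + 1) t + (t - s) * Z (i + 1 + 1) t + (i : ℝ) * Z (i + 1) t
            = (t - s) * Z (i + 1 + 1) t + ((i + 1 : ℕ) : ℝ) * Z (i + 1) t := by
          push_cast
          ring
        rw [h4] at h3
        exact h3
      have h1 := ibp_zero hw (h.gac (M + 1 - (i + 1)) hk) hwd hd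
        (by rw [h.gl _ hk]; ring) (by rw [h.gr _ hk]; ring)
      have e1 : ∫ t in s..s', g (M + 1 - i) t * ((t - s) * Z (i + 1) t + (i : ℝ) * Z i t)
          = ∫ t in s..s', ((t - s) * Z (i + 1) t + (i : ℝ) * Z i t) * g (M + 1 - i) t := by
        congr 1
        ext t
        ring
      have e2 : ∫ t in s..s', g (M + 1 - (i + 1)) t
            * ((t - s) * Z (i + 1 + 1) t + ((i + 1 : ℕ) : ℝ) * Z (i + 1) t)
          = ∫ t in s..s', ((t - s) * Z (i + 1 + 1) t + ((i + 1 : ℕ) : ℝ) * Z (i + 1) t)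
            * g (M + 1 - (i + 1)) t := by
        congr 1
        ext t
        ring
      rw [e1, e2, h1]
      ring
  have hM : M + 1 - M = 1 := by omega
  rw [key M le_rfl, hM]
  -- continuity and integrability
  have cs : ContinuousOn (fun t : ℝ => t - s) (uIcc s s') := by fun_prop
  have c0' : ContinuousOn (g 0) (uIcc s s') := (h.gac 0 (by omega)).continuousOn
  have cA : ContinuousOn A (uIcc s s') := h.Aac.continuousOn
  have cβ : ContinuousOn β (uIcc s s') := h.βac.continuousOn
  have cZ : ContinuousOn (Z M) (uIcc s s') := (h.Zac M (by omega)).continuousOn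
  have i1 : IntervalIntegrable (g 1) volume s s' :=
    GapIds_int_of_der (h.gac 0 (by omega)) (h.gd 0 (by omega))
  have hdabs := der_abs (h.gac 0 (by omega)) (h.gd 0 (by omega)) h.hu
  have iu : IntervalIntegrable (fun t => u t * g (0 + 1) t) volume s s' :=
    GapIds_int_of_der (ac_abs (h.gac 0 (by omega))) hdabs
  have iA' : IntervalIntegrable A' volume s s' := GapIds_int_of_der h.Aac h.Ad
  have iβ' : IntervalIntegrable β' volume s s' := GapIds_int_of_der h.βac h.βd
  -- integrations by parts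
  have e1 : ∫ t in s..s', ((t - s) * A t) * g (0 + 1) t
      = - ∫ t in s..s', (A t + (t - s) * A' t) * g 0 t := by
    apply ibp_zero ((ac_id_sub s s').mul h.Aac) (h.gac 0 (by omega)) _ (h.gd 0 (by omega))
    · rw [h.gl 0 (by omega)]; ring
    · rw [h.gr 0 (by omega)]; ring
    · filter_upwards [h.Ad] with t ht htm
      have := (der_id_sub s t).mul (ht htm)
      rw [one_mul] at this
      exact this
  have e2 : ∫ t in s..s', ((t - s) * β t) * (u t * g (0 + 1) t)
      = - ∫ t in s..s', (β t + (t - s) * β' t) * |g 0 t| := by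
    apply ibp_zero ((ac_id_sub s s').mul h.βac) (ac_abs (h.gac 0 (by omega))) _ hdabs
    · rw [h.gl 0 (by omega)]; simp
    · rw [h.gr 0 (by omega)]; simp
    · filter_upwards [h.βd] with t ht htm
      have := (der_id_sub s t).mul (ht htm)
      rw [one_mul] at this
      exact this
  have e3 : ∫ t in s..s', Z M t * g (0 + 1) t
      = - ∫ t in s..s', Z (M + 1) t * g 0 t := by
    apply ibp_zero (h.Zac M (by omega)) (h.gac 0 (by omega)) (h.Zd M (by omega))
      (h.gd 0 (by omega))
    · rw [h.gl 0 (by omega)]; ring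
    · rw [h.gr 0 (by omega)]; ring
  have e4 : ∫ t in s..s', Z (M + 1) t * g 0 t
      = ∫ t in s..s', (A t * g 0 t + β t * |g 0 t|) := by
    rw [← GapIds_S h]
    congr 1
    ext t
    ring
  set S : ℝ := ∫ t in s..s', (A t * g 0 t + β t * |g 0 t|) with hS
  simp only [Nat.zero_add] at e1 e2 e3 iu
  -- splitting
  have iA : IntervalIntegrable (fun t => ((t - s) * A t) * g 1 t) volume s s' :=
    i1.continuousOn_mul (cs.mul cA)
  have iB : IntervalIntegrable (fun t => ((t - s) * β t) * (u t * g 1 t)) volume s s' :=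
    iu.continuousOn_mul (cs.mul cβ)
  have iC : IntervalIntegrable (fun t => Z M t * g 1 t) volume s s' := i1.continuousOn_mul cZ
  have e5 : ∫ t in s..s', g 1 t * ((t - s) * Z (M + 1) t + (M : ℝ) * Z M t)
      = (∫ t in s..s', ((t - s) * A t) * g 1 t) + (∫ t in s..s', ((t - s) * β t) * (u t * g 1 t))
        + (M : ℝ) * ∫ t in s..s', Z M t * g 1 t := by
    rw [← intervalIntegral.integral_const_mul, ← intervalIntegral.integral_add iA iB,
      ← intervalIntegral.integral_add (iA.add iB) (iC.const_mul _)]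
    apply intervalIntegral.integral_congr
    intro t ht
    have ht' : t ∈ Icc s s' := by rwa [huIcc] at ht
    simp only
    rw [h.ZN t ht']
    ring
  have iD : IntervalIntegrable (fun t => (A t + (t - s) * A' t) * g 0 t) volume s s' :=
    ((cA.intervalIntegrable).add (iA'.continuousOn_mul cs)).mul_continuousOn c0'
  have iE : IntervalIntegrable (fun t => (β t + (t - s) * β' t) * |g 0 t|) volume s s' :=
    ((cβ.intervalIntegrable).add (iβ'.continuousOn_mul cs)).mul_continuousOn c0'.abs
  have iF : IntervalIntegrable (fun t => A t * g 0 t + β t * |g 0 t|) volume s s' :=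
    ((cA.mul c0').add (cβ.mul c0'.abs)).intervalIntegrable
  have iG : IntervalIntegrable (fun t => (t - s) * (g 0 t * A' t + |g 0 t| * β' t))
      volume s s' := by
    apply IntervalIntegrable.continuousOn_mul _ cs
    exact (iA'.continuousOn_mul c0').add (iβ'.continuousOn_mul c0'.abs)
  have e6 : (∫ t in s..s', (A t + (t - s) * A' t) * g 0 t)
      + (∫ t in s..s', (β t + (t - s) * β' t) * |g 0 t|)
      = S + ∫ t in s..s', (t - s) * (g 0 t * A' t + |g 0 t| * β' t) := by
    rw [hS, ← intervalIntegral.integral_add iD iE, ← intervalIntegral.integral_add iF iG]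
    congr 1
    ext t
    ring
  rw [e5, e1, e2, e3, e4]
  push_cast
  rw [pow_succ]
  linear_combination (-1) ^ (M + 1) * e6

end Pool.Agent.Lib.MP_28b8de_an
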