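import Pool.Agent.Lib.MP_28b8de_an.E.GapIds

/-!
MP_28b8de_an, module GapQ (MSE-GapQ): the two-chain gap lemma (structure `GapData` in EDefs.lean).

The identities (I1), (I2) below are `gap_id1`, `gap_id2` of GapIds.lean: use them.

Let δ = s' - s (< 1), X = ∫ |Z_0|^(q+1), Xq = ∫ |Z_0|^q, Y = ∫ |g_0| over [s,s'].  Tool: `ibp_zero`
(Pohozaev.lean), `der_abs`, `ac_abs` (Gap.lean).

q EVEN: 0 = g_{N-1}(s') - g_{N-1}(s) = ∫ g_N = ∫ ρ + ∫ V κ; |θ ∫ V κ| ≥ c0 Xq (low2), |∫ ρ| ≤ δ C Xq; so Xq = 0 if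
C δ < c0, and Z_0 (continuous) vanishes on [s,s'].

q ODD.  (I1) ∫ g_N Z_0 = (-1)^N ∫ g_0 Z_N (N integrations by parts, boundary values 0).  By hu,
∫ g_0 Z_N = S := ∫ (A g_0 + β |g_0|).  e β0 Y ≤ σ S (Ale, βlow), |S| ≤ 2 C Y.
|∫ ρ Z_0| ≤ C Xq ∫|Z_0| ≤ 2 C δ X (a b^q ≤ a^(q+1) + b^(q+1)).  With Ξ = ∫ V κ Z_0: |Ξ - (-1)^N S| ≤ 2 C δ X (i).
θ Ξ ≥ c0 X (low1), so c0 X ≤ 2 C Y + 2 C δ X; if 4 C δ ≤ c0: X ≤ (4C/c0) Y (ii).
(I2) w_j(t) := (t-s) Z_{j+1} + j Z_j, w_j' = w_{j+1} for j < N-1 (a.e.), so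
∫ g_N (t-s) Z_1 = (-1)^(N-1) ∫ g_1 w_{N-1}, w_{N-1} = (t-s) Z_N + (N-1) Z_{N-1} (boundary terms g_j = 0).
∫ g_1 (t-s) A = - ∫ g_0 (A + (t-s) A'); ∫ g_1 (t-s) β u = ∫ (|g_0|)' (t-s) β = - ∫ |g_0| (β + (t-s) β') (der_abs:
u g_1 = |g_0|' a.e.); (N-1) ∫ g_1 Z_{N-1} = - (N-1) ∫ g_0 Z_N = -(N-1) S.  Total
∫ g_N (t-s) Z_1 = (-1)^N (N S + E1), E1 = ∫ (t-s)(g_0 A' + |g_0| β'), |E1| ≤ 2 C δ Y.
Left side: ∫ ρ (t-s) Z_1 = - ∫ ρ Z_0 - ∫ (t-s) ρ' Z_0, absolute value ≤ 5 C δ X; and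
∫ V (t-s) κ Z_1 = ∫ V (t-s) (Hh' - Ht) = - ∫ V Hh - ∫ (t-s) V' Hh - ∫ V (t-s) Ht, where
|∫ V Hh - Ξ/(q+1)| ≤ C·C δ X (H1) and the other two are ≤ C·C δ X.
So |Ξ/(q+1) + (-1)^N N S| ≤ (5C + 3C²) δ X + 2 C δ Y, with (i): (N + 1/(q+1)) |S| ≤ (7C+3C²) δ X + 2Cδ Y
≤ δ C4 Y (ii), C4 = C4(C,c0).  As e β0 Y ≤ |S| ≤ (N + 1/(q+1)) |S| (N ≥ 1): Y = 0 if δ C4 < e β0; then X = 0 by
(ii) and Z_0 = 0 on [s,s'].
(Ht is a.e. equal to Hh' - κ Z_1, hence integrable.  For N = 1, Z 1 = A + β u on [s,s'], g 1 = ρ + V κ.)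
-/

namespace Pool.Agent.Lib.MP_28b8de_an

open Filter Topology Set MeasureTheory

private theorem gq_bd {s s' : ℝ} (hs : s < s') {f b : ℝ → ℝ} (hb : ContinuousOn b (uIcc s s'))
    (h : ∀ᵐ t, t ∈ uIoc s s' → |f t| ≤ b t) :
    |∫ t in s..s', f t| ≤ ∫ t in s..s', b t := by
  have h1 : ∀ᵐ t, t ∈ Ioc s s' → ‖f t‖ ≤ b t := by
    rw [← uIoc_of_le hs.le]
    exact h
  have h2 := intervalIntegral.norm_integral_le_of_norm_le hs.le h1 hb.intervalIntegrable
  rwa [Real.norm_eq_abs] at h2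

private theorem gq_zero {s s' : ℝ} (hs : s < s') {f : ℝ → ℝ} (hf : ContinuousOn f (Icc s s'))
    (h0 : ∀ t ∈ Icc s s', 0 ≤ f t) (h : ∫ t in s..s', f t = 0) : ∀ t ∈ Icc s s', f t = 0 := by
  intro t ht
  by_contra hne
  have h1 : 0 < f t := lt_of_le_of_ne (h0 t ht) (Ne.symm hne)
  have h2 := intervalIntegral.integral_pos hs hf (fun x hx => h0 x (Ioc_subset_Icc_self hx))
    ⟨t, ht, h1⟩
  linarith

private theorem gq_pow (a b : ℝ) (q : ℕ) (ha : 0 ≤ a) (hb : 0 ≤ b) :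
    a * b ^ q ≤ a ^ (q + 1) + b ^ (q + 1) := by
  rcases le_total a b with h | h
  · have h1 : a * b ^ q ≤ b * b ^ q := mul_le_mul_of_nonneg_right h (by positivity)
    have h2 : b * b ^ q = b ^ (q + 1) := by ring
    have h3 : 0 ≤ a ^ (q + 1) := by positivity
    linarith
  · have h1 : a * b ^ q ≤ a * a ^ q := mul_le_mul_of_nonneg_left (pow_le_pow_left₀ hb h q) ha
    have h2 : a * a ^ q = a ^ (q + 1) := by ring
    have h3 : 0 ≤ b ^ (q + 1) := by positivity
    linarith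

/-- even `q` -/
private theorem gq_even {N q : ℕ} {C c0 e β0 σ θ s s' : ℝ} {g Z : ℕ → ℝ → ℝ}
    {u A A' β β' V V' ρ ρ' κ Hh Ht : ℝ → ℝ} (hN : 1 ≤ N) (hq : 1 ≤ q)
    (h : GapData N q C c0 e β0 σ θ s s' g Z u A A' β β' V V' ρ ρ' κ Hh Ht) (hev : Even q)
    (hδ : C * (s' - s) < c0) : ∀ t ∈ Icc s s', Z 0 t = 0 := by
  have huIcc : uIcc s s' = Icc s s' := uIcc_of_le h.hs.le
  obtain ⟨M, rfl⟩ : ∃ M, N = M + 1 := ⟨N - 1, by omega⟩
  have cZ : ContinuousOn (Z 0) (uIcc s s') := (h.Zac 0 (by omega)).continuousOn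
  have cρ : ContinuousOn ρ (uIcc s s') := h.ρac.continuousOn
  have cV : ContinuousOn V (uIcc s s') := h.Vac.continuousOn
  have cκ : ContinuousOn κ (uIcc s s') := by rw [huIcc]; exact h.κc
  have h1 := ibp_zero (f := fun _ => (1 : ℝ)) (f' := fun _ => 0)
    (ContDiffOn.absolutelyContinuousOnInterval (by fun_prop)) (h.gac M (by omega))
    (Filter.Eventually.of_forall fun t _ => hasDerivAt_const t (1 : ℝ)) (h.gd M (by omega))
    (by rw [h.gl M (by omega)]; ring) (by rw [h.gr M (by omega)]; ring)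
  simp only [one_mul, zero_mul, intervalIntegral.integral_zero, neg_zero] at h1
  have h2 : ∫ t in s..s', g (M + 1) t = (∫ t in s..s', ρ t) + ∫ t in s..s', V t * κ t := by
    have cVκ : ContinuousOn (fun t => V t * κ t) (uIcc s s') := cV.mul cκ
    rw [← intervalIntegral.integral_add cρ.intervalIntegrable cVκ.intervalIntegrable]
    apply intervalIntegral.integral_congr
    intro t ht
    rw [huIcc] at ht
    exact h.gN t ht
  set Xq : ℝ := ∫ t in s..s', |Z 0 t| ^ q with hXq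
  have cXq : ContinuousOn (fun t => |Z 0 t| ^ q) (uIcc s s') := cZ.abs.pow q
  have hX0 : 0 ≤ Xq := intervalIntegral.integral_nonneg h.hs.le fun t _ => by positivity
  have h3 : |∫ t in s..s', ρ t| ≤ (s' - s) * (C * Xq) := by
    have h4 := gq_bd (f := ρ) (b := fun _ => C * Xq) h.hs continuousOn_const (by
      refine Filter.Eventually.of_forall fun t ht => h.ρb t ?_
      have := uIoc_subset_uIcc ht
      rwa [huIcc] at this)
    rwa [intervalIntegral.integral_const, smul_eq_mul] at h4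
  have h4 : c0 * Xq ≤ θ * ∫ t in s..s', V t * κ t := by
    rw [hXq, ← intervalIntegral.integral_const_mul, ← intervalIntegral.integral_const_mul]
    exact intervalIntegral.integral_mono_on h.hs.le (cXq.intervalIntegrable.const_mul _)
      ((cV.mul cκ).intervalIntegrable.const_mul _) fun t ht => h.low2 hev t ht
  have h5 : ∫ t in s..s', V t * κ t = - ∫ t in s..s', ρ t := by linarith
  have h6 : θ * (∫ t in s..s', V t * κ t) ≤ |∫ t in s..s', ρ t| := by
    rw [h5]
    refine (le_abs_self _).trans ?_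
    rw [abs_mul, h.hθ, one_mul, abs_neg]
  have h7 : Xq = 0 := by nlinarith
  intro t ht
  have h8 := gq_zero h.hs (f := fun t => |Z 0 t| ^ q) (by rw [← huIcc]; exact cXq)
    (fun t _ => by positivity) h7 t ht
  have h9 := pow_eq_zero_iff (by omega : q ≠ 0) |>.1 h8
  exact abs_eq_zero.1 h9

/-- odd `q` -/
private theorem gq_odd {N q : ℕ} {C c0 e β0 σ θ s s' : ℝ} {g Z : ℕ → ℝ → ℝ}
    {u A A' β β' V V' ρ ρ' κ Hh Ht : ℝ → ℝ} (hN : 1 ≤ N) (hC : 0 < C) (hc0 : 0 < c0)
    (he : 0 < e) (hβ0 : 0 < β0)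
    (h : GapData N q C c0 e β0 σ θ s s' g Z u A A' β β' V V' ρ ρ' κ Hh Ht) (hod : Odd q)
    (hδ1 : s' - s ≤ 1) (hδ2 : 4 * C * (s' - s) ≤ c0)
    (hδ3 : (s' - s) * ((7 * C + 3 * C ^ 2) * (4 * C / c0) + 2 * C) < e * β0) :
    ∀ t ∈ Icc s s', Z 0 t = 0 := by
  have huIcc : uIcc s s' = Icc s s' := uIcc_of_le h.hs.le
  obtain ⟨δ, hδ⟩ : ∃ δ : ℝ, δ = s' - s := ⟨_, rfl⟩
  rw [← hδ] at hδ1 hδ2 hδ3
  have hδ0 : 0 < δ := by
    have := h.hs
    linarith
  have cZ : ContinuousOn (Z 0) (uIcc s s') := (h.Zac 0 (by omega)).continuousOn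
  have cg : ContinuousOn (g 0) (uIcc s s') := (h.gac 0 (by omega)).continuousOn
  have cρ : ContinuousOn ρ (uIcc s s') := h.ρac.continuousOn
  have cV : ContinuousOn V (uIcc s s') := h.Vac.continuousOn
  have cA : ContinuousOn A (uIcc s s') := h.Aac.continuousOn
  have cβ : ContinuousOn β (uIcc s s') := h.βac.continuousOn
  have cκ : ContinuousOn κ (uIcc s s') := by rw [huIcc]; exact h.κc
  have cH : ContinuousOn Hh (uIcc s s') := h.Hac.continuousOn
  have cs : ContinuousOn (fun t : ℝ => t - s) (uIcc s s') := by fun_prop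
  have cρZ : ContinuousOn (fun t => ρ t * Z 0 t) (uIcc s s') := cρ.mul cZ
  have cVκZ : ContinuousOn (fun t => V t * κ t * Z 0 t) (uIcc s s') := (cV.mul cκ).mul cZ
  have cVH : ContinuousOn (fun t => V t * Hh t) (uIcc s s') := cV.mul cH
  have hmem : ∀ t, t ∈ uIoc s s' → t ∈ Icc s s' := fun t ht => by
    have := uIoc_subset_uIcc ht
    rwa [huIcc] at this
  obtain ⟨Xq, hXq⟩ : ∃ Xq : ℝ, Xq = ∫ t in s..s', |Z 0 t| ^ q := ⟨_, rfl⟩
  obtain ⟨X, hX⟩ : ∃ X : ℝ, X = ∫ t in s..s', |Z 0 t| ^ (q + 1) := ⟨_, rfl⟩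
  obtain ⟨Y, hY⟩ : ∃ Y : ℝ, Y = ∫ t in s..s', |g 0 t| := ⟨_, rfl⟩
  obtain ⟨S, hS⟩ : ∃ S : ℝ, S = ∫ t in s..s', (A t * g 0 t + β t * |g 0 t|) := ⟨_, rfl⟩
  have cXq : ContinuousOn (fun t => |Z 0 t| ^ q) (uIcc s s') := cZ.abs.pow q
  have cX : ContinuousOn (fun t => |Z 0 t| ^ (q + 1)) (uIcc s s') := cZ.abs.pow (q + 1)
  have hXq0 : 0 ≤ Xq := by
    rw [hXq]
    exact intervalIntegral.integral_nonneg h.hs.le fun t _ => by positivity
  have hX0 : 0 ≤ X := by
    rw [hX]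
    exact intervalIntegral.integral_nonneg h.hs.le fun t _ => by positivity
  have hY0 : 0 ≤ Y := by
    rw [hY]
    exact intervalIntegral.integral_nonneg h.hs.le fun t _ => by positivity
  -- the pointwise bound `|Z 0 t| Xq ≤ δ |Z 0 t| ^ (q + 1) + X`
  have hP : ∀ t, |Z 0 t| * Xq ≤ δ * |Z 0 t| ^ (q + 1) + X := by
    intro t
    have h1 : |Z 0 t| * Xq = ∫ r in s..s', |Z 0 t| * |Z 0 r| ^ q := by
      rw [hXq, intervalIntegral.integral_const_mul]
    have h2 : δ * |Z 0 t| ^ (q + 1) + X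
        = ∫ r in s..s', (|Z 0 t| ^ (q + 1) + |Z 0 r| ^ (q + 1)) := by
      rw [intervalIntegral.integral_add intervalIntegrable_const cX.intervalIntegrable,
        intervalIntegral.integral_const, smul_eq_mul, ← hδ, ← hX]
    rw [h1, h2]
    exact intervalIntegral.integral_mono_on h.hs.le (cXq.intervalIntegrable.const_mul _)
      (intervalIntegrable_const.add cX.intervalIntegrable)
      fun r _ => gq_pow _ _ q (abs_nonneg _) (abs_nonneg _)
  have cP : ContinuousOn (fun t => δ * |Z 0 t| ^ (q + 1) + X) (uIcc s s') :=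
    (cX.const_mul δ).add continuousOn_const
  have hPi : ∫ t in s..s', (δ * |Z 0 t| ^ (q + 1) + X) = 2 * δ * X := by
    rw [intervalIntegral.integral_add (cX.intervalIntegrable.const_mul δ) intervalIntegrable_const,
      intervalIntegral.integral_const_mul, intervalIntegral.integral_const, smul_eq_mul, ← hδ, ← hX]
    ring
  -- bound of `∫ ρ Z_0`
  have hR1 : |∫ t in s..s', ρ t * Z 0 t| ≤ 2 * C * δ * X := by
    have h1 := gq_bd (f := fun t => ρ t * Z 0 t) (b := fun t => C * (δ * |Z 0 t| ^ (q + 1) + X))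
      h.hs (cP.const_mul C) (by
        refine Filter.Eventually.of_forall fun t ht => ?_
        have h2 := h.ρb t (hmem t ht)
        rw [← hXq] at h2
        have h3 := hP t
        show |ρ t * Z 0 t| ≤ C * (δ * |Z 0 t| ^ (q + 1) + X)
        rw [abs_mul]
        calc |ρ t| * |Z 0 t| ≤ (C * Xq) * |Z 0 t| := mul_le_mul_of_nonneg_right h2 (abs_nonneg _)
          _ = C * (|Z 0 t| * Xq) := by ring
          _ ≤ C * (δ * |Z 0 t| ^ (q + 1) + X) := mul_le_mul_of_nonneg_left h3 hC.le)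
    rw [intervalIntegral.integral_const_mul, hPi] at h1
    linarith
  -- `S`
  have hβC : ∀ t ∈ Icc s s', |A t| ≤ C ∧ |A t| ≤ (1 - e) * (σ * β t) := by
    intro t ht
    have h1 := h.Ale t ht
    have h2 := h.βlow t ht
    have h3 := h.βup t ht
    have h4 : σ * β t ≤ |β t| := by
      refine (le_abs_self _).trans ?_
      rw [abs_mul, h.hσ, one_mul]
    refine ⟨?_, h1⟩
    nlinarith
  have cS : ContinuousOn (fun t => A t * g 0 t + β t * |g 0 t|) (uIcc s s') :=
    (cA.mul cg).add (cβ.mul cg.abs)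
  have hS1 : e * β0 * Y ≤ |S| := by
    have h1 : e * β0 * Y ≤ σ * S := by
      rw [hY, hS, ← intervalIntegral.integral_const_mul, ← intervalIntegral.integral_const_mul]
      apply intervalIntegral.integral_mono_on h.hs.le (cg.abs.intervalIntegrable.const_mul _)
        (cS.intervalIntegrable.const_mul _)
      intro t ht
      have h2 := (hβC t ht).2
      have h3 := h.βlow t ht
      have h4 : -(|A t| * |g 0 t|) ≤ σ * (A t * g 0 t) := by
        have h5 : |σ * (A t * g 0 t)| = |A t| * |g 0 t| := by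
          rw [abs_mul, abs_mul, h.hσ, one_mul]
        rw [← h5]
        exact neg_abs_le _
      have h6 : |A t| * |g 0 t| ≤ (1 - e) * (σ * β t) * |g 0 t| :=
        mul_le_mul_of_nonneg_right h2 (abs_nonneg _)
      have h7 : e * β0 * |g 0 t| ≤ e * (σ * β t) * |g 0 t| :=
        mul_le_mul_of_nonneg_right (mul_le_mul_of_nonneg_left h3 he.le) (abs_nonneg _)
      nlinarith
    refine h1.trans ((le_abs_self _).trans ?_)
    rw [abs_mul, h.hσ, one_mul]
  have hS2 : |S| ≤ 2 * C * Y := by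
    have h1 := gq_bd (f := fun t => A t * g 0 t + β t * |g 0 t|) (b := fun t => 2 * C * |g 0 t|)
      h.hs (cg.abs.const_mul _) (by
        refine Filter.Eventually.of_forall fun t ht => ?_
        have h2 := (hβC t (hmem t ht)).1
        have h3 := h.βup t (hmem t ht)
        show abs (A t * g 0 t + β t * |g 0 t|) ≤ 2 * C * |g 0 t|
        refine (abs_add_le _ _).trans ?_
        rw [abs_mul, abs_mul, abs_abs]
        have h4 := mul_le_mul_of_nonneg_right h2 (abs_nonneg (g 0 t))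
        have h5 := mul_le_mul_of_nonneg_right h3 (abs_nonneg (g 0 t))
        linarith)
    rw [intervalIntegral.integral_const_mul, ← hS, ← hY] at h1
    exact h1
  -- the identity (I1)
  obtain ⟨Ξ, hΞ⟩ : ∃ Ξ : ℝ, Ξ = ∫ t in s..s', V t * κ t * Z 0 t := ⟨_, rfl⟩
  have hI1 := gap_id1 hN h
  rw [← hS] at hI1
  have hsp1 : ∫ t in s..s', g N t * Z 0 t = (∫ t in s..s', ρ t * Z 0 t) + Ξ := by
    rw [hΞ, ← intervalIntegral.integral_add cρZ.intervalIntegrable cVκZ.intervalIntegrable]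
    apply intervalIntegral.integral_congr
    intro t ht
    rw [huIcc] at ht
    simp only
    rw [h.gN t ht]
    ring
  have hi : |Ξ - (-1) ^ N * S| ≤ 2 * C * δ * X := by
    have h1 : Ξ - (-1) ^ N * S = - ∫ t in s..s', ρ t * Z 0 t := by linarith
    rw [h1, abs_neg]
    exact hR1
  have hpow1 : |(-1 : ℝ) ^ N| = 1 := by simp
  have hXY : X ≤ 4 * C / c0 * Y := by
    have h1 : c0 * X ≤ θ * Ξ := by
      rw [hX, hΞ, ← intervalIntegral.integral_const_mul, ← intervalIntegral.integral_const_mul]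
      exact intervalIntegral.integral_mono_on h.hs.le (cX.intervalIntegrable.const_mul _)
        (cVκZ.intervalIntegrable.const_mul _) fun t ht => h.low1 hod t ht
    have h2 : θ * Ξ ≤ |Ξ| := by
      refine (le_abs_self _).trans ?_
      rw [abs_mul, h.hθ, one_mul]
    have h3 : |Ξ| ≤ |Ξ - (-1) ^ N * S| + |S| := by
      have h4 : Ξ = (Ξ - (-1) ^ N * S) + (-1) ^ N * S := by ring
      calc |Ξ| = |(Ξ - (-1) ^ N * S) + (-1) ^ N * S| := by rw [← h4]
        _ ≤ |Ξ - (-1) ^ N * S| + |(-1) ^ N * S| := abs_add_le _ _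
        _ = |Ξ - (-1) ^ N * S| + |S| := by rw [abs_mul, hpow1, one_mul]
    have h5 : 4 * C * δ * X ≤ c0 * X := mul_le_mul_of_nonneg_right hδ2 hX0
    rw [div_mul_eq_mul_div, le_div_iff₀ hc0]
    nlinarith
  -- the identity (I2)
  have hI2 := gap_id2 hN h
  rw [← hS] at hI2
  obtain ⟨E1, hE1⟩ : ∃ E1 : ℝ, E1 = ∫ t in s..s', (t - s) * (g 0 t * A' t + |g 0 t| * β' t) :=
    ⟨_, rfl⟩
  rw [← hE1] at hI2
  have hts : ∀ t ∈ Icc s s', |t - s| ≤ δ := by
    intro t ht
    rw [abs_of_nonneg (by linarith [ht.1]), hδ]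
    linarith [ht.2]
  have hE1b : |E1| ≤ 2 * C * δ * Y := by
    have h1 := gq_bd (f := fun t => (t - s) * (g 0 t * A' t + |g 0 t| * β' t))
      (b := fun t => 2 * C * δ * |g 0 t|) h.hs (cg.abs.const_mul _) (by
        filter_upwards [h.Ab, h.βb] with t h2 h3 ht
        have h4 := h2 ht
        have h5 := h3 ht
        have h6 := hts t (hmem t ht)
        rw [abs_mul]
        have h7 : |g 0 t * A' t + |g 0 t| * β' t| ≤ 2 * C * |g 0 t| := by
          refine (abs_add_le _ _).trans ?_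
          rw [abs_mul, abs_mul, abs_abs]
          have := mul_le_mul_of_nonneg_left h4 (abs_nonneg (g 0 t))
          have := mul_le_mul_of_nonneg_left h5 (abs_nonneg (g 0 t))
          linarith
        calc |t - s| * |g 0 t * A' t + |g 0 t| * β' t| ≤ δ * (2 * C * |g 0 t|) :=
              mul_le_mul h6 h7 (abs_nonneg _) hδ0.le
          _ = 2 * C * δ * |g 0 t| := by ring)
    rw [intervalIntegral.integral_const_mul, ← hE1, ← hY] at h1
    exact h1
  -- `Z 1` and integrability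
  have iZ1 : IntervalIntegrable (Z 1) volume s s' :=
    GapIds_int_of_der (h.Zac 0 (by omega)) (h.Zd 0 (by omega))
  have iV' : IntervalIntegrable V' volume s s' := GapIds_int_of_der h.Vac h.Vd
  have iρ' : IntervalIntegrable ρ' volume s s' := GapIds_int_of_der h.ρac h.ρd
  have iH' : IntervalIntegrable (fun t => κ t * Z 1 t + Ht t) volume s s' :=
    GapIds_int_of_der h.Hac h.Hd
  have iκZ : IntervalIntegrable (fun t => κ t * Z 1 t) volume s s' := iZ1.continuousOn_mul cκ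
  have iHt : IntervalIntegrable Ht volume s s' := by
    have h1 := iH'.sub iκZ
    refine h1.congr fun t _ => ?_
    simp
  have iρZ1 : IntervalIntegrable (fun t => (ρ t * (t - s)) * Z 1 t) volume s s' :=
    iZ1.continuousOn_mul (cρ.mul cs)
  have iVκZ1 : IntervalIntegrable (fun t => (V t * (t - s)) * (κ t * Z 1 t)) volume s s' :=
    iκZ.continuousOn_mul (cV.mul cs)
  have iVHt : IntervalIntegrable (fun t => (V t * (t - s)) * Ht t) volume s s' :=
    iHt.continuousOn_mul (cV.mul cs)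
  have iρZ : IntervalIntegrable (fun t => (ρ' t * (t - s)) * Z 0 t) volume s s' :=
    (iρ'.mul_continuousOn cs).mul_continuousOn cZ
  have iVH : IntervalIntegrable (fun t => (V' t * (t - s)) * Hh t) volume s s' :=
    (iV'.mul_continuousOn cs).mul_continuousOn cH
  have hsp2 : ∫ t in s..s', g N t * ((t - s) * Z 1 t) = (∫ t in s..s', (ρ t * (t - s)) * Z 1 t)
      + ∫ t in s..s', (V t * (t - s)) * (κ t * Z 1 t) := by
    rw [← intervalIntegral.integral_add iρZ1 iVκZ1]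
    apply intervalIntegral.integral_congr
    intro t ht
    rw [huIcc] at ht
    simp only
    rw [h.gN t ht]
    ring
  -- first part
  have hF1 : |∫ t in s..s', (ρ t * (t - s)) * Z 1 t| ≤ 5 * C * δ * X := by
    have h1 := ibp_zero (f := fun t => ρ t * (t - s)) (f' := fun t => ρ' t * (t - s) + ρ t * 1)
      (h.ρac.mul (ac_id_sub s s')) (h.Zac 0 (by omega)) (by
        filter_upwards [h.ρd] with t ht htm
        exact (ht htm).mul (der_id_sub s t)) (h.Zd 0 (by omega))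
      (by rw [h.Zl 0 (by omega)]; ring) (by rw [h.Zr 0 (by omega)]; ring)
    simp only [Nat.zero_add] at h1
    rw [h1, abs_neg]
    have h2 : ∫ t in s..s', (ρ' t * (t - s) + ρ t * 1) * Z 0 t
        = (∫ t in s..s', (ρ' t * (t - s)) * Z 0 t) + ∫ t in s..s', ρ t * Z 0 t := by
      rw [← intervalIntegral.integral_add iρZ cρZ.intervalIntegrable]
      congr 1
      ext t
      ring
    have h3 : |∫ t in s..s', (ρ' t * (t - s)) * Z 0 t| ≤ 3 * C * δ * X := by
      have h4 := gq_bd (f := fun t => (ρ' t * (t - s)) * Z 0 t)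
        (b := fun t => C * δ * (|Z 0 t| ^ (q + 1) + (δ * |Z 0 t| ^ (q + 1) + X))) h.hs
        ((cX.add cP).const_mul _) (by
          filter_upwards [h.ρb'] with t h5 ht
          have h6 := h5 ht
          rw [← hXq] at h6
          have h7 := hts t (hmem t ht)
          have h8 := hP t
          rw [abs_mul, abs_mul]
          have h9 : |ρ' t| * |t - s| ≤ (C * (|Z 0 t| ^ q + Xq)) * δ :=
            mul_le_mul h6 h7 (abs_nonneg _) (by positivity)
          calc |ρ' t| * |t - s| * |Z 0 t| ≤ (C * (|Z 0 t| ^ q + Xq)) * δ * |Z 0 t| :=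
                mul_le_mul_of_nonneg_right h9 (abs_nonneg _)
            _ = C * δ * (|Z 0 t| ^ (q + 1) + |Z 0 t| * Xq) := by ring
            _ ≤ C * δ * (|Z 0 t| ^ (q + 1) + (δ * |Z 0 t| ^ (q + 1) + X)) := by
                have : 0 ≤ C * δ := by positivity
                nlinarith)
      rw [intervalIntegral.integral_const_mul, intervalIntegral.integral_add cX.intervalIntegrable
        cP.intervalIntegrable, hPi, ← hX] at h4
      refine h4.trans ?_
      have : C * δ * X * δ ≤ C * δ * X * 1 := mul_le_mul_of_nonneg_left hδ1 (by positivity)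
      nlinarith
    rw [h2]
    refine (abs_add_le _ _).trans ?_
    linarith
  -- second part
  have hsecond : ∫ t in s..s', (V t * (t - s)) * (κ t * Z 1 t)
      = - (∫ t in s..s', V t * Hh t) - (∫ t in s..s', (V' t * (t - s)) * Hh t)
        - ∫ t in s..s', (V t * (t - s)) * Ht t := by
    have hHr : Hh s' = 0 := by
      have h1 := h.H2 s' ⟨h.hs.le, le_rfl⟩
      rw [h.Zr 0 (by omega), abs_zero, zero_pow (by omega), mul_zero] at h1
      exact abs_eq_zero.1 (le_antisymm h1 (abs_nonneg _))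
    have h1 := ibp_zero (f := fun t => V t * (t - s)) (f' := fun t => V' t * (t - s) + V t * 1)
      (h.Vac.mul (ac_id_sub s s')) h.Hac (by
        filter_upwards [h.Vd] with t ht htm
        exact (ht htm).mul (der_id_sub s t)) h.Hd
      (by ring) (by rw [hHr]; ring)
    have h2 : ∫ t in s..s', (V t * (t - s)) * (κ t * Z 1 t + Ht t)
        = (∫ t in s..s', (V t * (t - s)) * (κ t * Z 1 t))
          + ∫ t in s..s', (V t * (t - s)) * Ht t := by
      rw [← intervalIntegral.integral_add iVκZ1 iVHt]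
      congr 1
      ext t
      ring
    have h3 : ∫ t in s..s', (V' t * (t - s) + V t * 1) * Hh t
        = (∫ t in s..s', (V' t * (t - s)) * Hh t) + ∫ t in s..s', V t * Hh t := by
      rw [← intervalIntegral.integral_add iVH cVH.intervalIntegrable]
      congr 1
      ext t
      ring
    rw [h2, h3] at h1
    linarith
  have hq1 : (0 : ℝ) < (q : ℝ) + 1 := by positivity
  have hq1' : (1 : ℝ) ≤ (q : ℝ) + 1 := by
    have : (0 : ℝ) ≤ q := Nat.cast_nonneg q
    linarith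
  have hB1 : |(∫ t in s..s', V t * Hh t) - Ξ / ((q : ℝ) + 1)| ≤ C ^ 2 * δ * X := by
    have h1 : (∫ t in s..s', V t * Hh t) - Ξ / ((q : ℝ) + 1)
        = ∫ t in s..s', V t * ((((q : ℝ) + 1) * Hh t - κ t * Z 0 t) / ((q : ℝ) + 1)) := by
      rw [hΞ, ← intervalIntegral.integral_div,
        ← intervalIntegral.integral_sub cVH.intervalIntegrable
          (cVκZ.intervalIntegrable.div_const _)]
      congr 1
      ext t
      field_simp
    rw [h1]
    have h2 := gq_bd (f := fun t => V t * ((((q : ℝ) + 1) * Hh t - κ t * Z 0 t) / ((q : ℝ) + 1)))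
      (b := fun t => C ^ 2 * δ * |Z 0 t| ^ (q + 1)) h.hs (cX.const_mul _) (by
        refine Filter.Eventually.of_forall fun t ht => ?_
        have h3 := h.H1 t (hmem t ht)
        have h4 := h.Vup t (hmem t ht)
        rw [← hδ] at h3
        rw [abs_mul, abs_div, abs_of_pos hq1]
        have h5 : |((q : ℝ) + 1) * Hh t - κ t * Z 0 t| / ((q : ℝ) + 1)
            ≤ C * δ * |Z 0 t| ^ (q + 1) := by
          rw [div_le_iff₀ hq1]
          refine h3.trans ?_
          have : 0 ≤ C * δ * |Z 0 t| ^ (q + 1) := by positivity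
          nlinarith
        calc |V t| * (|((q : ℝ) + 1) * Hh t - κ t * Z 0 t| / ((q : ℝ) + 1))
            ≤ C * (C * δ * |Z 0 t| ^ (q + 1)) := mul_le_mul h4 h5 (by positivity) hC.le
          _ = C ^ 2 * δ * |Z 0 t| ^ (q + 1) := by ring)
    rw [intervalIntegral.integral_const_mul, ← hX] at h2
    exact h2
  have hB2 : |∫ t in s..s', (V' t * (t - s)) * Hh t| ≤ C ^ 2 * δ * X := by
    have h2 := gq_bd (f := fun t => (V' t * (t - s)) * Hh t)
      (b := fun t => C ^ 2 * δ * |Z 0 t| ^ (q + 1)) h.hs (cX.const_mul _) (by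
        filter_upwards [h.Vb] with t h3 ht
        have h4 := h3 ht
        have h5 := hts t (hmem t ht)
        have h6 := h.H2 t (hmem t ht)
        rw [abs_mul, abs_mul]
        calc |V' t| * |t - s| * |Hh t| ≤ (C * δ) * (C * |Z 0 t| ^ (q + 1)) :=
              mul_le_mul (mul_le_mul h4 h5 (abs_nonneg _) hC.le) h6 (abs_nonneg _) (by positivity)
          _ = C ^ 2 * δ * |Z 0 t| ^ (q + 1) := by ring)
    rw [intervalIntegral.integral_const_mul, ← hX] at h2
    exact h2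
  have hB3 : |∫ t in s..s', (V t * (t - s)) * Ht t| ≤ C ^ 2 * δ * X := by
    have h2 := gq_bd (f := fun t => (V t * (t - s)) * Ht t)
      (b := fun t => C ^ 2 * δ * |Z 0 t| ^ (q + 1)) h.hs (cX.const_mul _) (by
        filter_upwards [h.H3] with t h3 ht
        have h4 := h.Vup t (hmem t ht)
        have h5 := hts t (hmem t ht)
        have h6 := h3 ht
        rw [abs_mul, abs_mul]
        calc |V t| * |t - s| * |Ht t| ≤ (C * δ) * (C * |Z 0 t| ^ (q + 1)) :=
              mul_le_mul (mul_le_mul h4 h5 (abs_nonneg _) hC.le) h6 (abs_nonneg _) (by positivity)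
          _ = C ^ 2 * δ * |Z 0 t| ^ (q + 1) := by ring)
    rw [intervalIntegral.integral_const_mul, ← hX] at h2
    exact h2
  -- conclusion
  have hNR : (1 : ℝ) ≤ N := by exact_mod_cast hN
  have hfin : |S| ≤ (7 * C + 3 * C ^ 2) * δ * X + 2 * C * δ * Y := by
    -- (N + 1/(q+1)) (-1)^N S = combination of the errors
    obtain ⟨P, hP1⟩ : ∃ P : ℝ, P = (-1 : ℝ) ^ N := ⟨_, rfl⟩
    rw [← hP1] at hi hI2 hpow1
    have h1 : P * S * ((N : ℝ) + 1 / ((q : ℝ) + 1))
        = (∫ t in s..s', (ρ t * (t - s)) * Z 1 t)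
          - ((∫ t in s..s', V t * Hh t) - Ξ / ((q : ℝ) + 1))
          - (∫ t in s..s', (V' t * (t - s)) * Hh t)
          - (∫ t in s..s', (V t * (t - s)) * Ht t) - P * E1
          - (Ξ - P * S) / ((q : ℝ) + 1) := by
      rw [hsp2, hsecond] at hI2
      have : P * S * ((N : ℝ) + 1 / ((q : ℝ) + 1)) = P * ((N : ℝ) * S) + P * S / ((q : ℝ) + 1) := by
        ring
      rw [this]
      have h3 : P * ((N : ℝ) * S) = P * ((N : ℝ) * S + E1) - P * E1 := by ring
      rw [h3, ← hI2]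
      ring
    have h2 : |P * S * ((N : ℝ) + 1 / ((q : ℝ) + 1))|
        ≤ 5 * C * δ * X + C ^ 2 * δ * X + C ^ 2 * δ * X + C ^ 2 * δ * X + 2 * C * δ * Y
          + 2 * C * δ * X := by
      rw [h1]
      have a1 := abs_sub (∫ t in s..s', (ρ t * (t - s)) * Z 1 t)
        ((∫ t in s..s', V t * Hh t) - Ξ / ((q : ℝ) + 1))
      have a5 : |P * E1| ≤ 2 * C * δ * Y := by rw [abs_mul, hpow1, one_mul]; exact hE1b
      have a6 : |(Ξ - P * S) / ((q : ℝ) + 1)| ≤ 2 * C * δ * X := by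
        rw [abs_div, abs_of_pos hq1]
        exact (div_le_self (abs_nonneg _) hq1').trans hi
      rw [abs_le] at hF1 hB1 hB2 hB3 a5 a6 ⊢
      constructor
      · linarith [hF1.1, hB1.2, hB2.2, hB3.2, a5.2, a6.2]
      · linarith [hF1.2, hB1.1, hB2.1, hB3.1, a5.1, a6.1]
    have h3 : |S| ≤ |P * S * ((N : ℝ) + 1 / ((q : ℝ) + 1))| := by
      rw [abs_mul, abs_mul, hpow1, one_mul]
      have h4 : (1 : ℝ) ≤ |(N : ℝ) + 1 / ((q : ℝ) + 1)| := by
        rw [abs_of_nonneg (by positivity)]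
        have : 0 ≤ 1 / ((q : ℝ) + 1) := by positivity
        linarith
      have := mul_le_mul_of_nonneg_left h4 (abs_nonneg S)
      linarith
    refine h3.trans (h2.trans (le_of_eq ?_))
    ring
  have hYz : Y = 0 := by
    have h1 : (7 * C + 3 * C ^ 2) * δ * X ≤ (7 * C + 3 * C ^ 2) * δ * (4 * C / c0 * Y) :=
      mul_le_mul_of_nonneg_left hXY (by positivity)
    have h2 : e * β0 * Y ≤ δ * ((7 * C + 3 * C ^ 2) * (4 * C / c0) + 2 * C) * Y := by
      refine hS1.trans (hfin.trans ?_)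
      have : (7 * C + 3 * C ^ 2) * δ * (4 * C / c0 * Y) + 2 * C * δ * Y
          = δ * ((7 * C + 3 * C ^ 2) * (4 * C / c0) + 2 * C) * Y := by ring
      linarith
    by_contra hne
    have h3 : 0 < Y := lt_of_le_of_ne hY0 (Ne.symm hne)
    have h4 := mul_lt_mul_of_pos_right hδ3 h3
    linarith
  have hXz : X = 0 := by
    rw [hYz, mul_zero] at hXY
    exact le_antisymm hXY hX0
  intro t ht
  have h8 := gq_zero h.hs (f := fun t => |Z 0 t| ^ (q + 1)) (by rw [← huIcc]; exact cX)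
    (fun t _ => by positivity) (by rw [← hX]; exact hXz) t ht
  have h9 := pow_eq_zero_iff (by omega : q + 1 ≠ 0) |>.1 h8
  exact abs_eq_zero.1 h9

theorem gapq {N q : ℕ} (hN : 1 ≤ N) (hq : 1 ≤ q) {C c0 e β0 : ℝ} (hC : 0 < C) (hc0 : 0 < c0)
    (he : 0 < e) (hβ0 : 0 < β0) :
    ∃ δ0 : ℝ, 0 < δ0 ∧ ∀ (σ θ s s' : ℝ) (g Z : ℕ → ℝ → ℝ)
      (u A A' β β' V V' ρ ρ' κ Hh Ht : ℝ → ℝ),
      GapData N q C c0 e β0 σ θ s s' g Z u A A' β β' V V' ρ ρ' κ Hh Ht → s' - s < δ0 →
        ∀ t ∈ Icc s s', Z 0 t = 0 := by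
  have hC4 : 0 < (7 * C + 3 * C ^ 2) * (4 * C / c0) + 2 * C := by positivity
  refine ⟨min 1 (min (c0 / (4 * C)) (e * β0 / ((7 * C + 3 * C ^ 2) * (4 * C / c0) + 2 * C))),
    by positivity, ?_⟩
  intro σ θ s s' g Z u A A' β β' V V' ρ ρ' κ Hh Ht h hlt
  rw [lt_min_iff, lt_min_iff] at hlt
  obtain ⟨h1, h2, h3⟩ := hlt
  rw [lt_div_iff₀ (by positivity)] at h2
  rw [lt_div_iff₀ hC4] at h3
  have hs0 : 0 < s' - s := sub_pos.2 h.hs
  rcases Nat.even_or_odd q with hev | hod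
  · exact gq_even hN hq h hev (by nlinarith)
  · exact gq_odd hN hC hc0 he hβ0 h hod h1.le (by linarith) h3

end Pool.Agent.Lib.MP_28b8de_an
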