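import Pool.Agent.Lib.MP_28b8de_an.E.Ov

/-!
MP_28b8de_an, module KEst (MSE-KEst): Taylor estimates for the nonlinearity along the curve
`z = ζ(t)` on which its derivatives of orders 1 .. q-1 vanish.

PROOF.  Put Kf(t,w) = H(t,ζ(t)+w) - H(t,ζ(t)) - D2 H(t,ζ(t)) w, analytic near (t₁,0), κ = D2 Kf =
D2 H(t,ζ(t)+w) - D2 H(t,ζ(t)), Kt = D1 Kf.  For t near t₁: D2^[j] Kf (t,0) = 0 for j ≤ q (j = 0, 1 directly;
2 ≤ j ≤ q: it is D2^[j-1] (D2 H)(t,ζ(t)) = 0 by h0); D2^[q+1] Kf(t,0) = D2^[q](D2 H)(t,ζ(t)) ≠ 0.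
(In general D2^[j] of (t,w) ↦ G(t,ζ(t)+w) is (D2^[j] G)(t,ζ(t)+w).)  Apply `ov`:
 Kf with r = q+1; κ = D2 Kf with r = q; Kt = D1 Kf with r = q+1, since D2^[j] D1 Kf = D1 D2^[j] Kf (symmetry of
 the second derivative) and D1(D2^[j] Kf)(t,0) = d/dt [D2^[j] Kf (t,0)] = 0 for j ≤ q (the function vanishes for
 all t near t₁);
 G = (q+1) Kf - w D2 Kf with r = q+2: D2^[j] G (t,0) = (q+1-j) D2^[j] Kf(t,0) = 0 for j ≤ q+1 (Leibniz:
 D2^[j](w F) = w D2^[j] F + j D2^[j-1] F);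
 κ - c(t) w^q with c(t) = D2^[q+1] Kf(t,0)/q! and r = q+1: so κ w θ ≥ (|c|/2) |w|^(q+1) for odd q and
 κ θ ≥ (|c|/2) |w|^q for even q, θ = sign c(t₁), |c(t)| ≥ |c(t₁)|/2 =: 2 c0 near t₁.
The last claim is the chain rule for t ↦ Kf(t, Z t): derivative D1 Kf (t,Z t) + D2 Kf(t,Z t) Z'.
Take ε the minimum of all radii (also so small that ζ is analytic on |t - t₁| < ε).
-/

namespace Pool.Agent.Lib.MP_28b8de_an

open Filter Topology Set MeasureTheory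

private theorem kest_hasDeriv2 {F : ℝ × ℝ → ℝ} {t w : ℝ} (hF : DifferentiableAt ℝ F (t, w)) :
    HasDerivAt (fun s => F (t, s)) (D2 F (t, w)) w := by
  have h1 : HasDerivAt (fun s : ℝ => ((t, s) : ℝ × ℝ)) ((0 : ℝ), (1 : ℝ)) w :=
    (hasDerivAt_const w t).prodMk (hasDerivAt_id w)
  exact hF.hasFDerivAt.comp_hasDerivAt w h1

private theorem kest_hasDeriv1 {F : ℝ × ℝ → ℝ} {t w : ℝ} (hF : DifferentiableAt ℝ F (t, w)) :
    HasDerivAt (fun s => F (s, w)) (D1 F (t, w)) t := by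
  have h1 : HasDerivAt (fun s : ℝ => ((s, w) : ℝ × ℝ)) ((1 : ℝ), (0 : ℝ)) t :=
    (hasDerivAt_id t).prodMk (hasDerivAt_const t w)
  exact hF.hasFDerivAt.comp_hasDerivAt t h1

private theorem kest_D2_eq {F : ℝ × ℝ → ℝ} {t w v : ℝ} (hF : DifferentiableAt ℝ F (t, w))
    (h : HasDerivAt (fun s => F (t, s)) v w) : D2 F (t, w) = v :=
  (kest_hasDeriv2 hF).unique h

private theorem kest_congr {Ω : Set (ℝ × ℝ)} (hΩ : IsOpen Ω) {F G : ℝ × ℝ → ℝ} (h : EqOn F G Ω) :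
    EqOn (D2 F) (D2 G) Ω := by
  intro p hp
  unfold D2
  rw [Filter.EventuallyEq.fderiv_eq (h.eventuallyEq_of_mem (hΩ.mem_nhds hp))]

private theorem kest_congr_iter {Ω : Set (ℝ × ℝ)} (hΩ : IsOpen Ω) {F G : ℝ × ℝ → ℝ}
    (h : EqOn F G Ω) (j : ℕ) : EqOn (D2^[j] F) (D2^[j] G) Ω := by
  induction j with
  | zero => exact h
  | succ j ih =>
    rw [Function.iterate_succ_apply', Function.iterate_succ_apply']
    exact kest_congr hΩ ih

private theorem kest_diff {Ω : Set (ℝ × ℝ)} {F : ℝ × ℝ → ℝ} (hF : AnalyticOnNhd ℝ F Ω)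
    {p : ℝ × ℝ} (hp : p ∈ Ω) : DifferentiableAt ℝ F p := (hF p hp).differentiableAt

/-- Leibniz rule for multiplication by the second variable -/
private theorem kest_leib {Ω : Set (ℝ × ℝ)} (hΩ : IsOpen Ω) {F : ℝ × ℝ → ℝ}
    (hF : AnalyticOnNhd ℝ F Ω) (j : ℕ) :
    EqOn (D2^[j] (fun p => p.2 * F p))
      (fun p => p.2 * (D2^[j] F) p + (j : ℝ) * (D2^[j - 1] F) p) Ω := by
  induction j with
  | zero =>
    intro p _
    simp
  | succ j ih =>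
    rw [Function.iterate_succ_apply']
    intro p hp
    rw [kest_congr hΩ ih hp]
    obtain ⟨t, w⟩ := p
    have hsnd : AnalyticOnNhd ℝ (fun p : ℝ × ℝ => p.2) Ω := fun p _ => analyticAt_snd
    have hj := D2_iter_an hF j
    have hj1 := D2_iter_an hF (j - 1)
    have hA : AnalyticOnNhd ℝ (fun p : ℝ × ℝ => p.2 * (D2^[j] F) p + (j : ℝ) * (D2^[j - 1] F) p)
        Ω := fun p hp => ((hsnd p hp).mul (hj p hp)).add (analyticAt_const.mul (hj1 p hp))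
    have h1 := kest_hasDeriv2 (kest_diff hj hp)
    have h2 := kest_hasDeriv2 (kest_diff hj1 hp)
    have h3 : HasDerivAt (fun s => s * (D2^[j] F) (t, s) + (j : ℝ) * (D2^[j - 1] F) (t, s))
        (1 * (D2^[j] F) (t, w) + w * D2 (D2^[j] F) (t, w) + (j : ℝ) * D2 (D2^[j - 1] F) (t, w)) w :=
      ((hasDerivAt_id w).mul h1).add (h2.const_mul _)
    rw [kest_D2_eq (kest_diff hA hp) h3]
    have e1 : (D2^[j + 1] F) = D2 (D2^[j] F) := Function.iterate_succ_apply' _ _ _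
    have e2 : (j : ℝ) * D2 (D2^[j - 1] F) (t, w) = (j : ℝ) * (D2^[j] F) (t, w) := by
      rcases j with _ | j
      · simp
      · rw [Nat.add_sub_cancel, ← Function.iterate_succ_apply' D2 j F]
    simp only [e1, Nat.add_sub_cancel]
    rw [e2]
    push_cast
    ring

/-- linear combinations -/
private theorem kest_lin {Ω : Set (ℝ × ℝ)} (hΩ : IsOpen Ω) {F G : ℝ × ℝ → ℝ} (a : ℝ)
    (hF : AnalyticOnNhd ℝ F Ω) (hG : AnalyticOnNhd ℝ G Ω) (j : ℕ) :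
    EqOn (D2^[j] (fun p => a * F p - G p)) (fun p => a * (D2^[j] F) p - (D2^[j] G) p) Ω := by
  induction j with
  | zero =>
    intro p _
    simp
  | succ j ih =>
    rw [Function.iterate_succ_apply']
    intro p hp
    rw [kest_congr hΩ ih hp]
    obtain ⟨t, w⟩ := p
    have hj := D2_iter_an hF j
    have hj1 := D2_iter_an hG j
    have hA : AnalyticOnNhd ℝ (fun p : ℝ × ℝ => a * (D2^[j] F) p - (D2^[j] G) p)
        Ω := fun p hp => (analyticAt_const.mul (hj p hp)).sub (hj1 p hp)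
    have h1 := kest_hasDeriv2 (kest_diff hj hp)
    have h2 := kest_hasDeriv2 (kest_diff hj1 hp)
    have h3 : HasDerivAt (fun s => a * (D2^[j] F) (t, s) - (D2^[j] G) (t, s))
        (a * D2 (D2^[j] F) (t, w) - D2 (D2^[j] G) (t, w)) w :=
      (h1.const_mul a).sub h2
    rw [kest_D2_eq (kest_diff hA hp) h3, Function.iterate_succ_apply' D2 j F,
      Function.iterate_succ_apply' D2 j G]

/-- powers of the second variable -/
private theorem kest_pow {Ω : Set (ℝ × ℝ)} (hΩ : IsOpen Ω) {c : ℝ → ℝ}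
    (hc : ∀ p ∈ Ω, AnalyticAt ℝ c p.1) (q j : ℕ) :
    EqOn (D2^[j] (fun p => c p.1 * p.2 ^ q))
      (fun p => c p.1 * (q.descFactorial j : ℝ) * p.2 ^ (q - j)) Ω := by
  induction j with
  | zero =>
    intro p _
    simp
  | succ j ih =>
    rw [Function.iterate_succ_apply']
    intro p hp
    rw [kest_congr hΩ ih hp]
    obtain ⟨t, w⟩ := p
    have hcomp : AnalyticAt ℝ (fun p : ℝ × ℝ => c p.1) (t, w) := (hc (t, w) hp).comp analyticAt_fst
    have hA : AnalyticAt ℝ (fun p : ℝ × ℝ => c p.1 * (q.descFactorial j : ℝ) * p.2 ^ (q - j))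
        (t, w) := (hcomp.mul analyticAt_const).mul (analyticAt_snd.pow _)
    have h3 : HasDerivAt (fun s : ℝ => c t * (q.descFactorial j : ℝ) * s ^ (q - j))
        (c t * (q.descFactorial j : ℝ) * (((q - j : ℕ) : ℝ) * w ^ (q - j - 1))) w :=
      (hasDerivAt_pow (q - j) w).const_mul _
    rw [kest_D2_eq hA.differentiableAt h3, Nat.descFactorial_succ]
    push_cast
    rw [Nat.sub_sub]
    ring

/-- symmetry of the mixed derivatives -/
private theorem kest_symm {Ω : Set (ℝ × ℝ)} {F : ℝ × ℝ → ℝ}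
    (hF : AnalyticOnNhd ℝ F Ω) : EqOn (D2 (D1 F)) (D1 (D2 F)) Ω := by
  intro p hp
  have hs : IsSymmSndFDerivAt ℝ F p :=
    ((hF p hp).contDiffAt (n := 2)).isSymmSndFDerivAt (by simp)
  have hd : DifferentiableAt ℝ (fderiv ℝ F) p := (hF p hp).fderiv.differentiableAt
  have key : ∀ v u : ℝ × ℝ, fderiv ℝ (fun x => fderiv ℝ F x v) p u = fderiv ℝ (fderiv ℝ F) p u v := by
    intro v u
    have h1 : HasFDerivAt (fun x => fderiv ℝ F x v)
        ((ContinuousLinearMap.apply ℝ ℝ v).comp (fderiv ℝ (fderiv ℝ F) p)) p :=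
      (ContinuousLinearMap.apply ℝ ℝ v).hasFDerivAt.comp p hd.hasFDerivAt
    rw [h1.fderiv]
    rfl
  have e1 : D2 (D1 F) p = fderiv ℝ (fderiv ℝ F) p (0, 1) (1, 0) := key (1, 0) (0, 1)
  have e2 : D1 (D2 F) p = fderiv ℝ (fderiv ℝ F) p (1, 0) (0, 1) := key (0, 1) (1, 0)
  rw [e1, e2]
  exact hs (0, 1) (1, 0)

private theorem kest_D1_congr {Ω : Set (ℝ × ℝ)} (hΩ : IsOpen Ω) {F G : ℝ × ℝ → ℝ}
    (h : EqOn F G Ω) : EqOn (D1 F) (D1 G) Ω := by
  intro p hp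
  unfold D1
  rw [Filter.EventuallyEq.fderiv_eq (h.eventuallyEq_of_mem (hΩ.mem_nhds hp))]

private theorem kest_D1_iter {Ω : Set (ℝ × ℝ)} (hΩ : IsOpen Ω) {F : ℝ × ℝ → ℝ}
    (hF : AnalyticOnNhd ℝ F Ω) (j : ℕ) : EqOn (D2^[j] (D1 F)) (D1 (D2^[j] F)) Ω := by
  induction j with
  | zero => exact fun p _ => rfl
  | succ j ih =>
    intro p hp
    rw [Function.iterate_succ_apply', Function.iterate_succ_apply', kest_congr hΩ ih hp]
    exact kest_symm (D2_iter_an hF j) hp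

section shift

variable {ζ : ℝ → ℝ}

/-- the domain -/
private def kest_Ω (ζ : ℝ → ℝ) : Set (ℝ × ℝ) := {p | AnalyticAt ℝ ζ p.1}

private theorem kest_Ω_open : IsOpen (kest_Ω ζ) :=
  (isOpen_analyticAt ℝ ζ).preimage continuous_fst

private theorem kest_m1_an {G : ℝ × ℝ → ℝ} (hG : AnalyticOnNhd ℝ G univ) :
    AnalyticOnNhd ℝ (fun p : ℝ × ℝ => G (p.1, ζ p.1 + p.2)) (kest_Ω ζ) := by
  intro p hp
  have hζ : AnalyticAt ℝ (fun p : ℝ × ℝ => ζ p.1) p := AnalyticAt.comp hp analyticAt_fst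
  have h1 : AnalyticAt ℝ (fun p : ℝ × ℝ => ((p.1, ζ p.1 + p.2) : ℝ × ℝ)) p :=
    analyticAt_fst.prod (hζ.add analyticAt_snd)
  exact AnalyticAt.comp (hG _ (mem_univ _)) h1

private theorem kest_m0_an {G : ℝ × ℝ → ℝ} (hG : AnalyticOnNhd ℝ G univ) :
    AnalyticOnNhd ℝ (fun p : ℝ × ℝ => G (p.1, ζ p.1)) (kest_Ω ζ) := by
  intro p hp
  have hζ : AnalyticAt ℝ (fun p : ℝ × ℝ => ζ p.1) p := AnalyticAt.comp hp analyticAt_fst
  have h1 : AnalyticAt ℝ (fun p : ℝ × ℝ => ((p.1, ζ p.1) : ℝ × ℝ)) p :=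
    analyticAt_fst.prod hζ
  exact AnalyticAt.comp (hG _ (mem_univ _)) h1

private theorem kest_shift_deriv {G : ℝ × ℝ → ℝ} (hG : AnalyticOnNhd ℝ G univ) (t w : ℝ) :
    HasDerivAt (fun s => G (t, ζ t + s)) (D2 G (t, ζ t + w)) w := by
  have h1 := kest_hasDeriv2 (kest_diff hG (mem_univ (t, ζ t + w)))
  exact h1.comp_const_add (ζ t) w

private theorem kest_shift_iter {G : ℝ × ℝ → ℝ} (hG : AnalyticOnNhd ℝ G univ) (j : ℕ) :
    EqOn (D2^[j] (fun p : ℝ × ℝ => G (p.1, ζ p.1 + p.2)))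
      (fun p => (D2^[j] G) (p.1, ζ p.1 + p.2)) (kest_Ω ζ) := by
  induction j with
  | zero => exact fun p _ => rfl
  | succ j ih =>
    intro p hp
    rw [Function.iterate_succ_apply', kest_congr kest_Ω_open ih hp]
    obtain ⟨t, w⟩ := p
    have hj := D2_iter_an hG j
    rw [kest_D2_eq (kest_diff (kest_m1_an hj) hp) (kest_shift_deriv hj t w),
      Function.iterate_succ_apply' D2 j G]

variable (ζ) in
/-- the derivative of the remainder -/
private noncomputable def kest_k (H : ℝ × ℝ → ℝ) (p : ℝ × ℝ) : ℝ :=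
  D2 H (p.1, ζ p.1 + p.2) - D2 H (p.1, ζ p.1)

variable (ζ) in
/-- the remainder -/
private noncomputable def kest_K (H : ℝ × ℝ → ℝ) (p : ℝ × ℝ) : ℝ :=
  H (p.1, ζ p.1 + p.2) - H (p.1, ζ p.1) - D2 H (p.1, ζ p.1) * p.2

variable {H : ℝ × ℝ → ℝ} (hH : AnalyticOnNhd ℝ H univ)

include hH

private theorem kest_k_an : AnalyticOnNhd ℝ (kest_k ζ H) (kest_Ω ζ) := fun p hp =>
  (kest_m1_an (D2_an hH) p hp).sub (kest_m0_an (D2_an hH) p hp)

private theorem kest_K_an : AnalyticOnNhd ℝ (kest_K ζ H) (kest_Ω ζ) := fun p hp =>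
  ((kest_m1_an hH p hp).sub (kest_m0_an hH p hp)).sub
    ((kest_m0_an (D2_an hH) p hp).mul analyticAt_snd)

private theorem kest_D2K : EqOn (D2 (kest_K ζ H)) (kest_k ζ H) (kest_Ω ζ) := by
  intro p hp
  obtain ⟨t, w⟩ := p
  refine kest_D2_eq (kest_diff (kest_K_an hH) hp) ?_
  have h1 := kest_shift_deriv (ζ := ζ) hH t w
  have h2 : HasDerivAt (fun s : ℝ => D2 H (t, ζ t) * s) (D2 H (t, ζ t) * 1) w :=
    (hasDerivAt_id w).const_mul _
  have h3 := (h1.sub_const (H (t, ζ t))).sub h2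
  rw [mul_one] at h3
  exact h3

private theorem kest_D2k : EqOn (D2 (kest_k ζ H)) (fun p => D2 (D2 H) (p.1, ζ p.1 + p.2))
    (kest_Ω ζ) := by
  intro p hp
  obtain ⟨t, w⟩ := p
  refine kest_D2_eq (kest_diff (kest_k_an hH) hp) ?_
  have h1 := (kest_shift_deriv (ζ := ζ) (D2_an hH) t w).sub_const (D2 H (t, ζ t))
  exact h1

private theorem kest_k_iter (j : ℕ) : EqOn (D2^[j + 1] (kest_k ζ H))
    (fun p => (D2^[j + 1] (D2 H)) (p.1, ζ p.1 + p.2)) (kest_Ω ζ) := by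
  intro p hp
  rw [Function.iterate_succ_apply, kest_congr_iter kest_Ω_open (kest_D2k hH) j hp,
    kest_shift_iter (D2_an (D2_an hH)) j hp, Function.iterate_succ_apply]

private theorem kest_K_iter (j : ℕ) : EqOn (D2^[j + 1] (kest_K ζ H)) (D2^[j] (kest_k ζ H))
    (kest_Ω ζ) := by
  intro p hp
  rw [Function.iterate_succ_apply, kest_congr_iter kest_Ω_open (kest_D2K hH) j hp]

variable {t₁ : ℝ} (hζ : AnalyticAt ℝ ζ t₁) {q : ℕ}

omit hH in
include hζ in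
private theorem kest_ev : ∀ᶠ t in 𝓝 t₁, ((t, (0 : ℝ)) : ℝ × ℝ) ∈ kest_Ω ζ :=
  hζ.eventually_analyticAt

include hζ

private theorem kest_k_zero (h0 : ∀ j, 1 ≤ j → j < q → ∀ᶠ t in 𝓝 t₁, (D2^[j] (D2 H)) (t, ζ t) = 0) :
    ∀ j < q, ∀ᶠ t in 𝓝 t₁, (D2^[j] (kest_k ζ H)) (t, 0) = 0 := by
  intro j hj
  rcases j with _ | j
  · refine Filter.Eventually.of_forall fun t => ?_
    show D2 H (t, ζ t + 0) - D2 H (t, ζ t) = 0
    rw [add_zero, sub_self]
  · filter_upwards [kest_ev hζ, h0 (j + 1) (by omega) hj] with t ht h1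
    rw [kest_k_iter hH j ht]
    show (D2^[j + 1] (D2 H)) (t, ζ t + 0) = 0
    rw [add_zero]
    exact h1

private theorem kest_K_zero (h0 : ∀ j, 1 ≤ j → j < q → ∀ᶠ t in 𝓝 t₁, (D2^[j] (D2 H)) (t, ζ t) = 0) :
    ∀ j < q + 1, ∀ᶠ t in 𝓝 t₁, (D2^[j] (kest_K ζ H)) (t, 0) = 0 := by
  intro j hj
  rcases j with _ | j
  · refine Filter.Eventually.of_forall fun t => ?_
    show H (t, ζ t + 0) - H (t, ζ t) - D2 H (t, ζ t) * 0 = 0
    rw [add_zero, mul_zero]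
    ring
  · filter_upwards [kest_ev hζ, kest_k_zero hH hζ h0 j (by omega)] with t ht h1
    rw [kest_K_iter hH j ht]
    exact h1

private theorem kest_T_zero (h0 : ∀ j, 1 ≤ j → j < q → ∀ᶠ t in 𝓝 t₁, (D2^[j] (D2 H)) (t, ζ t) = 0) :
    ∀ j < q + 1, ∀ᶠ t in 𝓝 t₁, (D2^[j] (D1 (kest_K ζ H))) (t, 0) = 0 := by
  intro j hj
  filter_upwards [kest_ev hζ, (kest_K_zero hH hζ h0 j hj).eventually_nhds] with t ht h1
  rw [kest_D1_iter kest_Ω_open (kest_K_an hH) j ht]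
  have h2 := kest_hasDeriv1 (kest_diff (D2_iter_an (kest_K_an (ζ := ζ) hH) j) ht)
  have h3 : HasDerivAt (fun s => (D2^[j] (kest_K ζ H)) (s, 0)) 0 t :=
    (hasDerivAt_const t (0 : ℝ)).congr_of_eventuallyEq h1
  exact h2.unique h3

private theorem kest_G_zero (h0 : ∀ j, 1 ≤ j → j < q → ∀ᶠ t in 𝓝 t₁, (D2^[j] (D2 H)) (t, ζ t) = 0) :
    ∀ j < q + 2, ∀ᶠ t in 𝓝 t₁,
      (D2^[j] (fun p => ((q : ℝ) + 1) * kest_K ζ H p - p.2 * kest_k ζ H p)) (t, 0) = 0 := by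
  intro j hj
  have hw : AnalyticOnNhd ℝ (fun p : ℝ × ℝ => p.2 * kest_k ζ H p) (kest_Ω ζ) :=
    fun p hp => analyticAt_snd.mul (kest_k_an hH p hp)
  rcases Nat.lt_or_ge j (q + 1) with hjq | hjq
  · filter_upwards [kest_ev hζ, kest_K_zero hH hζ h0 j hjq] with t ht h1
    rw [kest_lin kest_Ω_open _ (kest_K_an hH) hw j ht]
    have h2 := kest_leib kest_Ω_open (kest_k_an (ζ := ζ) hH) j ht
    simp only [zero_mul, zero_add] at h2
    have h3 : (j : ℝ) * (D2^[j - 1] (kest_k ζ H)) (t, 0) = 0 := by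
      rcases j with _ | j
      · simp
      · rw [Nat.add_sub_cancel, ← kest_K_iter hH j ht, h1, mul_zero]
    simp only [h1, h2, h3]
    ring
  · have hj' : j = q + 1 := by omega
    subst hj'
    filter_upwards [kest_ev hζ] with t ht
    rw [kest_lin kest_Ω_open _ (kest_K_an hH) hw _ ht]
    have h2 := kest_leib kest_Ω_open (kest_k_an (ζ := ζ) hH) (q + 1) ht
    simp only [zero_mul, zero_add] at h2
    simp only [h2, Nat.add_sub_cancel, kest_K_iter hH q ht]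
    push_cast
    ring

private theorem kest_c_zero (hq : 1 ≤ q)
    (h0 : ∀ j, 1 ≤ j → j < q → ∀ᶠ t in 𝓝 t₁, (D2^[j] (D2 H)) (t, ζ t) = 0) :
    ∀ j < q + 1, ∀ᶠ t in 𝓝 t₁,
      (D2^[j] (fun p => 1 * kest_k ζ H p -
        (D2^[q] (D2 H)) (p.1, ζ p.1) / (q.factorial : ℝ) * p.2 ^ q)) (t, 0) = 0 := by
  intro j hj
  have hcan : ∀ p ∈ kest_Ω ζ,
      AnalyticAt ℝ (fun t => (D2^[q] (D2 H)) (t, ζ t) / (q.factorial : ℝ)) p.1 := by
    intro p hp
    have h1 : AnalyticAt ℝ (fun t : ℝ => ((t, ζ t) : ℝ × ℝ)) p.1 := analyticAt_id.prod hp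
    exact (AnalyticAt.comp (D2_iter_an (D2_an hH) q _ (mem_univ _)) h1).div_const
  have hw : AnalyticOnNhd ℝ (fun p : ℝ × ℝ =>
      (D2^[q] (D2 H)) (p.1, ζ p.1) / (q.factorial : ℝ) * p.2 ^ q) (kest_Ω ζ) :=
    fun p hp => ((hcan p hp).comp analyticAt_fst).mul (analyticAt_snd.pow q)
  have hpow := kest_pow (Ω := kest_Ω ζ) kest_Ω_open hcan q j
  rcases Nat.lt_or_ge j q with hjq | hjq
  · filter_upwards [kest_ev hζ, kest_k_zero hH hζ h0 j hjq] with t ht h1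
    rw [kest_lin kest_Ω_open _ (kest_k_an hH) hw j ht]
    have h2 := hpow ht
    have h3 : (0 : ℝ) ^ (q - j) = 0 := zero_pow (by omega)
    simp only [h3, mul_zero] at h2
    simp only [h1, h2]
    ring
  · have hj' : j = q := by omega
    subst hj'
    filter_upwards [kest_ev hζ] with t ht
    rw [kest_lin kest_Ω_open _ (kest_k_an hH) hw _ ht]
    have h2 := hpow ht
    simp only [Nat.sub_self, pow_zero, mul_one, Nat.descFactorial_self] at h2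
    have hf : (j.factorial : ℝ) ≠ 0 := by exact_mod_cast j.factorial_ne_zero
    rw [div_mul_cancel₀ _ hf] at h2
    obtain ⟨i, rfl⟩ : ∃ i, j = i + 1 := ⟨j - 1, by omega⟩
    have h3 := kest_k_iter (ζ := ζ) hH i ht
    simp only [add_zero] at h3
    simp only [h2, h3]
    ring

end shift

theorem kest {H : ℝ × ℝ → ℝ} (hH : AnalyticOnNhd ℝ H univ) {ζ : ℝ → ℝ} {t₁ : ℝ}
    (hζ : AnalyticAt ℝ ζ t₁) {q : ℕ} (hq : 1 ≤ q)
    (h0 : ∀ j, 1 ≤ j → j < q → ∀ᶠ t in 𝓝 t₁, (D2^[j] (D2 H)) (t, ζ t) = 0)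
    (h1 : (D2^[q] (D2 H)) (t₁, ζ t₁) ≠ 0) :
    ∃ C c0 ε θ : ℝ, 0 ≤ C ∧ 0 < c0 ∧ 0 < ε ∧ |θ| = 1 ∧ ∃ Kt : ℝ → ℝ → ℝ,
      (∀ t w : ℝ, |t - t₁| < ε → |w| < ε →
        |D2 H (t, ζ t + w) - D2 H (t, ζ t)| ≤ C * |w| ^ q ∧
        |H (t, ζ t + w) - H (t, ζ t) - D2 H (t, ζ t) * w| ≤ C * |w| ^ (q + 1) ∧
        |Kt t w| ≤ C * |w| ^ (q + 1) ∧
        |((q : ℝ) + 1) * (H (t, ζ t + w) - H (t, ζ t) - D2 H (t, ζ t) * w)
          - (D2 H (t, ζ t + w) - D2 H (t, ζ t)) * w| ≤ C * |w| ^ (q + 2) ∧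
        (Odd q → c0 * |w| ^ (q + 1) ≤ θ * ((D2 H (t, ζ t + w) - D2 H (t, ζ t)) * w)) ∧
        (Even q → c0 * |w| ^ q ≤ θ * (D2 H (t, ζ t + w) - D2 H (t, ζ t)))) ∧
      (∀ t : ℝ, |t - t₁| < ε → ∀ (Z : ℝ → ℝ) (Z' : ℝ), |Z t| < ε → HasDerivAt Z Z' t →
        HasDerivAt (fun t => H (t, ζ t + Z t) - H (t, ζ t) - D2 H (t, ζ t) * Z t)
          ((D2 H (t, ζ t + Z t) - D2 H (t, ζ t)) * Z' + Kt t (Z t)) t) := by
  have hΩ1 : ((t₁, (0 : ℝ)) : ℝ × ℝ) ∈ kest_Ω ζ := hζ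
  have hwk : AnalyticOnNhd ℝ (fun p : ℝ × ℝ => p.2 * kest_k ζ H p) (kest_Ω ζ) :=
    fun p hp => analyticAt_snd.mul (kest_k_an hH p hp)
  have hcan : AnalyticAt ℝ (fun t => (D2^[q] (D2 H)) (t, ζ t) / (q.factorial : ℝ)) t₁ := by
    have h1 : AnalyticAt ℝ (fun t : ℝ => ((t, ζ t) : ℝ × ℝ)) t₁ := analyticAt_id.prod hζ
    exact (AnalyticAt.comp (D2_iter_an (D2_an hH) q _ (mem_univ _)) h1).div_const
  set c : ℝ → ℝ := fun t => (D2^[q] (D2 H)) (t, ζ t) / (q.factorial : ℝ) with hc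
  have hf0 : (q.factorial : ℝ) ≠ 0 := by exact_mod_cast q.factorial_ne_zero
  have hc1 : c t₁ ≠ 0 := div_ne_zero h1 hf0
  obtain ⟨Ca, hCa, εa, hεa, ha⟩ := ov (kest_k_an hH _ hΩ1) q (kest_k_zero hH hζ h0)
  obtain ⟨Cb, hCb, εb, hεb, hb⟩ := ov (kest_K_an hH _ hΩ1) (q + 1) (kest_K_zero hH hζ h0)
  obtain ⟨Ct, hCt, εt, hεt, ht⟩ := ov (D1_an (kest_K_an hH) _ hΩ1) (q + 1) (kest_T_zero hH hζ h0)
  obtain ⟨Cg, hCg, εg, hεg, hg⟩ := ov (F := fun p => ((q : ℝ) + 1) * kest_K ζ H p -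
    p.2 * kest_k ζ H p) ((analyticAt_const.mul (kest_K_an hH _ hΩ1)).sub (hwk _ hΩ1)) (q + 2)
    (kest_G_zero hH hζ h0)
  obtain ⟨Cc, hCc, εc, hεc, hcc⟩ := ov (F := fun p => 1 * kest_k ζ H p -
      (D2^[q] (D2 H)) (p.1, ζ p.1) / (q.factorial : ℝ) * p.2 ^ q)
    ((analyticAt_const.mul (kest_k_an hH _ hΩ1)).sub ((AnalyticAt.comp (f := Prod.fst)
      (x := ((t₁, (0 : ℝ)) : ℝ × ℝ)) hcan analyticAt_fst).mul (analyticAt_snd.pow q))) (q + 1)
    (kest_c_zero hH hζ hq h0)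
  set θ : ℝ := c t₁ / |c t₁| with hθ
  have hcpos : 0 < |c t₁| := abs_pos.mpr hc1
  have hθ1 : |θ| = 1 := by
    rw [hθ, abs_div, abs_abs, div_self hcpos.ne']
  have hθc : θ * c t₁ = |c t₁| := by
    rw [hθ, div_mul_eq_mul_div, ← abs_mul_abs_self, mul_div_assoc, div_self hcpos.ne', mul_one]
  -- the coefficient keeps its sign
  have hev1 : ∀ᶠ t in 𝓝 t₁, |c t₁| / 2 < θ * c t := by
    have hcont : ContinuousAt (fun t => θ * c t) t₁ := continuousAt_const.mul hcan.continuousAt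
    refine hcont.eventually_const_lt ?_
    show |c t₁| / 2 < θ * c t₁
    rw [hθc]
    linarith
  obtain ⟨ε1, hε1, hb1⟩ := Metric.eventually_nhds_iff.mp hev1
  obtain ⟨ε2, hε2, hb2⟩ := Metric.eventually_nhds_iff.mp (kest_ev hζ)
  set c0 : ℝ := |c t₁| / 4 with hc0
  have hc0p : 0 < c0 := by positivity
  set ε : ℝ := min (min (min εa εb) (min εt εg)) (min (min εc (c0 / (Cc + 1))) (min ε1 ε2)) with hε
  have hεp : 0 < ε := by
    have : 0 < c0 / (Cc + 1) := by positivity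
    simp only [hε, lt_min_iff]
    exact ⟨⟨⟨hεa, hεb⟩, ⟨hεt, hεg⟩⟩, ⟨⟨hεc, this⟩, ⟨hε1, hε2⟩⟩⟩
  set C : ℝ := Ca + Cb + Ct + Cg with hC
  have mono : ∀ {x : ℝ}, x < ε → x < εa ∧ x < εb ∧ x < εt ∧ x < εg ∧ x < εc ∧
      x < c0 / (Cc + 1) ∧ x < ε1 ∧ x < ε2 := by
    intro x hx
    simp only [hε, lt_min_iff] at hx
    obtain ⟨⟨⟨x1, x2⟩, ⟨x3, x4⟩⟩, ⟨⟨x5, x6⟩, ⟨x7, x8⟩⟩⟩ := hx
    exact ⟨x1, x2, x3, x4, x5, x6, x7, x8⟩
  have up : ∀ {x y D : ℝ} {r : ℕ}, D ≤ C → x ≤ D * |y| ^ r → x ≤ C * |y| ^ r := by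
    intro x y D r hD hx
    exact hx.trans (mul_le_mul_of_nonneg_right hD (by positivity))
  refine ⟨C, c0, ε, θ, by positivity, hc0p, hεp, hθ1, fun t w => D1 (kest_K ζ H) (t, w), ?_, ?_⟩
  · intro t w htt hww
    obtain ⟨ta, tb, tt, tg, tc, -, t1, -⟩ := mono htt
    obtain ⟨wa, wb, wt, wg, wc, wcc, -, -⟩ := mono hww
    have hA := ha t w ta wa
    have hB := hb t w tb wb
    have hT := ht t w tt wt
    have hG := hg t w tg wg
    have hCC := hcc t w tc wc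
    have hct : |c t₁| / 2 < θ * c t := hb1 (by rwa [Real.dist_eq])
    have hk : kest_k ζ H (t, w) = D2 H (t, ζ t + w) - D2 H (t, ζ t) := rfl
    have hK : kest_K ζ H (t, w) = H (t, ζ t + w) - H (t, ζ t) - D2 H (t, ζ t) * w := rfl
    have hCw : Cc * |w| ≤ c0 := by
      have h5 : |w| * (Cc + 1) < c0 := by
        rwa [lt_div_iff₀ (by positivity)] at wcc
      nlinarith [abs_nonneg w]
    have hrem : |kest_k ζ H (t, w) - c t * w ^ q| ≤ Cc * |w| ^ (q + 1) := by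
      have : (1 : ℝ) * kest_k ζ H (t, w) - (D2^[q] (D2 H)) (t, ζ t) / (q.factorial : ℝ) * w ^ q =
        kest_k ζ H (t, w) - c t * w ^ q := by rw [one_mul]
      rw [← this]
      exact hCC
    have hθrem : θ * (c t * w ^ q) - Cc * |w| ^ (q + 1) ≤ θ * kest_k ζ H (t, w) ∧
        |θ * (kest_k ζ H (t, w) - c t * w ^ q)| ≤ Cc * |w| ^ (q + 1) := by
      have h6 : |θ * (kest_k ζ H (t, w) - c t * w ^ q)| ≤ Cc * |w| ^ (q + 1) := by
        rw [abs_mul, hθ1, one_mul]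
        exact hrem
      refine ⟨?_, h6⟩
      have := (abs_le.mp h6).1
      have e : θ * (kest_k ζ H (t, w) - c t * w ^ q) =
        θ * kest_k ζ H (t, w) - θ * (c t * w ^ q) := by ring
      rw [e] at this
      linarith
    refine ⟨?_, ?_, ?_, ?_, ?_, ?_⟩
    · rw [← hk]
      exact up (by linarith) hA
    · rw [← hK]
      exact up (by linarith) hB
    · exact up (by linarith) hT
    · rw [← hk, ← hK]
      have e : ((q : ℝ) + 1) * kest_K ζ H (t, w) - kest_k ζ H (t, w) * w =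
        ((q : ℝ) + 1) * kest_K ζ H (t, w) - w * kest_k ζ H (t, w) := by ring
      rw [e]
      exact up (by linarith) hG
    · intro hodd
      rw [← hk]
      have hpw : w ^ q * w = |w| ^ (q + 1) := by
        rw [← pow_succ]
        exact ((Odd.add_one hodd).pow_abs w).symm
      have h7 : |θ * (kest_k ζ H (t, w) - c t * w ^ q) * w| ≤ Cc * |w| * |w| ^ (q + 1) := by
        rw [abs_mul]
        calc |θ * (kest_k ζ H (t, w) - c t * w ^ q)| * |w|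
            ≤ Cc * |w| ^ (q + 1) * |w| := mul_le_mul_of_nonneg_right hθrem.2 (abs_nonneg w)
          _ = Cc * |w| * |w| ^ (q + 1) := by ring
      have h8 : Cc * |w| * |w| ^ (q + 1) ≤ c0 * |w| ^ (q + 1) :=
        mul_le_mul_of_nonneg_right hCw (by positivity)
      have h9 : θ * (kest_k ζ H (t, w) * w) = θ * (kest_k ζ H (t, w) - c t * w ^ q) * w +
          θ * c t * |w| ^ (q + 1) := by
        rw [← hpw]
        ring
      have h10 : 2 * c0 * |w| ^ (q + 1) ≤ θ * c t * |w| ^ (q + 1) :=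
        mul_le_mul_of_nonneg_right (by rw [hc0]; linarith) (by positivity)
      have h11 := (abs_le.mp h7).1
      rw [h9]
      linarith
    · intro heven
      rw [← hk]
      have hpw : w ^ q = |w| ^ q := (heven.pow_abs w).symm
      have h8 : Cc * |w| ^ (q + 1) ≤ c0 * |w| ^ q := by
        calc Cc * |w| ^ (q + 1) = Cc * |w| * |w| ^ q := by ring
          _ ≤ c0 * |w| ^ q := mul_le_mul_of_nonneg_right hCw (by positivity)
      have h10 : 2 * c0 * |w| ^ q ≤ θ * c t * |w| ^ q :=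
        mul_le_mul_of_nonneg_right (by rw [hc0]; linarith) (by positivity)
      have h11 := hθrem.1
      have h12 : θ * (c t * w ^ q) = θ * c t * |w| ^ q := by
        rw [hpw]
        ring
      rw [h12] at h11
      linarith
  · intro t htt Z Z' hZ hZd
    obtain ⟨-, -, -, -, -, -, -, t2⟩ := mono htt
    have hmem : ((t, (0 : ℝ)) : ℝ × ℝ) ∈ kest_Ω ζ := hb2 (by rwa [Real.dist_eq])
    have hmem' : ((t, Z t) : ℝ × ℝ) ∈ kest_Ω ζ := hmem
    have hd := kest_diff (kest_K_an hH) hmem'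
    have h2 : HasDerivAt (fun s : ℝ => ((s, Z s) : ℝ × ℝ)) ((1 : ℝ), Z') t :=
      (hasDerivAt_id t).prodMk hZd
    have h3 := hd.hasFDerivAt.comp_hasDerivAt t h2
    have e1 : fderiv ℝ (kest_K ζ H) (t, Z t) (1, Z') =
        (D2 H (t, ζ t + Z t) - D2 H (t, ζ t)) * Z' + D1 (kest_K ζ H) (t, Z t) := by
      have e2 : ((1 : ℝ), Z') = ((1 : ℝ), (0 : ℝ)) + Z' • ((0 : ℝ), (1 : ℝ)) := by
        ext <;> simp
      rw [e2, map_add, map_smul]
      have e3 : fderiv ℝ (kest_K ζ H) (t, Z t) (0, 1) = D2 H (t, ζ t + Z t) - D2 H (t, ζ t) :=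
        kest_D2K hH hmem'
      rw [e3, smul_eq_mul]
      show D1 (kest_K ζ H) (t, Z t) + _ = _
      ring
    rw [e1] at h3
    exact h3

end Pool.Agent.Lib.MP_28b8de_an
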