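import Pool.Agent.Lib.MP_28b8de_an.E.EDefs

/-!
MP_28b8de_an, module LeAcc (MSE-LeAcc): abstract accumulation lemmas.

le_acc: as `Phi_le_acc` (Relay.lean), abstractly.  Suppose |β t| < |A t|; with σ = sign (A t), σ A - |β| ≥ 0 strictly
positive near t; for t' ∈ K close to t, 0 = F t' - F t = ∫_t^t' (A + β u) although σ (A + β u) ≥ σ A - |β| > 0
between t and t', contradiction.
perfect_inter: if t ∈ K accumulates K and U is a neighbourhood of t then t accumulates K ∩ U.
zero_acc: f = 0 on K ∩ Ioo p q with derivative d at t ∈ K ∩ Ioo p q, t accumulation point of K: d = 0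
(`deriv_zero_of_accPt`, Relay.lean, with K ∩ Ioo p q).
three_in: `exists_three` inside an open interval.
-/

namespace Pool.Agent.Lib.MP_28b8de_an

open Filter Topology Set MeasureTheory

private theorem leAcc_int {u β : ℝ → ℝ} (hum : Measurable u) (hub : ∀ t, |u t| ≤ 1) {x y : ℝ}
    (hβ : ContinuousOn β (uIcc x y)) : IntervalIntegrable (fun r => β r * u r) volume x y := by
  have hu : IntegrableOn u (uIcc x y) volume := by
    apply Measure.integrableOn_of_bounded (M := 1) isCompact_uIcc.measure_lt_top.ne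
      hum.aestronglyMeasurable
    exact Eventually.of_forall (fun r => by rw [Real.norm_eq_abs]; exact hub r)
  have h := IntegrableOn.continuousOn_mul hβ hu isCompact_uIcc
  rw [intervalIntegrable_iff]
  exact h.mono_set uIoc_subset_uIcc

theorem le_acc {u A β F : ℝ → ℝ} {p q : ℝ} (hum : Measurable u) (hub : ∀ t, |u t| ≤ 1)
    (hA : ContinuousOn A (Ioo p q)) (hβ : ContinuousOn β (Ioo p q))
    (hF : ∀ s ∈ Ioo p q, ∀ t ∈ Ioo p q, F t - F s = ∫ r in s..t, (A r + β r * u r))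
    {K : Set ℝ} (hK0 : ∀ t ∈ K, t ∈ Ioo p q → F t = 0) {t : ℝ} (ht : t ∈ K)
    (htI : t ∈ Ioo p q) (hacc : AccPt t (𝓟 K)) : |A t| ≤ |β t| := by
  by_contra hlt
  push Not at hlt
  obtain ⟨σ, hσ, hσ2⟩ : ∃ σ : ℝ, |σ| = 1 ∧ σ * A t = |A t| := by
    rcases abs_cases (A t) with h | h
    · exact ⟨1, by simp, by rw [h.1]; ring⟩
    · exact ⟨-1, by simp, by rw [h.1]; ring⟩
  rw [← hσ2] at hlt
  have hIn : Ioo p q ∈ 𝓝 t := Ioo_mem_nhds htI.1 htI.2
  have hcA : ContinuousAt A t := hA.continuousAt hIn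
  have hcβ : ContinuousAt β t := hβ.continuousAt hIn
  have hev : ∀ᶠ r in 𝓝 t, |β r| < σ * A r :=
    (hcβ.abs).eventually_lt (continuousAt_const.mul hcA) hlt
  have hopen : {r | |β r| < σ * A r} ∩ Ioo p q ∈ 𝓝 t := inter_mem hev hIn
  obtain ⟨ε, hε, hsub⟩ := Metric.mem_nhds_iff.1 hopen
  obtain ⟨x, hxK, hxU, hxt⟩ := acc_exists hacc (Metric.ball_mem_nhds t hε)
  have hball : ∀ r ∈ uIcc t x, r ∈ Metric.ball t ε := by
    intro r hr
    rw [Metric.mem_ball, Real.dist_eq] at hxU ⊢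
    rw [abs_lt] at hxU ⊢
    rw [mem_uIcc] at hr
    rcases hr with h | h
    · constructor <;> linarith [h.1, h.2, hxU.1, hxU.2]
    · constructor <;> linarith [h.1, h.2, hxU.1, hxU.2]
  have hpos : ∀ r ∈ uIcc t x, 0 < σ * (A r + β r * u r) := by
    intro r hr
    have h2 : |β r| < σ * A r := (hsub (hball r hr)).1
    have h3 : |σ * (β r * u r)| ≤ |β r| := by
      rw [abs_mul, hσ, one_mul, abs_mul]
      calc |β r| * |u r| ≤ |β r| * 1 :=
            mul_le_mul_of_nonneg_left (hub r) (abs_nonneg _)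
        _ = |β r| := mul_one _
    have h4 := (abs_le.1 h3).1
    linarith
  have hss : uIcc t x ⊆ Ioo p q := fun r hr => (hsub (hball r hr)).2
  have hxI : x ∈ Ioo p q := hss right_mem_uIcc
  have hint : IntervalIntegrable (fun r => σ * (A r + β r * u r)) volume t x := by
    apply IntervalIntegrable.const_mul
    exact ((hA.mono hss).intervalIntegrable).add (leAcc_int hum hub (hβ.mono hss))
  have hzero : ∫ r in t..x, σ * (A r + β r * u r) = 0 := by
    rw [intervalIntegral.integral_const_mul, ← hF t htI x hxI, hK0 t ht htI, hK0 x hxK hxI]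
    ring
  rcases lt_or_gt_of_ne hxt with h | h
  · have h1 := intervalIntegral.intervalIntegral_pos_of_pos_on hint.symm (fun r hr =>
      hpos r (by rw [uIcc_comm, uIcc_of_le h.le]; exact Ioo_subset_Icc_self hr)) h
    rw [intervalIntegral.integral_symm] at h1
    linarith
  · have h1 := intervalIntegral.intervalIntegral_pos_of_pos_on hint (fun r hr =>
      hpos r (by rw [uIcc_of_le h.le]; exact Ioo_subset_Icc_self hr)) h
    linarith

theorem acc_inter {K U : Set ℝ} {t : ℝ} (hacc : AccPt t (𝓟 K)) (hU : U ∈ 𝓝 t) :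
    AccPt t (𝓟 (K ∩ U)) := by
  rw [accPt_iff_frequently_nhdsNE] at hacc ⊢
  exact (hacc.and_eventually (mem_nhdsWithin_of_mem_nhds hU)).mono (fun x hx => ⟨hx.1, hx.2⟩)

theorem zero_acc {f : ℝ → ℝ} {K : Set ℝ} {p q t d : ℝ}
    (hf : ∀ s ∈ K, s ∈ Ioo p q → f s = 0) (ht : t ∈ K) (htI : t ∈ Ioo p q)
    (hacc : AccPt t (𝓟 K)) (hd : HasDerivAt f d t) : d = 0 :=
  deriv_zero_of_accPt (K := K ∩ Ioo p q) (fun s hs => hf s hs.1 hs.2) (hf t ht htI)
    (acc_inter hacc (Ioo_mem_nhds htI.1 htI.2)) hd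

end Pool.Agent.Lib.MP_28b8de_an
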