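import Pool.Agent.Lib.MP_28b8de_an.E.EDefs

/-!
MP_28b8de_an, module Leib (MSE-Leib): diagonal derivatives of a separable kernel.

PROOF.  S_{a,c}(t) := ∑ i, iteratedDeriv a (l i) t * iteratedDeriv c (b i) t has derivative S_{a+1,c} + S_{a,c+1}
(hasDerivAt_iteratedDeriv).  Wd l b j = S_{j,0}.  Induction on c: S_{a,c} = 0 identically for a + c < M, and
S_{a,c} = (-1)^c S_{M,0} for a + c = M: S_{a,c+1} = (S_{a,c})' - S_{a+1,c}, and S_{a,c} = 0 identically when
a + c < M.  Take a = 0 at the end.
-/

namespace Pool.Agent.Lib.MP_28b8de_an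

open Filter Topology Set MeasureTheory

private theorem leib_hasDeriv {f : ℝ → ℝ} (hf : AnalyticOnNhd ℝ f univ) (a : ℕ) (t : ℝ) :
    HasDerivAt (iteratedDeriv a f) (iteratedDeriv (a + 1) f t) t := by
  have h1 : ContDiff ℝ (⊤ : ℕ∞) f := hf.contDiff
  have h2 : Differentiable ℝ (iteratedDeriv a f) :=
    h1.differentiable_iteratedDeriv a (by exact_mod_cast ENat.natCast_lt_top a)
  rw [iteratedDeriv_succ]
  exact (h2 t).hasDerivAt

theorem leib {ι : Type*} [Fintype ι] {l b : ι → ℝ → ℝ} (hl : ∀ i, AnalyticOnNhd ℝ (l i) univ)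
    (hb : ∀ i, AnalyticOnNhd ℝ (b i) univ) {M : ℕ} (hW : ∀ j < M, ∀ t, Wd l b j t = 0) :
    (∀ j < M, ∀ t, ∑ i, iteratedDeriv j (b i) t * l i t = 0) ∧
      ∀ t, ∑ i, iteratedDeriv M (b i) t * l i t = (-1) ^ M * Wd l b M t := by
  have hD : ∀ a c t, HasDerivAt (fun t => ∑ i, iteratedDeriv a (l i) t * iteratedDeriv c (b i) t)
      (∑ i, iteratedDeriv (a + 1) (l i) t * iteratedDeriv c (b i) t +
        ∑ i, iteratedDeriv a (l i) t * iteratedDeriv (c + 1) (b i) t) t := by
    intro a c t
    rw [← Finset.sum_add_distrib]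
    exact HasDerivAt.fun_sum fun i _ =>
      (leib_hasDeriv (hl i) a t).mul (leib_hasDeriv (hb i) c t)
  have key : ∀ c a : ℕ, (a + c < M → ∀ t, ∑ i, iteratedDeriv a (l i) t * iteratedDeriv c (b i) t = 0) ∧
      (a + c = M → ∀ t, ∑ i, iteratedDeriv a (l i) t * iteratedDeriv c (b i) t =
        (-1) ^ c * Wd l b M t) := by
    intro c
    induction c with
    | zero =>
      intro a
      constructor
      · intro h t
        have := hW a (by omega) t
        simpa [Wd, iteratedDeriv_zero] using this
      · intro h t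
        have h' : a = M := by omega
        subst h'
        simp [Wd, iteratedDeriv_zero]
    | succ c ih =>
      intro a
      have hrec : a + c < M → ∀ t, ∑ i, iteratedDeriv a (l i) t * iteratedDeriv (c + 1) (b i) t =
          - ∑ i, iteratedDeriv (a + 1) (l i) t * iteratedDeriv c (b i) t := by
        intro h t
        have h0 : (fun t => ∑ i, iteratedDeriv a (l i) t * iteratedDeriv c (b i) t) = fun _ => 0 :=
          funext fun t => (ih a).1 h t
        have h1 := hD a c t
        rw [h0] at h1
        have h2 := h1.unique (hasDerivAt_const t (0 : ℝ))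
        linarith
      constructor
      · intro h t
        rw [hrec (by omega) t, (ih (a + 1)).1 (by omega) t, neg_zero]
      · intro h t
        rw [hrec (by omega) t, (ih (a + 1)).2 (by omega) t, pow_succ]
        ring
  refine ⟨fun j hj t => ?_, fun t => ?_⟩
  · have := (key j 0).1 (by omega) t
    simpa [iteratedDeriv_zero, mul_comm] using this
  · have := (key M 0).2 (by omega) t
    rw [← this]
    refine Finset.sum_congr rfl fun i _ => ?_
    rw [iteratedDeriv_zero, mul_comm]

end Pool.Agent.Lib.MP_28b8de_an
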