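import Pool.Agent.Lib.MP_28b8de_an.E.LeAcc

/-!
MP_28b8de_an, module LocVolterra (MSE-LocVolterra): a local Volterra representation propagates from
a perfect set of zeros.

PROOF.  a_j(t) := Ψ^{(j)}(t) - ∑ b_i^{(j)}(t) Q_i(t) on Ioo p q (iteratedDeriv).  Ψ is analytic on the open
interval, so HasDerivAt (iteratedDeriv j Ψ) (iteratedDeriv (j+1) Ψ t) t for t in it (AnalyticOnNhd.deriv and
iteratedDeriv_succ, induction as in analytic_iteratedDeriv of RelayDefs.lean), and a_j' = a_{j+1} -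
(∑ b_i^{(j)} l_i) κ.  Induction: a_j = 0 on K ∩ Ioo p q: then by `zero_acc` the derivative of a_j vanishes at each
t ∈ K ∩ Ioo p q, and κ t = 0 there, so a_{j+1}(t) = 0.  For s ∈ K ∩ Ioo p q the function
τ ↦ Ψ τ - ∑ b_i τ Q_i s is analytic on Ioo p q and all its iterated derivatives at s are a_j(s) = 0
(iteratedDeriv of a finite sum: as `iteratedDeriv_ker` in Relay.lean, locally); so it vanishes near s
(analyticOrderAt = ⊤, as in analytic_eq_zero_of_iteratedDeriv) and on the interval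
(AnalyticOnNhd.eqOn_zero_of_preconnected_of_eventuallyEq_zero, isPreconnected_Ioo).
The second statement: differentiate j times (equality on the open interval).
-/

namespace Pool.Agent.Lib.MP_28b8de_an

open Filter Topology Set MeasureTheory

theorem loc_iter_deriv {f : ℝ → ℝ} {p q : ℝ} (hf : AnalyticOnNhd ℝ f (Ioo p q)) (j : ℕ) {t : ℝ}
    (ht : t ∈ Ioo p q) : AnalyticAt ℝ (iteratedDeriv j f) t ∧
      HasDerivAt (iteratedDeriv j f) (iteratedDeriv (j + 1) f t) t := by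
  have h : AnalyticOnNhd ℝ (iteratedDeriv j f) (Ioo p q) := by
    induction j with
    | zero => simpa [iteratedDeriv_zero] using hf
    | succ j ih =>
      rw [iteratedDeriv_succ]
      exact ih.deriv
  refine ⟨h t ht, ?_⟩
  rw [iteratedDeriv_succ]
  exact ((h t ht).differentiableAt).hasDerivAt

/-- iterated derivatives of a Volterra defect, locally -/
private theorem locVolterra_iter {k : ℕ} {b : Fin k → ℝ → ℝ}
    (hb : ∀ i, AnalyticOnNhd ℝ (b i) univ) {p q : ℝ} {Ψ : ℝ → ℝ}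
    (hΨ : AnalyticOnNhd ℝ Ψ (Ioo p q)) (c : Fin k → ℝ) (j : ℕ) :
    ∀ t ∈ Ioo p q, iteratedDeriv j (fun τ => Ψ τ - ∑ i, b i τ * c i) t
      = iteratedDeriv j Ψ t - ∑ i, iteratedDeriv j (b i) t * c i := by
  induction j with
  | zero => intro t _; simp [iteratedDeriv_zero]
  | succ j ih =>
    intro t ht
    rw [iteratedDeriv_succ]
    apply HasDerivAt.deriv
    have h1 : HasDerivAt (fun τ => iteratedDeriv j Ψ τ - ∑ i, iteratedDeriv j (b i) τ * c i)
        (iteratedDeriv (j + 1) Ψ t - ∑ i, iteratedDeriv (j + 1) (b i) t * c i) t := by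
      apply (loc_iter_deriv hΨ j ht).2.sub
      apply HasDerivAt.fun_sum
      intro i _
      exact (hasDerivAt_iteratedDeriv (hb i) j t).mul_const (c i)
    apply h1.congr_of_eventuallyEq
    filter_upwards [Ioo_mem_nhds ht.1 ht.2] with r hr
    exact ih r hr

private theorem locVolterra_an {k : ℕ} {b : Fin k → ℝ → ℝ}
    (hb : ∀ i, AnalyticOnNhd ℝ (b i) univ) {p q : ℝ} {Ψ : ℝ → ℝ}
    (hΨ : AnalyticOnNhd ℝ Ψ (Ioo p q)) (c : Fin k → ℝ) :
    AnalyticOnNhd ℝ (fun τ => Ψ τ - ∑ i, b i τ * c i) (Ioo p q) := by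
  intro t ht
  apply (hΨ t ht).sub
  apply Finset.analyticAt_fun_sum
  intro i _
  exact (hb i t (mem_univ t)).mul analyticAt_const

theorem loc_volterra {k : ℕ} {b l : Fin k → ℝ → ℝ} (hb : ∀ i, AnalyticOnNhd ℝ (b i) univ)
    {p q : ℝ} {Ψ : ℝ → ℝ} (hΨ : AnalyticOnNhd ℝ Ψ (Ioo p q)) {Q : Fin k → ℝ → ℝ} {κ : ℝ → ℝ}
    (hQ : ∀ i, ∀ t ∈ Ioo p q, HasDerivAt (Q i) (l i t * κ t) t) {K : Set ℝ}
    (hKκ : ∀ t ∈ K, t ∈ Ioo p q → κ t = 0)
    (hK0 : ∀ t ∈ K, t ∈ Ioo p q → Ψ t - ∑ i, b i t * Q i t = 0)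
    (hacc : ∀ t ∈ K, AccPt t (𝓟 K)) {s : ℝ} (hs : s ∈ K) (hsI : s ∈ Ioo p q) :
    ∀ τ ∈ Ioo p q, Ψ τ = ∑ i, b i τ * Q i s := by
  have hz : ∀ j : ℕ, ∀ t ∈ K, t ∈ Ioo p q →
      iteratedDeriv j Ψ t - ∑ i, iteratedDeriv j (b i) t * Q i t = 0 := by
    intro j
    induction j with
    | zero =>
      intro t ht htI
      simpa [iteratedDeriv_zero] using hK0 t ht htI
    | succ j ih =>
      intro t ht htI
      have h1 : HasDerivAt (fun τ => iteratedDeriv j Ψ τ - ∑ i, iteratedDeriv j (b i) τ * Q i τ)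
          (iteratedDeriv (j + 1) Ψ t - ∑ i, (iteratedDeriv (j + 1) (b i) t * Q i t
            + iteratedDeriv j (b i) t * (l i t * κ t))) t := by
        apply (loc_iter_deriv hΨ j htI).2.sub
        apply HasDerivAt.fun_sum
        intro i _
        exact (hasDerivAt_iteratedDeriv (hb i) j t).mul (hQ i t htI)
      have h2 := zero_acc (f := fun τ => iteratedDeriv j Ψ τ
        - ∑ i, iteratedDeriv j (b i) τ * Q i τ) ih ht htI (hacc t ht) h1
      rw [← h2]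
      congr 1
      apply Finset.sum_congr rfl
      intro i _
      rw [hKκ t ht htI]
      ring
  have han := locVolterra_an hb hΨ (fun i => Q i s)
  have h1 : analyticOrderAt (fun τ => Ψ τ - ∑ i, b i τ * Q i s) s = ⊤ := by
    rw [ENat.eq_top_iff_forall_ge]
    intro m
    rw [natCast_le_analyticOrderAt_iff_iteratedDeriv_eq_zero (han s hsI)]
    intro j _
    rw [locVolterra_iter hb hΨ (fun i => Q i s) j s hsI]
    exact hz j s hs hsI
  rw [analyticOrderAt_eq_top] at h1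
  intro τ hτ
  have h2 := han.eqOn_zero_of_preconnected_of_eventuallyEq_zero isPreconnected_Ioo hsI h1 hτ
  simp only [Pi.zero_apply] at h2
  linarith

theorem loc_volterra_iter {k : ℕ} {b l : Fin k → ℝ → ℝ} (hb : ∀ i, AnalyticOnNhd ℝ (b i) univ)
    {p q : ℝ} {Ψ : ℝ → ℝ} (hΨ : AnalyticOnNhd ℝ Ψ (Ioo p q)) {Q : Fin k → ℝ → ℝ} {κ : ℝ → ℝ}
    (hQ : ∀ i, ∀ t ∈ Ioo p q, HasDerivAt (Q i) (l i t * κ t) t) {K : Set ℝ}
    (hKκ : ∀ t ∈ K, t ∈ Ioo p q → κ t = 0)
    (hK0 : ∀ t ∈ K, t ∈ Ioo p q → Ψ t - ∑ i, b i t * Q i t = 0)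
    (hacc : ∀ t ∈ K, AccPt t (𝓟 K)) {s : ℝ} (hs : s ∈ K) (hsI : s ∈ Ioo p q) (j : ℕ) :
    ∀ τ ∈ Ioo p q, iteratedDeriv j Ψ τ = ∑ i, iteratedDeriv j (b i) τ * Q i s := by
  have h0 := loc_volterra hb hΨ hQ hKκ hK0 hacc hs hsI
  have h1 : ∀ j : ℕ, ∀ τ ∈ Ioo p q,
      iteratedDeriv j (fun τ => Ψ τ - ∑ i, b i τ * Q i s) τ = 0 := by
    intro j
    induction j with
    | zero =>
      intro τ hτ
      rw [iteratedDeriv_zero, h0 τ hτ, sub_self]
    | succ j ih =>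
      intro τ hτ
      rw [iteratedDeriv_succ]
      apply HasDerivAt.deriv
      apply (hasDerivAt_const τ (0 : ℝ)).congr_of_eventuallyEq
      filter_upwards [Ioo_mem_nhds hτ.1 hτ.2] with r hr
      exact ih r hr
  intro τ hτ
  have h2 := locVolterra_iter hb hΨ (fun i => Q i s) j τ hτ
  rw [h1 j τ hτ] at h2
  linarith

end Pool.Agent.Lib.MP_28b8de_an
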