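import Pool.Agent.Lib.MP_28b8de_an.E.EDefs

/-!
MP_28b8de_an, module Ov (MSE-Ov): order of vanishing of analytic functions of two variables along
the axis.

PROOF of `ov`.  Induction on r, F arbitrary.  r = 0: F is bounded near (t₁,0).  Step: D2 F satisfies the
hypotheses with r (F analytic near (t₁,0), D2 (D2^[j]) = D2^[j+1], `Function.iterate_succ_apply`), so
|D2 F (t,w)| ≤ C |w|^r for |t-t₁|, |w| < ε; F(t,0) = 0 for t near t₁ (j = 0); w' ↦ F(t,w') has derivative
D2 F (t,w') (chain rule, F differentiable near (t₁,0)), and the mean value inequality on the segment [0,w]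
(`Convex.norm_image_sub_le_of_norm_hasDerivWithin_le`, bound C |w|^r on it) gives |F(t,w)| ≤ C |w|^(r+1).
-/

namespace Pool.Agent.Lib.MP_28b8de_an

open Filter Topology Set MeasureTheory

theorem ov {F : ℝ × ℝ → ℝ} {t₁ : ℝ} (hF : AnalyticAt ℝ F (t₁, 0)) (r : ℕ)
    (h0 : ∀ j < r, ∀ᶠ t in 𝓝 t₁, (D2^[j] F) (t, 0) = 0) :
    ∃ C : ℝ, 0 ≤ C ∧ ∃ ε : ℝ, 0 < ε ∧ ∀ t w : ℝ, |t - t₁| < ε → |w| < ε →
      |F (t, w)| ≤ C * |w| ^ r := by
  induction r generalizing F with
  | zero =>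
    have h1 : ∀ᶠ p in 𝓝 (t₁, (0 : ℝ)), |F p| ≤ |F (t₁, 0)| + 1 := by
      have h2 : Tendsto (fun p => |F p|) (𝓝 (t₁, (0 : ℝ))) (𝓝 |F (t₁, 0)|) := hF.continuousAt.abs
      filter_upwards [h2.eventually_lt_const (show |F (t₁, 0)| < |F (t₁, 0)| + 1 by linarith)] with p hp
      exact hp.le
    obtain ⟨ε, hε, h3⟩ := Metric.eventually_nhds_iff.1 h1
    refine ⟨|F (t₁, 0)| + 1, by positivity, ε, hε, fun t w ht hw => ?_⟩
    rw [pow_zero, mul_one]
    refine h3 ?_
    rw [Prod.dist_eq, Real.dist_eq, Real.dist_eq, sub_zero]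
    exact max_lt ht hw
  | succ r ih =>
    have hD : AnalyticAt ℝ (D2 F) (t₁, 0) := by
      have h1 : AnalyticOnNhd ℝ F {(t₁, (0 : ℝ))} := by
        intro p hp
        rw [Set.mem_singleton_iff] at hp
        rw [hp]
        exact hF
      exact D2_an h1 _ (Set.mem_singleton _)
    obtain ⟨C, hC, ε₁, hε₁, h1⟩ := ih hD (fun j hj => by
      have := h0 (j + 1) (by omega)
      rwa [Function.iterate_succ] at this)
    obtain ⟨ε₂, hε₂, h2⟩ := Metric.eventually_nhds_iff.1 hF.eventually_analyticAt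
    obtain ⟨ε₃, hε₃, h3⟩ := Metric.eventually_nhds_iff.1 (h0 0 (by omega))
    refine ⟨C, hC, min ε₁ (min ε₂ ε₃), lt_min hε₁ (lt_min hε₂ hε₃), fun t w ht hw => ?_⟩
    have ht1 : |t - t₁| < ε₁ := ht.trans_le (min_le_left _ _)
    have ht2 : |t - t₁| < ε₂ := ht.trans_le ((min_le_right _ _).trans (min_le_left _ _))
    have ht3 : |t - t₁| < ε₃ := ht.trans_le ((min_le_right _ _).trans (min_le_right _ _))
    have hw1 : |w| < ε₁ := hw.trans_le (min_le_left _ _)
    have hw2 : |w| < ε₂ := hw.trans_le ((min_le_right _ _).trans (min_le_left _ _))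
    have hF0 : F (t, 0) = 0 := by
      have := h3 (y := t) (by rw [Real.dist_eq]; exact ht3)
      simpa using this
    have habs : ∀ w' ∈ Set.uIcc (0 : ℝ) w, |w'| ≤ |w| := by
      intro w' hw'
      rcases le_total 0 w with h | h
      · rw [Set.uIcc_of_le h] at hw'
        rw [abs_of_nonneg hw'.1, abs_of_nonneg h]
        exact hw'.2
      · rw [Set.uIcc_of_ge h] at hw'
        rw [abs_of_nonpos hw'.2, abs_of_nonpos h]
        linarith [hw'.1]
    have hder : ∀ w' ∈ Set.uIcc (0 : ℝ) w,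
        HasDerivWithinAt (fun x : ℝ => F (t, x)) (D2 F (t, w')) (Set.uIcc (0 : ℝ) w) w' := by
      intro w' hw'
      have ha : AnalyticAt ℝ F (t, w') := by
        refine h2 ?_
        rw [Prod.dist_eq, Real.dist_eq, Real.dist_eq, sub_zero]
        exact max_lt ht2 ((habs w' hw').trans_lt hw2)
      have hf : HasFDerivAt F (fderiv ℝ F (t, w')) (t, w') := ha.differentiableAt.hasFDerivAt
      have hg : HasDerivAt (fun x : ℝ => ((t, x) : ℝ × ℝ)) ((0, 1) : ℝ × ℝ) w' :=
        (hasDerivAt_const w' t).prodMk (hasDerivAt_id w')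
      exact (HasFDerivAt.comp_hasDerivAt (f := fun x : ℝ => ((t, x) : ℝ × ℝ)) w' hf hg).hasDerivWithinAt
    have hmv := Convex.norm_image_sub_le_of_norm_hasDerivWithin_le (C := C * |w| ^ r) hder
      (fun w' hw' => by
        rw [Real.norm_eq_abs]
        refine (h1 t w' ht1 ((habs w' hw').trans_lt hw1)).trans ?_
        exact mul_le_mul_of_nonneg_left (pow_le_pow_left₀ (abs_nonneg _) (habs w' hw') r) hC)
      (convex_uIcc (0 : ℝ) w) Set.left_mem_uIcc Set.right_mem_uIcc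
    rw [hF0, sub_zero, sub_zero, Real.norm_eq_abs, Real.norm_eq_abs, mul_assoc, ← pow_succ] at hmv
    exact hmv

end Pool.Agent.Lib.MP_28b8de_an
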