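import Pool.Agent.Lib.MP_28b8de_an.E.QDefs

/-!
MP_28b8de_an, module QA (MSE-QA): the local switching function chain `a_j`.
c is a point of Ioo p p' (base point of the primitives).

PROOFS.  h0, G_i, Ps analytic on Ioo p p': composition with ζ; G_i' = l_i h0 near each point of the interval
(intervalIntegral.integral_hasDerivAt_right, continuity on the interval containing c), then
`analyticAt_of_hasDerivAt` (Prim.lean).  Qf_deriv: xi l v has derivative l_i v everywhere (v continuous and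
bounded: RD_v_cont, RD_v_bdd; (intervalIntegral) integral_hasStrictDerivAt), minus G_i'.
aj_zero: unfold: R.phi T u 0 = ψ + ∑ b_i · xi (-l) v i = ψ - ∑ b_i xi l v i, and Ps - ∑ b_i Qf_i is the same.
aj_deriv: loc_iter_deriv, hasDerivAt_iteratedDeriv, Qf_deriv, product rule.
kap_eq: RD_v_eq (t ∈ Icc 0 T), z t = ζ t + Z_0 t.  aj_volt: loc_volterra_iter for s ∈ K (κ = 0 on K ∩ Ioo by Kζ,
a_0 = φ = 0 on K).
-/

namespace Pool.Agent.Lib.MP_28b8de_an

open Filter Topology Set MeasureTheory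

variable {k : ℕ} {R : RD k} (hR : R.An) {u : ℝ → ℝ} (hum : Measurable u)
  (hub : ∀ t, |u t| ≤ 1) {T : ℝ} (hT : 0 ≤ T) {M q : ℕ} {K : Set ℝ} {p p' : ℝ} {ζ : ℝ → ℝ}
  {C c0 ε θ : ℝ} {Kt : ℝ → ℝ → ℝ} (hL : LocPack R T u M q K p p' ζ C c0 ε θ Kt)
  {c : ℝ} (hc : c ∈ Ioo p p')

include hR hL in
theorem h0_an : AnalyticOnNhd ℝ (R.h0 ζ) (Ioo p p') := by
  intro t ht
  have h1 : AnalyticAt ℝ (fun t => (t, ζ t)) t := analyticAt_id.prod (hL.ζan t ht)
  have h2 : AnalyticAt ℝ (D2 R.H) ((fun t => (t, ζ t)) t) := D2_an hR.H _ (mem_univ _)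
  have h3 : AnalyticAt ℝ (D2 R.H ∘ fun t => (t, ζ t)) t :=
    AnalyticAt.comp (g := D2 R.H) (f := fun t => (t, ζ t)) h2 h1
  exact h3

include hR hL hc in
private theorem QA_Gi_deriv (i : Fin k) {t : ℝ} (ht : t ∈ Ioo p p') :
    HasDerivAt (R.Gi ζ c i) (R.l i t * R.h0 ζ t) t := by
  have hcont : ContinuousOn (fun s => R.l i s * R.h0 ζ s) (Ioo p p') :=
    ((continuous_of_analytic (hR.l i)).continuousOn).mul (h0_an hR hL).continuousOn
  have hsub : uIcc c t ⊆ Ioo p p' := by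
    intro x hx
    rw [mem_uIcc] at hx
    rcases hx with hx | hx
    · exact ⟨lt_of_lt_of_le hc.1 hx.1, lt_of_le_of_lt hx.2 ht.2⟩
    · exact ⟨lt_of_lt_of_le ht.1 hx.1, lt_of_le_of_lt hx.2 hc.2⟩
  have h1 : IntervalIntegrable (fun s => R.l i s * R.h0 ζ s) volume c t :=
    (hcont.mono hsub).intervalIntegrable
  exact intervalIntegral.integral_hasDerivAt_right h1
    (hcont.stronglyMeasurableAtFilter isOpen_Ioo t ht) (hcont.continuousAt (isOpen_Ioo.mem_nhds ht))

include hR hL hc in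
theorem Gi_an (i : Fin k) : AnalyticOnNhd ℝ (R.Gi ζ c i) (Ioo p p') := by
  intro t ht
  refine analyticAt_of_hasDerivAt (f := fun s => R.l i s * R.h0 ζ s) ?_ ?_
  · filter_upwards [isOpen_Ioo.mem_nhds ht] with s hs
    exact QA_Gi_deriv hR hL hc i hs
  · exact (hR.l i t (mem_univ t)).mul (h0_an hR hL t ht)

include hR hL hc in
theorem Ps_an : AnalyticOnNhd ℝ (R.Ps ζ c) (Ioo p p') := by
  intro t ht
  have h1 : AnalyticAt ℝ (fun t => ∑ i, R.b i t * R.Gi ζ c i t) t :=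
    Finset.analyticAt_fun_sum _ fun i _ => (hR.b i t (mem_univ t)).mul (Gi_an hR hL hc i t ht)
  exact (hR.ψ t (mem_univ t)).sub h1

include hR hum hub hT hL in
theorem kap_contOn : ContinuousOn (R.kap T u ζ) (Ioo p p') := by
  exact (RD_v_cont hR hum hub T).continuousOn.sub (h0_an hR hL).continuousOn

include hR hum hub hT hL hc in
theorem Qf_deriv (i : Fin k) {t : ℝ} (ht : t ∈ Ioo p p') :
    HasDerivAt (R.Qf T u ζ c i) (R.l i t * R.kap T u ζ t) t := by
  have hcont : Continuous fun s => R.l i s * R.v T u s :=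
    (continuous_of_analytic (hR.l i)).mul (RD_v_cont hR hum hub T)
  have h1 : HasDerivAt (xi R.l (R.v T u) i) (R.l i t * R.v T u t) t :=
    (hcont.integral_hasStrictDerivAt 0 t).hasDerivAt
  have h2 := h1.sub (QA_Gi_deriv hR hL hc i ht)
  have h3 : R.l i t * R.v T u t - R.l i t * R.h0 ζ t = R.l i t * R.kap T u ζ t := by
    unfold RD.kap
    ring
  rw [h3] at h2
  exact h2

theorem aj_zero (R : RD k) (T : ℝ) (u ζ : ℝ → ℝ) (c t : ℝ) :
    R.aj T u ζ c 0 t = R.phi T u 0 t := by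
  have hx : ∀ i, xi (fun i t => - R.l i t) (R.v T u) i t = - xi R.l (R.v T u) i t := by
    intro i
    unfold xi
    rw [← intervalIntegral.integral_neg]
    congr 1
    ext s
    ring
  unfold RD.aj RD.phi Phi RD.Qf RD.Ps
  simp only [iteratedDeriv_zero, hx]
  have h1 : ∑ i, R.b i t * (xi R.l (R.v T u) i t - R.Gi ζ c i t)
      = ∑ i, R.b i t * xi R.l (R.v T u) i t - ∑ i, R.b i t * R.Gi ζ c i t := by
    rw [← Finset.sum_sub_distrib]
    exact Finset.sum_congr rfl fun i _ => by ring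
  have h2 : ∑ i, R.b i t * -xi R.l (R.v T u) i t = - ∑ i, R.b i t * xi R.l (R.v T u) i t := by
    rw [← Finset.sum_neg_distrib]
    exact Finset.sum_congr rfl fun i _ => by ring
  rw [h1, h2]
  ring

include hR hum hub hT hL hc in
theorem aj_deriv (j : ℕ) {t : ℝ} (ht : t ∈ Ioo p p') :
    HasDerivAt (R.aj T u ζ c j) (R.aj T u ζ c (j + 1) t
      - (∑ i, iteratedDeriv j (R.b i) t * R.l i t) * R.kap T u ζ t) t := by
  have h1 := (loc_iter_deriv (Ps_an hR hL hc) j ht).2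
  have h2 : HasDerivAt (fun t => ∑ i, iteratedDeriv j (R.b i) t * R.Qf T u ζ c i t)
      (∑ i, (iteratedDeriv (j + 1) (R.b i) t * R.Qf T u ζ c i t
        + iteratedDeriv j (R.b i) t * (R.l i t * R.kap T u ζ t))) t := by
    apply HasDerivAt.fun_sum
    intro i _
    exact (hasDerivAt_iteratedDeriv (hR.b i) j t).mul (Qf_deriv hR hum hub hT hL hc i ht)
  have h3 := h1.sub h2
  have h4 : iteratedDeriv (j + 1) (R.Ps ζ c) t
      - ∑ i, (iteratedDeriv (j + 1) (R.b i) t * R.Qf T u ζ c i t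
        + iteratedDeriv j (R.b i) t * (R.l i t * R.kap T u ζ t))
      = R.aj T u ζ c (j + 1) t
        - (∑ i, iteratedDeriv j (R.b i) t * R.l i t) * R.kap T u ζ t := by
    unfold RD.aj
    rw [Finset.sum_add_distrib, Finset.sum_mul, sub_add_eq_sub_sub]
    congr 1
    apply Finset.sum_congr rfl
    intro i _
    ring
  rw [h4] at h3
  exact h3

include hT hL in
theorem kap_eq {t : ℝ} (ht : t ∈ Ioo p p') :
    R.kap T u ζ t = D2 R.H (t, ζ t + R.Zj u ζ 0 t) - D2 R.H (t, ζ t) := by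
  have hmem : t ∈ Icc 0 T := ⟨(hL.hp.trans ht.1).le, (ht.2.trans hL.hp').le⟩
  unfold RD.kap RD.h0 RD.Zj
  rw [RD_v_eq hmem, iteratedDeriv_zero, add_sub_cancel]

variable (hK0 : ∀ t ∈ K, R.phi T u 0 t = 0) (hKacc : ∀ t ∈ K, AccPt t (𝓟 K))

include hR hum hub hT hL hc hK0 hKacc in
theorem aj_volt (j : ℕ) {s τ : ℝ} (hs : s ∈ K) (hsI : s ∈ Ioo p p') (hτ : τ ∈ Ioo p p') :
    R.aj T u ζ c j τ
      = - ∑ i, iteratedDeriv j (R.b i) τ * (R.Qf T u ζ c i τ - R.Qf T u ζ c i s) := by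
  have h1 : iteratedDeriv j (R.Ps ζ c) τ
      = ∑ i, iteratedDeriv j (R.b i) τ * R.Qf T u ζ c i s := by
    refine loc_volterra_iter (κ := R.kap T u ζ) hR.b (Ps_an hR hL hc)
      (fun i t ht => Qf_deriv hR hum hub hT hL hc i ht) ?_ ?_ hKacc hs hsI j τ hτ
    · intro t htK htI
      rw [kap_eq hT hL htI]
      have h2 : R.Zj u ζ 0 t = 0 := by
        unfold RD.Zj
        rw [iteratedDeriv_zero, hL.Kζ t htK htI, sub_self]
      rw [h2, add_zero, sub_self]
    · intro t htK htI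
      have h3 := aj_zero R T u ζ c t
      rw [hK0 t htK] at h3
      unfold RD.aj at h3
      simpa only [iteratedDeriv_zero] using h3
  unfold RD.aj
  rw [h1, ← Finset.sum_sub_distrib, ← Finset.sum_neg_distrib]
  apply Finset.sum_congr rfl
  intro i _
  ring

end Pool.Agent.Lib.MP_28b8de_an
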