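import Pool.Agent.Lib.MP_28b8de_an.E.LocVolterra
import Pool.Agent.Lib.MP_28b8de_an.E.Leib

/-!
MP_28b8de_an, module QDefs: the local situation for degenerate curvature (order `q ≥ 2`).
-/

namespace Pool.Agent.Lib.MP_28b8de_an

open Filter Topology Set MeasureTheory

section

variable {k : ℕ} (R : RD k)

/-- `Z_j = z_j - ζ^{(j)}` -/
noncomputable def RD.Zj (u ζ : ℝ → ℝ) (j : ℕ) (t : ℝ) : ℝ := R.z u j t - iteratedDeriv j ζ t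

/-- `h(t, ζ(t))`, `h = D2 H` -/
noncomputable def RD.h0 (ζ : ℝ → ℝ) (t : ℝ) : ℝ := D2 R.H (t, ζ t)

/-- primitives of `l_i h0` -/
noncomputable def RD.Gi (ζ : ℝ → ℝ) (c : ℝ) (i : Fin k) (t : ℝ) : ℝ :=
  ∫ s in c..t, R.l i s * R.h0 ζ s

/-- `Q_i = ∫_0^t l_i v - G_i` -/
noncomputable def RD.Qf (T : ℝ) (u ζ : ℝ → ℝ) (c : ℝ) (i : Fin k) (t : ℝ) : ℝ :=
  xi R.l (R.v T u) i t - R.Gi ζ c i t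

/-- `Ψ = ψ - ∑ b_i G_i` -/
noncomputable def RD.Ps (ζ : ℝ → ℝ) (c : ℝ) (t : ℝ) : ℝ := R.ψ t - ∑ i, R.b i t * R.Gi ζ c i t

/-- `a_j = Ψ^{(j)} - ∑ b_i^{(j)} Q_i` -/
noncomputable def RD.aj (T : ℝ) (u ζ : ℝ → ℝ) (c : ℝ) (j : ℕ) (t : ℝ) : ℝ :=
  iteratedDeriv j (R.Ps ζ c) t - ∑ i, iteratedDeriv j (R.b i) t * R.Qf T u ζ c i t

/-- `κ = v - h0` -/
noncomputable def RD.kap (T : ℝ) (u ζ : ℝ → ℝ) (t : ℝ) : ℝ := R.v T u t - R.h0 ζ t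

end

/-- the local package around a point of the perfect set `K` -/
structure LocPack {k : ℕ} (R : RD k) (T : ℝ) (u : ℝ → ℝ) (M q : ℕ) (K : Set ℝ) (p p' : ℝ)
    (ζ : ℝ → ℝ) (C c0 ε θ : ℝ) (Kt : ℝ → ℝ → ℝ) : Prop where
  hp : 0 < p
  hpp : p < p'
  hp' : p' < T
  hC : 0 ≤ C
  hc0 : 0 < c0
  hε : 0 < ε
  hθ : |θ| = 1
  hβ : ∀ t ∈ Ioo p p', Wd R.l R.b M t ≠ 0
  ζan : AnalyticOnNhd ℝ ζ (Ioo p p')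
  Kζ : ∀ t ∈ K, t ∈ Ioo p p' → R.z u 0 t = ζ t
  small : ∀ t ∈ Ioo p p', |R.z u 0 t - ζ t| < ε
  est : ∀ t ∈ Ioo p p', ∀ w : ℝ, |w| < ε →
    |D2 R.H (t, ζ t + w) - D2 R.H (t, ζ t)| ≤ C * |w| ^ q ∧
    |R.H (t, ζ t + w) - R.H (t, ζ t) - D2 R.H (t, ζ t) * w| ≤ C * |w| ^ (q + 1) ∧
    |Kt t w| ≤ C * |w| ^ (q + 1) ∧
    |((q : ℝ) + 1) * (R.H (t, ζ t + w) - R.H (t, ζ t) - D2 R.H (t, ζ t) * w)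
      - (D2 R.H (t, ζ t + w) - D2 R.H (t, ζ t)) * w| ≤ C * |w| ^ (q + 2) ∧
    (Odd q → c0 * |w| ^ (q + 1) ≤ θ * ((D2 R.H (t, ζ t + w) - D2 R.H (t, ζ t)) * w)) ∧
    (Even q → c0 * |w| ^ q ≤ θ * (D2 R.H (t, ζ t + w) - D2 R.H (t, ζ t)))
  der : ∀ t ∈ Ioo p p', ∀ (Z : ℝ → ℝ) (Z' : ℝ), |Z t| < ε → HasDerivAt Z Z' t →
    HasDerivAt (fun t => R.H (t, ζ t + Z t) - R.H (t, ζ t) - D2 R.H (t, ζ t) * Z t)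
      ((D2 R.H (t, ζ t + Z t) - D2 R.H (t, ζ t)) * Z' + Kt t (Z t)) t

end Pool.Agent.Lib.MP_28b8de_an
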