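import Pool.Agent.Lib.MP_28b8de_an.E.VField

/-!
MP_28b8de_an, module TrajE (MSE-TrajE): the extended trajectory γ = (t, ξ, P) solves
γ' = X(γ) + u Y_0(γ) on [0,T]; functions along it.

PROOFS.  zh_γ: R.z u 0 t = Phi l b z0 u 0 t (iteratedDeriv_zero).  γ_cont: xi_cont (for P: R.v T u is
continuous and bounded: RD_v_cont, RD_v_bdd).  γ_ae: xi_ae for both components, hasDerivAt_pi,
HasDerivAt.prodMk; for t ∈ [0,T], R.v T u t = D2 H (t, z t) (RD_v_eq).  γ_lip: |ξ_i(t)-ξ_i(s)| ≤ sup|b_i| |t-s|,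
same for P, on [0,T] (xi_sub, norm_integral_le_of_norm_le_const).  G_ae: chain rule
(HasFDerivAt.comp_hasDerivAt), linearity of fderiv.  G_ac: G ∘ γ is Lipschitz on [0,T] (γ Lipschitz, G is C¹,
hence Lipschitz on the compact convex hull or ball containing γ([0,T])), so
`LipschitzOnWith.absolutelyContinuousOnInterval`.  G_int: AbsolutelyContinuousOnInterval.integral_deriv_eq_sub
and G_ae (as Phi_sub).  γ_int: componentwise from xi_sub (or from a vector-valued version).
F0_γ: unfold (Phi with c = -l: xi (-l) v i = - xi l v i).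
-/

namespace Pool.Agent.Lib.MP_28b8de_an

open Filter Topology Set MeasureTheory

variable {k : ℕ} {R : RD k} (hR : R.An) {u : ℝ → ℝ} (hum : Measurable u)
  (hub : ∀ t, |u t| ≤ 1) {T : ℝ} (hT : 0 ≤ T)

theorem zh_γ (R : RD k) (T : ℝ) (u : ℝ → ℝ) (t : ℝ) : R.zh (R.γ T u t) = R.z u 0 t := by
  simp only [RD.zh, RD.γ, RD.z, Phi, iteratedDeriv_zero]

theorem F0_γ (R : RD k) (T : ℝ) (u : ℝ → ℝ) (t : ℝ) :
    R.F 0 (R.γ T u t) = R.phi T u 0 t := by
  have h1 : ∀ i, xi (fun i t => - R.l i t) (R.v T u) i t = - xi R.l (R.v T u) i t := by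
    intro i
    simp only [xi, neg_mul]
    exact intervalIntegral.integral_neg
  simp only [RD.F, Function.iterate_zero, id_eq, RD.F0, RD.γ, RD.phi, Phi, iteratedDeriv_zero, h1,
    mul_neg, Finset.sum_neg_distrib, sub_eq_add_neg]

include hR hum hub hT

private theorem TrajE_v_meas : Measurable (R.v T u) := (RD_v_cont hR hum hub T).measurable

theorem γ_cont : Continuous (R.γ T u) := by
  obtain ⟨K, hK⟩ := RD_v_bdd hR hum hub hT
  have h1 : Continuous fun t => fun i => xi R.b u i t :=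
    continuous_pi fun i => xi_cont hR.b hum hub i
  have h2 : Continuous fun t => fun i => xi R.l (R.v T u) i t :=
    continuous_pi fun i => xi_cont hR.l (TrajE_v_meas hR hum hub hT) hK i
  exact continuous_id.prodMk (h1.prodMk h2)

private theorem TrajE_X_eq {t : ℝ} (ht : t ∈ Icc 0 T) :
    R.X (R.γ T u t) + u t • R.Y 0 (R.γ T u t)
      = (1, (fun i => R.b i t * u t), fun i => R.l i t * R.v T u t) := by
  have h1 : D2 R.H ((R.γ T u t).1, R.zh (R.γ T u t)) = R.v T u t := by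
    rw [zh_γ, RD_v_eq ht]
    rfl
  have h2 : (R.γ T u t).1 = t := rfl
  unfold RD.X RD.Y
  rw [h1, h2]
  ext i
  · simp
  · simp [mul_comm]
  · simp

theorem γ_ae : ∀ᵐ t, t ∈ Icc 0 T →
    HasDerivAt (R.γ T u) (R.X (R.γ T u t) + u t • R.Y 0 (R.γ T u t)) t := by
  obtain ⟨K, hK⟩ := RD_v_bdd hR hum hub hT
  have h1 : ∀ᵐ t, ∀ i, HasDerivAt (xi R.b u i) (R.b i t * u t) t := by
    rw [ae_all_iff]
    exact fun i => xi_ae hR.b hum hub i
  have h2 : ∀ᵐ t, ∀ i, HasDerivAt (xi R.l (R.v T u) i) (R.l i t * R.v T u t) t := by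
    rw [ae_all_iff]
    exact fun i => xi_ae hR.l (TrajE_v_meas hR hum hub hT) hK i
  filter_upwards [h1, h2] with t ht1 ht2 htT
  rw [TrajE_X_eq hR hum hub hT htT]
  have h3 : HasDerivAt (fun t => fun i => xi R.b u i t) (fun i => R.b i t * u t) t :=
    hasDerivAt_pi.2 ht1
  have h4 : HasDerivAt (fun t => fun i => xi R.l (R.v T u) i t)
      (fun i => R.l i t * R.v T u t) t := hasDerivAt_pi.2 ht2
  exact (hasDerivAt_id t).prodMk (h3.prodMk h4)

private theorem TrajE_X_cont : Continuous fun t => R.X (R.γ T u t) := by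
  have h1 : Continuous R.X := by
    rw [continuous_iff_continuousAt]
    exact fun e => (X_an hR e (mem_univ e)).continuousAt
  exact h1.comp (γ_cont hR hum hub hT)

private theorem TrajE_Y_cont : Continuous fun t => R.Y 0 (R.γ T u t) := by
  have h1 : Continuous (R.Y 0) := by
    rw [continuous_iff_continuousAt]
    exact fun e => (Y_an hR 0 e (mem_univ e)).continuousAt
  exact h1.comp (γ_cont hR hum hub hT)

private theorem TrajE_u_int (s t : ℝ) : IntervalIntegrable u volume s t := by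
  have := intInt (ψ := fun _ => (1 : ℝ)) (K := 1) continuous_const hum hub s t
  simpa using this

private theorem TrajE_int (s t : ℝ) :
    IntervalIntegrable (fun r => R.X (R.γ T u r) + u r • R.Y 0 (R.γ T u r)) volume s t :=
  ((TrajE_X_cont hR hum hub hT).intervalIntegrable s t).add
    ((TrajE_u_int hR hum hub hT s t).smul_continuousOn
      (TrajE_Y_cont hR hum hub hT).continuousOn)

theorem γ_int {s t : ℝ} (hs : s ∈ Icc 0 T) (ht : t ∈ Icc 0 T) :
    R.γ T u t - R.γ T u s = ∫ r in s..t, (R.X (R.γ T u r) + u r • R.Y 0 (R.γ T u r)) := by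
  obtain ⟨K, hK⟩ := RD_v_bdd hR hum hub hT
  have hsub : uIcc s t ⊆ Icc 0 T := by
    rw [← uIcc_of_le hT]
    apply uIcc_subset_uIcc
    · rwa [uIcc_of_le hT]
    · rwa [uIcc_of_le hT]
  have hI := TrajE_int hR hum hub hT s t
  set f : ℝ → EE k := fun r => R.X (R.γ T u r) + u r • R.Y 0 (R.γ T u r) with hf
  have hval : ∀ r ∈ uIcc s t, f r = (1, (fun i => R.b i r * u r), fun i => R.l i r * R.v T u r) :=
    fun r hr => TrajE_X_eq hR hum hub hT (hsub hr)
  have key : ∀ (L : EE k →L[ℝ] ℝ) (g : ℝ → ℝ), (∀ r ∈ uIcc s t, L (f r) = g r) →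
      (∫ r in s..t, g r) = L (∫ r in s..t, f r) := by
    intro L g hg
    rw [← L.intervalIntegral_comp_comm hI]
    apply intervalIntegral.integral_congr
    intro r hr
    exact (hg r hr).symm
  ext i
  · have h1 := key (ContinuousLinearMap.fst ℝ ℝ ((Fin k → ℝ) × (Fin k → ℝ))) (fun _ => 1)
      (fun r hr => by rw [hval r hr]; rfl)
    rw [intervalIntegral.integral_const, smul_eq_mul, mul_one] at h1
    exact h1
  · have h1 := key ((ContinuousLinearMap.proj i).comp ((ContinuousLinearMap.fst ℝ (Fin k → ℝ)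
      (Fin k → ℝ)).comp (ContinuousLinearMap.snd ℝ ℝ ((Fin k → ℝ) × (Fin k → ℝ)))))
      (fun r => R.b i r * u r) (fun r hr => by rw [hval r hr]; rfl)
    rw [← xi_sub hR.b hum hub i s t] at h1
    exact h1
  · have h1 := key ((ContinuousLinearMap.proj i).comp ((ContinuousLinearMap.snd ℝ (Fin k → ℝ)
      (Fin k → ℝ)).comp (ContinuousLinearMap.snd ℝ ℝ ((Fin k → ℝ) × (Fin k → ℝ)))))
      (fun r => R.l i r * R.v T u r) (fun r hr => by rw [hval r hr]; rfl)
    rw [← xi_sub hR.l (TrajE_v_meas hR hum hub hT) hK i s t] at h1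
    exact h1

theorem γ_lip : ∃ L : NNReal, LipschitzOnWith L (R.γ T u) (Icc 0 T) := by
  obtain ⟨C1, hC1⟩ := (isCompact_Icc (a := (0 : ℝ)) (b := T)).exists_bound_of_continuousOn
    (TrajE_X_cont hR hum hub hT).continuousOn
  obtain ⟨C2, hC2⟩ := (isCompact_Icc (a := (0 : ℝ)) (b := T)).exists_bound_of_continuousOn
    (TrajE_Y_cont hR hum hub hT).continuousOn
  refine ⟨Real.toNNReal (C1 + C2), LipschitzOnWith.of_dist_le_mul fun t ht s hs => ?_⟩
  have hsub : uIoc s t ⊆ Icc 0 T := by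
    refine uIoc_subset_uIcc.trans ?_
    rw [← uIcc_of_le hT]
    apply uIcc_subset_uIcc
    · rwa [uIcc_of_le hT]
    · rwa [uIcc_of_le hT]
  have h1 : ‖∫ r in s..t, (R.X (R.γ T u r) + u r • R.Y 0 (R.γ T u r))‖ ≤ (C1 + C2) * |t - s| := by
    apply intervalIntegral.norm_integral_le_of_norm_le_const
    intro r hr
    have h2 := hC1 r (hsub hr)
    have h3 := hC2 r (hsub hr)
    have h4 : ‖u r • R.Y 0 (R.γ T u r)‖ ≤ C2 := by
      rw [norm_smul, Real.norm_eq_abs]
      calc |u r| * ‖R.Y 0 (R.γ T u r)‖ ≤ 1 * ‖R.Y 0 (R.γ T u r)‖ := by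
            gcongr
            exact hub r
        _ ≤ C2 := by rw [one_mul]; exact h3
    exact (norm_add_le _ _).trans (add_le_add h2 h4)
  rw [← γ_int hR hum hub hT hs ht] at h1
  rw [dist_eq_norm]
  refine h1.trans ?_
  rw [Real.dist_eq]
  gcongr
  exact Real.le_coe_toNNReal _

theorem G_ae {G : EE k → ℝ} (hG : AnalyticOnNhd ℝ G univ) : ∀ᵐ t, t ∈ Icc 0 T →
    HasDerivAt (fun t => G (R.γ T u t))
      (R.LX G (R.γ T u t) + u t * R.LY 0 G (R.γ T u t)) t := by
  filter_upwards [γ_ae hR hum hub hT] with t ht htT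
  have h1 := ((hG (R.γ T u t) (mem_univ _)).differentiableAt.hasFDerivAt).comp_hasDerivAt t
    (ht htT)
  have h2 : fderiv ℝ G (R.γ T u t) (R.X (R.γ T u t) + u t • R.Y 0 (R.γ T u t))
      = R.LX G (R.γ T u t) + u t * R.LY 0 G (R.γ T u t) := by
    rw [map_add, map_smul, smul_eq_mul]
    rfl
  rw [h2] at h1
  exact h1

theorem G_ac {G : EE k → ℝ} (hG : AnalyticOnNhd ℝ G univ) {s t : ℝ} (hs : s ∈ Icc 0 T)
    (ht : t ∈ Icc 0 T) :
    AbsolutelyContinuousOnInterval (fun t => G (R.γ T u t)) s t := by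
  have hsub : uIcc s t ⊆ Icc 0 T := by
    rw [← uIcc_of_le hT]
    apply uIcc_subset_uIcc
    · rwa [uIcc_of_le hT]
    · rwa [uIcc_of_le hT]
  obtain ⟨L, hL⟩ := γ_lip hR hum hub hT
  have hG1 : ContDiff ℝ 1 G := by
    rw [← contDiffOn_univ]
    exact hG.contDiffOn uniqueDiffOn_univ
  have hcomp : IsCompact (R.γ T u '' Icc 0 T) :=
    isCompact_Icc.image (γ_cont hR hum hub hT)
  obtain ⟨K, hK⟩ := LocallyLipschitzOn.exists_lipschitzOnWith_of_compact hcomp
    (hG1.locallyLipschitz.locallyLipschitzOn (s := R.γ T u '' Icc 0 T))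
  have h1 : LipschitzOnWith (K * L) (G ∘ R.γ T u) (Icc 0 T) :=
    hK.comp hL (fun x hx => mem_image_of_mem _ hx)
  exact (h1.mono hsub).absolutelyContinuousOnInterval

theorem G_int {G : EE k → ℝ} (hG : AnalyticOnNhd ℝ G univ) {s t : ℝ} (hs : s ∈ Icc 0 T)
    (ht : t ∈ Icc 0 T) :
    G (R.γ T u t) - G (R.γ T u s)
      = ∫ r in s..t, (R.LX G (R.γ T u r) + u r * R.LY 0 G (R.γ T u r)) := by
  have hsub : uIcc s t ⊆ Icc 0 T := by
    rw [← uIcc_of_le hT]
    apply uIcc_subset_uIcc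
    · rwa [uIcc_of_le hT]
    · rwa [uIcc_of_le hT]
  rw [← (G_ac hR hum hub hT hG hs ht).integral_deriv_eq_sub]
  apply intervalIntegral.integral_congr_ae
  filter_upwards [G_ae hR hum hub hT hG] with r hr hrm
  exact (hr (hsub (uIoc_subset_uIcc hrm))).deriv

end Pool.Agent.Lib.MP_28b8de_an
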