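import Pool.Agent.Lib.MP_28b8de_an.E.QZ
import Pool.Agent.Lib.MP_28b8de_an.E.QA
import Pool.Agent.Lib.MP_28b8de_an.E.GapQ
import Pool.Agent.Lib.MP_28b8de_an.E.TrajE

/-!
MP_28b8de_an, module QGap (MSE-QGap): where the singular control is strictly admissible, `Z_0`
vanishes between neighbouring points of `K`.

PROOF.  N = M+1, c = t₂ (base point).  Work on a closed interval J = [t₂-ε₁, t₂+ε₁] ⊆ Ioo p p'.
Data of `GapData` on [s,s'] ⊆ J (s < s' in K):
 Z j := if j ≤ M then R.Zj u ζ j else (t ↦ A t + β t u t), A = R.Zj u ζ (M+1), β = Wd R.l R.b M, σ = sign β(t₂);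
 g j := if j ≤ M then R.aj T u ζ t₂ j else (t ↦ ρ t + V t κ t), ρ = R.aj T u ζ t₂ (M+1),
 V t = - ∑ i, iteratedDeriv M (b_i) t * l_i t = -(-1)^M β t (`leib`), κ = R.kap T u ζ;
 A' = Zj (M+2) + Wd (M+1) u (Zj_ae), β' = deriv β, V' = deriv V,
 ρ' = aj (M+2) - (∑ i, iteratedDeriv (M+1) (b_i) l_i) κ (aj_deriv),
 Hh t = H(t, ζ t + Z_0 t) - H(t, ζ t) - D2 H(t,ζ t) Z_0 t, Ht t = Kt t (Z_0 t) (hL.der with Z = R.Zj u ζ 0: for
 M ≥ 1 Zj_deriv; for M = 0 Zj_ae, Z 1 = A + β u).
gd: aj_deriv, for j < M the sum ∑ b_i^{(j)} l_i vanishes (leib), for j = M it is -V.  gl, gr: aj_volt with base point s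
resp. s' gives a_j(s) = 0, a_j(s') = 0 (all j).  Zl, Zr: Zj_zero.  hu: aj_zero and the relay relation (J ⊆ [0,T]).
Bounds with one constant C' for the whole interval J (compactness): |β|, |β'|, |V|, |V'|, |A'| ≤ C';
|κ t| ≤ C |Z_0 t|^q (kap_eq, hL.est; |Z_0 t| < ε by hL.small);
|Q_i(t) - Q_i(s)| = |∫_s^t l_i κ| ≤ C'' ∫_s^{s'} |Z_0|^q (Qf_deriv, integral_eq_sub_of_hasDerivAt), so ρb and ρb'
from aj_volt (ρ and aj (M+2) are combinations of Q_i(t) - Q_i(s)).
H1: C |Z_0|^(q+2) ≤ C C' (s'-s) |Z_0|^(q+1), as |Z_0 t| = |Z_0 t - Z_0 s| ≤ C' (t-s) (Lipschitz on J).  H2, H3: hL.est.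
low1, low2: V κ Z_0 = -(-1)^M β κ Z_0 and |β| ≥ β0 with constant sign: c0' = β0 c0, θ' = -(-1)^M σ θ.
hlt: by continuity |A t| ≤ (1-e) σ β t and β0 ≤ σ β t on a small J (as in relay_case1, RelayMain.lean).
`gapq` gives δ0; choose ε₁ with 2ε₁ < δ0 (and J as above).
-/

namespace Pool.Agent.Lib.MP_28b8de_an

open Filter Topology Set MeasureTheory

private theorem QGap_bd {f : ℝ → ℝ} {a b : ℝ} (hf : ContinuousOn f (Icc a b)) :
    ∃ B : ℝ, 0 ≤ B ∧ ∀ t ∈ Icc a b, |f t| ≤ B := by
  obtain ⟨B, hB⟩ := isCompact_Icc.exists_bound_of_continuousOn hf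
  refine ⟨|B|, abs_nonneg _, fun t ht => ?_⟩
  have := hB t ht
  rw [Real.norm_eq_abs] at this
  exact this.trans (le_abs_self B)

private theorem QGap_ac {f f' : ℝ → ℝ} {s s' : ℝ} (hs : s ≤ s')
    (hf : ∀ t ∈ Icc s s', HasDerivAt f (f' t) t) (hc : ContinuousOn f' (Icc s s')) :
    AbsolutelyContinuousOnInterval f s s' := by
  obtain ⟨B, hB0, hB⟩ := QGap_bd hc
  have h : LipschitzOnWith (Real.toNNReal B) f (uIcc s s') := by
    rw [uIcc_of_le hs]
    apply (convex_Icc s s').lipschitzOnWith_of_nnnorm_hasDerivWithin_le (f' := f')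
    · intro t ht
      exact (hf t ht).hasDerivWithinAt
    · intro t ht
      rw [← NNReal.coe_le_coe, coe_nnnorm, Real.coe_toNNReal B hB0, Real.norm_eq_abs]
      exact hB t ht
  exact h.absolutelyContinuousOnInterval

private theorem QGap_acan {f : ℝ → ℝ} {p p' s s' : ℝ} (hf : AnalyticOnNhd ℝ f (Ioo p p'))
    (hs : s ∈ Ioo p p') (hs' : s' ∈ Ioo p p') (hss : s < s') :
    AbsolutelyContinuousOnInterval f s s' := by
  have hsub : Icc s s' ⊆ Ioo p p' := fun t ht => ⟨hs.1.trans_le ht.1, ht.2.trans_lt hs'.2⟩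
  have h1 : ContDiffOn ℝ 1 f (uIcc s s') := by
    rw [uIcc_of_le hss.le]
    exact (hf.mono hsub).contDiffOn (uniqueDiffOn_Icc hss)
  exact h1.absolutelyContinuousOnInterval

private theorem QGap_Q {Q l κ Z : ℝ → ℝ} {s s' L C : ℝ} {q : ℕ}
    (hQ : ∀ t ∈ Icc s s', HasDerivAt Q (l t * κ t) t) (hlc : ContinuousOn l (Icc s s'))
    (hκc : ContinuousOn κ (Icc s s')) (hZc : ContinuousOn Z (Icc s s'))
    (hl : ∀ t ∈ Icc s s', |l t| ≤ L) (hκ : ∀ t ∈ Icc s s', |κ t| ≤ C * |Z t| ^ q) (hL : 0 ≤ L)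
    (hC : 0 ≤ C) {t : ℝ} (ht : t ∈ Icc s s') :
    |Q t - Q s| ≤ L * C * ∫ r in s..s', |Z r| ^ q := by
  have hst : s ≤ t := ht.1
  have hsub : uIcc s t ⊆ Icc s s' := by
    rw [uIcc_of_le hst]
    exact Icc_subset_Icc le_rfl ht.2
  have hss : s ≤ s' := ht.1.trans ht.2
  have hci : ContinuousOn (fun r => l r * κ r) (uIcc s t) := (hlc.mul hκc).mono hsub
  have e : ∫ r in s..t, l r * κ r = Q t - Q s :=
    intervalIntegral.integral_eq_sub_of_hasDerivAt (fun r hr => hQ r (hsub hr))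
      hci.intervalIntegrable
  have hZi : ContinuousOn (fun r => L * C * |Z r| ^ q) (uIcc s s') := by
    rw [uIcc_of_le hss]
    exact continuousOn_const.mul (hZc.abs.pow q)
  have hZi' : ContinuousOn (fun r => L * C * |Z r| ^ q) (uIcc s t) := by
    apply (continuousOn_const.mul (hZc.abs.pow q)).mono hsub
  rw [← e]
  calc |∫ r in s..t, l r * κ r| ≤ ∫ r in s..t, |l r * κ r| :=
        intervalIntegral.abs_integral_le_integral_abs hst
    _ ≤ ∫ r in s..t, L * C * |Z r| ^ q := by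
        apply intervalIntegral.integral_mono_on hst hci.abs.intervalIntegrable
          hZi'.intervalIntegrable
        intro r hr
        have hr' : r ∈ Icc s s' := ⟨hr.1, hr.2.trans ht.2⟩
        rw [abs_mul, mul_assoc]
        exact mul_le_mul (hl r hr') (hκ r hr') (abs_nonneg _) hL
    _ ≤ ∫ r in s..s', L * C * |Z r| ^ q := by
        apply intervalIntegral.integral_mono_interval le_rfl hst ht.2
        · exact Eventually.of_forall fun r => by
            show (0 : ℝ) ≤ L * C * |Z r| ^ q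
            positivity
        · exact hZi.intervalIntegrable
    _ = L * C * ∫ r in s..s', |Z r| ^ q := intervalIntegral.integral_const_mul _ _

private theorem QGap_Han {k : ℕ} {R : RD k} (hR : R.An) :
    AnalyticOnNhd ℝ (fun e : EE k => R.H (e.1, R.zh e)) univ := by
  intro e _
  have h1 : AnalyticAt ℝ (fun e : EE k => e.1) e := analyticAt_fst
  have h2 : AnalyticAt ℝ (fun e : EE k => R.zh e) e := by
    unfold RD.zh
    apply AnalyticAt.add
    · exact (hR.z0 e.1 (mem_univ _)).fun_comp h1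
    · apply Finset.analyticAt_fun_sum
      intro i _
      apply AnalyticAt.mul
      · exact (hR.l i e.1 (mem_univ _)).fun_comp h1
      · exact ((ContinuousLinearMap.proj (R := ℝ) (φ := fun _ : Fin k => ℝ) i).comp
          ((ContinuousLinearMap.fst ℝ (Fin k → ℝ) (Fin k → ℝ)).comp
            (ContinuousLinearMap.snd ℝ ℝ ((Fin k → ℝ) × (Fin k → ℝ))))).analyticAt e
  exact AnalyticAt.comp (g := R.H) (f := fun e : EE k => (e.1, R.zh e))
    (hR.H (e.1, R.zh e) (mem_univ _)) (h1.prod h2)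

theorem qtwo_gap {k : ℕ} {R : RD k} (hR : R.An) {u : ℝ → ℝ} (hum : Measurable u)
    (hub : ∀ t, |u t| ≤ 1) {T : ℝ} (hT : 0 ≤ T) {M q : ℕ} (hq : 2 ≤ q) {K : Set ℝ} {p p' : ℝ}
    {ζ : ℝ → ℝ} {C c0 ε θ : ℝ} {Kt : ℝ → ℝ → ℝ}
    (hL : LocPack R T u M q K p p' ζ C c0 ε θ Kt)
    (hW : ∀ j < M, ∀ t, Wd R.l R.b j t = 0) (hKT : K ⊆ Icc 0 T)
    (hK0 : ∀ t ∈ K, R.phi T u 0 t = 0) (hKacc : ∀ t ∈ K, AccPt t (𝓟 K))
    (hu : ∀ᵐ t, t ∈ Icc 0 T → u t * R.phi T u 0 t = |R.phi T u 0 t|)
    {t₂ : ℝ} (ht₂ : t₂ ∈ K) (ht₂I : t₂ ∈ Ioo p p')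
    (hlt : |R.Zj u ζ (M + 1) t₂| < |Wd R.l R.b M t₂|) :
    ∃ ε₁ : ℝ, 0 < ε₁ ∧ ∀ s ∈ K, ∀ s' ∈ K, s ∈ Ioo (t₂ - ε₁) (t₂ + ε₁) →
      s' ∈ Ioo (t₂ - ε₁) (t₂ + ε₁) → s < s' → ∀ t ∈ Icc s s', R.Zj u ζ 0 t = 0 := by
  have hne : Wd R.l R.b M t₂ ≠ 0 := hL.hβ t₂ ht₂I
  obtain ⟨σ, hσ, hσβ, hβpos⟩ := exists_sign hne
  have hβan : AnalyticOnNhd ℝ (Wd R.l R.b M) univ := Wd_analytic hR.l hR.b M
  have hcβ : Continuous (Wd R.l R.b M) := continuous_of_analytic hβan
  have hcA : ContinuousOn (R.Zj u ζ (M + 1)) (Ioo p p') := Zj_contOn hR hum hub hL (M + 1)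
  set b₁ : ℝ := |Wd R.l R.b M t₂| with hb₁
  set P : ℝ := |R.Zj u ζ (M + 1) t₂| with hP
  have hP0 : 0 ≤ P := abs_nonneg _
  set e : ℝ := (b₁ - P) / (2 * b₁) with he
  have he0 : 0 < e := by
    rw [he]
    apply div_pos (by linarith) (by linarith)
  have hkey : P < (1 - e) * b₁ := by
    have h1 : e * b₁ = (b₁ - P) / 2 := by
      rw [he]
      field_simp
    nlinarith
  have hI : Ioo p p' ∈ 𝓝 t₂ := Ioo_mem_nhds ht₂I.1 ht₂I.2
  -- the neighbourhood
  have hU1 : {r | b₁ / 2 < σ * Wd R.l R.b M r} ∈ 𝓝 t₂ := by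
    apply (isOpen_lt continuous_const (continuous_const.mul hcβ)).mem_nhds
    show b₁ / 2 < σ * Wd R.l R.b M t₂
    rw [hσβ]
    linarith
  have hU2 : {r | |R.Zj u ζ (M + 1) r| < (1 - e) * (σ * Wd R.l R.b M r)} ∈ 𝓝 t₂ := by
    have h1 : ContinuousAt (fun r => |R.Zj u ζ (M + 1) r|) t₂ := (hcA.continuousAt hI).abs
    have h2 : ContinuousAt (fun r => (1 - e) * (σ * Wd R.l R.b M r)) t₂ :=
      (continuous_const.mul (continuous_const.mul hcβ)).continuousAt
    apply h1.eventually_lt h2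
    show |R.Zj u ζ (M + 1) t₂| < (1 - e) * (σ * Wd R.l R.b M t₂)
    rw [hσβ]
    exact hkey
  obtain ⟨r0, hr0, hball⟩ := Metric.mem_nhds_iff.1 (inter_mem hI (inter_mem hU1 hU2))
  set r : ℝ := r0 / 2 with hr
  have hrpos : 0 < r := by positivity
  have hJ : ∀ t ∈ Icc (t₂ - r) (t₂ + r), t ∈ Ioo p p' ∧ b₁ / 2 < σ * Wd R.l R.b M t ∧
      |R.Zj u ζ (M + 1) t| < (1 - e) * (σ * Wd R.l R.b M t) := by
    intro t ht
    have h1 : t ∈ Metric.ball t₂ r0 := by
      rw [Metric.mem_ball, Real.dist_eq, abs_lt]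
      constructor <;> linarith [ht.1, ht.2]
    exact ⟨(hball h1).1, (hball h1).2.1, (hball h1).2.2⟩
  have hJI : Icc (t₂ - r) (t₂ + r) ⊆ Ioo p p' := fun t ht => (hJ t ht).1
  -- the function V
  have hVan : AnalyticOnNhd ℝ
      (fun t => - ∑ i, iteratedDeriv M (R.b i) t * R.l i t) univ := by
    intro t _
    apply AnalyticAt.neg
    apply Finset.analyticAt_fun_sum
    intro i _
    exact (analytic_iteratedDeriv (hR.b i) M t (mem_univ t)).mul (hR.l i t (mem_univ t))
  set V : ℝ → ℝ := fun t => - ∑ i, iteratedDeriv M (R.b i) t * R.l i t with hV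
  have hVβ : ∀ t, V t = - ((-1) ^ M * Wd R.l R.b M t) := fun t => by
    rw [hV]
    show - ∑ i, iteratedDeriv M (R.b i) t * R.l i t = _
    rw [(leib hR.l hR.b hW).2 t]
  -- bounds
  have hcont : ∀ {f : ℝ → ℝ}, AnalyticOnNhd ℝ f univ → ContinuousOn f (Icc (t₂ - r) (t₂ + r)) :=
    fun hf => (continuous_of_analytic hf).continuousOn
  obtain ⟨B1, hB1, hB1'⟩ := QGap_bd (hcont hβan)
  obtain ⟨B2, hB2, hB2'⟩ := QGap_bd (hcont hβan.deriv)
  obtain ⟨B3, hB3, hB3'⟩ := QGap_bd (hcont hVan)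
  obtain ⟨B4, hB4, hB4'⟩ := QGap_bd (hcont hVan.deriv)
  obtain ⟨B5, hB5, hB5'⟩ := QGap_bd ((Zj_contOn hR hum hub hL (M + 2)).mono hJI)
  obtain ⟨B6, hB6, hB6'⟩ := QGap_bd (hcont (Wd_analytic hR.l hR.b (M + 1)))
  obtain ⟨B7, hB7, hB7'⟩ := QGap_bd ((Zj_contOn hR hum hub hL 1).mono hJI)
  obtain ⟨B8, hB8, hB8'⟩ := QGap_bd (hcont (Wd_analytic hR.l hR.b 0))
  have hcS : ContinuousOn (fun t => ∑ i, iteratedDeriv (M + 1) (R.b i) t * R.l i t)
      (Icc (t₂ - r) (t₂ + r)) := by
    apply Continuous.continuousOn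
    apply continuous_finsetSum
    intro i _
    exact (continuous_of_analytic (analytic_iteratedDeriv (hR.b i) (M + 1))).mul
      (continuous_of_analytic (hR.l i))
  obtain ⟨BS, hBS, hBS'⟩ := QGap_bd hcS
  have hsum : ∀ f : Fin k → ℝ → ℝ, (∀ i, Continuous (f i)) → ∃ B : ℝ, 0 ≤ B ∧
      ∀ t ∈ Icc (t₂ - r) (t₂ + r), ∑ i, |f i t| ≤ B := by
    intro f hf
    have h1 : ContinuousOn (fun t => ∑ i, |f i t|) (Icc (t₂ - r) (t₂ + r)) := by
      apply Continuous.continuousOn
      apply continuous_finsetSum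
      intro i _
      exact (hf i).abs
    obtain ⟨B, hB, hB'⟩ := QGap_bd h1
    exact ⟨B, hB, fun t ht => (le_abs_self _).trans (hB' t ht)⟩
  obtain ⟨BL, hBL, hBL'⟩ := hsum R.l fun i => continuous_of_analytic (hR.l i)
  obtain ⟨D1, hD1, hD1'⟩ := hsum (fun i => iteratedDeriv (M + 1) (R.b i)) fun i =>
    continuous_of_analytic (analytic_iteratedDeriv (hR.b i) (M + 1))
  obtain ⟨D2', hD2, hD2'⟩ := hsum (fun i => iteratedDeriv (M + 2) (R.b i)) fun i =>
    continuous_of_analytic (analytic_iteratedDeriv (hR.b i) (M + 2))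
  have hC := hL.hC
  set Cb : ℝ := 1 + C + B1 + B2 + B3 + B4 + B5 + B6 + C * (B7 + B8) + D1 * (BL * C)
    + D2' * (BL * C) + BS * C with hCb
  have p1 : 0 ≤ C * (B7 + B8) := by positivity
  have p2 : 0 ≤ D1 * (BL * C) := by positivity
  have p3 : 0 ≤ D2' * (BL * C) := by positivity
  have p4 : 0 ≤ BS * C := by positivity
  have hCbpos : 0 < Cb := by linarith
  have hb2 : 0 < b₁ / 2 := by linarith
  have hc0 := hL.hc0
  obtain ⟨δ0, hδ0, hgap⟩ := gapq (N := M + 1) (q := q) (C := Cb) (c0 := b₁ / 2 * c0) (e := e)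
    (β0 := b₁ / 2) (by omega) (by omega) hCbpos (by positivity) he0 hb2
  refine ⟨min r (δ0 / 2), lt_min hrpos (by positivity), ?_⟩
  intro s hsK s' hs'K hsJ hs'J hss
  have hm1 := min_le_left r (δ0 / 2)
  have hm2 := min_le_right r (δ0 / 2)
  have hsr : s ∈ Icc (t₂ - r) (t₂ + r) := ⟨by linarith [hsJ.1], by linarith [hsJ.2]⟩
  have hsr' : s' ∈ Icc (t₂ - r) (t₂ + r) := ⟨by linarith [hs'J.1], by linarith [hs'J.2]⟩
  have hlen : s' - s < δ0 := by linarith [hsJ.1, hs'J.2]
  have hin : ∀ t ∈ Icc s s', t ∈ Icc (t₂ - r) (t₂ + r) := fun t ht =>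
    ⟨hsr.1.trans ht.1, ht.2.trans hsr'.2⟩
  have hinI : ∀ t ∈ Icc s s', t ∈ Ioo p p' := fun t ht => hJI (hin t ht)
  have hsI : s ∈ Ioo p p' := hJI hsr
  have hs'I : s' ∈ Ioo p p' := hJI hsr'
  have hsT : s ∈ Icc 0 T := hKT hsK
  have hs'T : s' ∈ Icc 0 T := hKT hs'K
  have hIoc : ∀ t, t ∈ uIoc s s' → t ∈ Icc s s' := by
    intro t ht
    have := uIoc_subset_uIcc ht
    rwa [uIcc_of_le hss.le] at this
  have hsubI : Icc s s' ⊆ Ioo p p' := hinI
  -- the chains
  set g : ℕ → ℝ → ℝ := fun j => if j ≤ M then R.aj T u ζ t₂ j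
    else fun t => R.aj T u ζ t₂ (M + 1) t + V t * R.kap T u ζ t with hg
  set Z : ℕ → ℝ → ℝ := fun j => if j ≤ M then R.Zj u ζ j
    else fun t => R.Zj u ζ (M + 1) t + Wd R.l R.b M t * u t with hZ
  have hgj : ∀ j, j ≤ M → g j = R.aj T u ζ t₂ j := fun j hj => by
    simp only [hg, if_pos hj]
  have hgN : g (M + 1) = fun t => R.aj T u ζ t₂ (M + 1) t + V t * R.kap T u ζ t := by
    simp only [hg, if_neg (show ¬ M + 1 ≤ M by omega)]
  have hZj : ∀ j, j ≤ M → Z j = R.Zj u ζ j := fun j hj => by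
    simp only [hZ, if_pos hj]
  have hZN : Z (M + 1) = fun t => R.Zj u ζ (M + 1) t + Wd R.l R.b M t * u t := by
    simp only [hZ, if_neg (show ¬ M + 1 ≤ M by omega)]
  have hZ0 : Z 0 = R.Zj u ζ 0 := hZj 0 (Nat.zero_le _)
  -- derivatives of Z
  have hZd : ∀ j < M + 1, ∀ᵐ t, t ∈ uIoc s s' → HasDerivAt (Z j) (Z (j + 1) t) t := by
    intro j hj
    rcases Nat.lt_or_ge j M with h | h
    · rw [hZj j (by omega), hZj (j + 1) (by omega)]
      exact Eventually.of_forall fun t ht =>
        Zj_deriv hR hum hub hL hW h (hinI t (hIoc t ht))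
    · have hjM : j = M := by omega
      subst hjM
      rw [hZj j le_rfl, hZN]
      filter_upwards [Zj_ae hR hum hub hL j] with t ht htm
      exact ht (hinI t (hIoc t htm))
  have hcκ : ContinuousOn (R.kap T u ζ) (Icc s s') :=
    (kap_contOn hR hum hub hT hL).mono hsubI
  have haj : ∀ j, ∀ t ∈ Icc s s', HasDerivAt (R.aj T u ζ t₂ j) (R.aj T u ζ t₂ (j + 1) t
      - (∑ i, iteratedDeriv j (R.b i) t * R.l i t) * R.kap T u ζ t) t := fun j t ht =>
    aj_deriv hR hum hub hT hL ht₂I j (hinI t ht)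
  have hajc : ∀ j, ContinuousOn (R.aj T u ζ t₂ j) (Icc s s') := fun j t ht =>
    (haj j t ht).continuousAt.continuousWithinAt
  have hsc : ∀ j, ContinuousOn (fun t => ∑ i, iteratedDeriv j (R.b i) t * R.l i t)
      (Icc s s') := by
    intro j
    apply Continuous.continuousOn
    apply continuous_finsetSum
    intro i _
    exact (continuous_of_analytic (analytic_iteratedDeriv (hR.b i) j)).mul
      (continuous_of_analytic (hR.l i))
  have hajac : ∀ j, AbsolutelyContinuousOnInterval (R.aj T u ζ t₂ j) s s' := fun j =>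
    QGap_ac hss.le (haj j) ((hajc (j + 1)).sub ((hsc j).mul hcκ))
  have hκeq : ∀ t ∈ Icc s s', R.kap T u ζ t
      = D2 R.H (t, ζ t + R.Zj u ζ 0 t) - D2 R.H (t, ζ t) := fun t ht =>
    kap_eq hT hL (hinI t ht)
  have hZsmall : ∀ t ∈ Icc s s', |R.Zj u ζ 0 t| < ε := by
    intro t ht
    have := hL.small t (hinI t ht)
    simpa [RD.Zj, iteratedDeriv_zero] using this
  have hest := fun t (ht : t ∈ Icc s s') => hL.est t (hinI t ht) (R.Zj u ζ 0 t) (hZsmall t ht)
  have hκb : ∀ t ∈ Icc s s', |R.kap T u ζ t| ≤ C * |R.Zj u ζ 0 t| ^ q := fun t ht => by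
    rw [hκeq t ht]
    exact (hest t ht).1
  have hZ0c : ContinuousOn (R.Zj u ζ 0) (Icc s s') :=
    (Zj_contOn hR hum hub hL 0).mono hsubI
  set I0 : ℝ := ∫ t in s..s', |R.Zj u ζ 0 t| ^ q with hI0
  have hI0nn : 0 ≤ I0 := intervalIntegral.integral_nonneg hss.le fun t _ => by positivity
  have hlb : ∀ i, ∀ t ∈ Icc s s', |R.l i t| ≤ BL := by
    intro i t ht
    exact (Finset.single_le_sum (f := fun i => |R.l i t|) (fun i _ => abs_nonneg _)
      (Finset.mem_univ i)).trans (hBL' t (hin t ht))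
  have hQb : ∀ i, ∀ t ∈ Icc s s', |R.Qf T u ζ t₂ i t - R.Qf T u ζ t₂ i s| ≤ BL * C * I0 :=
    fun i t ht => QGap_Q (fun τ hτ => Qf_deriv hR hum hub hT hL ht₂I i (hinI τ hτ))
      (continuous_of_analytic (hR.l i)).continuousOn hcκ hZ0c (hlb i) hκb hBL hC ht
  have hajb : ∀ j D, (∀ t ∈ Icc (t₂ - r) (t₂ + r), ∑ i, |iteratedDeriv j (R.b i) t| ≤ D) →
      ∀ t ∈ Icc s s', |R.aj T u ζ t₂ j t| ≤ D * (BL * C) * I0 := by
    intro j D hD t ht
    rw [aj_volt hR hum hub hT hL ht₂I hK0 hKacc j hsK hsI (hinI t ht), abs_neg]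
    calc |∑ i, iteratedDeriv j (R.b i) t * (R.Qf T u ζ t₂ i t - R.Qf T u ζ t₂ i s)|
        ≤ ∑ i, |iteratedDeriv j (R.b i) t * (R.Qf T u ζ t₂ i t - R.Qf T u ζ t₂ i s)| :=
          Finset.abs_sum_le_sum_abs _ _
      _ ≤ ∑ i, |iteratedDeriv j (R.b i) t| * (BL * C * I0) := by
          apply Finset.sum_le_sum
          intro i _
          rw [abs_mul]
          exact mul_le_mul_of_nonneg_left (hQb i t ht) (abs_nonneg _)
      _ = (∑ i, |iteratedDeriv j (R.b i) t|) * (BL * C * I0) := by rw [Finset.sum_mul]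
      _ ≤ D * (BL * C * I0) := by
          apply mul_le_mul_of_nonneg_right (hD t (hin t ht)) (by positivity)
      _ = D * (BL * C) * I0 := by ring
  have haj0 : ∀ j, R.aj T u ζ t₂ j s = 0 := by
    intro j
    rw [aj_volt hR hum hub hT hL ht₂I hK0 hKacc j hsK hsI hsI]
    simp
  have haj0' : ∀ j, R.aj T u ζ t₂ j s' = 0 := by
    intro j
    rw [aj_volt hR hum hub hT hL ht₂I hK0 hKacc j hs'K hs'I hs'I]
    simp
  have hZlip : ∀ t ∈ Icc s s', |R.Zj u ζ 0 t| ≤ (B7 + B8) * (s' - s) := by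
    intro t ht
    have h1 := Zj_int hR hum hub hL 0 hsI (hinI t ht)
    rw [Zj_zero hR hum hub hL hW hKacc (Nat.zero_le M) hsK hsI, sub_zero] at h1
    rw [h1, ← Real.norm_eq_abs]
    have h2 : ‖∫ r in s..t, (R.Zj u ζ (0 + 1) r + Wd R.l R.b 0 r * u r)‖
        ≤ (B7 + B8) * |t - s| := by
      apply intervalIntegral.norm_integral_le_of_norm_le_const
      intro τ hτ
      rw [uIoc_of_le ht.1] at hτ
      have hτ' : τ ∈ Icc s s' := ⟨hτ.1.le, hτ.2.trans ht.2⟩
      have h3 := hB7' τ (hin τ hτ')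
      have h4 := hB8' τ (hin τ hτ')
      rw [Real.norm_eq_abs]
      have h5 : |Wd R.l R.b 0 τ * u τ| ≤ B8 := by
        rw [abs_mul]
        calc |Wd R.l R.b 0 τ| * |u τ| ≤ B8 * 1 :=
              mul_le_mul h4 (hub τ) (abs_nonneg _) hB8
          _ = B8 := mul_one _
      exact (abs_add_le _ _).trans (add_le_add h3 h5)
    refine h2.trans ?_
    rw [abs_of_nonneg (by linarith [ht.1])]
    apply mul_le_mul_of_nonneg_left (by linarith [ht.2]) (by positivity)
  -- the constant θ'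
  have hθ := hL.hθ
  have hθσ : |-(-1 : ℝ) ^ M * σ * θ| = 1 := by
    rw [abs_mul, abs_mul, abs_neg, abs_pow, abs_neg, abs_one, one_pow, hσ, hθ]
    norm_num
  have hsgn : ((-1 : ℝ) ^ M) * ((-1 : ℝ) ^ M) = 1 := by
    rw [← mul_pow]
    norm_num
  have hbig : ∀ {x : ℝ} {c : ℝ}, 0 ≤ x → c ≤ Cb → c * x ≤ Cb * x := fun hx hc =>
    mul_le_mul_of_nonneg_right hc hx
  have hres := hgap σ (-(-1 : ℝ) ^ M * σ * θ) s s' g Z u (R.Zj u ζ (M + 1))
    (fun t => R.Zj u ζ (M + 2) t + Wd R.l R.b (M + 1) t * u t)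
    (Wd R.l R.b M) (deriv (Wd R.l R.b M)) V (deriv V) (R.aj T u ζ t₂ (M + 1))
    (fun t => R.aj T u ζ t₂ (M + 2) t
      - (∑ i, iteratedDeriv (M + 1) (R.b i) t * R.l i t) * R.kap T u ζ t)
    (R.kap T u ζ)
    (fun t => R.H (t, ζ t + R.Zj u ζ 0 t) - R.H (t, ζ t) - D2 R.H (t, ζ t) * R.Zj u ζ 0 t)
    (fun t => Kt t (R.Zj u ζ 0 t)) ?_ hlen
  · intro t ht
    have := hres t ht
    rwa [hZ0] at this
  · exact
      { hs := hss
        hσ := hσ
        hθ := hθσ
        hum := hum
        hub := hub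
        gN := fun t _ => by rw [hgN]
        ZN := fun t _ => by rw [hZN]
        gac := fun j hj => by rw [hgj j (by omega)]; exact hajac j
        gd := by
          intro j hj
          apply Eventually.of_forall
          intro t ht
          have h1 := haj j t (hIoc t ht)
          rcases Nat.lt_or_ge j M with h | h
          · rw [hgj j (by omega), hgj (j + 1) (by omega)]
            rw [(leib hR.l hR.b hW).1 j h t, zero_mul, sub_zero] at h1
            exact h1
          · have hjM : j = M := by omega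
            subst hjM
            rw [hgj j le_rfl, hgN]
            have e1 : R.aj T u ζ t₂ (j + 1) t
                - (∑ i, iteratedDeriv j (R.b i) t * R.l i t) * R.kap T u ζ t
                = R.aj T u ζ t₂ (j + 1) t + V t * R.kap T u ζ t := by
              rw [hV]
              ring
            rw [e1] at h1
            exact h1
        gl := fun j hj => by rw [hgj j (by omega)]; exact haj0 j
        gr := fun j hj => by rw [hgj j (by omega)]; exact haj0' j
        Zac := fun j hj => by rw [hZj j (by omega)]; exact Zj_ac hR hum hub hL j hsI hs'I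
        Zd := hZd
        Zl := fun j hj => by
          rw [hZj j (by omega)]
          exact Zj_zero hR hum hub hL hW hKacc (by omega) hsK hsI
        Zr := fun j hj => by
          rw [hZj j (by omega)]
          exact Zj_zero hR hum hub hL hW hKacc (by omega) hs'K hs'I
        hu := by
          rw [hgj 0 (Nat.zero_le _)]
          filter_upwards [hu] with t ht htm
          have h1 := hIoc t htm
          rw [aj_zero]
          exact ht ⟨hsT.1.trans h1.1, h1.2.trans hs'T.2⟩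
        Aac := Zj_ac hR hum hub hL (M + 1) hsI hs'I
        Ad := by
          filter_upwards [Zj_ae hR hum hub hL (M + 1)] with t ht htm
          exact ht (hinI t (hIoc t htm))
        Ab := by
          apply Eventually.of_forall
          intro t ht
          have h1 := hB5' t (hin t (hIoc t ht))
          have h2 := hB6' t (hin t (hIoc t ht))
          have h3 : |Wd R.l R.b (M + 1) t * u t| ≤ B6 := by
            rw [abs_mul]
            calc |Wd R.l R.b (M + 1) t| * |u t| ≤ B6 * 1 :=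
                  mul_le_mul h2 (hub t) (abs_nonneg _) hB6
              _ = B6 := mul_one _
          calc |R.Zj u ζ (M + 2) t + Wd R.l R.b (M + 1) t * u t|
              ≤ |R.Zj u ζ (M + 2) t| + |Wd R.l R.b (M + 1) t * u t| := abs_add_le _ _
            _ ≤ Cb := by linarith
        βac := ac_of_analytic hβan s s'
        βd := Eventually.of_forall fun t _ =>
          ((hβan t (mem_univ t)).differentiableAt).hasDerivAt
        βb := Eventually.of_forall fun t ht => by
          have := hB2' t (hin t (hIoc t ht))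
          linarith
        βlow := fun t ht => (hJ t (hin t ht)).2.1.le
        βup := fun t ht => by
          have := hB1' t (hin t ht)
          linarith
        Ale := fun t ht => (hJ t (hin t ht)).2.2.le
        Vac := ac_of_analytic hVan s s'
        Vd := Eventually.of_forall fun t _ =>
          ((hVan t (mem_univ t)).differentiableAt).hasDerivAt
        Vb := Eventually.of_forall fun t ht => by
          have := hB4' t (hin t (hIoc t ht))
          linarith
        Vup := fun t ht => by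
          have := hB3' t (hin t ht)
          linarith
        ρac := hajac (M + 1)
        ρd := Eventually.of_forall fun t ht => haj (M + 1) t (hIoc t ht)
        ρb := by
          intro t ht
          rw [hZ0]
          exact (hajb (M + 1) D1 hD1' t ht).trans (hbig hI0nn (by linarith))
        ρb' := by
          apply Eventually.of_forall
          intro t ht
          rw [hZ0]
          have ht' := hIoc t ht
          have h1 := hajb (M + 2) D2' hD2' t ht'
          have h2 := hBS' t (hin t ht')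
          have h3 := hκb t ht'
          have h4 : |(∑ i, iteratedDeriv (M + 1) (R.b i) t * R.l i t) * R.kap T u ζ t|
              ≤ BS * C * |R.Zj u ζ 0 t| ^ q := by
            rw [abs_mul, mul_assoc]
            exact mul_le_mul h2 h3 (abs_nonneg _) hBS
          have h5 : 0 ≤ |R.Zj u ζ 0 t| ^ q := by positivity
          have h6 := hbig (c := D2' * (BL * C)) hI0nn (by linarith)
          have h7 := hbig (c := BS * C) h5 (by linarith)
          calc |R.aj T u ζ t₂ (M + 2) t
              - (∑ i, iteratedDeriv (M + 1) (R.b i) t * R.l i t) * R.kap T u ζ t|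
              ≤ |R.aj T u ζ t₂ (M + 2) t|
                + |(∑ i, iteratedDeriv (M + 1) (R.b i) t * R.l i t) * R.kap T u ζ t| :=
                abs_sub _ _
            _ ≤ Cb * (|R.Zj u ζ 0 t| ^ q + I0) := by
                rw [mul_add]
                linarith
        κc := hcκ
        κb := fun t ht => by
          rw [hZ0]
          exact (hκb t ht).trans (hbig (by positivity) (by linarith))
        Hac := by
          have h1 := G_ac hR hum hub hT (QGap_Han hR) hsT hs'T
          have h2 : (fun t => R.H ((R.γ T u t).1, R.zh (R.γ T u t)))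
              = fun t => R.H (t, ζ t + R.Zj u ζ 0 t) := by
            ext t
            rw [zh_γ]
            have h3 : (R.γ T u t).1 = t := rfl
            have h4 : ζ t + R.Zj u ζ 0 t = R.z u 0 t := by
              simp [RD.Zj, iteratedDeriv_zero]
            rw [h3, h4]
          have h5 : AbsolutelyContinuousOnInterval (fun t => R.H (t, ζ t + R.Zj u ζ 0 t)) s s' := by
            rw [← h2]
            exact h1
          have h6 : AnalyticOnNhd ℝ (fun t => R.H (t, ζ t)) (Ioo p p') := by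
            intro t ht
            exact AnalyticAt.comp (g := R.H) (f := fun t : ℝ => (t, ζ t))
              (hR.H (t, ζ t) (mem_univ _)) (analyticAt_id.prod (hL.ζan t ht))
          have h7 : AnalyticOnNhd ℝ (fun t => D2 R.H (t, ζ t)) (Ioo p p') := by
            intro t ht
            exact AnalyticAt.comp (g := D2 R.H) (f := fun t : ℝ => (t, ζ t))
              (D2_an hR.H (t, ζ t) (mem_univ _)) (analyticAt_id.prod (hL.ζan t ht))
          exact (h5.sub (QGap_acan h6 hsI hs'I hss)).sub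
            ((QGap_acan h7 hsI hs'I hss).mul (Zj_ac hR hum hub hL 0 hsI hs'I))
        Hd := by
          filter_upwards [hZd 0 (by omega)] with t ht htm
          have ht' := hIoc t htm
          have h1 := ht htm
          rw [hZ0] at h1
          have h2 := hL.der t (hinI t ht') (R.Zj u ζ 0) (Z (0 + 1) t) (hZsmall t ht') h1
          rw [← hκeq t ht'] at h2
          exact h2
        H1 := by
          intro t ht
          rw [hZ0]
          have h1 := (hest t ht).2.2.2.1
          rw [← hκeq t ht] at h1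
          have h2 := hZlip t ht
          have h3 : 0 ≤ |R.Zj u ζ 0 t| ^ (q + 1) := by positivity
          have h4 : |R.Zj u ζ 0 t| ^ (q + 2)
              ≤ (B7 + B8) * (s' - s) * |R.Zj u ζ 0 t| ^ (q + 1) := by
            rw [show q + 2 = (q + 1) + 1 by ring, pow_succ, mul_comm (|R.Zj u ζ 0 t| ^ (q + 1))]
            exact mul_le_mul_of_nonneg_right h2 h3
          have h5 : 0 ≤ s' - s := by linarith
          calc _ ≤ C * |R.Zj u ζ 0 t| ^ (q + 2) := h1
            _ ≤ C * ((B7 + B8) * (s' - s) * |R.Zj u ζ 0 t| ^ (q + 1)) :=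
                mul_le_mul_of_nonneg_left h4 hC
            _ = C * (B7 + B8) * ((s' - s) * |R.Zj u ζ 0 t| ^ (q + 1)) := by ring
            _ ≤ Cb * ((s' - s) * |R.Zj u ζ 0 t| ^ (q + 1)) :=
                hbig (mul_nonneg h5 h3) (by linarith)
            _ = Cb * (s' - s) * |R.Zj u ζ 0 t| ^ (q + 1) := by ring
        H2 := fun t ht => by
          rw [hZ0]
          exact ((hest t ht).2.1).trans (hbig (by positivity) (by linarith))
        H3 := Eventually.of_forall fun t ht => by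
          rw [hZ0]
          exact ((hest t (hIoc t ht)).2.2.1).trans (hbig (by positivity) (by linarith))
        low1 := by
          intro hodd t ht
          rw [hZ0]
          have h1 := (hest t ht).2.2.2.2.1 hodd
          rw [← hκeq t ht] at h1
          have h2 := (hJ t (hin t ht)).2.1
          have h3 : 0 ≤ |R.Zj u ζ 0 t| ^ (q + 1) := by positivity
          have e1 : -(-1 : ℝ) ^ M * σ * θ * (V t * R.kap T u ζ t * R.Zj u ζ 0 t)
              = (σ * Wd R.l R.b M t) * (θ * (R.kap T u ζ t * R.Zj u ζ 0 t)) := by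
            rw [hVβ t]
            linear_combination (σ * Wd R.l R.b M t * (θ * (R.kap T u ζ t * R.Zj u ζ 0 t))) * hsgn
          rw [e1]
          calc b₁ / 2 * c0 * |R.Zj u ζ 0 t| ^ (q + 1)
              = (b₁ / 2) * (c0 * |R.Zj u ζ 0 t| ^ (q + 1)) := by ring
            _ ≤ _ := mul_le_mul h2.le h1 (by positivity) (by linarith)
        low2 := by
          intro heven t ht
          rw [hZ0]
          have h1 := (hest t ht).2.2.2.2.2 heven
          rw [← hκeq t ht] at h1
          have h2 := (hJ t (hin t ht)).2.1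
          have h3 : 0 ≤ |R.Zj u ζ 0 t| ^ q := by positivity
          have e1 : -(-1 : ℝ) ^ M * σ * θ * (V t * R.kap T u ζ t)
              = (σ * Wd R.l R.b M t) * (θ * R.kap T u ζ t) := by
            rw [hVβ t]
            linear_combination (σ * Wd R.l R.b M t * (θ * R.kap T u ζ t)) * hsgn
          rw [e1]
          calc b₁ / 2 * c0 * |R.Zj u ζ 0 t| ^ q
              = (b₁ / 2) * (c0 * |R.Zj u ζ 0 t| ^ q) := by ring
            _ ≤ _ := mul_le_mul h2.le h1 (by positivity) (by linarith) }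

end Pool.Agent.Lib.MP_28b8de_an
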