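import Pool.Agent.Lib.MP_28b8de_an.E.EDefs

/-!
MP_28b8de_an, module SmoothFb (MSE-SmoothFb): a control given a.e. by a smooth feedback is smooth.

PROOF.  On I = Ioo s s', γ t - γ r = ∫_r^t (X(γ) + u Y(γ)) = ∫_r^t (X(γ) + U(γ) Y(γ)) (integral_congr_ae), with a
continuous integrand, so γ has derivative X(γ t) + U(γ t) Y(γ t) at each t ∈ I.  Induction on m: if γ is C^m on
I then U ∘ γ, X ∘ γ, Y ∘ γ are C^m on I, so γ' is C^m and γ is C^(m+1)
(`contDiffOn_succ_iff_deriv_of_isOpen`, as in RelaySmooth.lean, smooth_of_zero); so U ∘ γ is C^∞ on I.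
-/

namespace Pool.Agent.Lib.MP_28b8de_an

open Filter Topology Set MeasureTheory

theorem smooth_feedback {E : Type*} [NormedAddCommGroup E] [NormedSpace ℝ E] [CompleteSpace E]
    {X Y : E → E} (hX : ContDiff ℝ (⊤ : ℕ∞) X) (hY : ContDiff ℝ (⊤ : ℕ∞) Y) {γ : ℝ → E}
    {u : ℝ → ℝ} {s s' : ℝ} (hγc : ContinuousOn γ (Ioo s s'))
    (hγ : ∀ r ∈ Ioo s s', ∀ t ∈ Ioo s s', γ t - γ r = ∫ x in r..t, (X (γ x) + u x • Y (γ x)))
    {U : E → ℝ} {Ω : Set E} (hΩ : IsOpen Ω) (hU : ContDiffOn ℝ (⊤ : ℕ∞) U Ω)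
    (hγΩ : ∀ t ∈ Ioo s s', γ t ∈ Ω) (hu : ∀ᵐ t : ℝ, t ∈ Ioo s s' → u t = U (γ t)) :
    ContDiffOn ℝ (⊤ : ℕ∞) (fun t => U (γ t)) (Ioo s s') := by
  -- regularity of compositions
  have hmaps : MapsTo γ (Ioo s s') Ω := hγΩ
  have hUm : ∀ m : ℕ, ContDiffOn ℝ m γ (Ioo s s') →
      ContDiffOn ℝ m (fun t => U (γ t)) (Ioo s s') := by
    intro m hm
    have h1 : ContDiffOn ℝ (m : WithTop ℕ∞) U Ω := hU.of_le (by exact_mod_cast le_top)
    exact h1.comp hm hmaps
  have hFm : ∀ m : ℕ, ContDiffOn ℝ m γ (Ioo s s') →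
      ContDiffOn ℝ m (fun t => X (γ t) + U (γ t) • Y (γ t)) (Ioo s s') := by
    intro m hm
    have h1 : ContDiff ℝ (m : WithTop ℕ∞) X := hX.of_le (by exact_mod_cast le_top)
    have h2 : ContDiff ℝ (m : WithTop ℕ∞) Y := hY.of_le (by exact_mod_cast le_top)
    exact (h1.comp_contDiffOn hm).add ((hUm m hm).smul (h2.comp_contDiffOn hm))
  have h0 : ContDiffOn ℝ ((0 : ℕ) : WithTop ℕ∞) γ (Ioo s s') := by
    rw [Nat.cast_zero, contDiffOn_zero]
    exact hγc
  have hFc : ContinuousOn (fun t => X (γ t) + U (γ t) • Y (γ t)) (Ioo s s') := by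
    have := hFm 0 h0
    rw [Nat.cast_zero, contDiffOn_zero] at this
    exact this
  -- derivative of `γ`
  have hd : ∀ t ∈ Ioo s s', HasDerivAt γ (X (γ t) + U (γ t) • Y (γ t)) t := by
    intro t ht
    have h1 : ∀ r ∈ Ioo s s', γ r = γ t + ∫ x in t..r, (X (γ x) + U (γ x) • Y (γ x)) := by
      intro r hr
      have h2 := hγ t ht r hr
      have h3 : ∫ x in t..r, (X (γ x) + u x • Y (γ x))
          = ∫ x in t..r, (X (γ x) + U (γ x) • Y (γ x)) := by
        apply intervalIntegral.integral_congr_ae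
        filter_upwards [hu] with x hx hxm
        have hx' : x ∈ Ioo s s' := by
          have := uIoc_subset_uIcc hxm
          rw [mem_uIcc] at this
          rcases this with h | h
          · exact ⟨lt_of_lt_of_le ht.1 h.1, lt_of_le_of_lt h.2 hr.2⟩
          · exact ⟨lt_of_lt_of_le hr.1 h.1, lt_of_le_of_lt h.2 ht.2⟩
        rw [hx hx']
      rw [h3] at h2
      rw [← h2]
      abel
    have h4 : HasDerivAt (fun r => ∫ x in t..r, (X (γ x) + U (γ x) • Y (γ x)))
        (X (γ t) + U (γ t) • Y (γ t)) t := by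
      apply intervalIntegral.integral_hasDerivAt_right
      · exact IntervalIntegrable.refl
      · exact hFc.stronglyMeasurableAtFilter isOpen_Ioo t ht
      · exact hFc.continuousAt (Ioo_mem_nhds ht.1 ht.2)
    have h5 := h4.const_add (γ t)
    apply h5.congr_of_eventuallyEq
    filter_upwards [Ioo_mem_nhds ht.1 ht.2] with r hr
    exact h1 r hr
  have hm : ∀ m : ℕ, ContDiffOn ℝ m γ (Ioo s s') := by
    intro m
    induction m with
    | zero => exact h0
    | succ m ih =>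
      rw [Nat.cast_add, Nat.cast_one, contDiffOn_succ_iff_deriv_of_isOpen isOpen_Ioo]
      refine ⟨fun t ht => (hd t ht).differentiableAt.differentiableWithinAt, ?_, ?_⟩
      · intro h
        exact absurd h (by exact_mod_cast WithTop.coe_ne_top)
      · apply (hFm m ih).congr
        intro t ht
        exact (hd t ht).deriv
  rw [contDiffOn_infty]
  intro m
  exact hUm m (hm m)

end Pool.Agent.Lib.MP_28b8de_an
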