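import Pool.Agent.Lib.MP_28b8de_an.E.Sigma
import Pool.Agent.Lib.MP_28b8de_an.E.LeAcc
import Pool.Agent.Lib.MP_28b8de_an.E.CaseTwo
import Pool.Agent.Lib.MP_28b8de_an.E.SmoothFb

/-!
MP_28b8de_an, module QOne (MSE-QOne): switching functions with nondegenerate curvature.
f_j t = F_j(γ t), B = LY 0 (F (2M+1)), b t = B(γ t).

qone_zero: f_0 = φ = 0 on K (F0_γ).  For j < 2M+1: LY 0 F_j = 0 (LY_F_zero), so by G_int and continuity f_j has
derivative f_{j+1}(t) at every t ∈ Ioo 0 T (R.F (j+1) = R.LX (R.F j): Function.iterate_succ_apply'), and zero_acc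
(p = 0, q = T) gives f_{j+1} = 0 on K ∩ Ioo 0 T.
qone_le: le_acc with F = f_{2M+1}, A = f_{2M+2}, β = b (G_int).
qone_case1: as relay_case1 in RelayMain.lean, with `gap` (Gap.lean) for N = 2M+2, g j = f_j, β = b,
β' = LX B(γ) + u LY 0 B (γ), h' = LX F_{2M+2}(γ) + u LY 0 F_{2M+2}(γ): all a.e. derivatives from G_ae, absolute
continuity from G_ac, the two derivatives are bounded on [0,T] (continuous functions of γ, |u| ≤ 1).  Three
points s < r < s' of K close to t₂ (`exists_three`), f_0 = 0 on [s,s']; so f_j = 0 on (s,s') for j ≤ 2M+1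
(derivatives of zero), so f_{2M+2} + b u = 0 a.e. on (s,s'); `smooth_feedback` with E = EE k, X = R.X, Y = R.Y 0,
U = - F_{2M+2}/B on Ω = {B ≠ 0} (γ_int; analytic functions are C^∞: AnalyticOnNhd.contDiffOn), and
smoothNear_of_Ioo (RelayMain.lean) at r.
-/

namespace Pool.Agent.Lib.MP_28b8de_an

open Filter Topology Set MeasureTheory

variable {k : ℕ} {R : RD k} (hR : R.An) {u : ℝ → ℝ} (hum : Measurable u)
  (hub : ∀ t, |u t| ≤ 1) {T : ℝ} (hT : 0 ≤ T) {M : ℕ}
  (hW : ∀ j < M, ∀ t, Wd R.l R.b j t = 0) {K : Set ℝ} (hKT : K ⊆ Icc 0 T)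
  (hK0 : ∀ t ∈ K, R.phi T u 0 t = 0) (hKacc : ∀ t ∈ K, AccPt t (𝓟 K))

private theorem QOne_cont {E : Type*} [NormedAddCommGroup E] [NormedSpace ℝ E] {G : E → ℝ}
    (hG : AnalyticOnNhd ℝ G univ) : Continuous G := by
  rw [continuous_iff_continuousAt]
  exact fun e => (hG e (mem_univ e)).continuousAt

private theorem QOne_succ (R : RD k) (j : ℕ) : R.F (j + 1) = R.LX (R.F j) := by
  unfold RD.F
  rw [Function.iterate_succ_apply']

include hR hum hub hT in
private theorem QOne_deriv {G : EE k → ℝ} (hG : AnalyticOnNhd ℝ G univ)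
    (h0 : ∀ e, R.LY 0 G e = 0) {t : ℝ} (ht : t ∈ Ioo 0 T) :
    HasDerivAt (fun t => G (R.γ T u t)) (R.LX G (R.γ T u t)) t := by
  have hc : Continuous fun x => R.LX G (R.γ T u x) :=
    (QOne_cont (LX_an hR hG)).comp (γ_cont hR hum hub hT)
  have h1 : HasDerivAt (fun r => G (R.γ T u t) + ∫ x in t..r, R.LX G (R.γ T u x))
      (R.LX G (R.γ T u t)) t :=
    ((hc.integral_hasStrictDerivAt t t).hasDerivAt).const_add _
  apply h1.congr_of_eventuallyEq
  filter_upwards [Ioo_mem_nhds ht.1 ht.2] with r hr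
  have h2 := G_int hR hum hub hT hG (Ioo_subset_Icc_self ht) (Ioo_subset_Icc_self hr)
  have h3 : ∫ x in t..r, (R.LX G (R.γ T u x) + u x * R.LY 0 G (R.γ T u x))
      = ∫ x in t..r, R.LX G (R.γ T u x) := by
    congr 1
    ext x
    rw [h0, mul_zero, add_zero]
  rw [h3] at h2
  linarith

include hR hum hub hT hW in
private theorem QOne_fderiv {j : ℕ} (hj : j < 2 * M + 1) {t : ℝ} (ht : t ∈ Ioo 0 T) :
    HasDerivAt (fun t => R.F j (R.γ T u t)) (R.F (j + 1) (R.γ T u t)) t := by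
  rw [QOne_succ]
  exact QOne_deriv hR hum hub hT (F_an hR j) (LY_F_zero hR hW j hj) ht

include hR hum hub hT hW hKT hK0 hKacc

theorem qone_zero : ∀ j ≤ 2 * M + 1, ∀ t ∈ K, t ∈ Ioo 0 T → R.F j (R.γ T u t) = 0 := by
  intro j
  induction j with
  | zero =>
    intro _ t ht _
    rw [F0_γ]
    exact hK0 t ht
  | succ j ih =>
    intro hj t ht htT
    exact zero_acc (ih (by omega)) ht htT (hKacc t ht)
      (QOne_fderiv hR hum hub hT hW (by omega) htT)

theorem qone_le {t : ℝ} (ht : t ∈ K) (htT : t ∈ Ioo 0 T) :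
    |R.F (2 * M + 2) (R.γ T u t)| ≤ |R.LY 0 (R.F (2 * M + 1)) (R.γ T u t)| := by
  have hγ := γ_cont hR hum hub hT
  have hF := F_an hR (2 * M + 1)
  apply le_acc (F := fun t => R.F (2 * M + 1) (R.γ T u t))
    (A := fun t => R.F (2 * M + 2) (R.γ T u t))
    (β := fun t => R.LY 0 (R.F (2 * M + 1)) (R.γ T u t)) (p := 0) (q := T) hum hub
    ((QOne_cont (F_an hR (2 * M + 2))).comp hγ).continuousOn
    ((QOne_cont (LY_an hR 0 hF)).comp hγ).continuousOn _
    (qone_zero hR hum hub hT hW hKT hK0 hKacc (2 * M + 1) le_rfl) ht htT (hKacc t ht)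
  intro s hs r hr
  have h1 := G_int hR hum hub hT hF (Ioo_subset_Icc_self hs) (Ioo_subset_Icc_self hr)
  rw [h1, ← QOne_succ]
  congr 1
  ext x
  ring

theorem qone_case1
    (hu : ∀ᵐ t, t ∈ Icc 0 T → u t * R.phi T u 0 t = |R.phi T u 0 t|)
    {t₂ : ℝ} (ht₂ : t₂ ∈ K) (ht₂T : t₂ ∈ Ioo 0 T)
    (hlt : |R.F (2 * M + 2) (R.γ T u t₂)| < |R.LY 0 (R.F (2 * M + 1)) (R.γ T u t₂)|) :
    ∃ r ∈ K, SmoothNear T u r := by
  have hzero := qone_zero hR hum hub hT hW hKT hK0 hKacc
  have hγ := γ_cont hR hum hub hT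
  have hFan : AnalyticOnNhd ℝ (R.F (2 * M + 1)) univ := F_an hR _
  have hAan : AnalyticOnNhd ℝ (R.F (2 * M + 2)) univ := F_an hR _
  have hBan : AnalyticOnNhd ℝ (R.LY 0 (R.F (2 * M + 1))) univ := LY_an hR 0 hFan
  set Bf : EE k → ℝ := R.LY 0 (R.F (2 * M + 1)) with hBf
  set Af : EE k → ℝ := R.F (2 * M + 2) with hAf
  have hne : Bf (R.γ T u t₂) ≠ 0 := by
    intro h
    rw [h, abs_zero] at hlt
    exact absurd hlt (not_lt.2 (abs_nonneg _))
  obtain ⟨σ, hσ, hσβ, hβpos⟩ := exists_sign hne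
  have hcβ : Continuous fun t => Bf (R.γ T u t) := (QOne_cont hBan).comp hγ
  have hcN : Continuous fun t => Af (R.γ T u t) := (QOne_cont hAan).comp hγ
  -- the constants
  set b₁ : ℝ := |Bf (R.γ T u t₂)| with hb₁
  set P : ℝ := |Af (R.γ T u t₂)| with hP
  have hP0 : 0 ≤ P := abs_nonneg _
  set e : ℝ := (b₁ - P) / (2 * b₁) with he
  have he0 : 0 < e := by
    rw [he]
    apply div_pos (by linarith) (by linarith)
  have hkey : P < (1 - e) * b₁ := by
    have h1 : e * b₁ = (b₁ - P) / 2 := by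
      rw [he]
      field_simp
    nlinarith
  -- the neighbourhood
  have hU1 : {r | b₁ / 2 < σ * Bf (R.γ T u r)} ∈ 𝓝 t₂ := by
    apply (isOpen_lt continuous_const (continuous_const.mul hcβ)).mem_nhds
    show b₁ / 2 < σ * Bf (R.γ T u t₂)
    rw [hσβ]
    linarith
  have hU2 : {r | |Af (R.γ T u r)| < (1 - e) * (σ * Bf (R.γ T u r))} ∈ 𝓝 t₂ := by
    apply (isOpen_lt hcN.abs (continuous_const.mul (continuous_const.mul hcβ))).mem_nhds
    show |Af (R.γ T u t₂)| < (1 - e) * (σ * Bf (R.γ T u t₂))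
    rw [hσβ]
    exact hkey
  have hU3 : Ioo 0 T ∈ 𝓝 t₂ := Ioo_mem_nhds ht₂T.1 ht₂T.2
  obtain ⟨ε, hε, hball⟩ := Metric.mem_nhds_iff.1 (inter_mem (inter_mem hU1 hU2) hU3)
  -- bounds on the derivatives
  have hd4 : ∀ {G : EE k → ℝ}, AnalyticOnNhd ℝ G univ → ∃ B : ℝ, 0 ≤ B ∧ ∀ t ∈ Icc (0 : ℝ) T,
      |R.LX G (R.γ T u t) + u t * R.LY 0 G (R.γ T u t)| ≤ B := by
    intro G hG
    obtain ⟨B1, hB1, hB1'⟩ := exists_bd ((QOne_cont (LX_an hR hG)).comp hγ) 0 T
    obtain ⟨B2, hB2, hB2'⟩ := exists_bd ((QOne_cont (LY_an hR 0 hG)).comp hγ) 0 T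
    refine ⟨B1 + B2, by linarith, fun t ht => ?_⟩
    have h1 := hB1' t ht
    have h2 := hB2' t ht
    simp only [Function.comp_apply] at h1 h2
    have h3 : |u t * R.LY 0 G (R.γ T u t)| ≤ B2 := by
      rw [abs_mul]
      calc |u t| * |R.LY 0 G (R.γ T u t)| ≤ 1 * B2 :=
            mul_le_mul (hub t) h2 (abs_nonneg _) zero_le_one
        _ = B2 := one_mul _
    exact (abs_add_le _ _).trans (add_le_add h1 h3)
  obtain ⟨B1, hB1, hB1'⟩ := hd4 hBan
  obtain ⟨B2, hB2, hB2'⟩ := hd4 hAan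
  set C : ℝ := B1 + B2 + 1 with hC
  have hCpos : 0 < C := by linarith
  have hη : 0 < e * (b₁ / 2) / (2 * C) := by positivity
  obtain ⟨s, hsK, r, hrK, s', hs'K, hsr, hrs', hlen, hsU, hrU, hs'U⟩ :=
    exists_three ht₂ (hKacc t₂ ht₂) (Metric.ball_mem_nhds t₂ hε) hη
  have hss : s < s' := hsr.trans hrs'
  have hin : ∀ t ∈ Icc s s', t ∈ Metric.ball t₂ ε := by
    intro t ht
    rw [Metric.mem_ball, Real.dist_eq, abs_lt] at hsU hs'U ⊢
    constructor <;> linarith [ht.1, ht.2, hsU.1, hs'U.2]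
  have hinT : ∀ t ∈ Icc s s', t ∈ Ioo 0 T := fun t ht => (hball (hin t ht)).2
  have hsT : s ∈ Ioo 0 T := hinT s (left_mem_Icc.2 hss.le)
  have hs'T : s' ∈ Ioo 0 T := hinT s' (right_mem_Icc.2 hss.le)
  have hsI : s ∈ Icc 0 T := Ioo_subset_Icc_self hsT
  have hs'I : s' ∈ Icc 0 T := Ioo_subset_Icc_self hs'T
  have hIoc : ∀ t, t ∈ uIoc s s' → t ∈ Icc s s' := by
    intro t ht
    have := uIoc_subset_uIcc ht
    rwa [uIcc_of_le hss.le] at this
  have hIocT : ∀ t, t ∈ uIoc s s' → t ∈ Icc 0 T := fun t ht =>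
    Ioo_subset_Icc_self (hinT t (hIoc t ht))
  have hgap : ∀ t ∈ Icc s s', R.F 0 (R.γ T u t) = 0 := by
    apply gap (N := 2 * M + 2) (by omega) (g := fun j t => R.F j (R.γ T u t))
      (β := fun t => Bf (R.γ T u t))
      (β' := fun t => R.LX Bf (R.γ T u t) + u t * R.LY 0 Bf (R.γ T u t))
      (h' := fun t => R.LX Af (R.γ T u t) + u t * R.LY 0 Af (R.γ T u t))
      (u := u) (σ := σ) (β0 := b₁ / 2) (e := e) (C := C) hss (by linarith) he0
    · exact fun j _ => G_ac hR hum hub hT (F_an hR j) hsI hs'I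
    · intro j hj
      apply Eventually.of_forall
      exact fun t ht => QOne_fderiv hR hum hub hT hW (by omega) (hinT t (hIoc t ht))
    · intro j hj
      have : j = 2 * M + 1 := by omega
      subst this
      filter_upwards [G_ae hR hum hub hT hFan] with t ht htI
      have h1 := ht (hIocT t htI)
      have h2 : R.LX (R.F (2 * M + 1)) (R.γ T u t) + u t * R.LY 0 (R.F (2 * M + 1)) (R.γ T u t)
          = R.F (2 * M + 2) (R.γ T u t) + Bf (R.γ T u t) * u t := by
        rw [← QOne_succ, hBf]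
        ring
      rw [h2] at h1
      exact h1
    · exact fun j hj => hzero j (by omega) s hsK hsT
    · exact fun j hj => hzero j (by omega) s' hs'K hs'T
    · exact G_ac hR hum hub hT hAan hsI hs'I
    · filter_upwards [G_ae hR hum hub hT hAan] with t ht htI
      exact ht (hIocT t htI)
    · exact G_ac hR hum hub hT hBan hsI hs'I
    · filter_upwards [G_ae hR hum hub hT hBan] with t ht htI
      exact ht (hIocT t htI)
    · filter_upwards [hu] with t ht htm
      have h1 := ht (hIocT t htm)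
      rw [← F0_γ] at h1
      exact h1
    · intro t ht
      exact (hball (hin t ht)).1.1.le
    · exact hσ
    · intro t ht
      exact (hball (hin t ht)).1.2.le
    · apply Eventually.of_forall
      intro t ht
      have := hB1' t (hIocT t ht)
      linarith
    · apply Eventually.of_forall
      intro t ht
      have := hB2' t (hIocT t ht)
      linarith
    · have h1 := (lt_div_iff₀ (by linarith : (0 : ℝ) < 2 * C)).1 hlen
      linarith
  -- all the functions vanish between s and s'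
  have hall : ∀ j ≤ 2 * M + 1, ∀ t ∈ Ioo s s', R.F j (R.γ T u t) = 0 := by
    intro j
    induction j with
    | zero => exact fun _ t ht => hgap t (Ioo_subset_Icc_self ht)
    | succ j ih =>
      intro hj t ht
      have h1 := QOne_fderiv hR hum hub hT hW (j := j) (by omega)
        (hinT t (Ioo_subset_Icc_self ht))
      have h2 : HasDerivAt (fun t => R.F j (R.γ T u t)) 0 t := by
        apply (hasDerivAt_const t (0 : ℝ)).congr_of_eventuallyEq
        filter_upwards [Ioo_mem_nhds ht.1 ht.2] with x hx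
        exact ih (by omega) x hx
      exact h1.unique h2
  have hBne : ∀ t ∈ Ioo s s', Bf (R.γ T u t) ≠ 0 := by
    intro t ht h0
    have h1 : b₁ / 2 < σ * Bf (R.γ T u t) := (hball (hin t (Ioo_subset_Icc_self ht))).1.1
    rw [h0, mul_zero] at h1
    linarith
  have hfb : ∀ᵐ t : ℝ, t ∈ Ioo s s' → u t = (fun e => - Af e / Bf e) (R.γ T u t) := by
    filter_upwards [G_ae hR hum hub hT hFan] with t ht htI
    have h1 := ht (Ioo_subset_Icc_self (hinT t (Ioo_subset_Icc_self htI)))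
    have h2 : HasDerivAt (fun t => R.F (2 * M + 1) (R.γ T u t)) 0 t := by
      apply (hasDerivAt_const t (0 : ℝ)).congr_of_eventuallyEq
      filter_upwards [Ioo_mem_nhds htI.1 htI.2] with x hx
      exact hall (2 * M + 1) le_rfl x hx
    have h3 := h1.unique h2
    rw [← QOne_succ] at h3
    have h4 := hBne t htI
    show u t = - Af (R.γ T u t) / Bf (R.γ T u t)
    rw [eq_div_iff h4]
    have h5 : R.F (2 * M + 1 + 1) (R.γ T u t) = Af (R.γ T u t) := rfl
    rw [h5] at h3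
    linarith
  have hX : ContDiff ℝ (⊤ : ℕ∞) R.X := by
    rw [← contDiffOn_univ]
    exact (X_an hR).contDiffOn uniqueDiffOn_univ
  have hY : ContDiff ℝ (⊤ : ℕ∞) (R.Y 0) := by
    rw [← contDiffOn_univ]
    exact (Y_an hR 0).contDiffOn uniqueDiffOn_univ
  have hΩ : IsOpen {e : EE k | Bf e ≠ 0} := isOpen_ne_fun (QOne_cont hBan) continuous_const
  have hU : ContDiffOn ℝ (⊤ : ℕ∞) (fun e => - Af e / Bf e) {e : EE k | Bf e ≠ 0} := by
    apply AnalyticOnNhd.contDiffOn _ hΩ.uniqueDiffOn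
    intro e he
    exact ((hAan e (mem_univ e)).neg).div (hBan e (mem_univ e)) he
  have hsm := smooth_feedback hX hY (γ := R.γ T u) (u := u) (s := s) (s' := s') hγ.continuousOn
    (fun x hx t ht => γ_int hR hum hub hT
      (Ioo_subset_Icc_self (hinT x (Ioo_subset_Icc_self hx)))
      (Ioo_subset_Icc_self (hinT t (Ioo_subset_Icc_self ht)))) hΩ hU hBne hfb
  exact ⟨r, hrK, smoothNear_of_Ioo hsr hrs' hsm hfb⟩

end Pool.Agent.Lib.MP_28b8de_an
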