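import Pool.Agent.Lib.MP_28b8de_an.E.QOne

/-!
MP_28b8de_an, module QOneTwo (MSE-QOneTwo): nondegenerate curvature, the case where the singular
control has absolute value one, and the conclusion.

qone_case2: B(γ(t₁)) ≠ 0.  τ := - F_{2M+2}(γ t₁)/B(γ t₁), |τ| = 1 (heq).  By continuity near t₁: B(γ t) has constant
sign σ, |B| ≥ β0, and F_{2M+2}(γ t)/B(γ t), which is ±1 on K near t₁, equals -τ there (as in relay_case2,
RelayMain.lean).  Let Δ(e) = 1 + τ F_{2M+2}(e)/B(e), analytic and Lipschitz on a closed ball around γ(t₁) where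
|B| ≥ β0.  By σ_near, σ s t and γ t lie in that ball for s, t in a small interval Icc p q around t₁; put
Ds s t = Δ(R.σ T u τ s t) (analytic in t on Ioo p q by σ_an, as B(σ s t) ≠ 0) and
|Δ(γ t) - Δ(σ s t)| ≤ L ‖γ t - σ s t‖ ≤ L C mass τ u s t.  Apply `case_two` with A = F_{2M+2}(γ), β = B(γ),
F = F_{2M+1}(γ) (G_int), K, to three points s < r < s' of K close together (`exists_three`): u = τ a.e. on (s,s'),
so r is a smooth point (smoothNear_of_Ioo, contDiffOn_const).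
q_one: B(γ(t₁)) = (-1)^(M+1) β(t₁)² D2(D2 H)(t₁,z(t₁)) ≠ 0 (LY_F_eq, zh_γ).  If some t₂ ∈ K ∩ Ioo 0 T has
|F_{2M+2}| < |B| at γ(t₂): qone_case1.  Otherwise equality holds on K ∩ Ioo 0 T (qone_le): qone_case2.
-/

namespace Pool.Agent.Lib.MP_28b8de_an

open Filter Topology Set MeasureTheory

variable {k : ℕ} {R : RD k} (hR : R.An) {u : ℝ → ℝ} (hum : Measurable u)
  (hub : ∀ t, |u t| ≤ 1) {T : ℝ} (hT : 0 ≤ T) {M : ℕ}
  (hW : ∀ j < M, ∀ t, Wd R.l R.b j t = 0) {K : Set ℝ} (hKT : K ⊆ Icc 0 T)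
  (hK0 : ∀ t ∈ K, R.phi T u 0 t = 0) (hKacc : ∀ t ∈ K, AccPt t (𝓟 K))

/-- an analytic function is Lipschitz on a closed ball of analyticity -/
private theorem QOneTwo_lip {E : Type*} [NormedAddCommGroup E] [NormedSpace ℝ E]
    [FiniteDimensional ℝ E] {f : E → ℝ} {e : E} {ρ : ℝ}
    (hf : AnalyticOnNhd ℝ f (Metric.closedBall e ρ)) :
    ∃ L : ℝ, 0 ≤ L ∧ ∀ x ∈ Metric.closedBall e ρ, ∀ y ∈ Metric.closedBall e ρ,
      |f x - f y| ≤ L * ‖x - y‖ := by
  have : ProperSpace E := FiniteDimensional.proper ℝ E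
  have hK : IsCompact (Metric.closedBall e ρ) := isCompact_closedBall e ρ
  have hc : ContinuousOn (fderiv ℝ f) (Metric.closedBall e ρ) := fun x hx =>
    (hf.fderiv x hx).continuousAt.continuousWithinAt
  obtain ⟨L, hL⟩ := hK.exists_bound_of_continuousOn hc
  refine ⟨|L|, abs_nonneg L, fun x hx y hy => ?_⟩
  have h1 := (convex_closedBall e ρ).norm_image_sub_le_of_norm_fderiv_le (𝕜 := ℝ) (f := f)
    (C := |L|) (fun x hx => (hf x hx).differentiableAt)
    (fun x hx => (hL x hx).trans (le_abs_self L)) hy hx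
  rwa [Real.norm_eq_abs] at h1

include hR hum hub hT hW hKT hK0 hKacc

theorem qone_case2
    (heq : ∀ t ∈ K, t ∈ Ioo 0 T →
      |R.F (2 * M + 2) (R.γ T u t)| = |R.LY 0 (R.F (2 * M + 1)) (R.γ T u t)|)
    {t₁ : ℝ} (ht₁ : t₁ ∈ K) (ht₁T : t₁ ∈ Ioo 0 T)
    (hne : R.LY 0 (R.F (2 * M + 1)) (R.γ T u t₁) ≠ 0) :
    ∃ r ∈ K, SmoothNear T u r := by
  obtain ⟨σ, hσ, hσβ, hβpos⟩ := exists_sign hne
  have hσσ := sq_one_of_abs hσ
  -- the two analytic functions of the extended state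
  have hAan : AnalyticOnNhd ℝ (R.F (2 * M + 2)) univ := F_an hR _
  have hFan : AnalyticOnNhd ℝ (R.F (2 * M + 1)) univ := F_an hR _
  have hBan : AnalyticOnNhd ℝ (R.LY 0 (R.F (2 * M + 1))) univ := LY_an hR 0 hFan
  have hAc : Continuous (R.F (2 * M + 2)) := by
    rw [continuous_iff_continuousAt]
    exact fun e => (hAan e (mem_univ e)).continuousAt
  have hBc : Continuous (R.LY 0 (R.F (2 * M + 1))) := by
    rw [continuous_iff_continuousAt]
    exact fun e => (hBan e (mem_univ e)).continuousAt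
  have hγc : Continuous (R.γ T u) := γ_cont hR hum hub hT
  set Bf : EE k → ℝ := R.LY 0 (R.F (2 * M + 1)) with hBf
  set Af : EE k → ℝ := R.F (2 * M + 2) with hAf
  set e₁ : EE k := R.γ T u t₁ with he₁
  set b₁ : ℝ := |Bf e₁| with hb₁
  set τ : ℝ := - Af e₁ / Bf e₁ with hτdef
  have hτ : |τ| = 1 := by
    rw [hτdef, abs_div, abs_neg, heq t₁ ht₁ ht₁T]
    exact div_self (ne_of_gt hβpos)
  have hττ := sq_one_of_abs hτ
  have ht₁τ : Af e₁ = - τ * Bf e₁ := by
    rw [hτdef]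
    field_simp
  -- the neighbourhood in the extended state space
  have hO : IsOpen {e : EE k | b₁ / 2 < σ * Bf e} :=
    isOpen_lt continuous_const (continuous_const.mul hBc)
  have he₁O : e₁ ∈ {e : EE k | b₁ / 2 < σ * Bf e} := by
    show b₁ / 2 < σ * Bf e₁
    rw [hσβ]
    linarith
  obtain ⟨ρ, hρ, hρO⟩ := Metric.nhds_basis_closedBall.mem_iff.1 (hO.mem_nhds he₁O)
  set Δ : EE k → ℝ := fun e => 1 + τ * Af e / Bf e with hΔ
  have hBne : ∀ e ∈ {e : EE k | b₁ / 2 < σ * Bf e}, Bf e ≠ 0 := by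
    intro e he h0
    have he' : b₁ / 2 < σ * Bf e := he
    rw [h0, mul_zero] at he'
    linarith
  have hΔan : AnalyticOnNhd ℝ Δ {e : EE k | b₁ / 2 < σ * Bf e} := by
    intro e he
    exact analyticAt_const.add ((analyticAt_const.mul (hAan e (mem_univ e))).div
      (hBan e (mem_univ e)) (hBne e he))
  obtain ⟨L, hL0, hL⟩ := QOneTwo_lip (hΔan.mono hρO)
  obtain ⟨C, hC0, hC⟩ := σ_near hR hum hub hT hτ
  -- the neighbourhood in time
  have hU1 : {t | R.γ T u t ∈ Metric.ball e₁ (ρ / 2)} ∈ 𝓝 t₁ :=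
    hγc.continuousAt.preimage_mem_nhds (Metric.ball_mem_nhds _ (by linarith))
  have hU2 : {t | τ * (σ * Af (R.γ T u t)) < 0} ∈ 𝓝 t₁ := by
    apply (isOpen_lt (continuous_const.mul (continuous_const.mul (hAc.comp hγc)))
      continuous_const).mem_nhds
    show τ * (σ * Af e₁) < 0
    rw [ht₁τ]
    have : τ * (σ * (-τ * Bf e₁)) = - (τ * τ) * (σ * Bf e₁) := by ring
    rw [this, hττ, hσβ]
    linarith
  have hU3 : Ioo 0 T ∈ 𝓝 t₁ := Ioo_mem_nhds ht₁T.1 ht₁T.2
  obtain ⟨ε, hε, hball⟩ := Metric.mem_nhds_iff.1 (inter_mem (inter_mem hU1 hU2) hU3)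
  set ε' : ℝ := min (ε / 2) (ρ / (8 * (C + 1))) with hε'
  have hε'0 : 0 < ε' := by
    rw [hε']
    apply lt_min (by linarith)
    positivity
  have hε'1 : ε' ≤ ε / 2 := min_le_left _ _
  have hε'2 : ε' * (8 * (C + 1)) ≤ ρ := by
    have := min_le_right (ε / 2) (ρ / (8 * (C + 1)))
    rw [← hε'] at this
    rwa [le_div_iff₀ (by positivity)] at this
  set p : ℝ := t₁ - ε' with hp
  set q : ℝ := t₁ + ε' with hq
  have hin : ∀ t ∈ Icc p q, t ∈ Metric.ball t₁ ε := by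
    intro t ht
    rw [Metric.mem_ball, Real.dist_eq, abs_lt]
    constructor <;> linarith [ht.1, ht.2]
  have hinT : ∀ t ∈ Icc p q, t ∈ Ioo 0 T := fun t ht => (hball (hin t ht)).2
  have hinT' : ∀ t ∈ Icc p q, t ∈ Icc 0 T := fun t ht => Ioo_subset_Icc_self (hinT t ht)
  have hγin : ∀ t ∈ Icc p q, R.γ T u t ∈ Metric.ball e₁ (ρ / 2) :=
    fun t ht => (hball (hin t ht)).1.1
  have hγin' : ∀ t ∈ Icc p q, R.γ T u t ∈ Metric.closedBall e₁ ρ := by
    intro t ht
    have := hγin t ht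
    rw [Metric.mem_ball] at this
    rw [Metric.mem_closedBall]
    linarith
  have hβlow : ∀ t ∈ Icc p q, b₁ / 2 ≤ σ * Bf (R.γ T u t) := fun t ht =>
    (show b₁ / 2 < σ * Bf (R.γ T u t) from hρO (hγin' t ht)).le
  have hne' : ∀ t ∈ Icc p q, Bf (R.γ T u t) ≠ 0 := fun t ht => hBne _ (hρO (hγin' t ht))
  have hσin : ∀ s ∈ Icc p q, ∀ t ∈ Icc p q, R.σ T u τ s t ∈ Metric.closedBall e₁ ρ := by
    intro s hs t ht
    have h1 := (hC s (hinT' s hs) t (hinT' t ht)).1
    have h2 := hγin s hs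
    rw [Metric.mem_ball, dist_eq_norm] at h2
    rw [Metric.mem_closedBall, dist_eq_norm]
    have h3 : |t - s| ≤ 2 * ε' := by
      rw [abs_le]
      constructor <;> linarith [ht.1, ht.2, hs.1, hs.2]
    have h4 : C * |t - s| ≤ ρ / 2 := by
      have h5 : C * |t - s| ≤ C * (2 * ε') := mul_le_mul_of_nonneg_left h3 hC0
      nlinarith
    calc ‖R.σ T u τ s t - e₁‖ = ‖(R.σ T u τ s t - R.γ T u s) + (R.γ T u s - e₁)‖ := by
          congr 1
          abel
      _ ≤ ‖R.σ T u τ s t - R.γ T u s‖ + ‖R.γ T u s - e₁‖ := norm_add_le _ _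
      _ ≤ ρ := by linarith
  have hKτ : ∀ t ∈ K, t ∈ Icc p q → Af (R.γ T u t) = - τ * Bf (R.γ T u t) := by
    intro t ht htpq
    have h1 : b₁ / 2 ≤ σ * Bf (R.γ T u t) := hβlow t htpq
    have h2 : τ * (σ * Af (R.γ T u t)) < 0 := (hball (hin t htpq)).1.2
    have h3 := heq t ht (hinT t htpq)
    rcases abs_eq_abs.1 h3 with h4 | h4
    · rw [h4] at h2 ⊢
      have hτ1 : τ = -1 := by
        rcases abs_eq (zero_le_one' ℝ) |>.1 hτ with h5 | h5
        · rw [h5] at h2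
          linarith
        · exact h5
      rw [hτ1]
      ring
    · rw [h4] at h2 ⊢
      have hτ1 : τ = 1 := by
        rcases abs_eq (zero_le_one' ℝ) |>.1 hτ with h5 | h5
        · exact h5
        · rw [h5] at h2
          linarith
      rw [hτ1]
      ring
  -- bounds
  obtain ⟨B0, hB0, hB0'⟩ := exists_bd (hBc.comp hγc) p q
  set C' : ℝ := B0 + L * C with hC'
  have hLC : 0 ≤ L * C := mul_nonneg hL0 hC0
  have hC'0 : 0 ≤ C' := by linarith
  have hη : 0 < (b₁ / 2) / (C' * C' + 1) := by positivity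
  obtain ⟨s, hsK, r, hrK, s', hs'K, hsr, hrs', hlen, hsU, hrU, hs'U⟩ :=
    exists_three ht₁ (hKacc t₁ ht₁) (Ioo_mem_nhds (show p < t₁ by linarith)
      (show t₁ < q by linarith)) hη
  have hss : s < s' := hsr.trans hrs'
  have hconst : ∀ᵐ r : ℝ, r ∈ Ioo s s' → u r = τ := by
    apply case_two (A := fun t => Af (R.γ T u t)) (β := fun t => Bf (R.γ T u t))
      (F := fun t => R.F (2 * M + 1) (R.γ T u t)) (σ := σ) (p := p) (q := q) (β0 := b₁ / 2)
      (C := C') hτ hσ (by linarith) hC'0 hum hub (hAc.comp hγc).continuousOn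
      (hBc.comp hγc).continuousOn hβlow (K := K) (Ds := fun s t => Δ (R.σ T u τ s t))
    · intro t ht
      have : |Bf (R.γ T u t)| ≤ B0 := hB0' t ht
      linarith
    · intro s hs t ht
      have h1 := G_int hR hum hub hT hFan (hinT' s hs) (hinT' t ht)
      show R.F (2 * M + 1) (R.γ T u t) - R.F (2 * M + 1) (R.γ T u s) = _
      rw [h1]
      congr 1
      ext r
      have h2 : R.LX (R.F (2 * M + 1)) = Af := by
        exact (Function.iterate_succ_apply' R.LX (2 * M + 1) R.F0).symm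
      rw [h2, mul_comm (u r)]
    · intro t ht htpq
      exact qone_zero hR hum hub hT hW hKT hK0 hKacc (2 * M + 1) le_rfl t ht (hinT t htpq)
    · exact hKτ
    · intro s _ hs t ht
      have hs' := Ioo_subset_Icc_self hs
      have ht' := Ioo_subset_Icc_self ht
      exact (hΔan _ (hρO (hσin s hs' t ht'))).comp (f := R.σ T u τ s)
        (σ_an hR T τ s t (mem_univ t))
    · intro s _ hs t ht
      have hs' := Ioo_subset_Icc_self hs
      have ht' := Ioo_subset_Icc_self ht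
      have h1 := hL _ (hγin' t ht') _ (hσin s hs' t ht')
      have h2 := (hC s (hinT' s hs') t (hinT' t ht')).2
      have h3 : 0 ≤ mass τ u s t := mass_nonneg hτ hub s t
      calc |1 + τ * Af (R.γ T u t) / Bf (R.γ T u t) - Δ (R.σ T u τ s t)|
          ≤ L * ‖R.γ T u t - R.σ T u τ s t‖ := h1
        _ ≤ L * (C * mass τ u s t) := mul_le_mul_of_nonneg_left h2 hL0
        _ = L * C * mass τ u s t := by ring
        _ ≤ C' * mass τ u s t := mul_le_mul_of_nonneg_right (by linarith) h3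
    · exact hsK
    · exact hs'K
    · exact hsU
    · exact hs'U
    · exact hKacc s hsK
    · exact hss
    · have h1 := (lt_div_iff₀ (by positivity : (0 : ℝ) < C' * C' + 1)).1 hlen
      nlinarith [sub_pos.2 hss]
  exact ⟨r, hrK, smoothNear_of_Ioo hsr hrs' contDiffOn_const hconst⟩

theorem q_one
    (hu : ∀ᵐ t, t ∈ Icc 0 T → u t * R.phi T u 0 t = |R.phi T u 0 t|)
    {t₁ : ℝ} (ht₁ : t₁ ∈ K) (ht₁T : t₁ ∈ Ioo 0 T) (hβ : Wd R.l R.b M t₁ ≠ 0)
    (hq : D2 (D2 R.H) (t₁, R.z u 0 t₁) ≠ 0) : ∃ r ∈ K, SmoothNear T u r := by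
  have hne : R.LY 0 (R.F (2 * M + 1)) (R.γ T u t₁) ≠ 0 := by
    rw [LY_F_eq hR hW, zh_γ]
    have h1 : (R.γ T u t₁).1 = t₁ := rfl
    rw [h1]
    exact mul_ne_zero (mul_ne_zero (pow_ne_zero _ (by norm_num)) (pow_ne_zero _ hβ)) hq
  by_cases hcase : ∃ t ∈ K, t ∈ Ioo 0 T ∧
      |R.F (2 * M + 2) (R.γ T u t)| < |R.LY 0 (R.F (2 * M + 1)) (R.γ T u t)|
  · obtain ⟨t₂, ht₂, ht₂T, hlt⟩ := hcase
    exact qone_case1 hR hum hub hT hW hKT hK0 hKacc hu ht₂ ht₂T hlt
  · push Not at hcase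
    exact qone_case2 hR hum hub hT hW hKT hK0 hKacc
      (fun t ht htT => le_antisymm (qone_le hR hum hub hT hW hKT hK0 hKacc ht htT)
        (hcase t ht htT)) ht₁ ht₁T hne

end Pool.Agent.Lib.MP_28b8de_an
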