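import Pool.Agent.Lib.MP_28b8de_an.E.EDefs

/-!
MP_28b8de_an, module Zeta (MSE-Zeta): the analytic implicit function.

PROOF.  Mathlib: `ContDiffAt.implicitFunction`, `implicitFunction_apply_self`,
`eventually_apply_implicitFunction`, `eventually_apply_eq_iff_implicitFunction`,
`contDiffAt_implicitFunction` (Mathlib/Analysis/Calculus/ImplicitContDiff.lean) with n = ω for
f = G at u = (t₁, z₁); ContDiffAt ℝ ω is analytic (`contDiffAt_omega_iff_analyticAt` or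
`AnalyticAt.contDiffAt`, `ContDiffAt.analyticAt`); invertibility of z ↦ fderiv G (0, z): it is multiplication by
D2 G (t₁,z₁) ≠ 0.
-/

namespace Pool.Agent.Lib.MP_28b8de_an

open Filter Topology Set MeasureTheory

theorem exists_zeta {G : ℝ × ℝ → ℝ} (hG : AnalyticOnNhd ℝ G univ) {t₁ z₁ : ℝ}
    (h0 : G (t₁, z₁) = 0) (h1 : D2 G (t₁, z₁) ≠ 0) :
    ∃ ζ : ℝ → ℝ, AnalyticAt ℝ ζ t₁ ∧ ζ t₁ = z₁ ∧
      ∀ᶠ p in 𝓝 (t₁, z₁), G p = 0 → p.2 = ζ p.1 := by
  have hc : ContDiffAt ℝ (⊤ : WithTop ℕ∞) G (t₁, z₁) := (hG _ (mem_univ _)).contDiffAt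
  have pn : (⊤ : WithTop ℕ∞) ≠ 0 := by simp
  have hinv : (fderiv ℝ G (t₁, z₁) ∘L .inr ℝ ℝ ℝ).IsInvertible := by
    refine ⟨ContinuousLinearEquiv.unitsEquivAut ℝ (Units.mk0 (D2 G (t₁, z₁)) h1), ?_⟩
    ext
    simp [D2, ContinuousLinearEquiv.unitsEquivAut]
  refine ⟨hc.implicitFunction pn hinv, ?_, hc.implicitFunction_apply_self pn hinv, ?_⟩
  · have h := hc.contDiffAt_implicitFunction pn hinv
    exact h.analyticAt
  · have h := hc.eventually_apply_eq_iff_implicitFunction pn hinv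
    filter_upwards [h] with p hp hp0
    exact (hp.1 (hp0.trans h0.symm)).symm

end Pool.Agent.Lib.MP_28b8de_an
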