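import Pool.Agent.Lib.MP_28b8de_an.E.QDefs
import Pool.Agent.Lib.MP_28b8de_an.E.KEst
import Pool.Agent.Lib.MP_28b8de_an.E.Zeta

/-!
MP_28b8de_an, module QPack (MSE-QPack): existence of the local package.

PROOF.  h = D2 H, z₁ = R.z u 0 t₁, G = D2^[q-1] h (analytic, D2_iter_an).  G(t₁,z₁) = 0 (hlow with j = q-1 ≥ 1),
D2 G(t₁,z₁) = D2^[q] h (t₁,z₁) ≠ 0 (Function.iterate_succ_apply').  `exists_zeta` gives ζ.  t ↦ (t, z t) is
continuous at t₁ (RD_z_cont), so for t near t₁: (G(t, z t) = 0 → z t = ζ t), and for t ∈ K near t₁ (β ≠ 0 near t₁,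
Wd continuous: Wd_analytic) G(t,z t) = 0 by hlow, so z t = ζ t.
For 1 ≤ j < q the function t ↦ (D2^[j] h)(t,ζ t) is analytic at t₁ and vanishes for t ∈ K near t₁
(hlow, z t = ζ t), and t₁ is an accumulation point of K: it vanishes near t₁
(`AnalyticAt.frequently_zero_iff_eventually_zero`, accPt_iff_frequently_nhdsNE).  `kest` gives C, c0, ε, θ, Kt.
Choose p < t₁ < p' so close to t₁ that everything holds on Ioo p p' (|t - t₁| < ε; ζ analytic on a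
neighbourhood; |z t - ζ t| < ε by continuity, z t₁ = ζ t₁; 0 < p, p' < T; β ≠ 0).
-/

namespace Pool.Agent.Lib.MP_28b8de_an

open Filter Topology Set MeasureTheory

theorem exists_pack {k : ℕ} {R : RD k} (hR : R.An) {u : ℝ → ℝ} (hum : Measurable u)
    (hub : ∀ t, |u t| ≤ 1) {T : ℝ} {M q : ℕ} (hq : 2 ≤ q) {K : Set ℝ}
    (hKacc : ∀ t ∈ K, AccPt t (𝓟 K))
    (hlow : ∀ t ∈ K, Wd R.l R.b M t ≠ 0 → ∀ j, 1 ≤ j → j < q →
      (D2^[j] (D2 R.H)) (t, R.z u 0 t) = 0)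
    {t₁ : ℝ} (ht₁ : t₁ ∈ K) (ht₁T : t₁ ∈ Ioo 0 T) (hβ : Wd R.l R.b M t₁ ≠ 0)
    (hq1 : (D2^[q] (D2 R.H)) (t₁, R.z u 0 t₁) ≠ 0) :
    ∃ (p p' : ℝ) (ζ : ℝ → ℝ) (C c0 ε θ : ℝ) (Kt : ℝ → ℝ → ℝ), t₁ ∈ Ioo p p' ∧
      LocPack R T u M q K p p' ζ C c0 ε θ Kt := by
  have hH2 : AnalyticOnNhd ℝ (D2 R.H) univ := D2_an hR.H
  have hz : Continuous (R.z u 0) := RD_z_cont hR hum hub 0
  have hGan : AnalyticOnNhd ℝ (D2^[q - 1] (D2 R.H)) univ := D2_iter_an hH2 (q - 1)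
  have hG0 : (D2^[q - 1] (D2 R.H)) (t₁, R.z u 0 t₁) = 0 :=
    hlow t₁ ht₁ hβ (q - 1) (by omega) (by omega)
  have hG1 : D2 (D2^[q - 1] (D2 R.H)) (t₁, R.z u 0 t₁) ≠ 0 := by
    have e : D2^[q] (D2 R.H) = D2 (D2^[q - 1] (D2 R.H)) := by
      rw [← Function.iterate_succ_apply' D2 (q - 1) (D2 R.H)]
      congr 1
      have : (q - 1).succ = q := by omega
      rw [this]
    rw [← e]
    exact hq1
  obtain ⟨ζ, hζa, hζ1, hζG⟩ := exists_zeta hGan hG0 hG1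
  have hpair : Tendsto (fun t : ℝ => ((t, R.z u 0 t) : ℝ × ℝ)) (𝓝 t₁) (𝓝 (t₁, R.z u 0 t₁)) :=
    (continuous_id.prodMk hz).tendsto t₁
  have hev : ∀ᶠ t in 𝓝 t₁, (D2^[q - 1] (D2 R.H)) (t, R.z u 0 t) = 0 → R.z u 0 t = ζ t :=
    hpair.eventually hζG
  have hβev : ∀ᶠ t in 𝓝 t₁, Wd R.l R.b M t ≠ 0 :=
    (Wd_analytic hR.l hR.b M t₁ (mem_univ _)).continuousAt.eventually_ne hβ
  have hKζ : ∀ᶠ t in 𝓝 t₁, t ∈ K → R.z u 0 t = ζ t := by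
    filter_upwards [hev, hβev] with t h1 h2 htK
    exact h1 (hlow t htK h2 (q - 1) (by omega) (by omega))
  have hζan : AnalyticAt ℝ (fun t : ℝ => ((t, ζ t) : ℝ × ℝ)) t₁ := analyticAt_id.prod hζa
  have h0 : ∀ j, 1 ≤ j → j < q → ∀ᶠ t in 𝓝 t₁, (D2^[j] (D2 R.H)) (t, ζ t) = 0 := by
    intro j hj1 hjq
    have han : AnalyticAt ℝ (fun t => (D2^[j] (D2 R.H)) (t, ζ t)) t₁ :=
      AnalyticAt.comp (D2_iter_an hH2 j _ (mem_univ _)) hζan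
    refine han.frequently_zero_iff_eventually_zero.1 ?_
    have hfr : ∃ᶠ t in 𝓝[≠] t₁, t ∈ K := accPt_iff_frequently_nhdsNE.1 (hKacc t₁ ht₁)
    have hev2 : ∀ᶠ t in 𝓝[≠] t₁, (t ∈ K → R.z u 0 t = ζ t) ∧ Wd R.l R.b M t ≠ 0 :=
      nhdsWithin_le_nhds (hKζ.and hβev)
    refine (hfr.and_eventually hev2).mono ?_
    rintro t ⟨htK, h1, h2⟩
    have h3 := hlow t htK h2 j hj1 hjq
    rw [h1 htK] at h3
    exact h3
  have hq1' : (D2^[q] (D2 R.H)) (t₁, ζ t₁) ≠ 0 := by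
    rw [hζ1]
    exact hq1
  obtain ⟨C, c0, ε, θ, hC, hc0, hε, hθ, Kt, hest, hder⟩ :=
    kest hR.H hζa (by omega : 1 ≤ q) h0 hq1'
  have hsm : ∀ᶠ t in 𝓝 t₁, |R.z u 0 t - ζ t| < ε := by
    have hc : ContinuousAt (fun t => |R.z u 0 t - ζ t|) t₁ :=
      (hz.continuousAt.sub hζa.continuousAt).abs
    refine hc.eventually_lt continuousAt_const ?_
    rw [hζ1, sub_self, abs_zero]
    exact hε
  have hnear : ∀ᶠ t in 𝓝 t₁, |t - t₁| < ε := by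
    filter_upwards [Metric.ball_mem_nhds t₁ hε] with t ht
    rwa [Metric.mem_ball, Real.dist_eq] at ht
  have hin : ∀ᶠ t in 𝓝 t₁, t ∈ Ioo 0 T := Ioo_mem_nhds ht₁T.1 ht₁T.2
  have hall := hβev.and (hζa.eventually_analyticAt.and (hKζ.and (hsm.and (hnear.and hin))))
  obtain ⟨δ, hδ, hball⟩ := Metric.eventually_nhds_iff.1 hall
  have hd : ∀ t ∈ Icc (t₁ - δ / 2) (t₁ + δ / 2), dist t t₁ < δ := by
    intro t ht
    rw [Real.dist_eq, abs_lt]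
    constructor <;> linarith [ht.1, ht.2]
  have hb : ∀ t ∈ Icc (t₁ - δ / 2) (t₁ + δ / 2), _ := fun t ht => hball (hd t ht)
  have hl : t₁ - δ / 2 ∈ Icc (t₁ - δ / 2) (t₁ + δ / 2) := ⟨le_rfl, by linarith⟩
  have hr : t₁ + δ / 2 ∈ Icc (t₁ - δ / 2) (t₁ + δ / 2) := ⟨by linarith, le_rfl⟩
  refine ⟨t₁ - δ / 2, t₁ + δ / 2, ζ, C, c0, ε, θ, Kt, ⟨by linarith, by linarith⟩, ?_⟩
  exact
    { hp := (hb _ hl).2.2.2.2.2.1
      hpp := by linarith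
      hp' := (hb _ hr).2.2.2.2.2.2
      hC := hC
      hc0 := hc0
      hε := hε
      hθ := hθ
      hβ := fun t ht => (hb t (Ioo_subset_Icc_self ht)).1
      ζan := fun t ht => (hb t (Ioo_subset_Icc_self ht)).2.1
      Kζ := fun t htK ht => (hb t (Ioo_subset_Icc_self ht)).2.2.1 htK
      small := fun t ht => (hb t (Ioo_subset_Icc_self ht)).2.2.2.1
      est := fun t ht w hw => hest t w (hb t (Ioo_subset_Icc_self ht)).2.2.2.2.1 hw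
      der := fun t ht Z Z' hZ hZ' =>
        hder t (hb t (Ioo_subset_Icc_self ht)).2.2.2.2.1 Z Z' hZ hZ' }

end Pool.Agent.Lib.MP_28b8de_an
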