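import Pool.Agent.Lib.MP_28b8de_an.E.QGap
import Pool.Agent.Lib.MP_28b8de_an.E.QPack
import Pool.Agent.Lib.MP_28b8de_an.E.CaseTwo
import Pool.Agent.Lib.MP_28b8de_an.E.SmoothFb

/-!
MP_28b8de_an, module QTwo (MSE-QTwo): degenerate curvature of order q ≥ 2.

qtwo_case1: `qtwo_gap` gives ε₁; three points s < r < s' of K in Ioo (t₂-ε₁) (t₂+ε₁) ∩ Ioo p p' (`exists_three`);
Z_0 = 0 on [s,s'], so Z_j = 0 on (s,s') for j ≤ M (Zj_deriv, derivative of zero: deriv_zero_of_zero in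
RelaySmooth.lean), so Z_{M+1} + β u = 0 a.e. on (s,s') (Zj_ae with j = M), u = - Z_{M+1}/β.
`smooth_feedback` with E = EE k, X = R.X, Y = R.Y 0, γ = R.γ T u (γ_int, γ_cont), Ω = {e | e.1 ∈ Ioo p p'} and
U(e) = - (iteratedDeriv (M+1) z0 e.1 + ∑ i, iteratedDeriv (M+1) (l_i) e.1 * e.2.1 i - iteratedDeriv (M+1) ζ e.1)
/ Wd l b M e.1 (smooth on Ω: hL.hβ, loc_iter_deriv); U(γ t) = - Z_{M+1}(t)/β(t).  Then smoothNear_of_Ioo at r.
qtwo_case2: τ := - Z_{M+1}(t₁)/β(t₁), |τ| = 1; near t₁, on K, Z_{M+1} = - τ β (continuity, as in relay_case2).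
`case_two` on a small Icc a b ∋ t₁ inside Ioo p p' with F = Z_M, A = Z_{M+1}, β = Wd M (Zj_int, j = M),
Ds s t = 1 + τ (iteratedDeriv (M+1) z0 t - iteratedDeriv (M+1) ζ t
  + ∑ i, iteratedDeriv (M+1) (l_i) t * (xi b u i s + τ * ∫ x in s..t, b_i x)) / Wd l b M t,
analytic in t on Ioo a b; 1 + τ A/β - Ds = τ/β ∑ l_i^{(M+1)}(t) ∫_s^t b_i (u - τ), |u - τ| = 1 - τ u: bounded by
C mass τ u s t (as Df_sub_Ds, RelayTwo.lean).  Three points of K: u = τ a.e. on (s,s').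
q_two: `exists_pack`; if some t₂ ∈ K ∩ Ioo p p' has |Z_{M+1}| < |β|: case 1; otherwise equality (Zj_le): case 2.
-/

namespace Pool.Agent.Lib.MP_28b8de_an

open Filter Topology Set MeasureTheory

variable {k : ℕ} {R : RD k} (hR : R.An) {u : ℝ → ℝ} (hum : Measurable u)
  (hub : ∀ t, |u t| ≤ 1) {T : ℝ} (hT : 0 ≤ T) {M q : ℕ} (hq : 2 ≤ q)
  (hW : ∀ j < M, ∀ t, Wd R.l R.b j t = 0) {K : Set ℝ} (hKT : K ⊆ Icc 0 T)
  (hK0 : ∀ t ∈ K, R.phi T u 0 t = 0) (hKacc : ∀ t ∈ K, AccPt t (𝓟 K))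

include hR hum hub hT hq hW hKT hK0 hKacc

theorem qtwo_case1 {p p' : ℝ} {ζ : ℝ → ℝ} {C c0 ε θ : ℝ} {Kt : ℝ → ℝ → ℝ}
    (hL : LocPack R T u M q K p p' ζ C c0 ε θ Kt)
    (hu : ∀ᵐ t, t ∈ Icc 0 T → u t * R.phi T u 0 t = |R.phi T u 0 t|)
    {t₂ : ℝ} (ht₂ : t₂ ∈ K) (ht₂I : t₂ ∈ Ioo p p')
    (hlt : |R.Zj u ζ (M + 1) t₂| < |Wd R.l R.b M t₂|) : ∃ r ∈ K, SmoothNear T u r := by
  obtain ⟨ε₁, hε₁, hgap⟩ := qtwo_gap hR hum hub hT hq hL hW hKT hK0 hKacc hu ht₂ ht₂I hlt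
  obtain ⟨s, hsK, r, hrK, s', hs'K, hsr, hrs', _, hsU, hrU, hs'U⟩ :=
    exists_three ht₂ (hKacc t₂ ht₂) (inter_mem (Ioo_mem_nhds (show t₂ - ε₁ < t₂ by linarith)
      (show t₂ < t₂ + ε₁ by linarith)) (Ioo_mem_nhds ht₂I.1 ht₂I.2)) one_pos
  have hss : s < s' := hsr.trans hrs'
  have hsub : ∀ t ∈ Ioo s s', t ∈ Ioo p p' := fun t ht =>
    ⟨hsU.2.1.trans ht.1, ht.2.trans hs'U.2.2⟩
  have hsubT : ∀ t ∈ Ioo s s', t ∈ Icc 0 T := fun t ht =>
    ⟨(hKT hsK).1.trans ht.1.le, ht.2.le.trans (hKT hs'K).2⟩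
  have hZ : ∀ j ≤ M, ∀ t ∈ Ioo s s', R.Zj u ζ j t = 0 := by
    intro j
    induction j with
    | zero =>
      intro _ t ht
      exact hgap s hsK s' hs'K hsU.1 hs'U.1 hss t (Ioo_subset_Icc_self ht)
    | succ j ih =>
      intro hj t ht
      exact deriv_zero_of_zero ht (ih (by omega))
        (Zj_deriv hR hum hub hL hW (show j < M by omega) (hsub t ht))
  set U : EE k → ℝ := fun e => -(iteratedDeriv (M + 1) R.z0 e.1
    + ∑ i, iteratedDeriv (M + 1) (R.l i) e.1 * e.2.1 i - iteratedDeriv (M + 1) ζ e.1)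
      / Wd R.l R.b M e.1 with hU
  have hUγ : ∀ t, U (R.γ T u t) = - R.Zj u ζ (M + 1) t / Wd R.l R.b M t := fun t => rfl
  have hae : ∀ᵐ t : ℝ, t ∈ Ioo s s' → u t = U (R.γ T u t) := by
    filter_upwards [Zj_ae hR hum hub hL M] with t ht hts
    have h1 := deriv_zero_of_zero hts (hZ M le_rfl) (ht (hsub t hts))
    have h2 := hL.hβ t (hsub t hts)
    rw [hUγ]
    field_simp
    linarith
  set Ω : Set (EE k) := {e | e.1 ∈ Ioo p p'} with hΩdef
  have hΩ : IsOpen Ω := isOpen_Ioo.preimage continuous_fst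
  have hcomp : ∀ {f : ℝ → ℝ}, ContDiffOn ℝ (⊤ : ℕ∞) f (Ioo p p') →
      ContDiffOn ℝ (⊤ : ℕ∞) (fun e : EE k => f e.1) Ω := by
    intro f hf
    exact hf.comp (contDiff_fst.contDiffOn) (fun e he => he)
  have hUs : ContDiffOn ℝ (⊤ : ℕ∞) U Ω := by
    rw [hU]
    apply ContDiffOn.div
    · apply ContDiffOn.neg
      apply ContDiffOn.sub
      · apply ContDiffOn.add
        · exact hcomp (contDiff_of_analytic (analytic_iteratedDeriv hR.z0 (M + 1)) _).contDiffOn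
        · apply ContDiffOn.sum
          intro i _
          apply ContDiffOn.mul
          · exact hcomp
              (contDiff_of_analytic (analytic_iteratedDeriv (hR.l i) (M + 1)) _).contDiffOn
          · apply ContDiff.contDiffOn
            exact (contDiff_apply ℝ ℝ i).comp (contDiff_fst.comp contDiff_snd)
      · apply hcomp
        have h1 : AnalyticOnNhd ℝ (iteratedDeriv (M + 1) ζ) (Ioo p p') :=
          fun t ht => (loc_iter_deriv hL.ζan (M + 1) ht).1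
        exact h1.contDiffOn isOpen_Ioo.uniqueDiffOn
    · exact hcomp (contDiff_of_analytic (Wd_analytic hR.l hR.b M) _).contDiffOn
    · exact fun e he => hL.hβ e.1 he
  have hX : ContDiff ℝ (⊤ : ℕ∞) R.X := by
    rw [← contDiffOn_univ]
    exact (X_an hR).contDiffOn uniqueDiffOn_univ
  have hY : ContDiff ℝ (⊤ : ℕ∞) (R.Y 0) := by
    rw [← contDiffOn_univ]
    exact (Y_an hR 0).contDiffOn uniqueDiffOn_univ
  have hv := smooth_feedback hX hY (γ := R.γ T u) (u := u) (s := s) (s' := s')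
    (γ_cont hR hum hub hT).continuousOn
    (fun r hr t ht => γ_int hR hum hub hT (hsubT r hr) (hsubT t ht)) hΩ hUs
    (fun t ht => hsub t ht) hae
  exact ⟨r, hrK, smoothNear_of_Ioo hsr hrs' hv hae⟩

theorem qtwo_case2 {p p' : ℝ} {ζ : ℝ → ℝ} {C c0 ε θ : ℝ} {Kt : ℝ → ℝ → ℝ}
    (hL : LocPack R T u M q K p p' ζ C c0 ε θ Kt)
    (heq : ∀ t ∈ K, t ∈ Ioo p p' → |R.Zj u ζ (M + 1) t| = |Wd R.l R.b M t|)
    {t₁ : ℝ} (ht₁ : t₁ ∈ K) (ht₁I : t₁ ∈ Ioo p p') : ∃ r ∈ K, SmoothNear T u r := by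
  have hne : Wd R.l R.b M t₁ ≠ 0 := hL.hβ t₁ ht₁I
  obtain ⟨σ, hσ, hσβ, hβpos⟩ := exists_sign hne
  have hcβ : Continuous (Wd R.l R.b M) := continuous_of_analytic (Wd_analytic hR.l hR.b M)
  have hcN : ContinuousOn (R.Zj u ζ (M + 1)) (Ioo p p') := Zj_contOn hR hum hub hL (M + 1)
  set b₁ : ℝ := |Wd R.l R.b M t₁| with hb₁
  set τ : ℝ := - R.Zj u ζ (M + 1) t₁ / Wd R.l R.b M t₁ with hτdef
  have hτ : |τ| = 1 := by
    rw [hτdef, abs_div, abs_neg, heq t₁ ht₁ ht₁I]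
    exact div_self (ne_of_gt hβpos)
  have hττ := sq_one_of_abs hτ
  have ht₁τ : R.Zj u ζ (M + 1) t₁ = - τ * Wd R.l R.b M t₁ := by
    rw [hτdef]
    field_simp
  -- the neighbourhood
  have hU1 : {r | b₁ / 2 < σ * Wd R.l R.b M r} ∈ 𝓝 t₁ := by
    apply (isOpen_lt continuous_const (continuous_const.mul hcβ)).mem_nhds
    show b₁ / 2 < σ * Wd R.l R.b M t₁
    rw [hσβ]
    linarith
  have hU2 : {r | τ * (σ * R.Zj u ζ (M + 1) r) < 0} ∈ 𝓝 t₁ := by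
    have h1 : ContinuousAt (fun r => τ * (σ * R.Zj u ζ (M + 1) r)) t₁ :=
      continuousAt_const.mul (continuousAt_const.mul
        (hcN.continuousAt (Ioo_mem_nhds ht₁I.1 ht₁I.2)))
    have h2 : τ * (σ * R.Zj u ζ (M + 1) t₁) < 0 := by
      rw [ht₁τ]
      have : τ * (σ * (-τ * Wd R.l R.b M t₁)) = - (τ * τ) * (σ * Wd R.l R.b M t₁) := by ring
      rw [this, hττ, hσβ]
      linarith
    exact h1.eventually (gt_mem_nhds h2)
  obtain ⟨e, he, hball⟩ := Metric.mem_nhds_iff.1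
    (inter_mem (inter_mem hU1 hU2) (Ioo_mem_nhds ht₁I.1 ht₁I.2))
  set a : ℝ := t₁ - e / 2 with ha
  set b : ℝ := t₁ + e / 2 with hb
  have hin : ∀ t ∈ Icc a b, t ∈ Metric.ball t₁ e := by
    intro t ht
    rw [Metric.mem_ball, Real.dist_eq, abs_lt]
    constructor <;> linarith [ht.1, ht.2]
  have hinI : ∀ t ∈ Icc a b, t ∈ Ioo p p' := fun t ht => (hball (hin t ht)).2
  have hlow : ∀ t ∈ Icc a b, b₁ / 2 ≤ σ * Wd R.l R.b M t := fun t ht =>
    (hball (hin t ht)).1.1.le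
  have hlow' : ∀ t ∈ Icc a b, b₁ / 2 ≤ |Wd R.l R.b M t| := by
    intro t ht
    have h1 := hlow t ht
    have h2 := le_abs_self (σ * Wd R.l R.b M t)
    rw [abs_mul, hσ, one_mul] at h2
    linarith
  have hKτ : ∀ t ∈ K, t ∈ Icc a b → R.Zj u ζ (M + 1) t = - τ * Wd R.l R.b M t := by
    intro t ht htpq
    have h2 : τ * (σ * R.Zj u ζ (M + 1) t) < 0 := (hball (hin t htpq)).1.2
    have h1 : b₁ / 2 < σ * Wd R.l R.b M t := (hball (hin t htpq)).1.1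
    have h3 := heq t ht (hinI t htpq)
    rcases abs_eq_abs.1 h3 with h4 | h4
    · rw [h4] at h2 ⊢
      have hτ1 : τ = -1 := by
        rcases abs_eq (zero_le_one' ℝ) |>.1 hτ with h5 | h5
        · rw [h5] at h2
          linarith
        · exact h5
      rw [hτ1]
      ring
    · rw [h4] at h2 ⊢
      have hτ1 : τ = 1 := by
        rcases abs_eq (zero_le_one' ℝ) |>.1 hτ with h5 | h5
        · exact h5
        · rw [h5] at h2
          linarith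
      rw [hτ1]
      ring
  -- bounds
  have hbd : ∀ i, ∃ B : ℝ, 0 ≤ B ∧ ∀ t ∈ Icc a b, |iteratedDeriv (M + 1) (R.l i) t| ≤ B
      ∧ |R.b i t| ≤ B := by
    intro i
    obtain ⟨B1, hB1, h1⟩ := exists_bd
      (continuous_of_analytic (analytic_iteratedDeriv (hR.l i) (M + 1))) a b
    obtain ⟨B2, hB2, h2⟩ := exists_bd (continuous_of_analytic (hR.b i)) a b
    exact ⟨B1 + B2, by linarith, fun t ht => ⟨by linarith [h1 t ht], by linarith [h2 t ht]⟩⟩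
  choose Bi hBi0 hBi using hbd
  obtain ⟨B0, hB0, hB0'⟩ := exists_bd hcβ a b
  set B : ℝ := B0 + ∑ i, Bi i with hB
  have hsum0 : 0 ≤ ∑ i, Bi i := Finset.sum_nonneg fun i _ => hBi0 i
  have hBnn : 0 ≤ B := by linarith
  have hBle : ∀ i, Bi i ≤ B := by
    intro i
    have := Finset.single_le_sum (f := Bi) (fun i _ => hBi0 i) (Finset.mem_univ i)
    linarith
  have hb2 : 0 < b₁ / 2 := by linarith
  set C1 : ℝ := B + Fintype.card (Fin k) * B * B / (b₁ / 2) with hC1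
  have hC2 : 0 ≤ (Fintype.card (Fin k) : ℝ) * B * B / (b₁ / 2) := by positivity
  have hC1nn : 0 ≤ C1 := by linarith
  have hη : 0 < (b₁ / 2) / (C1 * C1 + 1) := by positivity
  obtain ⟨s, hsK, r, hrK, s', hs'K, hsr, hrs', hlen, hsU, hrU, hs'U⟩ :=
    exists_three ht₁ (hKacc t₁ ht₁) (Ioo_mem_nhds (show a < t₁ by linarith)
      (show t₁ < b by linarith)) hη
  have hss : s < s' := hsr.trans hrs'
  have hconst := case_two (u := u) (A := R.Zj u ζ (M + 1)) (β := Wd R.l R.b M)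
    (F := R.Zj u ζ M) (K := K) (s := s) (s' := s') hτ hσ hb2 hC1nn hum hub
    (hcN.mono hinI) hcβ.continuousOn hlow
    (fun t ht => by linarith [hB0' t ht])
    (fun x hx y hy => Zj_int hR hum hub hL M (hinI x hx) (hinI y hy))
    (fun t ht htI => Zj_zero hR hum hub hL hW hKacc le_rfl ht (hinI t htI)) hKτ
    (fun x y => Ds R.l R.b R.z0 u M τ x y
      - τ * iteratedDeriv (M + 1) ζ y / Wd R.l R.b M y)
    (fun x _ _ y hy => by
      have hyI := Ioo_subset_Icc_self hy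
      have hyn := hL.hβ y (hinI y hyI)
      exact (Ds_analytic hR.l hR.b hR.z0 hyn).sub
        ((analyticAt_const.mul (loc_iter_deriv hL.ζan (M + 1) (hinI y hyI)).1).div
          (Wd_analytic hR.l hR.b M y (mem_univ y)) hyn))
    (fun x _ hx y hy => by
      have h1 := Df_sub_Ds (a := R.l) (c := R.b) (ψ := R.z0) (u := u) hR.b hum hub hτ hb2 hlow'
        (fun i t ht => ⟨((hBi i t ht).1).trans (hBle i), ((hBi i t ht).2).trans (hBle i)⟩)
        (Ioo_subset_Icc_self hx) (Ioo_subset_Icc_self hy)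
      have h2 : 1 + τ * R.Zj u ζ (M + 1) y / Wd R.l R.b M y
          - (Ds R.l R.b R.z0 u M τ x y - τ * iteratedDeriv (M + 1) ζ y / Wd R.l R.b M y)
          = Df R.l R.b R.z0 u M τ y - Ds R.l R.b R.z0 u M τ x y := by
        have h3 : R.Zj u ζ (M + 1) y
            = Phi R.l R.b R.z0 u (M + 1) y - iteratedDeriv (M + 1) ζ y := rfl
        rw [h3]
        unfold Df
        ring
      rw [h2]
      refine h1.trans ?_
      exact mul_le_mul_of_nonneg_right (by linarith) (mass_nonneg hτ hub x y))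
    hsK hs'K hsU hs'U (hKacc s hsK) hss
    (by
      have h1 := (lt_div_iff₀ (by positivity : (0 : ℝ) < C1 * C1 + 1)).1 hlen
      nlinarith [sub_pos.2 hss])
  exact ⟨r, hrK, smoothNear_of_Ioo hsr hrs' contDiffOn_const hconst⟩

theorem q_two
    (hu : ∀ᵐ t, t ∈ Icc 0 T → u t * R.phi T u 0 t = |R.phi T u 0 t|)
    (hlow : ∀ t ∈ K, Wd R.l R.b M t ≠ 0 → ∀ j, 1 ≤ j → j < q →
      (D2^[j] (D2 R.H)) (t, R.z u 0 t) = 0)
    {t₁ : ℝ} (ht₁ : t₁ ∈ K) (ht₁T : t₁ ∈ Ioo 0 T) (hβ : Wd R.l R.b M t₁ ≠ 0)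
    (hq1 : (D2^[q] (D2 R.H)) (t₁, R.z u 0 t₁) ≠ 0) : ∃ r ∈ K, SmoothNear T u r := by
  obtain ⟨p, p', ζ, C, c0, ε, θ, Kt, ht₁I, hL⟩ :=
    exists_pack hR hum hub hq hKacc hlow ht₁ ht₁T hβ hq1
  by_cases hcase : ∃ t ∈ K, t ∈ Ioo p p' ∧ |R.Zj u ζ (M + 1) t| < |Wd R.l R.b M t|
  · obtain ⟨t₂, ht₂, ht₂I, hlt⟩ := hcase
    exact qtwo_case1 hR hum hub hT hq hW hKT hK0 hKacc hL hu ht₂ ht₂I hlt
  · push Not at hcase
    exact qtwo_case2 hR hum hub hT hq hW hKT hK0 hKacc hL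
      (fun t ht htI => le_antisymm (Zj_le hR hum hub hL hW hKacc ht htI) (hcase t ht htI))
      ht₁ ht₁I

end Pool.Agent.Lib.MP_28b8de_an
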