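import Pool.Agent.Lib.MP_28b8de_an.E.QDefs

/-!
MP_28b8de_an, module QZ (MSE-QZ): the chain `Z_j = z_j - ζ^{(j)}` on the local interval.

PROOFS.  z_j = Phi l b z0 u j: Phi_ae, Phi_ac, Phi_hasDeriv (Wd_j = 0 for j < M) of RelayDefs.lean; ζ^{(j)}:
loc_iter_deriv (LocVolterra.lean).  Zj_ac: [s,s'] ⊆ Ioo p p' compact, iteratedDeriv j ζ is C¹ on a neighbourhood
of it (analytic at each point): ContDiffOn ℝ 1 on the interval, `.absolutelyContinuousOnInterval` as in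
ac_of_analytic.  Zj_int: AbsolutelyContinuousOnInterval.integral_deriv_eq_sub and Zj_ae (as Phi_sub).
Zj_zero: Z_0 = 0 on K ∩ Ioo (Kζ); Z_j has derivative Z_{j+1} for j < M; zero_acc.  Zj_le: le_acc with
F = Z_M, A = Z_{M+1}, β = Wd M (Zj_int with j = M).
-/

namespace Pool.Agent.Lib.MP_28b8de_an

open Filter Topology Set MeasureTheory

variable {k : ℕ} {R : RD k} (hR : R.An) {u : ℝ → ℝ} (hum : Measurable u)
  (hub : ∀ t, |u t| ≤ 1) {T : ℝ} {M q : ℕ} {K : Set ℝ} {p p' : ℝ} {ζ : ℝ → ℝ}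
  {C c0 ε θ : ℝ} {Kt : ℝ → ℝ → ℝ} (hL : LocPack R T u M q K p p' ζ C c0 ε θ Kt)

include hR hum hub hL

theorem Zj_contOn (j : ℕ) : ContinuousOn (R.Zj u ζ j) (Ioo p p') := by
  have h1 := RD_z_cont hR hum hub j
  have h2 : ContinuousOn (iteratedDeriv j ζ) (Ioo p p') := fun t ht =>
    (loc_iter_deriv hL.ζan j ht).1.continuousAt.continuousWithinAt
  show ContinuousOn (fun t => R.z u j t - iteratedDeriv j ζ t) (Ioo p p')
  exact h1.continuousOn.sub h2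

theorem Zj_ae (j : ℕ) : ∀ᵐ t, t ∈ Ioo p p' →
    HasDerivAt (R.Zj u ζ j) (R.Zj u ζ (j + 1) t + Wd R.l R.b j t * u t) t := by
  filter_upwards [Phi_ae hR.l hR.b hR.z0 hum hub j] with t ht htI
  have h1 := ht.sub (loc_iter_deriv hL.ζan j htI).2
  have h2 : Phi R.l R.b R.z0 u (j + 1) t + Wd R.l R.b j t * u t - iteratedDeriv (j + 1) ζ t
      = R.Zj u ζ (j + 1) t + Wd R.l R.b j t * u t := by
    unfold RD.Zj RD.z
    ring
  rw [h2] at h1
  exact h1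

theorem Zj_ac (j : ℕ) {s s' : ℝ} (hs : s ∈ Ioo p p') (hs' : s' ∈ Ioo p p') :
    AbsolutelyContinuousOnInterval (R.Zj u ζ j) s s' := by
  have h1 := Phi_ac hR.l hR.b hR.z0 hum hub j s s'
  have h2 : AnalyticOnNhd ℝ (iteratedDeriv j ζ) (Ioo p p') := fun t ht =>
    (loc_iter_deriv hL.ζan j ht).1
  have h3 : ContDiffOn ℝ 1 (iteratedDeriv j ζ) (Ioo p p') := h2.contDiffOn isOpen_Ioo.uniqueDiffOn
  have h4 : uIcc s s' ⊆ Ioo p p' := by
    intro x hx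
    rcases mem_uIcc.1 hx with h | h
    · exact ⟨lt_of_lt_of_le hs.1 h.1, lt_of_le_of_lt h.2 hs'.2⟩
    · exact ⟨lt_of_lt_of_le hs'.1 h.1, lt_of_le_of_lt h.2 hs.2⟩
  exact h1.sub (h3.mono h4).absolutelyContinuousOnInterval

theorem Zj_int (j : ℕ) {s t : ℝ} (hs : s ∈ Ioo p p') (ht : t ∈ Ioo p p') :
    R.Zj u ζ j t - R.Zj u ζ j s
      = ∫ r in s..t, (R.Zj u ζ (j + 1) r + Wd R.l R.b j r * u r) := by
  rw [← (Zj_ac hR hum hub hL j hs ht).integral_deriv_eq_sub]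
  apply intervalIntegral.integral_congr_ae
  filter_upwards [Zj_ae hR hum hub hL j] with r hr hr2
  have hrI : r ∈ Ioo p p' := by
    rcases mem_uIcc.1 (uIoc_subset_uIcc hr2) with h | h
    · exact ⟨lt_of_lt_of_le hs.1 h.1, lt_of_le_of_lt h.2 ht.2⟩
    · exact ⟨lt_of_lt_of_le ht.1 h.1, lt_of_le_of_lt h.2 hs.2⟩
  exact (hr hrI).deriv

variable (hW : ∀ j < M, ∀ t, Wd R.l R.b j t = 0)

include hW in
theorem Zj_deriv {j : ℕ} (hj : j < M) {t : ℝ} (ht : t ∈ Ioo p p') :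
    HasDerivAt (R.Zj u ζ j) (R.Zj u ζ (j + 1) t) t := by
  exact (Phi_hasDeriv hR.l hR.b hR.z0 hum hub j (hW j hj) t).sub (loc_iter_deriv hL.ζan j ht).2

variable (hKacc : ∀ t ∈ K, AccPt t (𝓟 K))

include hW hKacc in
theorem Zj_zero {j : ℕ} (hj : j ≤ M) {t : ℝ} (ht : t ∈ K) (htI : t ∈ Ioo p p') :
    R.Zj u ζ j t = 0 := by
  induction j generalizing t with
  | zero =>
    show R.z u 0 t - iteratedDeriv 0 ζ t = 0
    rw [iteratedDeriv_zero, hL.Kζ t ht htI, sub_self]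
  | succ j ih =>
    exact zero_acc (fun s hs hsI => ih (by omega) hs hsI) ht htI (hKacc t ht)
      (Zj_deriv hR hum hub hL hW (by omega) htI)

include hW hKacc in
theorem Zj_le {t : ℝ} (ht : t ∈ K) (htI : t ∈ Ioo p p') :
    |R.Zj u ζ (M + 1) t| ≤ |Wd R.l R.b M t| := by
  exact le_acc hum hub (Zj_contOn hR hum hub hL (M + 1))
    (continuous_of_analytic (Wd_analytic hR.l hR.b M)).continuousOn
    (fun s hs t ht => Zj_int hR hum hub hL M hs ht)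
    (fun t ht htI => Zj_zero hR hum hub hL hW hKacc le_rfl ht htI) ht htI (hKacc t ht)

end Pool.Agent.Lib.MP_28b8de_an
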