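import Pool.Agent.Lib.MP_28b8de_an.E.QTwo
import Pool.Agent.Lib.MP_28b8de_an.E.QOneTwo

/-!
MP_28b8de_an, module RelayE (MSE-RelayE): the relay theorem for a nonlinear scalar output.

PROOF.  φ = R.phi T u 0, z = R.z u 0, h = D2 H.  T < 0: SwSet ⊆ Icc 0 T = ∅.  So T ≥ 0.
swE_zero: as `swSet_zero` (Relay.lean), only the continuity of φ is used (Phi_cont with u := R.v T u, RD_v_bdd).
Case A: ∑ l_i(t) b_i(s) = 0 for all t, s: then φ = ψ (ker_sum with a = b, c = -l, u = v), S ⊆ zeros of ψ in [0,T],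
finite (finite_zeros; hne gives a point where φ ≠ 0).
Case B: D2 h = 0 identically: h(t,z) = h(t,0) (derivative in z zero), v t = h(t,0) on [0,T], so on [0,T] φ equals the
analytic function ψ t - ∑ b_i t ∫_0^t l_i(s) h(s,0) ds; finite_zeros.
Case C: Wd l b j is not identically zero for some j (else ker_zero of Relay.lean gives Case A); M = least such j
(Nat.find, as in `relay`), β = Wd l b M.  Suppose SwSet T u uncountable, K perfect nonempty ⊆ SwSet T u
(exists_perfect_nonempty_of_isClosed_of_not_countable, isClosed_swSet).  φ = 0 on K.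
Claim: there are t ∈ K, β(t) ≠ 0, j ≥ 1 with D2^[j] h (t, z t) ≠ 0.  If not: for t ∈ K with β(t) ≠ 0 the analytic
function x ↦ D2 h (t,x) has all derivatives 0 at x = z t (iteratedDeriv j (fun x => F (t,x)) = fun x => D2^[j] F (t,x)),
so vanishes identically (analytic_eq_zero_of_iteratedDeriv); K ∩ {β ≠ 0} is infinite (K infinite: perfect nonempty;
β has finitely many zeros in [0,T]); for each x, t ↦ D2 h(t,x) is analytic with infinitely many zeros in [0,T], so
is zero (finite_zeros): D2 h = 0, Case B.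
q = least j ≥ 1 for which some t ∈ K, β(t) ≠ 0, has D2^[j] h(t,z t) ≠ 0 (Nat.find); t₁ such a point; by continuity
and accumulation we may take t₁ ∈ Ioo 0 T (points of K near t₁ have the same property: choose one different from
0 and T: acc_exists of Relay.lean, twice if necessary, or use an infinite neighbourhood).  q = 1: q_one;
q ≥ 2: q_two (hlow by minimality).  In both cases some r ∈ K is a smooth point, contradiction with K ⊆ SwSet.
-/

namespace Pool.Agent.Lib.MP_28b8de_an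

open Filter Topology Set MeasureTheory

/-- on the switching set a continuous switching function vanishes -/
theorem swE_zero {φ u : ℝ → ℝ} {T : ℝ} (hcont : Continuous φ)
    (hu : ∀ᵐ t, t ∈ Icc 0 T → u t * φ t = |φ t|) {t : ℝ}
    (ht : t ∈ SwSet T u) : φ t = 0 := by
  by_contra hne
  apply ht.2
  rcases lt_or_gt_of_ne hne with h | h
  · have h1 : {r | φ r < 0} ∈ 𝓝 t := (isOpen_lt hcont continuous_const).mem_nhds h
    obtain ⟨ε, hε, hsub⟩ := Metric.mem_nhds_iff.1 h1
    refine ⟨ε, hε, fun _ => -1, contDiffOn_const, ?_⟩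
    filter_upwards [hu] with r hr h2 h3
    have h4 : φ r < 0 := by
      apply hsub
      rw [Metric.mem_ball, Real.dist_eq, abs_lt]
      constructor <;> linarith [h2.1, h2.2]
    have h5 := hr h3
    rw [abs_of_neg h4] at h5
    have h6 : (u r + 1) * φ r = 0 := by linarith
    rcases mul_eq_zero.1 h6 with h7 | h7
    · linarith
    · exact absurd h7 h4.ne
  · have h1 : {r | 0 < φ r} ∈ 𝓝 t := (isOpen_lt continuous_const hcont).mem_nhds h
    obtain ⟨ε, hε, hsub⟩ := Metric.mem_nhds_iff.1 h1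
    refine ⟨ε, hε, fun _ => 1, contDiffOn_const, ?_⟩
    filter_upwards [hu] with r hr h2 h3
    have h4 : 0 < φ r := by
      apply hsub
      rw [Metric.mem_ball, Real.dist_eq, abs_lt]
      constructor <;> linarith [h2.1, h2.2]
    have h5 := hr h3
    rw [abs_of_pos h4] at h5
    have h6 : (u r - 1) * φ r = 0 := by linarith
    rcases mul_eq_zero.1 h6 with h7 | h7
    · linarith
    · exact absurd h7 h4.ne'

private theorem RelayE_slice {F : ℝ × ℝ → ℝ} (hF : AnalyticOnNhd ℝ F univ) (t x : ℝ) :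
    HasDerivAt (fun x => F (t, x)) (D2 F (t, x)) x := by
  have h1 : HasDerivAt (fun x : ℝ => (t, x)) ((0 : ℝ), (1 : ℝ)) x :=
    (hasDerivAt_const x t).prodMk (hasDerivAt_id x)
  exact (hF (t, x) (mem_univ _)).differentiableAt.hasFDerivAt.comp_hasDerivAt x h1

private theorem RelayE_iter {F : ℝ × ℝ → ℝ} (hF : AnalyticOnNhd ℝ F univ) (t : ℝ) (j : ℕ) :
    iteratedDeriv j (fun x => F (t, x)) = fun x => (D2^[j] F) (t, x) := by
  induction j with
  | zero => simp [iteratedDeriv_zero]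
  | succ j ih =>
    rw [iteratedDeriv_succ, ih, Function.iterate_succ_apply']
    ext x
    exact (RelayE_slice (D2_iter_an hF j) t x).deriv

private theorem RelayE_an1 {F : ℝ × ℝ → ℝ} (hF : AnalyticOnNhd ℝ F univ) (x : ℝ) :
    AnalyticOnNhd ℝ (fun t => F (t, x)) univ := by
  intro t _
  exact (hF (t, x) (mem_univ _)).comp (f := fun t : ℝ => (t, x))
    (analyticAt_id.prod analyticAt_const)

private theorem RelayE_an2 {F : ℝ × ℝ → ℝ} (hF : AnalyticOnNhd ℝ F univ) (t : ℝ) :
    AnalyticOnNhd ℝ (fun x => F (t, x)) univ := by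
  intro x _
  exact (hF (t, x) (mem_univ _)).comp (f := fun x : ℝ => (t, x))
    (analyticAt_const.prod analyticAt_id)

theorem relayE {k : ℕ} {R : RD k} (hR : R.An) {u : ℝ → ℝ} (hum : Measurable u)
    (hub : ∀ t, |u t| ≤ 1) {T : ℝ}
    (hu : ∀ᵐ t, t ∈ Icc 0 T → u t * R.phi T u 0 t = |R.phi T u 0 t|)
    (hne : (∃ t ∈ Icc 0 T, R.phi T u 0 t ≠ 0) ∨
      ((∃ t s, ∑ i, R.l i t * R.b i s ≠ 0) ∧ ∃ p, D2 (D2 R.H) p ≠ 0)) :
    (SwSet T u).Countable := by
  rcases lt_or_ge T 0 with hT | hT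
  · have h1 : SwSet T u ⊆ ∅ := by
      intro t ht
      exact absurd (ht.1.1.trans ht.1.2) (not_le.2 hT)
    exact countable_empty.mono h1
  have hh : AnalyticOnNhd ℝ (D2 R.H) univ := D2_an hR.H
  have hlneg : ∀ i, AnalyticOnNhd ℝ (fun t => - R.l i t) univ := fun i => (hR.l i).neg
  obtain ⟨B, hB⟩ := RD_v_bdd hR hum hub hT
  have hvc : Continuous (R.v T u) := RD_v_cont hR hum hub T
  have hφc : Continuous (R.phi T u 0) :=
    Phi_cont hR.b hlneg hR.ψ hvc.measurable hB 0
  have hφ0 : ∀ t ∈ SwSet T u, R.phi T u 0 t = 0 := fun t ht => swE_zero hφc hu ht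
  by_cases hker : ∀ t s, ∑ i, R.l i t * R.b i s = 0
  · -- Case A
    have hPhi : ∀ t, R.phi T u 0 t = R.ψ t := by
      intro t
      unfold RD.phi Phi
      simp only [iteratedDeriv_zero]
      rw [ker_sum (c := fun i t => - R.l i t) hlneg hvc.measurable hB t]
      have : (fun s => (∑ i, R.b i t * (- R.l i s)) * R.v T u s) = fun _ => (0 : ℝ) := by
        ext s
        have h1 : ∑ i, R.b i t * (- R.l i s) = - ∑ i, R.l i s * R.b i t := by
          rw [← Finset.sum_neg_distrib]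
          exact Finset.sum_congr rfl fun i _ => by ring
        rw [h1, hker s t, neg_zero, zero_mul]
      rw [this]
      simp
    have hψne : ∃ t, R.ψ t ≠ 0 := by
      rcases hne with ⟨t, _, ht⟩ | ⟨⟨t, s, hts⟩, _⟩
      · exact ⟨t, by rwa [hPhi t] at ht⟩
      · exact absurd (hker t s) hts
    apply ((finite_zeros hR.ψ hψne 0 T).subset _).countable
    intro t ht
    refine ⟨ht.1, ?_⟩
    rw [← hPhi t]
    exact hφ0 t ht
  by_cases hD : ∀ p, D2 (D2 R.H) p = 0
  · -- Case B
    have hconst : ∀ t x, D2 R.H (t, x) = D2 R.H (t, 0) := by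
      intro t x
      have h1 : ∀ y, HasDerivAt (fun x => D2 R.H (t, x)) 0 y := by
        intro y
        have := RelayE_slice hh t y
        rwa [hD (t, y)] at this
      exact is_const_of_deriv_eq_zero (f := fun x => D2 R.H (t, x))
        (fun y => (h1 y).differentiableAt) (fun y => (h1 y).deriv) x 0
    have hha : AnalyticOnNhd ℝ (fun s => D2 R.H (s, 0)) univ := RelayE_an1 hh 0
    have hψ2 : AnalyticOnNhd ℝ (fun t => R.ψ t + ∑ i, R.b i t *
        ∫ s in (0 : ℝ)..t, (- R.l i s) * D2 R.H (s, 0)) univ := by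
      intro t _
      apply (hR.ψ t (mem_univ t)).add
      apply Finset.analyticAt_fun_sum
      intro i _
      apply (hR.b i t (mem_univ t)).mul
      exact analyticOnNhd_integral (f := fun s => (- R.l i s) * D2 R.H (s, 0))
        (fun s _ => (hlneg i s (mem_univ s)).mul (hha s (mem_univ s))) 0 t (mem_univ t)
    have heq : ∀ t ∈ Icc 0 T, R.phi T u 0 t = R.ψ t + ∑ i, R.b i t *
        ∫ s in (0 : ℝ)..t, (- R.l i s) * D2 R.H (s, 0) := by
      intro t ht
      unfold RD.phi Phi xi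
      simp only [iteratedDeriv_zero]
      congr 1
      apply Finset.sum_congr rfl
      intro i _
      congr 1
      apply intervalIntegral.integral_congr
      intro s hs
      rw [uIcc_of_le ht.1] at hs
      show (- R.l i s) * R.v T u s = (- R.l i s) * D2 R.H (s, 0)
      rw [RD_v_eq ⟨hs.1, hs.2.trans ht.2⟩, hconst]
    have hne2 : ∃ t, R.ψ t + ∑ i, R.b i t *
        ∫ s in (0 : ℝ)..t, (- R.l i s) * D2 R.H (s, 0) ≠ 0 := by
      rcases hne with ⟨t, ht, ht0⟩ | ⟨_, p, hp⟩
      · exact ⟨t, by rwa [heq t ht] at ht0⟩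
      · exact absurd (hD p) hp
    apply ((finite_zeros hψ2 hne2 0 T).subset _).countable
    intro t ht
    refine ⟨ht.1, ?_⟩
    rw [← heq t ht.1]
    exact hφ0 t ht
  -- Case C
  have hWex : ∃ j, ∃ t, Wd R.l R.b j t ≠ 0 := by
    by_contra hcon
    push Not at hcon
    exact hker (ker_zero hR.l hcon)
  classical
  set M := Nat.find hWex with hM
  obtain ⟨t₀, ht₀⟩ := Nat.find_spec hWex
  have hW0 : ∀ j < M, ∀ t, Wd R.l R.b j t = 0 := by
    intro j hj t
    have := Nat.find_min hWex hj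
    push Not at this
    exact this t
  by_contra hunc
  obtain ⟨K, hKperf, hKne, hKsub⟩ :=
    exists_perfect_nonempty_of_isClosed_of_not_countable (isClosed_swSet T u) hunc
  have hKacc : ∀ t ∈ K, AccPt t (𝓟 K) := fun t ht => hKperf.acc t ht
  have hKT : K ⊆ Icc 0 T := fun t ht => (hKsub ht).1
  have hK0 : ∀ t ∈ K, R.phi T u 0 t = 0 := fun t ht => hφ0 t (hKsub ht)
  have hKinf : K.Infinite := by
    intro hKfin
    obtain ⟨t, ht⟩ := hKne
    have h1 : (K \ {t})ᶜ ∈ 𝓝 t := by
      apply (hKfin.subset sdiff_subset).isClosed.isOpen_compl.mem_nhds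
      simp
    obtain ⟨x, hxK, hxU, hxt⟩ := acc_exists (hKacc t ht) h1
    exact hxU ⟨hxK, hxt⟩
  have hβan := Wd_analytic hR.l hR.b M
  have hfin := finite_zeros hβan ⟨t₀, ht₀⟩ 0 T
  have hKβ : (K ∩ {t | Wd R.l R.b M t ≠ 0}).Infinite := by
    intro hf
    apply hKinf
    apply (hf.union hfin).subset
    intro t ht
    by_cases h0 : Wd R.l R.b M t = 0
    · exact Or.inr ⟨hKT ht, h0⟩
    · exact Or.inl ⟨ht, h0⟩
  have hclaim : ∃ j, 1 ≤ j ∧ ∃ t ∈ K, Wd R.l R.b M t ≠ 0 ∧
      (D2^[j] (D2 R.H)) (t, R.z u 0 t) ≠ 0 := by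
    by_contra hcon
    push Not at hcon
    apply hD
    have hDan : AnalyticOnNhd ℝ (D2 (D2 R.H)) univ := D2_an hh
    have h1 : ∀ t ∈ K, Wd R.l R.b M t ≠ 0 → ∀ x, D2 (D2 R.H) (t, x) = 0 := by
      intro t ht h0 x
      apply analytic_eq_zero_of_iteratedDeriv (f := fun x => D2 (D2 R.H) (t, x))
        (RelayE_an2 hDan t) (s := R.z u 0 t)
      intro j
      rw [RelayE_iter hDan t j]
      show (D2^[j] (D2 (D2 R.H))) (t, R.z u 0 t) = 0
      rw [← Function.iterate_succ_apply]
      exact hcon (j + 1) (by omega) t ht h0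
    rintro ⟨t, x⟩
    by_contra hp
    have h2 := finite_zeros (RelayE_an1 hDan x) ⟨t, hp⟩ 0 T
    apply hKβ
    apply h2.subset
    rintro r ⟨hrK, hr⟩
    exact ⟨hKT hrK, h1 r hrK hr x⟩
  set q := Nat.find hclaim with hq
  obtain ⟨hq1, t₁, ht₁, hβ₁, hqt₁⟩ := Nat.find_spec hclaim
  have hlow : ∀ t ∈ K, Wd R.l R.b M t ≠ 0 → ∀ j, 1 ≤ j → j < q →
      (D2^[j] (D2 R.H)) (t, R.z u 0 t) = 0 := by
    intro t ht h0 j hj1 hjq
    have := Nat.find_min hclaim hjq
    push Not at this
    exact this hj1 t ht h0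
  -- a point of the interior
  have hex : ∃ t ∈ K, t ∈ Ioo 0 T ∧ Wd R.l R.b M t ≠ 0 ∧
      (D2^[q] (D2 R.H)) (t, R.z u 0 t) ≠ 0 := by
    have hzc : Continuous (R.z u 0) := RD_z_cont hR hum hub 0
    have hgc : Continuous fun t => (D2^[q] (D2 R.H)) (t, R.z u 0 t) := by
      have h1 : Continuous (D2^[q] (D2 R.H)) := by
        rw [continuous_iff_continuousAt]
        exact fun p => (D2_iter_an hh q p (mem_univ p)).continuousAt
      exact h1.comp (continuous_id.prodMk hzc)
    have hU : {t | Wd R.l R.b M t ≠ 0} ∩ {t | (D2^[q] (D2 R.H)) (t, R.z u 0 t) ≠ 0} ∈ 𝓝 t₁ :=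
      inter_mem ((isOpen_ne_fun (continuous_of_analytic hβan) continuous_const).mem_nhds hβ₁)
        ((isOpen_ne_fun hgc continuous_const).mem_nhds hqt₁)
    have hTpos : 0 < T := by
      obtain ⟨x, hxK, _, hxt⟩ := acc_exists (hKacc t₁ ht₁) univ_mem
      rcases eq_or_lt_of_le hT with h0 | h0
      · exfalso
        apply hxt
        have h1 := hKT hxK
        have h2 := hKT ht₁
        rw [← h0] at h1 h2
        linarith [h1.1, h1.2, h2.1, h2.2]
      · exact h0
    by_cases hin : t₁ ∈ Ioo 0 T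
    · exact ⟨t₁, ht₁, hin, hβ₁, hqt₁⟩
    · have hV := inter_mem hU (Ioo_mem_nhds (show t₁ - T / 2 < t₁ by linarith)
        (show t₁ < t₁ + T / 2 by linarith))
      obtain ⟨x, hxK, ⟨⟨hx1, hx2⟩, hx3⟩, hxt⟩ := acc_exists (hKacc t₁ ht₁) hV
      refine ⟨x, hxK, ?_, hx1, hx2⟩
      have hxI := hKT hxK
      have htI := hKT ht₁
      have ht01 : t₁ = 0 ∨ t₁ = T := by
        by_contra hcon
        push Not at hcon
        exact hin ⟨lt_of_le_of_ne htI.1 (Ne.symm hcon.1), lt_of_le_of_ne htI.2 hcon.2⟩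
      rcases ht01 with h0 | h0
      · rw [h0] at hxt hx3
        exact ⟨lt_of_le_of_ne hxI.1 (Ne.symm hxt), by linarith [hx3.2]⟩
      · rw [h0] at hxt hx3
        exact ⟨by linarith [hx3.1], lt_of_le_of_ne hxI.2 hxt⟩
  obtain ⟨t₂, ht₂, ht₂T, hβ₂, hqt₂⟩ := hex
  have hcontra : ∃ r ∈ K, SmoothNear T u r := by
    rcases Nat.lt_or_ge q 2 with hq2 | hq2
    · have hq' : q = 1 := by omega
      rw [hq', Function.iterate_one] at hqt₂
      exact q_one hR hum hub hT hW0 hKT hK0 hKacc hu ht₂ ht₂T hβ₂ hqt₂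
    · exact q_two hR hum hub hT hq2 hW0 hKT hK0 hKacc hu hlow ht₂ ht₂T hβ₂ hqt₂
  obtain ⟨r, hrK, hr⟩ := hcontra
  exact (hKsub hrK).2 hr

end Pool.Agent.Lib.MP_28b8de_an
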