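import Pool.Agent.Lib.MP_28b8de_an.E.TrajE

/-!
MP_28b8de_an, module Sigma (MSE-Sigma): the extended trajectory continued from time s with constant
control τ.

PROOFS.  σ_an: components; analyticOnNhd_integral (Prim.lean) twice (the integrand r ↦ l_i(r) D2 H(r, zs r) is
analytic, a composition), shifting the base point of the integral is allowed; AnalyticAt for functions into
products and Fin k → ℝ (AnalyticAt.prod / analyticAt_pi or the like).  σ_self: integrals over s..s vanish.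
σ_near: bounds on [0,T]: |b_i|, |l_i| ≤ B; |xi b u i s| ≤ B T; so |z(r)|, |zs(r)| ≤ B' for s, r ∈ [0,T], and D2 H is
bounded by B'' and B''-Lipschitz in z on [0,T] × [-B',B'].  First estimate: componentwise, |τ| = 1.  Second:
|u - τ| = 1 - τ u (|u| ≤ 1, |τ| = 1), so |ξ_i(t) - ξ_i(s) - τ ∫_s^t b_i| ≤ B mass τ u s t, hence |z(r) - zs(r)| ≤
C mass τ u s r ≤ C mass τ u s t for r between s and t (`mass_mono`), and the P-components differ by
≤ B B'' C |t-s| mass ≤ C' mass.  (mass τ u s t = ∫ over uIoc s t of 1 - τ u, RelayTwo.lean.)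
-/

namespace Pool.Agent.Lib.MP_28b8de_an

open Filter Topology Set MeasureTheory

/-- the output along the continuation from time `s` with control `τ` -/
noncomputable def RD.zs {k : ℕ} (R : RD k) (u : ℝ → ℝ) (τ s r : ℝ) : ℝ :=
  R.z0 r + ∑ i, R.l i r * (xi R.b u i s + τ * ∫ x in s..r, R.b i x)

/-- the extended trajectory continued from time `s` with constant control `τ` -/
noncomputable def RD.σ {k : ℕ} (R : RD k) (T : ℝ) (u : ℝ → ℝ) (τ s t : ℝ) : EE k :=
  (t, fun i => xi R.b u i s + τ * ∫ x in s..t, R.b i x,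
    fun i => xi R.l (R.v T u) i s + ∫ r in s..t, R.l i r * D2 R.H (r, R.zs u τ s r))

variable {k : ℕ} {R : RD k} (hR : R.An) {u : ℝ → ℝ} (hum : Measurable u)
  (hub : ∀ t, |u t| ≤ 1) {T : ℝ} (hT : 0 ≤ T)

include hR in
private theorem sig_zs_an (τ s : ℝ) : AnalyticOnNhd ℝ (R.zs u τ s) univ := by
  intro r _
  unfold RD.zs
  apply AnalyticAt.add (hR.z0 r (mem_univ r))
  apply Finset.analyticAt_fun_sum
  intro i _
  apply AnalyticAt.mul (hR.l i r (mem_univ r))
  exact analyticAt_const.add (analyticAt_const.mul (analyticOnNhd_integral (hR.b i) s r (mem_univ r)))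

include hR in
private theorem sig_integrand_an (τ s : ℝ) (i : Fin k) :
    AnalyticOnNhd ℝ (fun r => R.l i r * D2 R.H (r, R.zs u τ s r)) univ := by
  intro r _
  apply AnalyticAt.mul (hR.l i r (mem_univ r))
  exact (D2_an hR.H (r, R.zs u τ s r) (mem_univ _)).comp
    (f := fun r => (r, R.zs u τ s r)) (analyticAt_id.prod (sig_zs_an hR τ s r (mem_univ r)))

include hR in
theorem σ_an (T τ s : ℝ) : AnalyticOnNhd ℝ (R.σ T u τ s) univ := by
  intro t _
  have h1 : AnalyticAt ℝ (fun t => fun i => xi R.b u i s + τ * ∫ x in s..t, R.b i x) t :=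
    AnalyticAt.pi fun i => analyticAt_const.add
      (analyticAt_const.mul (analyticOnNhd_integral (hR.b i) s t (mem_univ t)))
  have h2 : AnalyticAt ℝ (fun t => fun i =>
      xi R.l (R.v T u) i s + ∫ r in s..t, R.l i r * D2 R.H (r, R.zs u τ s r)) t :=
    AnalyticAt.pi fun i => analyticAt_const.add
      (analyticOnNhd_integral (sig_integrand_an hR τ s i) s t (mem_univ t))
  exact analyticAt_id.prod (h1.prod h2)

theorem σ_self (R : RD k) (T : ℝ) (u : ℝ → ℝ) (τ s : ℝ) : R.σ T u τ s s = R.γ T u s := by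
  unfold RD.σ RD.γ
  simp only [intervalIntegral.integral_same, mul_zero, add_zero]

private theorem sig_mem {s t r : ℝ} (hs : s ∈ Icc 0 T) (ht : t ∈ Icc 0 T) (hr : r ∈ uIcc s t) :
    r ∈ Icc 0 T := by
  rw [mem_uIcc] at hr
  rcases hr with h | h
  · exact ⟨hs.1.trans h.1, h.2.trans ht.2⟩
  · exact ⟨ht.1.trans h.1, h.2.trans hs.2⟩

private theorem sig_bdd {f : ℝ → ℝ} (hf : Continuous f) (T : ℝ) :
    ∃ B : ℝ, 0 ≤ B ∧ ∀ t ∈ Icc 0 T, |f t| ≤ B := by
  obtain ⟨K, hK⟩ := (isCompact_Icc (a := 0) (b := T)).exists_bound_of_continuousOn hf.continuousOn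
  exact ⟨|K|, abs_nonneg K, fun t ht => (hK t ht).trans (le_abs_self K)⟩

include hR in
private theorem sig_bounds (T : ℝ) : ∃ B : ℝ, 0 ≤ B ∧ (∀ i, ∀ t ∈ Icc 0 T, |R.b i t| ≤ B) ∧
    (∀ i, ∀ t ∈ Icc 0 T, |R.l i t| ≤ B) ∧ ∀ t ∈ Icc 0 T, |R.z0 t| ≤ B := by
  choose Bb hb0 hb using fun i => sig_bdd (continuous_of_analytic (hR.b i)) T
  choose Bl hl0 hl using fun i => sig_bdd (continuous_of_analytic (hR.l i)) T
  obtain ⟨Bz, hz0, hz⟩ := sig_bdd (continuous_of_analytic hR.z0) T
  have h1 : ∀ i, Bb i ≤ ∑ i, Bb i := fun i =>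
    Finset.single_le_sum (fun j _ => hb0 j) (Finset.mem_univ i)
  have h2 : ∀ i, Bl i ≤ ∑ i, Bl i := fun i =>
    Finset.single_le_sum (fun j _ => hl0 j) (Finset.mem_univ i)
  have h3 : 0 ≤ ∑ i, Bb i := Finset.sum_nonneg fun j _ => hb0 j
  have h4 : 0 ≤ ∑ i, Bl i := Finset.sum_nonneg fun j _ => hl0 j
  refine ⟨(∑ i, Bb i) + (∑ i, Bl i) + Bz, by positivity, ?_, ?_, ?_⟩
  · intro i t ht
    linarith [hb i t ht, h1 i]
  · intro i t ht
    linarith [hl i t ht, h2 i]
  · intro t ht
    linarith [hz t ht]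

include hR in
private theorem sig_D2 (T M : ℝ) : ∃ B : ℝ, 0 ≤ B ∧
    (∀ r ∈ Icc 0 T, ∀ y ∈ Icc (-M) M, |D2 R.H (r, y)| ≤ B) ∧
    ∀ r ∈ Icc 0 T, ∀ y ∈ Icc (-M) M, ∀ y' ∈ Icc (-M) M,
      |D2 R.H (r, y) - D2 R.H (r, y')| ≤ B * |y - y'| := by
  have hA : AnalyticOnNhd ℝ (D2 R.H) univ := D2_an hR.H
  have hc : Continuous (D2 R.H) := by
    rw [continuous_iff_continuousAt]
    exact fun p => (hA p (mem_univ p)).continuousAt
  have hc' : Continuous (fderiv ℝ (D2 R.H)) := by
    rw [continuous_iff_continuousAt]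
    exact fun p => (hA.fderiv p (mem_univ p)).continuousAt
  have hK : IsCompact (Icc (0 : ℝ) T ×ˢ Icc (-M) M) := isCompact_Icc.prod isCompact_Icc
  obtain ⟨K1, hK1⟩ := hK.exists_bound_of_continuousOn hc.continuousOn
  obtain ⟨K2, hK2⟩ := hK.exists_bound_of_continuousOn hc'.continuousOn
  have hcx : Convex ℝ (Icc (0 : ℝ) T ×ˢ Icc (-M) M) := (convex_Icc 0 T).prod (convex_Icc (-M) M)
  refine ⟨|K1| + |K2|, by positivity, ?_, ?_⟩
  · intro r hr y hy
    have h1 := hK1 (r, y) ⟨hr, hy⟩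
    rw [Real.norm_eq_abs] at h1
    linarith [le_abs_self K1, abs_nonneg K2]
  · intro r hr y hy y' hy'
    have h1 := hcx.norm_image_sub_le_of_norm_fderiv_le (𝕜 := ℝ) (f := D2 R.H) (C := |K2|)
      (fun x _ => (hA x (mem_univ x)).differentiableAt)
      (fun x hx => (hK2 x hx).trans (le_abs_self K2)) (x := (r, y')) (y := (r, y))
      ⟨hr, hy'⟩ ⟨hr, hy⟩
    have h2 : ‖((r, y) : ℝ × ℝ) - (r, y')‖ = |y - y'| := by
      rw [Prod.mk_sub_mk, sub_self, Prod.norm_mk, norm_zero, Real.norm_eq_abs]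
      exact max_eq_right (abs_nonneg _)
    rw [h2, Real.norm_eq_abs] at h1
    have h3 : |K2| * |y - y'| ≤ (|K1| + |K2|) * |y - y'| := by
      apply mul_le_mul_of_nonneg_right _ (abs_nonneg _)
      linarith [abs_nonneg K1]
    exact h1.trans h3

private theorem sig_abs_sub {τ : ℝ} (hτ : |τ| = 1) (hub : ∀ t, |u t| ≤ 1) (r : ℝ) :
    |u r - τ| = 1 - τ * u r := by
  have hττ : τ * τ = 1 := by
    have := congrArg (fun x => x * x) hτ
    simp only [abs_mul_abs_self, mul_one] at this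
    exact this
  have h1 : u r - τ = -(τ * (1 - τ * u r)) := by
    linear_combination (-(u r)) * hττ
  rw [h1, abs_neg, abs_mul, hτ, one_mul]
  exact abs_of_nonneg (one_sub_nonneg hτ hub r)

private theorem sig_int_le {c s t : ℝ} {f : ℝ → ℝ}
    (hf : ∀ r ∈ uIcc s t, |f r| ≤ c) : |∫ r in s..t, f r| ≤ c * |t - s| := by
  have h1 := intervalIntegral.norm_integral_le_of_norm_le_const (f := f) (a := s) (b := t) (C := c)
    (fun r hr => by
      rw [Real.norm_eq_abs]
      exact hf r (uIoc_subset_uIcc hr))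
  rwa [Real.norm_eq_abs] at h1

include hR hum hub in
/-- the first difference is bounded by the mass -/
private theorem sig_xi {τ : ℝ} (hτ : |τ| = 1) {B : ℝ}
    (hB : ∀ i, ∀ t ∈ Icc 0 T, |R.b i t| ≤ B) (i : Fin k) {s t : ℝ} (hs : s ∈ Icc 0 T)
    (ht : t ∈ Icc 0 T) :
    |xi R.b u i t - (xi R.b u i s + τ * ∫ x in s..t, R.b i x)| ≤ B * mass τ u s t := by
  have h1 : xi R.b u i t - (xi R.b u i s + τ * ∫ x in s..t, R.b i x)
      = ∫ r in s..t, R.b i r * (u r - τ) := by
    rw [← sub_sub, xi_sub hR.b hum hub i s t, ← intervalIntegral.integral_const_mul,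
      ← intervalIntegral.integral_sub]
    · congr 1
      ext r
      ring
    · exact intInt (continuous_of_analytic (hR.b i)) hum hub s t
    · exact ((continuous_of_analytic (hR.b i)).intervalIntegrable s t).const_mul τ
  rw [h1]
  have h4 := intervalIntegral.norm_integral_le_integral_norm_uIoc
    (f := fun r => R.b i r * (u r - τ)) (a := s) (b := t) (μ := volume)
  rw [Real.norm_eq_abs] at h4
  refine h4.trans ?_
  unfold mass
  rw [← integral_const_mul]
  apply setIntegral_mono_on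
  · have h5 : IntervalIntegrable (fun r => R.b i r * (u r - τ)) volume s t := by
      have h6 := (intInt (continuous_of_analytic (hR.b i)) hum hub s t).sub
        (((continuous_of_analytic (hR.b i)).intervalIntegrable s t).const_mul τ)
      apply h6.congr
      intro r _
      ring
    rw [intervalIntegrable_iff] at h5
    exact h5.norm
  · exact (one_sub_integrable hτ hum hub s t).const_mul B
  · exact measurableSet_uIoc
  · intro r hr
    rw [Real.norm_eq_abs, abs_mul, sig_abs_sub hτ hub r]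
    exact mul_le_mul_of_nonneg_right (hB i r (sig_mem hs ht (uIoc_subset_uIcc hr)))
      (one_sub_nonneg hτ hub r)

include hR hum hub hT in
theorem σ_near {τ : ℝ} (hτ : |τ| = 1) : ∃ C : ℝ, 0 ≤ C ∧ ∀ s ∈ Icc 0 T, ∀ t ∈ Icc 0 T,
    ‖R.σ T u τ s t - R.γ T u s‖ ≤ C * |t - s| ∧
      ‖R.γ T u t - R.σ T u τ s t‖ ≤ C * mass τ u s t := by
  obtain ⟨B, hB0, hBb, hBl, hBz⟩ := sig_bounds hR T
  set M : ℝ := B + k * (B * (B * T + B * T)) with hM
  have hk0 : (0 : ℝ) ≤ k := Nat.cast_nonneg k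
  obtain ⟨D, hD0, hD1, hD2⟩ := sig_D2 hR T M
  have hxi : ∀ i, ∀ s ∈ Icc 0 T, |xi R.b u i s| ≤ B * T := by
    intro i s hs
    unfold xi
    have h1 := sig_int_le (f := fun r => R.b i r * u r) (c := B) (s := 0) (t := s)
      (fun r hr => by
        rw [abs_mul]
        calc |R.b i r| * |u r| ≤ B * 1 := by
              apply mul_le_mul (hBb i r (sig_mem ⟨le_refl 0, hT⟩ hs hr)) (hub r) (abs_nonneg _) hB0
          _ = B := mul_one B)
    refine h1.trans ?_
    rw [sub_zero, abs_of_nonneg hs.1]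
    exact mul_le_mul_of_nonneg_left hs.2 hB0
  have hdist : ∀ s ∈ Icc 0 T, ∀ t ∈ Icc 0 T, |t - s| ≤ T := by
    intro s hs t ht
    rw [abs_le]
    constructor <;> linarith [hs.1, hs.2, ht.1, ht.2]
  have hbi : ∀ i, ∀ s ∈ Icc 0 T, ∀ t ∈ Icc 0 T, |∫ x in s..t, R.b i x| ≤ B * |t - s| := by
    intro i s hs t ht
    exact sig_int_le fun r hr => hBb i r (sig_mem hs ht hr)
  have hsum : ∀ (r : ℝ) (y : Fin k → ℝ), r ∈ Icc 0 T → (∀ i, |y i| ≤ B * T + B * T) →
      |R.z0 r + ∑ i, R.l i r * y i| ≤ M := by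
    intro r y hr hy
    have h1 : |∑ i, R.l i r * y i| ≤ ∑ _i : Fin k, B * (B * T + B * T) := by
      refine (Finset.abs_sum_le_sum_abs _ _).trans (Finset.sum_le_sum fun i _ => ?_)
      rw [abs_mul]
      exact mul_le_mul (hBl i r hr) (hy i) (abs_nonneg _) hB0
    rw [Finset.sum_const, Finset.card_univ, Fintype.card_fin, nsmul_eq_mul] at h1
    calc |R.z0 r + ∑ i, R.l i r * y i| ≤ |R.z0 r| + |∑ i, R.l i r * y i| := abs_add_le _ _
      _ ≤ B + k * (B * (B * T + B * T)) := add_le_add (hBz r hr) h1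
      _ = M := rfl
  have hBT : 0 ≤ B * T := mul_nonneg hB0 hT
  have hzs : ∀ s ∈ Icc 0 T, ∀ r ∈ Icc 0 T, R.zs u τ s r ∈ Icc (-M) M := by
    intro s hs r hr
    rw [mem_Icc, ← abs_le]
    unfold RD.zs
    apply hsum r _ hr
    intro i
    refine (abs_add_le _ _).trans (add_le_add (hxi i s hs) ?_)
    rw [abs_mul, hτ, one_mul]
    exact (hbi i s hs r hr).trans (mul_le_mul_of_nonneg_left (hdist s hs r hr) hB0)
  have hzeq : ∀ r, R.z u 0 r = R.z0 r + ∑ i, R.l i r * xi R.b u i r := by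
    intro r
    unfold RD.z Phi
    simp only [iteratedDeriv_zero]
  have hz : ∀ r ∈ Icc 0 T, R.z u 0 r ∈ Icc (-M) M := by
    intro r hr
    rw [mem_Icc, ← abs_le, hzeq r]
    apply hsum r _ hr
    intro i
    linarith [hxi i r hr]
  have hzd : ∀ s ∈ Icc 0 T, ∀ t ∈ Icc 0 T, ∀ r ∈ uIcc s t,
      |R.z u 0 r - R.zs u τ s r| ≤ k * (B * (B * mass τ u s t)) := by
    intro s hs t ht r hr
    have hr' := sig_mem hs ht hr
    have h1 : R.z u 0 r - R.zs u τ s r
        = ∑ i, R.l i r * (xi R.b u i r - (xi R.b u i s + τ * ∫ x in s..r, R.b i x)) := by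
      rw [hzeq r]
      unfold RD.zs
      rw [add_sub_add_left_eq_sub, ← Finset.sum_sub_distrib]
      exact Finset.sum_congr rfl fun i _ => by ring
    rw [h1]
    have h2 : ∀ i : Fin k, |R.l i r * (xi R.b u i r - (xi R.b u i s + τ * ∫ x in s..r, R.b i x))|
        ≤ B * (B * mass τ u s t) := by
      intro i
      rw [abs_mul]
      apply mul_le_mul (hBl i r hr') _ (abs_nonneg _) hB0
      refine (sig_xi hR hum hub hτ hBb i hs hr').trans ?_
      exact mul_le_mul_of_nonneg_left (mass_mono hτ hum hub hr) hB0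
    refine (Finset.abs_sum_le_sum_abs _ _).trans ((Finset.sum_le_sum fun i _ => h2 i).trans ?_)
    rw [Finset.sum_const, Finset.card_univ, Fintype.card_fin, nsmul_eq_mul]
  obtain ⟨Kv, hKv⟩ := RD_v_bdd hR hum hub hT
  have hvc : Continuous (R.v T u) := RD_v_cont hR hum hub T
  refine ⟨1 + B + B * D + T * (B * (D * (k * (B * B)))), by positivity,
    fun s hs t ht => ⟨?_, ?_⟩⟩
  · have hts : 0 ≤ |t - s| := abs_nonneg _
    have hc0 : 0 ≤ (1 + B + B * D + T * (B * (D * (k * (B * B))))) * |t - s| := by positivity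
    have e1 : 0 ≤ B * |t - s| := by positivity
    have e2 : 0 ≤ B * D * |t - s| := by positivity
    have e3 : 0 ≤ T * (B * (D * (k * (B * B)))) * |t - s| := by positivity
    refine norm_prod_le_iff.2 ⟨?_, norm_prod_le_iff.2
      ⟨(pi_norm_le_iff_of_nonneg hc0).2 fun i => ?_, (pi_norm_le_iff_of_nonneg hc0).2 fun i => ?_⟩⟩
    · show |t - s| ≤ _
      linarith
    · show |xi R.b u i s + τ * (∫ x in s..t, R.b i x) - xi R.b u i s| ≤ _
      rw [add_sub_cancel_left, abs_mul, hτ, one_mul]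
      have := hbi i s hs t ht
      linarith
    · show |xi R.l (R.v T u) i s + (∫ r in s..t, R.l i r * D2 R.H (r, R.zs u τ s r))
        - xi R.l (R.v T u) i s| ≤ _
      rw [add_sub_cancel_left]
      have h1 := sig_int_le (f := fun r => R.l i r * D2 R.H (r, R.zs u τ s r)) (c := B * D)
        (s := s) (t := t) (fun r hr => by
          have hr' := sig_mem hs ht hr
          rw [abs_mul]
          exact mul_le_mul (hBl i r hr') (hD1 r hr' _ (hzs s hs r hr')) (abs_nonneg _) hB0)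
      linarith
  · have hm0 : 0 ≤ mass τ u s t := mass_nonneg hτ hub s t
    have hc0 : 0 ≤ (1 + B + B * D + T * (B * (D * (k * (B * B))))) * mass τ u s t := by
      positivity
    have e1 : 0 ≤ B * mass τ u s t := by positivity
    have e2 : 0 ≤ B * D * mass τ u s t := by positivity
    have e3 : 0 ≤ T * (B * (D * (k * (B * B)))) * mass τ u s t := by positivity
    refine norm_prod_le_iff.2 ⟨?_, norm_prod_le_iff.2
      ⟨(pi_norm_le_iff_of_nonneg hc0).2 fun i => ?_, (pi_norm_le_iff_of_nonneg hc0).2 fun i => ?_⟩⟩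
    · show |t - t| ≤ _
      rw [sub_self, abs_zero]
      exact hc0
    · show |xi R.b u i t - (xi R.b u i s + τ * ∫ x in s..t, R.b i x)| ≤ _
      have := sig_xi hR hum hub hτ hBb i hs ht
      linarith
    · show |xi R.l (R.v T u) i t - (xi R.l (R.v T u) i s
        + ∫ r in s..t, R.l i r * D2 R.H (r, R.zs u τ s r))| ≤ _
      have h1 : xi R.l (R.v T u) i t - (xi R.l (R.v T u) i s
          + ∫ r in s..t, R.l i r * D2 R.H (r, R.zs u τ s r))
          = ∫ r in s..t, (R.l i r * R.v T u r - R.l i r * D2 R.H (r, R.zs u τ s r)) := by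
        rw [← sub_sub, xi_sub hR.l hvc.measurable hKv i s t, ← intervalIntegral.integral_sub]
        · exact intInt (continuous_of_analytic (hR.l i)) hvc.measurable hKv s t
        · exact (continuous_of_analytic (sig_integrand_an hR τ s i)).intervalIntegrable s t
      rw [h1]
      have h2 := sig_int_le
        (f := fun r => R.l i r * R.v T u r - R.l i r * D2 R.H (r, R.zs u τ s r))
        (c := B * (D * (k * (B * (B * mass τ u s t))))) (s := s) (t := t) (fun r hr => by
          have hr' := sig_mem hs ht hr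
          rw [← mul_sub, abs_mul, RD_v_eq hr']
          apply mul_le_mul (hBl i r hr') _ (abs_nonneg _) hB0
          refine (hD2 r hr' _ (hz r hr') _ (hzs s hs r hr')).trans ?_
          exact mul_le_mul_of_nonneg_left (hzd s hs t ht r hr) hD0)
      have h3 : B * (D * (k * (B * (B * mass τ u s t)))) * |t - s|
          ≤ B * (D * (k * (B * (B * mass τ u s t)))) * T :=
        mul_le_mul_of_nonneg_left (hdist s hs t ht) (by positivity)
      have h4 : B * (D * (k * (B * (B * mass τ u s t)))) * T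
          = T * (B * (D * (k * (B * B)))) * mass τ u s t := by ring
      linarith

end Pool.Agent.Lib.MP_28b8de_an
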