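import Pool.Agent.Lib.MP_28b8de_an.E.CoreE3
import Pool.Agent.Lib.MP_28b8de_an.E.ExpandE
import Pool.Agent.Lib.MP_28b8de_an.Transfer

/-!
MP_28b8de_an, module TransferE: replacing the control of a linear system with a nonlinear scalar
output.
-/

namespace Pool.Agent.Lib.MP_28b8de_an

open Filter Topology Set MeasureTheory

/-- the free part of the y-equation along the x-trajectory `X` -/
noncomputable def PE {k m : ℕ} (H : Fin m → ℝ × ℝ → ℝ) (lo : Fin k → ℝ → ℝ)
    (lin : Fin m → Fin k → ℝ → ℝ) (X : Fin k → ℝ → ℝ) (i : Fin m) (s : ℝ) : ℝ :=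
  H i (s, ∑ a, lo a s * X a s) + ∑ a, lin i a s * X a s

section

variable {k m : ℕ} {H : Fin m → ℝ × ℝ → ℝ} {lo : Fin k → ℝ → ℝ}
  {lin : Fin m → Fin k → ℝ → ℝ} {X : Fin k → ℝ → ℝ}

theorem PE_cont (hH : ∀ i, AnalyticOnNhd ℝ (H i) univ) (hlo : ∀ a, Continuous (lo a))
    (hlin : ∀ i a, Continuous (lin i a)) (hX : ∀ a, Continuous (X a)) (i : Fin m) :
    Continuous (PE H lo lin X i) := by
  unfold PE
  have h1 : Continuous (H i) := by
    rw [continuous_iff_continuousAt]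
    exact fun p => (hH i p (mem_univ p)).continuousAt
  apply Continuous.add
  · apply h1.comp
    apply continuous_id.prodMk
    apply continuous_finsetSum
    intro a _
    exact (hlo a).mul (hX a)
  · apply continuous_finsetSum
    intro a _
    exact (hlin i a).mul (hX a)

theorem PE_smooth {I : Set ℝ} (hH : ∀ i, AnalyticOnNhd ℝ (H i) univ)
    (hlo : ∀ a, ContDiffOn ℝ (⊤ : ℕ∞) (lo a) I)
    (hlin : ∀ i a, ContDiffOn ℝ (⊤ : ℕ∞) (lin i a) I)
    (hX : ∀ a, ContDiffOn ℝ (⊤ : ℕ∞) (X a) I) (i : Fin m) :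
    ContDiffOn ℝ (⊤ : ℕ∞) (PE H lo lin X i) I := by
  unfold PE
  have h1 : ContDiff ℝ (⊤ : ℕ∞) (H i) := by
    rw [← contDiffOn_univ]
    exact (hH i).contDiffOn uniqueDiffOn_univ
  apply ContDiffOn.add
  · apply h1.comp_contDiffOn
    apply contDiff_id.contDiffOn.prodMk
    apply ContDiffOn.sum
    intro a _
    exact (hlo a).mul (hX a)
  · apply ContDiffOn.sum
    intro a _
    exact (hlin i a).mul (hX a)

end

/-- **Transfer.** The control of a linear system with a nonlinear scalar output can be replaced,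
keeping the end point, by a control with a countable switching set. -/
theorem transferE {k m : ℕ} {A : Matrix (Fin k) (Fin k) ℝ} {M N : Fin k → Fin k → ℝ → ℝ}
    (hF : FlowData A M N) {A' : Matrix (Fin m) (Fin m) ℝ} {M' N' : Fin m → Fin m → ℝ → ℝ}
    (hF' : FlowData A' M' N')
    {c b : Fin k → ℝ → ℝ} (hc : ∀ i, AnalyticOnNhd ℝ (c i) univ)
    (hb : ∀ i, AnalyticOnNhd ℝ (b i) univ)
    {lo : Fin k → ℝ → ℝ} (hlo : ∀ a, AnalyticOnNhd ℝ (lo a) univ)
    {H : Fin m → ℝ × ℝ → ℝ} (hH : ∀ i, AnalyticOnNhd ℝ (H i) univ)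
    {lin : Fin m → Fin k → ℝ → ℝ} (hlin : ∀ i a, AnalyticOnNhd ℝ (lin i a) univ)
    {ka : Fin m → ℝ → ℝ} (hka : ∀ i, AnalyticOnNhd ℝ (ka i) univ)
    (x0 : Fin k → ℝ) (y0 : Fin m → ℝ) (T : ℝ) {u : ℝ → ℝ} (hum : Measurable u)
    (hub : ∀ t, |u t| ≤ 1) :
    ∃ v : ℝ → ℝ, Measurable v ∧ (∀ t, |v t| ≤ 1) ∧ (SwSet T v).Countable ∧
      (∀ a, vc M N x0 c b v a T = vc M N x0 c b u a T) ∧
      ∀ i, vc M' N' y0 (PE H lo lin (vc M N x0 c b v)) ka v i T
        = vc M' N' y0 (PE H lo lin (vc M N x0 c b u)) ka u i T := by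
  obtain ⟨l', z0', H', gs, C0, hl', hz0', hH', hgs, hexp⟩ :=
    expandE hF.Man hF.Nan hF'.Nan hc hb hlo hH hlin hka x0 T
  set bt : Fin k → ℝ → ℝ := fun i s => ∑ a, N i a s * b a s with hbt
  have hbt' : ∀ i, AnalyticOnNhd ℝ (bt i) univ := by
    intro i t ht
    apply Finset.analyticAt_fun_sum
    intro a _
    exact (hF.Nan i a t ht).mul (hb a t ht)
  set S : CD k m (k + m) := ⟨l', bt, z0', H', Fin.append bt gs⟩ with hS
  have hSan : S.An := by
    refine ⟨hl', hbt', hz0', hH', ?_⟩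
    intro i
    refine Fin.addCases (fun i => ?_) (fun i => ?_) i
    · show AnalyticOnNhd ℝ (Fin.append bt gs (Fin.castAdd m i)) univ
      rw [Fin.append_left]
      exact hbt' i
    · show AnalyticOnNhd ℝ (Fin.append bt gs (Fin.natAdd k i)) univ
      rw [Fin.append_right]
      exact hgs i
  obtain ⟨v, hvU, hvS, hvg, hvH⟩ := coreE (T := T) hSan (u := ⟨u, hum, 1, hub⟩) hub
  have hvx : ∀ i, xi bt v.1 i T = xi bt u i T := by
    intro i
    have h1 := hvg (Fin.castAdd m i)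
    have h2 : S.gs (Fin.castAdd m i) = bt i := Fin.append_left bt gs i
    rw [h2] at h1
    exact h1
  have hvg' : ∀ j, ∫ s in (0 : ℝ)..T, gs j s * v.1 s = ∫ s in (0 : ℝ)..T, gs j s * u s := by
    intro j
    have h1 := hvg (Fin.natAdd k j)
    have h2 : S.gs (Fin.natAdd k j) = gs j := Fin.append_right bt gs j
    rw [h2] at h1
    exact h1
  refine ⟨v.1, BM_meas v, hvU, hvS, ?_, ?_⟩
  · intro a
    rw [vc_end hF.Nan hc hb x0 (BM_meas v) hvU, vc_end hF.Nan hc hb x0 hum hub]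
    apply Finset.sum_congr rfl
    intro j _
    rw [hvx j]
  · intro i
    have h1 : ∀ (w : ℝ → ℝ) (i : Fin m), vc M' N' y0 (PE H lo lin (vc M N x0 c b w)) ka w i T
        = ∑ j, M' i j T * (y0 j + ∫ s in (0 : ℝ)..T, ∑ i, N' j i s *
          ((H i (s, ∑ a, lo a s * vc M N x0 c b w a s)
              + ∑ a, lin i a s * vc M N x0 c b w a s) + w s * ka i s)) := fun _ _ => rfl
    rw [h1, h1]
    apply Finset.sum_congr rfl
    intro j _
    rw [hexp v.1 (BM_meas v) hvU j, hexp u hum hub j, hvg' j]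
    congr 3
    congr 1
    exact hvH j

end Pool.Agent.Lib.MP_28b8de_an
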