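import Pool.Agent.Lib.MP_28b8de_an.E.Leib

/-!
MP_28b8de_an, module VField (MSE-VField): Lie derivatives of the switching function on the
extended state space.

Notation: X = R.X, Y_m = R.Y m, F_j = R.F j = LX^[j] F0, S_m(t) = ∑ i, b_i^{(m)}(t) l_i(t), β = Wd l b M.
By `leib`: S_m = 0 identically for m < M, S_M = (-1)^M β.
PROOF.
(1) F_an: X, Y_m, F0 are analytic; LX of an analytic function is analytic (AnalyticOnNhd.fderiv, clm_apply).
(2) commutator: for G analytic and m: LY m (LX G) = LX (LY m G) - LY (m+1) G + E_m, where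
  E_m(e) = fderiv G e (0, 0, fun i => l_i(t) · D2 (D2 H)(t, zh e) · S_m(t)), t = e.1.
  Indeed LY m (LX G)(e) = D²G(e)(Y_m e, X e) + DG(e)(DX(e) Y_m(e)), LX (LY m G)(e) = D²G(e)(X e, Y_m e)
  + DG(e)(DY_m(e) X(e)); D²G symmetric (`ContDiffAt.isSymmSndFDerivAt` or `second_derivative_symmetric`);
  DY_m(e) X(e) = Y_{m+1}(e) (the t-component of X is 1); DX(e) Y_m(e) = (0, 0, (l_i D2(D2 H)(t,zh e) S_m)_i),
  since the derivative of zh along Y_m is ∑ l_i b_i^{(m)} = S_m.  In particular E_m = 0 for m < M.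
(3) for j ≤ M: F_j(t,ξ,P) = ψ^{(j)}(t) - ∑ b_i^{(j)}(t) P_i (induction: LX of it is
  ψ^{(j+1)} - ∑ b_i^{(j+1)} P_i - S_j D2 H(t, zh), and S_j = 0 for j < M); so LY m F_j = 0 for all m, j ≤ M, and
  F_{M+1} = ψ^{(M+1)} - ∑ b_i^{(M+1)} P_i - (-1)^M β D2 H(t,zh), so
  LY m F_{M+1} = - (-1)^M β D2(D2 H)(t,zh) S_m: zero for m < M, and - β² D2(D2 H)(t,zh) for m = M.
(4) T(m,j) := LY m F_j.  For m < M, by (2), T(m,j+1) = LX T(m,j) - T(m+1,j).  By induction on j ≥ M+1: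
  T(m,j) = 0 for m + j < 2M+1, m ≤ M, and T(m, 2M+1-m) = (-1)^(M-m) (- β² D2(D2 H)(t,zh)).
  With m = 0: T(0,j) = 0 for j < 2M+1 and T(0,2M+1) = (-1)^(M+1) β² D2(D2 H)(t,zh).
-/

namespace Pool.Agent.Lib.MP_28b8de_an

open Filter Topology Set MeasureTheory

variable {k : ℕ} {R : RD k}

/-! ### auxiliary facts -/

private theorem vf_clm {V E F : Type*} [NormedAddCommGroup V] [NormedSpace ℝ V] [NormedAddCommGroup E]
    [NormedSpace ℝ E] [NormedAddCommGroup F] [NormedSpace ℝ F] {A : V → E →L[ℝ] F} {B : V → E}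
    (hA : AnalyticOnNhd ℝ A univ) (hB : AnalyticOnNhd ℝ B univ) :
    AnalyticOnNhd ℝ (fun e => A e (B e)) univ := by
  intro e _
  have h := (ContinuousLinearMap.id ℝ (E →L[ℝ] F)).analyticAt_bilinear (A e, B e)
  exact h.comp₂ (hA e (mem_univ e)) (hB e (mem_univ e))

private theorem vf_fst : AnalyticOnNhd ℝ (fun e : EE k => e.1) univ := fun _ _ => analyticAt_fst

private theorem vf_xi (i : Fin k) : AnalyticOnNhd ℝ (fun e : EE k => e.2.1 i) univ := by
  intro e _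
  exact ((ContinuousLinearMap.proj (R := ℝ) (φ := fun _ : Fin k => ℝ) i).comp
    ((ContinuousLinearMap.fst ℝ (Fin k → ℝ) (Fin k → ℝ)).comp
      (ContinuousLinearMap.snd ℝ ℝ ((Fin k → ℝ) × (Fin k → ℝ))))).analyticAt e

private theorem vf_P (i : Fin k) : AnalyticOnNhd ℝ (fun e : EE k => e.2.2 i) univ := by
  intro e _
  exact ((ContinuousLinearMap.proj (R := ℝ) (φ := fun _ : Fin k => ℝ) i).comp
    ((ContinuousLinearMap.snd ℝ (Fin k → ℝ) (Fin k → ℝ)).comp
      (ContinuousLinearMap.snd ℝ ℝ ((Fin k → ℝ) × (Fin k → ℝ))))).analyticAt e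

private theorem vf_t {f : ℝ → ℝ} (hf : AnalyticOnNhd ℝ f univ) :
    AnalyticOnNhd ℝ (fun e : EE k => f e.1) univ :=
  hf.comp vf_fst (mapsTo_univ _ _)

private theorem vf_zh (hR : R.An) : AnalyticOnNhd ℝ R.zh univ := by
  refine (vf_t hR.z0).add ?_
  refine Finset.analyticOnNhd_fun_sum _ fun i _ => ?_
  exact (vf_t (hR.l i)).mul (vf_xi i)

private theorem vf_pair (hR : R.An) : AnalyticOnNhd ℝ (fun e : EE k => (e.1, R.zh e)) univ :=
  vf_fst.prod (vf_zh hR)

private theorem vf_D (hR : R.An) {K : ℝ × ℝ → ℝ} (hK : AnalyticOnNhd ℝ K univ) :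
    AnalyticOnNhd ℝ (fun e : EE k => K (e.1, R.zh e)) univ :=
  hK.comp (vf_pair hR) (mapsTo_univ _ _)

theorem X_an (hR : R.An) : AnalyticOnNhd ℝ R.X univ := by
  refine (analyticOnNhd_const).prod ((analyticOnNhd_const).prod ?_)
  refine AnalyticOnNhd.pi fun i => ?_
  exact (vf_t (hR.l i)).mul (vf_D hR (D2_an hR.H))

theorem Y_an (hR : R.An) (m : ℕ) : AnalyticOnNhd ℝ (R.Y m) univ := by
  refine (analyticOnNhd_const).prod (AnalyticOnNhd.prod ?_ analyticOnNhd_const)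
  refine AnalyticOnNhd.pi fun i => ?_
  exact vf_t (analytic_iteratedDeriv (hR.b i) m)

theorem LX_an (hR : R.An) {G : EE k → ℝ} (hG : AnalyticOnNhd ℝ G univ) :
    AnalyticOnNhd ℝ (R.LX G) univ :=
  vf_clm hG.fderiv (X_an hR)

theorem LY_an (hR : R.An) (m : ℕ) {G : EE k → ℝ} (hG : AnalyticOnNhd ℝ G univ) :
    AnalyticOnNhd ℝ (R.LY m G) univ :=
  vf_clm hG.fderiv (Y_an hR m)

theorem F_an (hR : R.An) (j : ℕ) : AnalyticOnNhd ℝ (R.F j) univ := by
  induction j with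
  | zero =>
    show AnalyticOnNhd ℝ R.F0 univ
    refine (vf_t hR.ψ).sub ?_
    refine Finset.analyticOnNhd_fun_sum _ fun i _ => ?_
    exact (vf_t (hR.b i)).mul (vf_P i)
  | succ j ih =>
    have : R.F (j + 1) = R.LX (R.F j) := by
      show R.LX^[j + 1] R.F0 = R.LX (R.LX^[j] R.F0)
      rw [Function.iterate_succ_apply']
    rw [this]
    exact LX_an hR ih

private theorem vf_F_succ (j : ℕ) : R.F (j + 1) = R.LX (R.F j) := by
  show R.LX^[j + 1] R.F0 = R.LX (R.LX^[j] R.F0)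
  rw [Function.iterate_succ_apply']

/-- the derivative along a vector from the derivative along the line -/
private theorem vf_line {F : Type*} [NormedAddCommGroup F] [NormedSpace ℝ F] {G : EE k → F} {e v : EE k} {c : F}
    (hG : AnalyticAt ℝ G e) (h : HasDerivAt (fun s : ℝ => G (e + s • v)) c 0) : fderiv ℝ G e v = c := by
  have h1 : HasDerivAt (fun s : ℝ => e + s • v) v 0 := by
    have := ((hasDerivAt_id (0 : ℝ)).smul_const v).const_add e
    simpa using this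
  have h2 : HasFDerivAt G (fderiv ℝ G e) (e + (0 : ℝ) • v) := by
    rw [zero_smul, add_zero]
    exact hG.differentiableAt.hasFDerivAt
  exact (h2.comp_hasDerivAt (0 : ℝ) h1).unique h

private theorem vf_comp {f : ℝ → ℝ} (hf : AnalyticOnNhd ℝ f univ) (t a : ℝ) :
    HasDerivAt (fun s : ℝ => f (t + s * a)) (deriv f t * a) 0 := by
  have h1 : HasDerivAt (fun s : ℝ => t + s * a) a 0 := by
    have := ((hasDerivAt_id (0 : ℝ)).mul_const a).const_add t
    simpa using this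
  have h2 : HasDerivAt f (deriv f t) (t + (0 : ℝ) * a) := by
    rw [zero_mul, add_zero]
    exact (hf t (mem_univ t)).differentiableAt.hasDerivAt
  exact h2.comp (0 : ℝ) h1

private theorem vf_lin (x a : ℝ) : HasDerivAt (fun s : ℝ => x + s * a) a 0 := by
  have := ((hasDerivAt_id (0 : ℝ)).mul_const a).const_add x
  simpa using this

private theorem vf_iter {f : ℝ → ℝ} (m : ℕ) (t : ℝ) : deriv (iteratedDeriv m f) t = iteratedDeriv (m + 1) f t := by
  rw [iteratedDeriv_succ]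

/-- the sums `S_m` -/
private noncomputable def vfS (R : RD k) (m : ℕ) (t : ℝ) : ℝ := ∑ i, iteratedDeriv m (R.b i) t * R.l i t

/-- derivative of `zh` along a line -/
private theorem vf_zh_line (e : EE k) (m : ℕ) :
    HasDerivAt (fun s : ℝ => R.zh (e + s • R.Y m e)) (vfS R m e.1) 0 := by
  have h : ∀ s : ℝ, R.zh (e + s • R.Y m e) =
      R.z0 e.1 + ∑ i, R.l i e.1 * (e.2.1 i + s * iteratedDeriv m (R.b i) e.1) := by
    intro s
    simp [RD.zh, RD.Y]
  have h2 : HasDerivAt (fun s : ℝ => R.z0 e.1 + ∑ i, R.l i e.1 * (e.2.1 i + s * iteratedDeriv m (R.b i) e.1))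
      (∑ i, R.l i e.1 * iteratedDeriv m (R.b i) e.1) 0 := by
    refine HasDerivAt.const_add _ ?_
    refine HasDerivAt.fun_sum fun i _ => ?_
    exact (vf_lin _ _).const_mul _
  have h3 : vfS R m e.1 = ∑ i, R.l i e.1 * iteratedDeriv m (R.b i) e.1 :=
    Finset.sum_congr rfl fun i _ => mul_comm _ _
  rw [h3]
  exact h2.congr_of_eventuallyEq (Eventually.of_forall h)

/-- derivative of `K (t, zh)` along `Y_m` -/
private theorem vf_K_line {K : ℝ × ℝ → ℝ} (hK : AnalyticOnNhd ℝ K univ) (e : EE k) (m : ℕ) :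
    HasDerivAt (fun s : ℝ => K ((e + s • R.Y m e).1, R.zh (e + s • R.Y m e)))
      (D2 K (e.1, R.zh e) * vfS R m e.1) 0 := by
  have h1 : HasDerivAt (fun s : ℝ => ((e + s • R.Y m e).1, R.zh (e + s • R.Y m e))) ((0 : ℝ), vfS R m e.1) 0 := by
    refine HasDerivAt.prodMk ?_ (vf_zh_line e m)
    have : ∀ s : ℝ, (e + s • R.Y m e).1 = e.1 := by
      intro s
      simp [RD.Y]
    exact (hasDerivAt_const (0 : ℝ) e.1).congr_of_eventuallyEq (Eventually.of_forall this)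
  have h2 : HasFDerivAt K (fderiv ℝ K (e.1, R.zh e)) ((e + (0 : ℝ) • R.Y m e).1, R.zh (e + (0 : ℝ) • R.Y m e)) := by
    rw [zero_smul, add_zero]
    exact (hK _ (mem_univ _)).differentiableAt.hasFDerivAt
  have h3 := h2.comp_hasDerivAt (0 : ℝ) h1
  have h4 : fderiv ℝ K (e.1, R.zh e) ((0 : ℝ), vfS R m e.1) = D2 K (e.1, R.zh e) * vfS R m e.1 := by
    have : ((0 : ℝ), vfS R m e.1) = vfS R m e.1 • ((0 : ℝ), (1 : ℝ)) := by
      simp
    rw [this, map_smul, smul_eq_mul, mul_comm]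
    rfl
  rw [h4] at h3
  exact h3

/-- `DX(e) Y_m(e)` -/
private theorem vf_DX (hR : R.An) (m : ℕ) (e : EE k) : fderiv ℝ R.X e (R.Y m e) =
    (0, 0, fun i => R.l i e.1 * (D2 (D2 R.H) (e.1, R.zh e) * vfS R m e.1)) := by
  refine vf_line (X_an hR e (mem_univ e)) ?_
  refine HasDerivAt.prodMk (hasDerivAt_const _ _) (HasDerivAt.prodMk (hasDerivAt_const _ _) ?_)
  rw [hasDerivAt_pi]
  intro i
  have h1 : ∀ s : ℝ, R.l i (e + s • R.Y m e).1 = R.l i e.1 := by
    intro s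
    simp [RD.Y]
  have h2 := (vf_K_line (R := R) (D2_an hR.H) e m).const_mul (R.l i e.1)
  refine h2.congr_of_eventuallyEq (Eventually.of_forall fun s => ?_)
  show R.l i (e + s • R.Y m e).1 * _ = _
  rw [h1]

/-- `DY_m(e) X(e)` -/
private theorem vf_DY (hR : R.An) (m : ℕ) (e : EE k) : fderiv ℝ (R.Y m) e (R.X e) = R.Y (m + 1) e := by
  refine vf_line (Y_an hR m e (mem_univ e)) ?_
  refine HasDerivAt.prodMk (hasDerivAt_const _ _) (HasDerivAt.prodMk ?_ (hasDerivAt_const _ _))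
  rw [hasDerivAt_pi]
  intro i
  have h2 := vf_comp (analytic_iteratedDeriv (hR.b i) m) e.1 1
  rw [vf_iter, mul_one] at h2
  refine h2.congr_of_eventuallyEq (Eventually.of_forall fun s => ?_)
  show iteratedDeriv m (R.b i) (e + s • R.X e).1 = _
  simp [RD.X]

/-- derivative of a directional derivative -/
private theorem vf_second {G : EE k → ℝ} (hG : AnalyticOnNhd ℝ G univ) {V : EE k → EE k}
    (hV : AnalyticOnNhd ℝ V univ) (e v : EE k) :
    fderiv ℝ (fun e => fderiv ℝ G e (V e)) e v = fderiv ℝ (fderiv ℝ G) e v (V e) + fderiv ℝ G e (fderiv ℝ V e v) := by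
  have h1 : HasFDerivAt (fderiv ℝ G) (fderiv ℝ (fderiv ℝ G) e) e :=
    (hG.fderiv e (mem_univ e)).differentiableAt.hasFDerivAt
  have h2 : HasFDerivAt V (fderiv ℝ V e) e := (hV e (mem_univ e)).differentiableAt.hasFDerivAt
  rw [(h1.clm_apply h2).fderiv]
  simp [add_comm]

/-- the commutator formula -/
private theorem vf_comm (hR : R.An) {G : EE k → ℝ} (hG : AnalyticOnNhd ℝ G univ) (m : ℕ)
    (hS : ∀ t, vfS R m t = 0) (e : EE k) :
    R.LY m (R.LX G) e = R.LX (R.LY m G) e - R.LY (m + 1) G e := by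
  have h1 : R.LY m (R.LX G) e = fderiv ℝ (fderiv ℝ G) e (R.Y m e) (R.X e) + fderiv ℝ G e (fderiv ℝ R.X e (R.Y m e)) :=
    vf_second hG (X_an hR) e (R.Y m e)
  have h2 : R.LX (R.LY m G) e = fderiv ℝ (fderiv ℝ G) e (R.X e) (R.Y m e) + fderiv ℝ G e (fderiv ℝ (R.Y m) e (R.X e)) :=
    vf_second hG (Y_an hR m) e (R.X e)
  have h3 : fderiv ℝ (fderiv ℝ G) e (R.Y m e) (R.X e) = fderiv ℝ (fderiv ℝ G) e (R.X e) (R.Y m e) := by
    have hc : ContDiffAt ℝ ⊤ G e := (hG e (mem_univ e)).contDiffAt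
    exact (hc.isSymmSndFDerivAt_of_omega) (R.Y m e) (R.X e)
  have h4 : fderiv ℝ R.X e (R.Y m e) = 0 := by
    rw [vf_DX hR, hS]
    simp only [mul_zero]
    rfl
  rw [h1, h2, h3, h4, vf_DY hR, map_zero]
  show _ = _ - fderiv ℝ G e (R.Y (m + 1) e)
  ring

/-- `LX` of an affine function of `P` -/
private theorem vf_LX_aff (hR : R.An) {g : ℝ → ℝ} (hg : AnalyticOnNhd ℝ g univ) {h : Fin k → ℝ → ℝ}
    (hh : ∀ i, AnalyticOnNhd ℝ (h i) univ) (e : EE k) :
    R.LX (fun e => g e.1 - ∑ i, h i e.1 * e.2.2 i) e =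
      deriv g e.1 - ∑ i, deriv (h i) e.1 * e.2.2 i - (∑ i, h i e.1 * R.l i e.1) * D2 R.H (e.1, R.zh e) := by
  have han : AnalyticOnNhd ℝ (fun e : EE k => g e.1 - ∑ i, h i e.1 * e.2.2 i) univ :=
    (vf_t hg).sub (Finset.analyticOnNhd_fun_sum _ fun i _ => (vf_t (hh i)).mul (vf_P i))
  refine vf_line (han e (mem_univ e)) ?_
  have h1 := vf_comp hg e.1 1
  have h2 : HasDerivAt (fun s : ℝ => ∑ i, h i (e.1 + s * 1) * (e.2.2 i + s * (R.l i e.1 * D2 R.H (e.1, R.zh e))))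
      (∑ i, (deriv (h i) e.1 * 1 * (e.2.2 i + 0 * (R.l i e.1 * D2 R.H (e.1, R.zh e))) +
        h i (e.1 + 0 * 1) * (R.l i e.1 * D2 R.H (e.1, R.zh e)))) 0 :=
    HasDerivAt.fun_sum fun i _ => (vf_comp (hh i) e.1 1).mul (vf_lin _ _)
  have h3 := h1.sub h2
  have h4 : deriv g e.1 * 1 - ∑ i, (deriv (h i) e.1 * 1 * (e.2.2 i + 0 * (R.l i e.1 * D2 R.H (e.1, R.zh e))) +
        h i (e.1 + 0 * 1) * (R.l i e.1 * D2 R.H (e.1, R.zh e))) =
      deriv g e.1 - ∑ i, deriv (h i) e.1 * e.2.2 i - (∑ i, h i e.1 * R.l i e.1) * D2 R.H (e.1, R.zh e) := by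
    rw [Finset.sum_add_distrib, Finset.sum_mul]
    simp only [mul_one, zero_mul, add_zero]
    rw [sub_add_eq_sub_sub]
    congr 1
    refine Finset.sum_congr rfl fun i _ => ?_
    ring
  rw [h4] at h3
  refine h3.congr_of_eventuallyEq (Eventually.of_forall fun s => ?_)
  simp [RD.X]

/-- `LY` of an affine function of `P` plus a function of `(t, zh)` -/
private theorem vf_LY_aff (hR : R.An) {g : ℝ → ℝ} (hg : AnalyticOnNhd ℝ g univ) {h : Fin k → ℝ → ℝ}
    (hh : ∀ i, AnalyticOnNhd ℝ (h i) univ) {c : ℝ → ℝ} (hc : AnalyticOnNhd ℝ c univ)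
    {K : ℝ × ℝ → ℝ} (hK : AnalyticOnNhd ℝ K univ) (m : ℕ) (e : EE k) :
    R.LY m (fun e => g e.1 - ∑ i, h i e.1 * e.2.2 i - c e.1 * K (e.1, R.zh e)) e =
      - (c e.1 * (D2 K (e.1, R.zh e) * vfS R m e.1)) := by
  have han : AnalyticOnNhd ℝ (fun e : EE k => g e.1 - ∑ i, h i e.1 * e.2.2 i - c e.1 * K (e.1, R.zh e)) univ :=
    ((vf_t hg).sub (Finset.analyticOnNhd_fun_sum _ fun i _ => (vf_t (hh i)).mul (vf_P i))).sub
      ((vf_t hc).mul (vf_D hR hK))
  refine vf_line (han e (mem_univ e)) ?_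
  have h1 := ((vf_K_line (R := R) hK e m).const_mul (c e.1)).const_sub (g e.1 - ∑ i, h i e.1 * e.2.2 i)
  refine h1.congr_of_eventuallyEq (Eventually.of_forall fun s => ?_)
  have e1 : (e + s • R.Y m e).1 = e.1 := by simp [RD.Y]
  have e2 : (e + s • R.Y m e).2.2 = e.2.2 := by simp [RD.Y]
  show g (e + s • R.Y m e).1 - ∑ i, h i (e + s • R.Y m e).1 * (e + s • R.Y m e).2.2 i
      - c (e + s • R.Y m e).1 * K ((e + s • R.Y m e).1, R.zh (e + s • R.Y m e)) =
    g e.1 - ∑ i, h i e.1 * e.2.2 i - c e.1 * K ((e + s • R.Y m e).1, R.zh (e + s • R.Y m e))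
  rw [e1, e2]

section

variable (hR : R.An) {M : ℕ} (hW : ∀ j < M, ∀ t, Wd R.l R.b j t = 0)

include hR hW

private theorem vf_S_zero : ∀ j < M, ∀ t, vfS R j t = 0 := (leib hR.l hR.b hW).1

private theorem vf_S_M : ∀ t, vfS R M t = (-1) ^ M * Wd R.l R.b M t := (leib hR.l hR.b hW).2

private theorem vf_F_low (j : ℕ) (hj : j ≤ M) :
    R.F j = fun e => iteratedDeriv j R.ψ e.1 - ∑ i, iteratedDeriv j (R.b i) e.1 * e.2.2 i := by
  induction j with
  | zero =>
    funext e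
    simp [RD.F, RD.F0, iteratedDeriv_zero]
  | succ j ih =>
    rw [vf_F_succ, ih (by omega)]
    funext e
    rw [vf_LX_aff hR (analytic_iteratedDeriv hR.ψ j) (fun i => analytic_iteratedDeriv (hR.b i) j)]
    have h0 : ∑ i, iteratedDeriv j (R.b i) e.1 * R.l i e.1 = 0 := vf_S_zero hR hW j (by omega) e.1
    rw [h0, zero_mul, sub_zero]
    simp only [vf_iter]

private theorem vf_F_top :
    R.F (M + 1) = fun e => iteratedDeriv (M + 1) R.ψ e.1 - ∑ i, iteratedDeriv (M + 1) (R.b i) e.1 * e.2.2 i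
      - ((-1) ^ M * Wd R.l R.b M e.1) * D2 R.H (e.1, R.zh e) := by
  rw [vf_F_succ, vf_F_low hR hW M le_rfl]
  funext e
  rw [vf_LX_aff hR (analytic_iteratedDeriv hR.ψ M) (fun i => analytic_iteratedDeriv (hR.b i) M)]
  have h0 : ∑ i, iteratedDeriv M (R.b i) e.1 * R.l i e.1 = (-1) ^ M * Wd R.l R.b M e.1 := vf_S_M hR hW e.1
  rw [h0]
  simp only [vf_iter]

private theorem vf_T_low (j : ℕ) (hj : j ≤ M) (m : ℕ) (e : EE k) : R.LY m (R.F j) e = 0 := by
  have h := vf_LY_aff hR (analytic_iteratedDeriv hR.ψ j) (fun i => analytic_iteratedDeriv (hR.b i) j)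
    (c := fun _ => 0) analyticOnNhd_const (K := R.H) hR.H m e
  simp only [zero_mul, sub_zero, neg_zero] at h
  rw [vf_F_low hR hW j hj]
  exact h

omit hW in
private theorem vf_Wan : AnalyticOnNhd ℝ (fun t => (-1) ^ M * Wd R.l R.b M t) univ := by
  refine analyticOnNhd_const.mul ?_
  refine Finset.analyticOnNhd_fun_sum _ fun i _ => ?_
  exact (analytic_iteratedDeriv (hR.l i) M).mul (hR.b i)

private theorem vf_T_top (m : ℕ) (e : EE k) : R.LY m (R.F (M + 1)) e =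
    - ((-1) ^ M * Wd R.l R.b M e.1 * (D2 (D2 R.H) (e.1, R.zh e) * vfS R m e.1)) := by
  have h := vf_LY_aff hR (analytic_iteratedDeriv hR.ψ (M + 1)) (fun i => analytic_iteratedDeriv (hR.b i) (M + 1))
    (vf_Wan hR (M := M)) (K := D2 R.H) (D2_an hR.H) m e
  rw [vf_F_top hR hW]
  exact h

private theorem vf_main (j : ℕ) : (∀ m ≤ M, m + j < 2 * M + 1 → ∀ e, R.LY m (R.F j) e = 0) ∧
    (M + 1 ≤ j → ∀ m ≤ M, m + j = 2 * M + 1 → ∀ e, R.LY m (R.F j) e =
      (-1) ^ (M - m) * (-(Wd R.l R.b M e.1 ^ 2 * D2 (D2 R.H) (e.1, R.zh e)))) := by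
  induction j with
  | zero =>
    refine ⟨fun m _ _ e => vf_T_low hR hW 0 (Nat.zero_le _) m e, fun h => ?_⟩
    omega
  | succ j ih =>
    rcases Nat.lt_or_ge j M with hj | hj
    · refine ⟨fun m _ _ e => vf_T_low hR hW (j + 1) hj m e, fun h => ?_⟩
      omega
    rcases Nat.eq_or_lt_of_le hj with hj | hj
    · subst hj
      constructor
      · intro m hm hlt e
        rw [vf_T_top hR hW, vf_S_zero hR hW m (by omega)]
        simp
      · intro _ m hm heq e
        have hmM : m = M := by omega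
        subst hmM
        rw [vf_T_top hR hW, vf_S_M hR hW, Nat.sub_self, pow_zero, one_mul]
        have : ((-1 : ℝ) ^ m) * (-1) ^ m = 1 := by
          rw [← mul_pow]
          norm_num
        linear_combination (-(Wd R.l R.b m e.1 ^ 2 * D2 (D2 R.H) (e.1, R.zh e))) * this
    · obtain ⟨ih1, ih2⟩ := ih
      have hz : ∀ m ≤ M, m + j < 2 * M + 1 → ∀ e, R.LX (R.LY m (R.F j)) e = 0 := by
        intro m hm hlt e
        have : R.LY m (R.F j) = fun _ => 0 := funext fun e => ih1 m hm hlt e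
        rw [this]
        show fderiv ℝ (fun _ : EE k => (0 : ℝ)) e _ = 0
        simp
      constructor
      · intro m hm hlt e
        rw [vf_F_succ, vf_comm hR (F_an hR j) m (vf_S_zero hR hW m (by omega)), hz m hm (by omega),
          ih1 (m + 1) (by omega) (by omega), sub_zero]
      · intro _ m hm heq e
        rw [vf_F_succ, vf_comm hR (F_an hR j) m (vf_S_zero hR hW m (by omega)), hz m hm (by omega),
          ih2 (by omega) (m + 1) (by omega) (by omega)]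
        have : M - m = (M - (m + 1)) + 1 := by omega
        rw [this, pow_succ]
        ring

end

theorem LY_F_zero (hR : R.An) {M : ℕ} (hW : ∀ j < M, ∀ t, Wd R.l R.b j t = 0) :
    ∀ j < 2 * M + 1, ∀ e, R.LY 0 (R.F j) e = 0 := fun j hj e =>
  (vf_main hR hW j).1 0 (Nat.zero_le _) (by omega) e

theorem LY_F_eq (hR : R.An) {M : ℕ} (hW : ∀ j < M, ∀ t, Wd R.l R.b j t = 0) (e : EE k) :
    R.LY 0 (R.F (2 * M + 1)) e
      = (-1) ^ (M + 1) * (Wd R.l R.b M e.1) ^ 2 * D2 (D2 R.H) (e.1, R.zh e) := by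
  rw [(vf_main hR hW (2 * M + 1)).2 (by omega) 0 (Nat.zero_le _) (by omega) e, Nat.sub_zero, pow_succ]
  ring

end Pool.Agent.Lib.MP_28b8de_an
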